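import Pool.Agent.AH.Defs

set_option autoImplicit false
set_option linter.unusedSectionVars false

noncomputable section

open scoped InnerProductSpace ENNReal Topology Matrix
open Classical Filter ContinuousLinearMap

/-!
PACKAGE AH-ALGG. Operators of lists. Everything follows from the lemmas `opL_append`, `opL_comp`,
`opL_adj`, `opL_smul`, `opL_one`, `norm_opL_le` of `Pool.Agent.VN.Kaz` for the complex list `toC L`
(`toC (cmp L L') = compL (toC L) (toC L')` and so on), and from `elem_apply`.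
-/

namespace Pool.Agent.AH

open Pool.Agent.VN Pool.Agent.LFT

variable {ι ι' κ μ : Type} {G : Type} [Group G]

lemma AlgG_toC_append {W : Type} (L L' : LQ κ ι W) : toC (L ++ L') = toC L ++ toC L' := by
  unfold toC
  rw [List.map_append]

lemma AlgG_toC_cons {W : Type} (t : ℚ × κ × ι × W) (L : LQ κ ι W) :
    toC (t :: L) = ((t.1 : ℂ), t.2) :: toC L := rfl

lemma AlgG_toC_cmp {W : Type} [Group W] (L : LQ κ μ W) (L' : LQ μ ι W) :
    toC (cmp L L') = compL (toC L) (toC L') := by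
  induction L with
  | nil => rfl
  | cons a L ih =>
    have e1 : cmp (a :: L) L' = (L'.map fun b =>
        (if a.2.2.1 = b.2.1 then a.1 * b.1 else 0, a.2.1, b.2.2.1, b.2.2.2 * a.2.2.2))
        ++ cmp L L' := by
      unfold cmp
      rw [List.flatMap_cons]
    have e2 : compL (toC (a :: L)) (toC L') = ((toC L').map fun b =>
        (if a.2.2.1 = b.2.1 then (a.1 : ℂ) * b.1 else 0, a.2.1, b.2.2.1, b.2.2.2 * a.2.2.2))
        ++ compL (toC L) (toC L') := by
      rw [AlgG_toC_cons]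
      unfold VN.compL
      rw [List.flatMap_cons]
    rw [e1, e2, AlgG_toC_append, ih]
    congr 1
    unfold toC
    rw [List.map_map, List.map_map]
    apply List.map_congr_left
    intro b _
    simp only [Function.comp_apply]
    congr 1
    split_ifs
    · push_cast
      rfl
    · push_cast
      rfl

lemma AlgG_toC_adj {W : Type} [Group W] (L : LQ κ ι W) : toC (adj L) = adjL (toC L) := by
  unfold toC adj adjL
  rw [List.map_map, List.map_map]
  apply List.map_congr_left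
  intro b _
  simp only [Function.comp_apply]
  congr 1
  simp

lemma AlgG_toC_sml {W : Type} (c : ℚ) (L : LQ κ ι W) :
    toC (sml c L) = smulL (c : ℂ) (toC L) := by
  unfold toC sml smulL
  rw [List.map_map, List.map_map]
  apply List.map_congr_left
  intro b _
  simp only [Function.comp_apply]
  congr 1
  push_cast
  rfl

lemma AlgG_toC_one {W : Type} [Group W] [Fintype ι] : toC (one ι W) = oneL ι W := by
  unfold toC one oneL
  rw [List.map_map]
  apply List.map_congr_left
  intro b _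
  simp

lemma oG_nil : oG ([] : LQ κ ι (FreeGroup G)) = 0 := rfl

lemma oG_append (L L' : LQ κ ι (FreeGroup G)) : oG (L ++ L') = oG L + oG L' := by
  unfold oG
  rw [AlgG_toC_append, opL_append]

lemma AlgG_oG_cons (t : ℚ × κ × ι × FreeGroup G) (L : LQ κ ι (FreeGroup G)) :
    oG (t :: L) = (t.1 : ℂ) • elem t.2.1 (t.2.2.1, pw G t.2.2.2) + oG L := by
  unfold oG
  rw [AlgG_toC_cons, opL_cons]

lemma oG_cmp (L : LQ κ μ (FreeGroup G)) (L' : LQ μ ι (FreeGroup G)) :
    oG (cmp L L') = oG L ∘L oG L' := by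
  unfold oG
  rw [AlgG_toC_cmp, opL_comp]

lemma oG_adj (L : LQ κ ι (FreeGroup G)) : oG (adj L) = ContinuousLinearMap.adjoint (oG L) := by
  unfold oG
  rw [AlgG_toC_adj, opL_adj]

lemma oG_sml (c : ℚ) (L : LQ κ ι (FreeGroup G)) : oG (sml c L) = (c : ℂ) • oG L := by
  unfold oG
  rw [AlgG_toC_sml, opL_smul]

lemma oG_one [Fintype ι] : oG (one ι (FreeGroup G)) = 1 := by
  unfold oG
  rw [AlgG_toC_one, opL_one]

lemma oG_pwL [Fintype ι] (L : LQ ι ι (FreeGroup G)) (n : ℕ) : oG (pwL L n) = oG L ^ n := by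
  induction n with
  | zero =>
    rw [pow_zero]
    exact oG_one
  | succ n ih =>
    have e : pwL L (n + 1) = cmp (pwL L n) L := rfl
    rw [e, oG_cmp, ih, pow_succ]
    rfl

lemma AlgG_flatMap [Fintype ι] {σ : Type} (l : List σ) (F : σ → LQ κ ι (FreeGroup G)) :
    oG (l.flatMap F) = (l.map fun a => oG (F a)).sum := by
  induction l with
  | nil => rfl
  | cons a l ih => rw [List.flatMap_cons, oG_append, ih, List.map_cons, List.sum_cons]

lemma AlgG_range {M : Type} [AddCommMonoid M] (n : ℕ) (f : ℕ → M) :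
    ((List.range n).map f).sum = ∑ i ∈ Finset.range n, f i := by
  induction n with
  | zero => simp
  | succ n ih =>
    rw [List.range_succ, List.map_append, List.sum_append, Finset.sum_range_succ, ih]
    simp

lemma oG_pol [Fintype ι] (f : Polynomial ℚ) (L : LQ ι ι (FreeGroup G)) :
    oG (pol f L) = Polynomial.aeval (oG L) (f.map (algebraMap ℚ ℝ)) := by
  have h1 : (f.map (algebraMap ℚ ℝ)).natDegree < f.natDegree + 1 :=
    Nat.lt_succ_of_le Polynomial.natDegree_map_le
  rw [Polynomial.aeval_eq_sum_range' h1]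
  unfold pol
  rw [AlgG_flatMap, AlgG_range]
  refine Finset.sum_congr rfl fun n _ => ?_
  rw [oG_sml, oG_pwL, Polynomial.coeff_map]
  ext x q
  simp

lemma norm_oG_le (L : LQ κ ι (FreeGroup G)) : ‖oG L‖ ≤ (n1 L : ℝ) := by
  have h1 : nL (toC L) = (n1 L : ℝ) := by
    induction L with
    | nil =>
      unfold nL n1 toC
      simp
    | cons t L ih =>
      have e1 : nL (toC (t :: L)) = ‖(t.1 : ℂ)‖ + nL (toC L) := by
        unfold nL
        rw [AlgG_toC_cons, List.map_cons, List.sum_cons]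
      have e2 : n1 (t :: L) = |t.1| + n1 L := by
        unfold n1
        rw [List.map_cons, List.sum_cons]
      rw [e1, e2, ih]
      push_cast
      congr 1
      have h3 : ((t.1 : ℚ) : ℂ) = (((t.1 : ℚ) : ℝ) : ℂ) := by push_cast; rfl
      rw [h3, Complex.norm_real, Real.norm_eq_abs]
  rw [← h1]
  exact norm_opL_le _ _

lemma oG_equivar (L : LQ κ ι (FreeGroup G)) : Equivar (oG L) := by
  induction L with
  | nil =>
    rw [oG_nil]
    exact Equivar.zero
  | cons t L ih =>
    rw [AlgG_oG_cons]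
    exact ((elem_equivar _ _).smul _).add ih

lemma oG_apply (L : LQ κ ι (FreeGroup G)) (x : L2 ι G) (q : κ × G) :
    (oG L x) q = (L.map fun t =>
      if q.1 = t.2.1 then (t.1 : ℂ) * x (t.2.2.1, q.2 * (pw G t.2.2.2)⁻¹) else 0).sum := by
  induction L with
  | nil =>
    rw [oG_nil]
    simp
  | cons t L ih =>
    rw [AlgG_oG_cons, List.map_cons, List.sum_cons, ← ih]
    show ((t.1 : ℂ) • (elem t.2.1 (t.2.2.1, pw G t.2.2.2) x : L2 κ G) + oG L x) q = _
    rw [lp.coeFn_add, Pi.add_apply, lp.coeFn_smul, Pi.smul_apply, elem_apply, smul_eq_mul]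
    congr 1
    split_ifs
    · rfl
    · rw [mul_zero]

lemma AlgG_sum_cast {σ : Type} (l : List σ) (f : σ → ℚ) :
    (((l.map f).sum : ℚ) : ℂ) = (l.map fun t => (f t : ℂ)).sum := by
  induction l with
  | nil => simp
  | cons a l ih =>
    rw [List.map_cons, List.sum_cons, List.map_cons, List.sum_cons, ← ih]
    push_cast
    rfl

/-- matrix entries -/
lemma inner_oG (L : LQ κ ι (FreeGroup G)) (q : κ × G) (p : ι × G) :
    ⟪dl q, oG L (dl p)⟫_ℂ = ((gX L q p : ℚ) : ℂ) := by
  rw [inner_dl_left, oG_apply]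
  unfold gX
  rw [AlgG_sum_cast]
  congr 1
  apply List.map_congr_left
  intro t _
  rw [dl_apply]
  by_cases h1 : q.1 = t.2.1
  · by_cases h2 : (t.2.2.1, q.2 * (pw G t.2.2.2)⁻¹) = p
    · have h3 : p.1 = t.2.2.1 ∧ p.2 = q.2 * (pw G t.2.2.2)⁻¹ := by rw [← h2]; exact ⟨rfl, rfl⟩
      rw [if_pos h1, if_pos h2, if_pos ⟨h1, h3⟩, mul_one]
    · have h3 : ¬ (q.1 = t.2.1 ∧ p.1 = t.2.2.1 ∧ p.2 = q.2 * (pw G t.2.2.2)⁻¹) := by
        rintro ⟨_, h4, h5⟩
        exact h2 (Prod.ext h4.symm h5.symm)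
      rw [if_pos h1, if_neg h2, if_neg h3, mul_zero, Rat.cast_zero]
  · have h3 : ¬ (q.1 = t.2.1 ∧ p.1 = t.2.2.1 ∧ p.2 = q.2 * (pw G t.2.2.2)⁻¹) :=
      fun h => h1 h.1
    rw [if_neg h1, if_neg h3, Rat.cast_zero]

/-- the trace -/
lemma tr_oG [Fintype ι] (L : LQ ι ι (FreeGroup G)) :
    tr (oG L) = (((L.map fun t => if t.2.1 = t.2.2.1 ∧ pw G t.2.2.2 = 1 then t.1 else 0).sum : ℚ)
      : ℂ) := by
  rw [AlgG_sum_cast]
  unfold oG
  rw [tr_opL]
  unfold toC
  rw [List.map_map]
  congr 1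
  apply List.map_congr_left
  intro t _
  simp only [Function.comp_apply]
  split_ifs
  · rfl
  · rw [Rat.cast_zero]

lemma oG_row2 [Fintype ι] [Fintype ι'] (A : LQ κ ι (FreeGroup G)) (B : LQ κ ι' (FreeGroup G))
    (z : L2 (ι ⊕ ι') G) : oG (row2 A B) z = oG A (prL z) + oG B (prR z) := by
  ext q
  unfold row2
  rw [oG_append]
  show (oG (rix id Sum.inl A) z + oG (rix id Sum.inr B) z) q = (oG A (prL z) + oG B (prR z)) q
  rw [lp.coeFn_add, Pi.add_apply, lp.coeFn_add, Pi.add_apply, oG_apply, oG_apply, oG_apply,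
    oG_apply]
  unfold rix
  rw [List.map_map, List.map_map]
  congr 2
  · apply List.map_congr_left
    intro t _
    simp only [Function.comp_apply, prL_apply, id_eq]
  · apply List.map_congr_left
    intro t _
    simp only [Function.comp_apply, prR_apply, id_eq]

lemma AlgG_rixL [Fintype ι] [Fintype ι'] (b : LQ ι ι (FreeGroup G)) :
    oG (rix (Sum.inl : ι → ι ⊕ ι') (Sum.inl : ι → ι ⊕ ι') b) = inL ∘L oG b ∘L prL := by
  ext z q
  obtain ⟨i, g⟩ := q
  show (oG (rix (Sum.inl : ι → ι ⊕ ι') (Sum.inl : ι → ι ⊕ ι') b) z) (i, g) = (inL (oG b (prL z))) (i, g)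
  rw [oG_apply]
  unfold rix
  rw [List.map_map]
  rcases i with i | i
  · rw [inL_inl, oG_apply]
    congr 1
    apply List.map_congr_left
    intro t _
    simp only [Function.comp_apply, prL_apply, Sum.inl.injEq]
  · rw [inL_inr]
    apply List.sum_eq_zero
    intro y hy
    obtain ⟨t, _, rfl⟩ := List.mem_map.mp hy
    simp

lemma AlgG_rixR [Fintype ι] [Fintype ι'] (b : LQ ι' ι' (FreeGroup G)) :
    oG (rix (Sum.inr : ι' → ι ⊕ ι') (Sum.inr : ι' → ι ⊕ ι') b) = inR ∘L oG b ∘L prR := by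
  ext z q
  obtain ⟨i, g⟩ := q
  show (oG (rix (Sum.inr : ι' → ι ⊕ ι') (Sum.inr : ι' → ι ⊕ ι') b) z) (i, g) = (inR (oG b (prR z))) (i, g)
  rw [oG_apply]
  unfold rix
  rw [List.map_map]
  rcases i with i | i
  · rw [inR_inl]
    apply List.sum_eq_zero
    intro y hy
    obtain ⟨t, _, rfl⟩ := List.mem_map.mp hy
    simp
  · rw [inR_inr, oG_apply]
    congr 1
    apply List.map_congr_left
    intro t _
    simp only [Function.comp_apply, prR_apply, Sum.inr.injEq]

lemma oG_ext2 [Fintype ι] [Fintype ι'] (b : LQ ι ι (FreeGroup G)) (c : ℚ) :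
    oG (ext2 (ι' := ι') b c) = inL ∘L oG b ∘L prL + (c : ℂ) • (inR ∘L prR) := by
  unfold ext2
  rw [oG_append, AlgG_rixL, AlgG_rixR, oG_sml, oG_one]
  congr 1
  ext z q
  show (inR ((c : ℂ) • (prR z))) q = ((c : ℂ) • (inR (prR z))) q
  rw [map_smul]

lemma oG_aL [Fintype ι] [Fintype ι'] (b : LQ ι ι (FreeGroup G)) (c : ℚ)
    (A : LQ κ ι (FreeGroup G)) (B : LQ κ ι' (FreeGroup G)) :
    oG (aL b c A B) = oG (ext2 (ι' := ι') b c)
      + (ContinuousLinearMap.adjoint (oG (row2 A B))) ∘L oG (row2 A B) := by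
  unfold aL
  rw [oG_append, oG_cmp, oG_adj]

end Pool.Agent.AH
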