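import Pool.Agent.AH.Defs

set_option autoImplicit false
set_option linter.unusedSectionVars false

noncomputable section

open scoped InnerProductSpace ENNReal Topology Matrix
open Classical Filter ContinuousLinearMap

/-!
Local lists. `LocL d d' L` means that every term `t` of `L` satisfies
`(pw G t.word)⁻¹ • d (t.col) = d' (t.row)`.
-/

namespace Pool.Agent.AH

open Pool.Agent.VN Pool.Agent.LFT

variable {ι ι' κ κ' μ D : Type} {G : Type} [Group G] [MulAction G D]

lemma pw_of (g : G) : pw G (FreeGroup.of g) = g := by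
  simp [pw]

lemma LocL.append {d : ι → D} {d' : κ → D} {L L' : LQ κ ι (FreeGroup G)} (h : LocL d d' L)
    (h' : LocL d d' L') : LocL d d' (L ++ L') :=
  fun t ht => (List.mem_append.1 ht).elim (h t) (h' t)

/-- terms with coefficient zero created by `cmp` may be not local: remove them -/
def nz (L : LQ κ ι (FreeGroup G)) : LQ κ ι (FreeGroup G) := L.filter fun t => t.1 ≠ 0

private lemma algL_mem_nz {L : LQ κ ι (FreeGroup G)} {t : ℚ × κ × ι × FreeGroup G} :
    t ∈ nz L ↔ t ∈ L ∧ t.1 ≠ 0 := by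
  unfold nz
  rw [List.mem_filter, decide_eq_true_eq]

private lemma algL_sum_nz {α : Type} [AddMonoid α] (L : LQ κ ι (FreeGroup G))
    (f : ℚ × κ × ι × FreeGroup G → α) (hf : ∀ t, t.1 = 0 → f t = 0) :
    ((nz L).map f).sum = (L.map f).sum := by
  unfold nz
  induction L with
  | nil => rfl
  | cons t L ih =>
    by_cases h : t.1 = 0
    · rw [List.filter_cons_of_neg (by simpa using h), ih, List.map_cons, List.sum_cons, hf t h,
        zero_add]
    · rw [List.filter_cons_of_pos (by simpa using h), List.map_cons, List.map_cons, List.sum_cons,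
        List.sum_cons, ih]

private lemma algL_oG (L : LQ κ ι (FreeGroup G)) : oG L = (L.map fun t =>
    (t.1 : ℂ) • (elem t.2.1 (t.2.2.1, pw G t.2.2.2) : L2 ι G →L[ℂ] L2 κ G)).sum := by
  unfold oG opL toC
  rw [List.map_map]
  rfl

lemma oG_nz (L : LQ κ ι (FreeGroup G)) : oG (nz L) = oG L := by
  rw [algL_oG, algL_oG, algL_sum_nz]
  intro t ht
  rw [ht, Rat.cast_zero, zero_smul]

lemma mX_nz (M : Mod G) (L : LQ κ ι (FreeGroup G)) : mX M (nz L) = mX M L := by
  ext q p
  unfold mX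
  rw [algL_sum_nz]
  intro t ht
  rw [ht, ite_self]

lemma gX_nz (L : LQ κ ι (FreeGroup G)) : gX (nz L) = gX L := by
  ext q p
  unfold gX
  rw [algL_sum_nz]
  intro t ht
  rw [ht, ite_self]

private lemma algL_nz_of {d : ι → D} {d' : κ → D} {L : LQ κ ι (FreeGroup G)} (h : LocL d d' L) :
    LocL d d' (nz L) := fun t ht => h t (algL_mem_nz.1 ht).1

private lemma algL_nz_cmp {d : ι → D} {d' : μ → D} {d'' : κ → D} {L : LQ κ μ (FreeGroup G)}
    {L' : LQ μ ι (FreeGroup G)} (h : LocL d' d'' (nz L)) (h' : LocL d d' (nz L')) :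
    LocL d d'' (nz (cmp L L')) := by
  intro t ht
  obtain ⟨h1, h2⟩ := algL_mem_nz.1 ht
  unfold cmp at h1
  obtain ⟨a, ha, h5⟩ := List.mem_flatMap.1 h1
  obtain ⟨b, hb, rfl⟩ := List.mem_map.1 h5
  simp only at h2 ⊢
  by_cases hc : a.2.2.1 = b.2.1
  · rw [if_pos hc] at h2
    have h3 := h a (algL_mem_nz.2 ⟨ha, left_ne_zero_of_mul h2⟩)
    have h4 := h' b (algL_mem_nz.2 ⟨hb, right_ne_zero_of_mul h2⟩)
    rw [map_mul, mul_inv_rev, mul_smul, h4, ← hc, h3]
  · rw [if_neg hc] at h2
    exact absurd rfl h2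

lemma LocL.nz_cmp {d : ι → D} {d' : μ → D} {d'' : κ → D} {L : LQ κ μ (FreeGroup G)}
    {L' : LQ μ ι (FreeGroup G)} (h : LocL d' d'' L) (h' : LocL d d' L') :
    LocL d d'' (nz (cmp L L')) :=
  algL_nz_cmp (algL_nz_of h) (algL_nz_of h')

lemma LocL.adj {d : ι → D} {d' : κ → D} {L : LQ κ ι (FreeGroup G)} (h : LocL d d' L) :
    LocL d' d (AH.adj L) := by
  intro t ht
  unfold AH.adj at ht
  obtain ⟨s, hs, rfl⟩ := List.mem_map.1 ht
  simp only
  rw [map_inv, inv_inv, ← h s hs, smul_inv_smul]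

lemma LocL.sml {d : ι → D} {d' : κ → D} {L : LQ κ ι (FreeGroup G)} (c : ℚ) (h : LocL d d' L) :
    LocL d d' (AH.sml c L) := by
  intro t ht
  unfold AH.sml at ht
  obtain ⟨s, hs, rfl⟩ := List.mem_map.1 ht
  exact h s hs

lemma LocL.one [Fintype ι] (d : ι → D) : LocL d d (AH.one ι (FreeGroup G)) := by
  intro t ht
  unfold AH.one at ht
  obtain ⟨i, _, rfl⟩ := List.mem_map.1 ht
  simp only
  rw [map_one, inv_one, one_smul]

private lemma algL_nz_pw [Fintype ι] {d : ι → D} {L : LQ ι ι (FreeGroup G)} (h : LocL d d L)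
    (n : ℕ) : LocL d d (nz (pwL L n)) := by
  induction n with
  | zero => exact algL_nz_of (LocL.one d)
  | succ n ih => exact algL_nz_cmp ih (algL_nz_of h)

/-- the non-zero terms of polynomials in a local list are local -/
lemma LocL.nz_pol [Fintype ι] {d : ι → D} {L : LQ ι ι (FreeGroup G)} (h : LocL d d L)
    (f : Polynomial ℚ) : LocL d d (nz (AH.pol f L)) := by
  intro t ht
  obtain ⟨h1, h2⟩ := algL_mem_nz.1 ht
  unfold AH.pol at h1
  obtain ⟨n, _, h5⟩ := List.mem_flatMap.1 h1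
  unfold AH.sml at h5
  obtain ⟨b, hb, rfl⟩ := List.mem_map.1 h5
  exact algL_nz_pw h n b (algL_mem_nz.2 ⟨hb, right_ne_zero_of_mul h2⟩)

private lemma algL_mem_Qc (c : ℚ) : (c : ℂ) ∈ Qc := ⟨c, by simp⟩

theorem LocL.locOp [Fintype κ] {d : ι → D} {d' : κ → D} {L : LQ κ ι (FreeGroup G)}
    (h : LocL d d' L) : LocOp Qc d d' (oG L) := by
  induction L with
  | nil => exact LocOp.zero d d'
  | cons t L ih =>
    have h1 : oG (t :: L) = (t.1 : ℂ) • (elem t.2.1 (t.2.2.1, pw G t.2.2.2) :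
        L2 ι G →L[ℂ] L2 κ G) + oG L := by
      rw [algL_oG, algL_oG, List.map_cons, List.sum_cons]
    rw [h1]
    refine LocOp.add ?_ (ih fun s hs => h s (List.mem_cons_of_mem _ hs))
    have h2 := h t (List.mem_cons_self)
    refine ⟨fun j => if j = t.2.1 then Finsupp.single (t.2.2.1, pw G t.2.2.2) (t.1 : ℂ) else 0,
      fun j p => ?_, fun j p hp => ?_, ?_⟩
    · beta_reduce
      split_ifs
      · exact coefIn_single Qc _ _ (algL_mem_Qc _) p
      · rw [Finsupp.coe_zero, Pi.zero_apply]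
        exact Qc.zero_mem
    · beta_reduce at hp
      split_ifs at hp with hj
      · have h3 := Finset.mem_singleton.mp (Finsupp.support_single_subset hp)
        subst h3
        rw [hj]
        exact h2
      · simp at hp
    · ext x q
      rw [mulR_apply]
      show (((t.1 : ℂ) • (elem t.2.1 (t.2.2.1, pw G t.2.2.2) x : L2 κ G) : L2 κ G)) q = _
      rw [lp.coeFn_smul, Pi.smul_apply, elem_apply, smul_eq_mul]
      by_cases hq : q.1 = t.2.1
      · rw [if_pos hq, if_pos hq, ev_single]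
      · rw [if_neg hq, if_neg hq, ev_zero, mul_zero]

theorem exists_list [Fintype κ] {d : ι → D} {d' : κ → D} {T : L2 ι G →L[ℂ] L2 κ G}
    (h : LocOp Qc d d' T) : ∃ L : LQ κ ι (FreeGroup G), LocL d d' L ∧ oG L = T := by
  obtain ⟨A, h1, h2, rfl⟩ := h
  have h3 : ∀ j p, ∃ c : ℚ, (c : ℂ) = A j p := by
    intro j p
    obtain ⟨c, hc⟩ := h1 j p
    exact ⟨c, by rw [← hc]; simp⟩
  choose c hc using h3
  refine ⟨(Finset.univ : Finset κ).toList.flatMap fun j =>
    (A j).support.toList.map fun p => (c j p, j, p.1, FreeGroup.of p.2), ?_, ?_⟩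
  · intro t ht
    obtain ⟨j, _, hj⟩ := List.mem_flatMap.1 ht
    obtain ⟨p, hp, rfl⟩ := List.mem_map.1 hj
    simp only
    rw [pw_of]
    exact h2 j p (Finset.mem_toList.1 hp)
  · unfold oG toC
    rw [List.map_flatMap, opL_flatMap, Finset.sum_map_toList]
    unfold mulR
    refine Finset.sum_congr rfl fun j _ => ?_
    unfold opL
    rw [List.map_map, List.map_map, Finset.sum_map_toList]
    refine Finset.sum_congr rfl fun p _ => ?_
    show (c j p : ℂ) • (elem j (p.1, pw G (FreeGroup.of p.2)) : L2 ι G →L[ℂ] L2 κ G) = _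
    rw [pw_of, hc]

/-- clearing denominators -/
lemma exists_intg (L : LQ κ ι (FreeGroup G)) : ∃ n : ℕ, 0 < n ∧ Intg (sml (n : ℚ) L) := by
  induction L with
  | nil => exact ⟨1, one_pos, fun t ht => by simp [sml] at ht⟩
  | cons s L ih =>
    obtain ⟨n, hn, h⟩ := ih
    refine ⟨s.1.den * n, Nat.mul_pos s.1.pos hn, fun t ht => ?_⟩
    have ht' : t ∈ (s :: L).map fun t => (((s.1.den * n : ℕ) : ℚ) * t.1, t.2) := ht
    obtain ⟨u, hu, rfl⟩ := List.mem_map.1 ht'
    rcases List.mem_cons.1 hu with rfl | hu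
    · refine ⟨n * u.1.num, ?_⟩
      have h1 : (u.1.den : ℚ) * u.1 = u.1.num := by
        rw [mul_comm]
        exact Rat.mul_den_eq_num u.1
      push_cast
      rw [mul_right_comm, h1, mul_comm]
    · obtain ⟨z, hz⟩ := h ((n : ℚ) * u.1, u.2) (List.mem_map.2 ⟨u, hu, rfl⟩)
      refine ⟨s.1.den * z, ?_⟩
      have hz' : (n : ℚ) * u.1 = z := hz
      push_cast
      rw [mul_assoc, hz']

private lemma algL_apply (L : LQ κ ι (FreeGroup G)) (x : L2 ι G) (q : κ × G) :
    (oG L x) q = (L.map fun t =>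
      if q.1 = t.2.1 then (t.1 : ℂ) * x (t.2.2.1, q.2 * (pw G t.2.2.2)⁻¹) else 0).sum := by
  induction L with
  | nil => rfl
  | cons t L ih =>
    have h1 : oG (t :: L) = (t.1 : ℂ) • (elem t.2.1 (t.2.2.1, pw G t.2.2.2) :
        L2 ι G →L[ℂ] L2 κ G) + oG L := by
      rw [algL_oG, algL_oG, List.map_cons, List.sum_cons]
    rw [h1, List.map_cons, List.sum_cons, ← ih]
    show (((t.1 : ℂ) • (elem t.2.1 (t.2.2.1, pw G t.2.2.2) x : L2 κ G) + oG L x : L2 κ G)) q = _
    rw [lp.coeFn_add, Pi.add_apply, lp.coeFn_smul, Pi.smul_apply, elem_apply, smul_eq_mul,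
      mul_ite, mul_zero]

private lemma algL_rix_apply {f : κ → κ'} (hf : Function.Injective f) (g : ι → ι')
    (L : LQ κ ι (FreeGroup G)) (x : L2 ι' G) (y : L2 ι G) (hy : ∀ i h, y (i, h) = x (g i, h))
    (j : κ) (h : G) : (oG (rix f g L) x) (f j, h) = (oG L y) (j, h) := by
  rw [algL_apply, algL_apply]
  unfold rix
  rw [List.map_map]
  congr 1
  refine List.map_congr_left fun t _ => ?_
  show (if f j = f t.2.1 then (t.1 : ℂ) * x (g t.2.2.1, h * (pw G t.2.2.2)⁻¹) else 0) =
    if j = t.2.1 then (t.1 : ℂ) * y (t.2.2.1, h * (pw G t.2.2.2)⁻¹) else 0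
  by_cases h1 : j = t.2.1
  · rw [if_pos h1, if_pos (congrArg f h1), hy]
  · rw [if_neg h1, if_neg (fun h2 => h1 (hf h2))]

private lemma algL_rix_zero (f : κ → κ') (g : ι → ι')
    (L : LQ κ ι (FreeGroup G)) (x : L2 ι' G) (q : κ') (hq : ∀ j, f j ≠ q) (h : G) :
    (oG (rix f g L) x) (q, h) = 0 := by
  rw [algL_apply]
  unfold rix
  rw [List.map_map]
  apply List.sum_eq_zero
  intro z hz
  obtain ⟨t, _, rfl⟩ := List.mem_map.1 hz
  show (if q = f t.2.1 then (t.1 : ℂ) * x (g t.2.2.1, h * (pw G t.2.2.2)⁻¹) else 0) = 0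
  rw [if_neg fun h2 => hq _ h2.symm]

private lemma algL_append (L L' : LQ κ ι (FreeGroup G)) : oG (L ++ L') = oG L + oG L' := by
  rw [algL_oG, algL_oG, algL_oG, List.map_append, List.sum_append]

private lemma algL_sml (c : ℚ) (L : LQ κ ι (FreeGroup G)) : oG (sml c L) = (c : ℂ) • oG L := by
  induction L with
  | nil =>
    show (0 : L2 ι G →L[ℂ] L2 κ G) = (c : ℂ) • (0 : L2 ι G →L[ℂ] L2 κ G)
    rw [smul_zero]
  | cons t L ih =>
    have h1 : oG (t :: L) = (t.1 : ℂ) • (elem t.2.1 (t.2.2.1, pw G t.2.2.2) :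
        L2 ι G →L[ℂ] L2 κ G) + oG L := by
      rw [algL_oG, algL_oG, List.map_cons, List.sum_cons]
    have h2 : oG (sml c (t :: L)) = ((c * t.1 : ℚ) : ℂ) •
        (elem t.2.1 (t.2.2.1, pw G t.2.2.2) : L2 ι G →L[ℂ] L2 κ G) + oG (sml c L) := by
      rw [algL_oG, algL_oG (sml c L)]
      show ((((c * t.1, t.2) :: sml c L).map _).sum = _)
      rw [List.map_cons, List.sum_cons]
    rw [h1, h2, ih, smul_add, smul_smul, Rat.cast_mul]

private lemma algL_one [Fintype ι] : oG (one ι (FreeGroup G)) = 1 := by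
  have h : toC (one ι (FreeGroup G)) = oneL ι (FreeGroup G) := by
    unfold toC one oneL
    rw [List.map_map]
    refine List.map_congr_left fun i _ => ?_
    show (((1 : ℚ) : ℂ), i, i, (1 : FreeGroup G)) = _
    rw [Rat.cast_one]
  unfold oG
  rw [h]
  exact opL_one _

/-- rational subspaces are given by integral lists -/
theorem exists_UG [Fintype ι] {U : Submodule ℂ (L2 ι G)}
    (hU : Rat Qc (fun _ : ι => ()) U) :
    ∃ (r s : ℕ) (A : LQ (Fin r) ι (FreeGroup G)) (B : LQ (Fin r) (Fin s) (FreeGroup G)),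
      Intg A ∧ Intg B ∧ U = UG A B := by
  obtain ⟨κ, μ, _, _, labκ, labμ, S, T, hS, hT, rfl⟩ := hU
  obtain ⟨LS, -, rfl⟩ := exists_list hS
  obtain ⟨LT, -, rfl⟩ := exists_list hT
  set e : ι ⊕ μ ≃ Fin (Fintype.card (ι ⊕ μ)) := Fintype.equivFin _
  set f : κ ≃ Fin (Fintype.card κ) := Fintype.equivFin _
  have e1 : Function.Injective fun i : ι => e (Sum.inl i) := fun i j h =>
    Sum.inl_injective (e.injective h)
  have e2 : Function.Injective fun i : μ => e (Sum.inr i) := fun i j h =>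
    Sum.inr_injective (e.injective h)
  set A0 : LQ (Fin (Fintype.card (ι ⊕ μ))) ι (FreeGroup G) :=
    rix (fun i => e (Sum.inl i)) id (one ι (FreeGroup G)) with hA0
  set B0 : LQ (Fin (Fintype.card (ι ⊕ μ))) (Fin (Fintype.card κ)) (FreeGroup G) :=
    rix (fun i => e (Sum.inl i)) f (sml (-1) LT) ++ rix (fun i => e (Sum.inr i)) f LS with hB0
  obtain ⟨n, hn, hB⟩ := exists_intg B0
  have hA : Intg (sml (n : ℚ) A0) := by
    intro t ht
    have ht' : t ∈ A0.map fun t => ((n : ℚ) * t.1, t.2) := ht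
    obtain ⟨u, hu, rfl⟩ := List.mem_map.1 ht'
    have hu' : u ∈ (one ι (FreeGroup G)).map fun t =>
      (t.1, e (Sum.inl t.2.1), id t.2.2.1, t.2.2.2) := hu
    obtain ⟨v, hv, rfl⟩ := List.mem_map.1 hu'
    have hv' : v ∈ (Finset.univ : Finset ι).toList.map fun i =>
      ((1 : ℚ), i, i, (1 : FreeGroup G)) := hv
    obtain ⟨i, _, rfl⟩ := List.mem_map.1 hv'
    exact ⟨n, by simp⟩
  refine ⟨_, _, sml (n : ℚ) A0, sml (n : ℚ) B0, hA, hB, ?_⟩
  have hn' : ((n : ℚ) : ℂ) ≠ 0 := by
    rw [Rat.cast_natCast]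
    exact_mod_cast hn.ne'
  have key : ∀ z : L2 (ι ⊕ Fin (Fintype.card κ)) G,
      oG (row2 (sml (n : ℚ) A0) (sml (n : ℚ) B0)) z = 0 ↔
        prL z = oG LT (crd f Set.univ (prR z)) ∧ oG LS (crd f Set.univ (prR z)) = 0 := by
    intro z
    set y : L2 κ G := crd f Set.univ (prR z) with hy
    have hy' : ∀ k h, y (k, h) = (prR z : L2 (Fin (Fintype.card κ)) G) (f k, h) := by
      intro k h
      rw [hy, crd_apply, if_pos (Set.mem_univ _)]
    have h0 : ∀ q, (oG (row2 (sml (n : ℚ) A0) (sml (n : ℚ) B0)) z) q =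
        ((n : ℚ) : ℂ) * ((oG A0 (prL z)) q + (oG B0 (prR z)) q) := by
      rintro ⟨j, h⟩
      unfold row2
      rw [algL_append]
      show ((oG (rix id Sum.inl (sml (n : ℚ) A0)) z + oG (rix id Sum.inr (sml (n : ℚ) B0)) z :
        L2 _ G)) (j, h) = _
      rw [lp.coeFn_add, Pi.add_apply]
      have h1 := algL_rix_apply (f := (id : Fin (Fintype.card (ι ⊕ μ)) → _))
        Function.injective_id Sum.inl (sml (n : ℚ) A0) z (prL z) (fun i h => prL_apply z i h) j h
      have h2 := algL_rix_apply (f := (id : Fin (Fintype.card (ι ⊕ μ)) → _))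
        Function.injective_id Sum.inr (sml (n : ℚ) B0) z (prR z) (fun i h => prR_apply z i h) j h
      simp only [id_eq] at h1 h2
      rw [h1, h2, algL_sml, algL_sml]
      show (((n : ℚ) : ℂ) • (oG A0 (prL z) : L2 _ G)) (j, h) +
        (((n : ℚ) : ℂ) • (oG B0 (prR z) : L2 _ G)) (j, h) = _
      rw [lp.coeFn_smul, Pi.smul_apply, lp.coeFn_smul, Pi.smul_apply, smul_eq_mul, smul_eq_mul]
      ring
    have hL : ∀ i h, (oG A0 (prL z)) (e (Sum.inl i), h) + (oG B0 (prR z)) (e (Sum.inl i), h) =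
        (prL z : L2 ι G) (i, h) - (oG LT y) (i, h) := by
      intro i h
      have h1 := algL_rix_apply e1 id (one ι (FreeGroup G)) (prL z) (prL z) (fun _ _ => rfl) i h
      have h2 := algL_rix_apply e1 f (sml (-1) LT) (prR z) y hy' i h
      have h3 := algL_rix_zero (fun i : μ => e (Sum.inr i)) f LS (prR z) (e (Sum.inl i))
        (fun j hj => by
          have := e.injective hj
          simp at this) h
      rw [hA0, hB0, algL_append]
      show (oG (rix (fun i => e (Sum.inl i)) id (one ι (FreeGroup G))) (prL z)) (e (Sum.inl i), h) +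
        ((oG (rix (fun i => e (Sum.inl i)) f (sml (-1) LT)) (prR z) +
          oG (rix (fun i => e (Sum.inr i)) f LS) (prR z) : L2 _ G)) (e (Sum.inl i), h) = _
      rw [lp.coeFn_add, Pi.add_apply, h1, h2, h3, algL_one, algL_sml, add_zero]
      show (prL z : L2 ι G) (i, h) + ((((-1 : ℚ) : ℂ)) • (oG LT y : L2 _ G)) (i, h) = _
      rw [lp.coeFn_smul, Pi.smul_apply, smul_eq_mul]
      push_cast
      ring
    have hR : ∀ i h, (oG A0 (prL z)) (e (Sum.inr i), h) + (oG B0 (prR z)) (e (Sum.inr i), h) =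
        (oG LS y) (i, h) := by
      intro i h
      have h1 := algL_rix_zero (fun i : ι => e (Sum.inl i)) id (one ι (FreeGroup G)) (prL z)
        (e (Sum.inr i)) (fun j hj => by
          have := e.injective hj
          simp at this) h
      have h2 := algL_rix_zero (fun i : ι => e (Sum.inl i)) f (sml (-1) LT) (prR z)
        (e (Sum.inr i)) (fun j hj => by
          have := e.injective hj
          simp at this) h
      have h3 := algL_rix_apply e2 f LS (prR z) y hy' i h
      rw [hA0, hB0, algL_append]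
      show (oG (rix (fun i => e (Sum.inl i)) id (one ι (FreeGroup G))) (prL z)) (e (Sum.inr i), h) +
        ((oG (rix (fun i => e (Sum.inl i)) f (sml (-1) LT)) (prR z) +
          oG (rix (fun i => e (Sum.inr i)) f LS) (prR z) : L2 _ G)) (e (Sum.inr i), h) = _
      rw [lp.coeFn_add, Pi.add_apply, h1, h2, h3, zero_add, zero_add]
    constructor
    · intro hz
      have h4 : ∀ q, (oG A0 (prL z)) q + (oG B0 (prR z)) q = 0 := by
        intro q
        have h5 := h0 q
        rw [hz] at h5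
        have h6 : (0 : ℂ) = ((n : ℚ) : ℂ) * ((oG A0 (prL z)) q + (oG B0 (prR z)) q) := h5
        exact (mul_eq_zero.1 h6.symm).resolve_left hn'
      constructor
      · ext ⟨i, h⟩
        have h5 := hL i h
        rw [h4] at h5
        exact sub_eq_zero.1 h5.symm
      · ext ⟨i, h⟩
        have h5 := hR i h
        rw [h4] at h5
        exact h5.symm
    · rintro ⟨h5, h6⟩
      ext ⟨j, h⟩
      rw [h0]
      obtain ⟨w, rfl⟩ := e.surjective j
      rcases w with i | i
      · rw [hL, h5, sub_self, mul_zero]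
        rfl
      · rw [hR, h6]
        show ((n : ℚ) : ℂ) * (0 : ℂ) = 0
        rw [mul_zero]
  unfold UG
  apply le_antisymm
  · refine imc_le (Submodule.isClosed_topologicalClosure _) fun w hw => ?_
    have hw' : oG LS w = 0 := hw
    set z : L2 (ι ⊕ Fin (Fintype.card κ)) G :=
      inL (oG LT w) + inR (crd f.symm Set.univ w) with hz
    have h1 : prL z = oG LT w := by
      rw [hz, map_add, prL_inL, prL_inR, add_zero]
    have h2 : crd f Set.univ (prR z) = w := by
      rw [hz, map_add, prR_inL, prR_inR, zero_add]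
      ext ⟨k, h⟩
      rw [crd_apply, if_pos (Set.mem_univ _), crd_apply, if_pos (Set.mem_univ _)]
      simp only [Equiv.symm_apply_apply]
    rw [← h1]
    refine mem_imc prL ?_
    rw [mem_kr, key, h2, h1]
    exact ⟨rfl, hw'⟩
  · refine imc_le (Submodule.isClosed_topologicalClosure _) fun z hz => ?_
    obtain ⟨h1, h2⟩ := (key z).1 hz
    rw [h1]
    exact mem_imc (oG LT) h2

end Pool.Agent.AH
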