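import Pool.Agent.AH.Defs

set_option autoImplicit false
set_option linter.unusedSectionVars false

noncomputable section

open scoped InnerProductSpace ENNReal Topology MatrixOrder
open Classical Filter

/-!
The matrices of lists in models: products, adjoints, polynomials, norms, traces.
-/

namespace Pool.Agent.AH

open Matrix Pool.Agent.VN Pool.Agent.LFT

variable {G : Type} [Group G] {ι κ μ ι' κ' : Type}

/-- elementary matrix -/
def eX (M : Mod G) (t : ℚ × κ × ι × FreeGroup G) : Matrix (κ × M.X) (ι × M.X) ℚ := fun q p =>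
  if q.1 = t.2.1 ∧ p.1 = t.2.2.1 ∧ p.2 = t.2.2.2 • q.2 then t.1 else 0

lemma mX_nil (M : Mod G) : mX M ([] : LQ κ ι (FreeGroup G)) = 0 := rfl

lemma mX_cons (M : Mod G) (t : ℚ × κ × ι × FreeGroup G) (L : LQ κ ι (FreeGroup G)) :
    mX M (t :: L) = eX M t + mX M L := by
  ext q p
  simp [mX, eX]

lemma mX_append (M : Mod G) (L L' : LQ κ ι (FreeGroup G)) :
    mX M (L ++ L') = mX M L + mX M L' := by
  induction L with
  | nil => rw [List.nil_append, mX_nil, zero_add]
  | cons t L ih => rw [List.cons_append, mX_cons, ih, mX_cons, add_assoc]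

lemma mX_flatMap {σ : Type*} (M : Mod G) (l : List σ) (F : σ → LQ κ ι (FreeGroup G)) :
    mX M (l.flatMap F) = (l.map fun a => mX M (F a)).sum := by
  induction l with
  | nil => rfl
  | cons a l ih => rw [List.flatMap_cons, mX_append, ih, List.map_cons, List.sum_cons]

lemma eX_mul [Fintype μ] (M : Mod G) (a : ℚ × κ × μ × FreeGroup G)
    (b : ℚ × μ × ι × FreeGroup G) : eX M a * eX M b =
      eX M (if a.2.2.1 = b.2.1 then a.1 * b.1 else 0, a.2.1, b.2.2.1, b.2.2.2 * a.2.2.2) := by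
  ext q p
  rw [Matrix.mul_apply, Finset.sum_eq_single (a.2.2.1, a.2.2.2 • q.2)]
  · simp only [eX, mul_smul]
    by_cases h1 : q.1 = a.2.1 <;> by_cases h2 : a.2.2.1 = b.2.1 <;>
      by_cases h3 : p.1 = b.2.2.1 <;> by_cases h4 : p.2 = b.2.2.2 • a.2.2.2 • q.2 <;>
      simp [h1, h2, h3, h4]
  · rintro ⟨r1, r2⟩ _ hr
    have : ¬ (q.1 = a.2.1 ∧ r1 = a.2.2.1 ∧ r2 = a.2.2.2 • q.2) := by
      rintro ⟨-, h2, h3⟩
      exact hr (by rw [h2, h3])
    simp [eX, this]
  · intro h
    exact absurd (Finset.mem_univ _) h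

lemma mX_cmp [Fintype μ] (M : Mod G) (L : LQ κ μ (FreeGroup G)) (L' : LQ μ ι (FreeGroup G)) :
    mX M (cmp L L') = mX M L * mX M L' := by
  have h1 : ∀ (a : ℚ × κ × μ × FreeGroup G) (L' : LQ μ ι (FreeGroup G)),
      mX M (L'.map fun b =>
        (if a.2.2.1 = b.2.1 then a.1 * b.1 else 0, a.2.1, b.2.2.1, b.2.2.2 * a.2.2.2)) =
      eX M a * mX M L' := by
    intro a L'
    induction L' with
    | nil => rw [List.map_nil, mX_nil, mX_nil, Matrix.mul_zero]
    | cons b L' ih => rw [List.map_cons, mX_cons, ih, mX_cons, Matrix.mul_add, eX_mul]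
  induction L with
  | nil =>
    have : cmp ([] : LQ κ μ (FreeGroup G)) L' = [] := rfl
    rw [this, mX_nil, mX_nil, Matrix.zero_mul]
  | cons a L ih =>
    have : cmp (a :: L) L' = (L'.map fun b =>
        (if a.2.2.1 = b.2.1 then a.1 * b.1 else 0, a.2.1, b.2.2.1, b.2.2.2 * a.2.2.2)) ++
        cmp L L' := by
      unfold cmp
      rw [List.flatMap_cons]
    rw [this, mX_append, h1, ih, mX_cons, Matrix.add_mul]

lemma mX_adj (M : Mod G) (L : LQ κ ι (FreeGroup G)) : mX M (adj L) = (mX M L)ᵀ := by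
  induction L with
  | nil => rfl
  | cons t L ih =>
    have : adj (t :: L) = (t.1, t.2.2.1, t.2.1, t.2.2.2⁻¹) :: adj L := rfl
    rw [this, mX_cons, ih, mX_cons, Matrix.transpose_add]
    congr 1
    ext q p
    simp only [eX, Matrix.transpose_apply]
    congr 1
    rw [eq_iff_iff]
    constructor
    · rintro ⟨h1, h2, h3⟩
      exact ⟨h2, h1, by rw [h3, smul_inv_smul]⟩
    · rintro ⟨h1, h2, h3⟩
      exact ⟨h2, h1, by rw [h3, inv_smul_smul]⟩

lemma mX_sml (M : Mod G) (c : ℚ) (L : LQ κ ι (FreeGroup G)) : mX M (sml c L) = c • mX M L := by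
  induction L with
  | nil =>
    have : sml c ([] : LQ κ ι (FreeGroup G)) = [] := rfl
    rw [this, mX_nil, smul_zero]
  | cons t L ih =>
    have : sml c (t :: L) = (c * t.1, t.2) :: sml c L := rfl
    rw [this, mX_cons, ih, mX_cons, smul_add]
    congr 1
    ext q p
    simp only [eX, Matrix.smul_apply, smul_eq_mul, mul_ite, mul_zero]

lemma mX_one [Fintype ι] (M : Mod G) : mX M (one ι (FreeGroup G)) = 1 := by
  ext q p
  have h1 : mX M (one ι (FreeGroup G)) q p = ((Finset.univ : Finset ι).toList.map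
      fun i => if q.1 = i ∧ p.1 = i ∧ p.2 = q.2 then (1 : ℚ) else 0).sum := by
    simp only [mX, one, List.map_map]
    congr 1
    apply List.map_congr_left
    intro i _
    simp
  rw [h1, Finset.sum_map_toList, Finset.sum_eq_single q.1, Matrix.one_apply]
  · by_cases h : q = p
    · rw [if_pos h, if_pos ⟨rfl, by rw [h], by rw [h]⟩]
    · rw [if_neg h, if_neg]
      rintro ⟨-, h2, h3⟩
      exact h (Prod.ext h2.symm h3.symm)
  · intro i _ hi
    rw [if_neg]
    rintro ⟨h2, -⟩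
    exact hi h2.symm
  · intro h
    exact absurd (Finset.mem_univ _) h

lemma mX_pwL [Fintype ι] (M : Mod G) (L : LQ ι ι (FreeGroup G)) (n : ℕ) :
    mX M (pwL L n) = mX M L ^ n := by
  induction n with
  | zero => rw [pow_zero]; exact mX_one M
  | succ n ih => rw [pow_succ, ← ih, ← mX_cmp]; rfl

lemma sum_map_range {A : Type*} [AddCommMonoid A] (f : ℕ → A) (n : ℕ) :
    ((List.range n).map f).sum = ∑ i ∈ Finset.range n, f i := by
  induction n with
  | zero => rfl
  | succ n ih =>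
    rw [List.range_succ, List.map_append, List.sum_append, ih, Finset.sum_range_succ]
    simp

lemma mX_pol [Fintype ι] (M : Mod G) (f : Polynomial ℚ) (L : LQ ι ι (FreeGroup G)) :
    mX M (pol f L) = Polynomial.aeval (mX M L) f := by
  unfold pol
  rw [mX_flatMap, Polynomial.aeval_eq_sum_range, sum_map_range]
  refine Finset.sum_congr rfl fun i _ => ?_
  rw [mX_sml, mX_pwL]

lemma mR_append (M : Mod G) (L L' : LQ κ ι (FreeGroup G)) :
    mR M (L ++ L') = mR M L + mR M L' := by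
  ext q p
  simp [mR, mX_append]

lemma mR_cmp [Fintype μ] (M : Mod G) (L : LQ κ μ (FreeGroup G)) (L' : LQ μ ι (FreeGroup G)) :
    mR M (cmp L L') = mR M L * mR M L' := by
  unfold mR
  rw [mX_cmp]
  exact Matrix.map_mul (f := Rat.castHom ℝ)

lemma mR_adj (M : Mod G) (L : LQ κ ι (FreeGroup G)) : mR M (adj L) = (mR M L)ᵀ := by
  unfold mR
  rw [mX_adj]
  ext q p
  simp

lemma mR_sml (M : Mod G) (c : ℚ) (L : LQ κ ι (FreeGroup G)) :
    mR M (sml c L) = (c : ℝ) • mR M L := by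
  unfold mR
  rw [mX_sml]
  ext q p
  simp

lemma mR_one [Fintype ι] (M : Mod G) : mR M (one ι (FreeGroup G)) = 1 := by
  unfold mR
  rw [mX_one]
  ext q p
  by_cases h : q = p <;> simp [Matrix.one_apply, h]

lemma mR_pwL [Fintype ι] (M : Mod G) (L : LQ ι ι (FreeGroup G)) (n : ℕ) :
    mR M (pwL L n) = mR M L ^ n := by
  induction n with
  | zero => rw [pow_zero]; exact mR_one M
  | succ n ih => rw [pow_succ, ← ih, ← mR_cmp]; rfl

lemma mR_pol [Fintype ι] (M : Mod G) (f : Polynomial ℚ) (L : LQ ι ι (FreeGroup G)) :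
    mR M (pol f L) = Polynomial.aeval (mR M L) (f.map (algebraMap ℚ ℝ)) := by
  rw [Polynomial.aeval_map_algebraMap]
  have h1 : ∀ n : ℕ, mR M (sml (f.coeff n) (pwL L n)) = f.coeff n • mR M L ^ n := by
    intro n
    rw [mR_sml, mR_pwL]
    ext q p
    simp [Rat.smul_def]
  have h2 : mR M (pol f L) = ((List.range (f.natDegree + 1)).map
      fun n => mR M (sml (f.coeff n) (pwL L n))).sum := by
    unfold pol
    generalize List.range (f.natDegree + 1) = l
    induction l with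
    | nil => ext q p; simp [mR, mX]
    | cons a l ih => rw [List.flatMap_cons, mR_append, ih, List.map_cons, List.sum_cons]
  rw [h2, sum_map_range, Polynomial.aeval_eq_sum_range]
  exact Finset.sum_congr rfl fun i _ => h1 i

/-- change of the indices of the rows and the columns (injective maps) -/
lemma mX_rix (M : Mod G) {f : κ → κ'} (hf : Function.Injective f) {g : ι → ι'}
    (hg : Function.Injective g) (L : LQ κ ι (FreeGroup G)) (q : κ × M.X) (p : ι × M.X) :
    mX M (rix f g L) (f q.1, q.2) (g p.1, p.2) = mX M L q p := by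
  simp only [mX, rix, List.map_map]
  congr 1
  apply List.map_congr_left
  intro t _
  simp [hf.eq_iff, hg.eq_iff]

lemma mX_rix_row (M : Mod G) (f : κ → κ') (g : ι → ι')
    (L : LQ κ ι (FreeGroup G)) (q : κ' × M.X) (p : ι' × M.X) (hq : ∀ j, f j ≠ q.1) :
    mX M (rix f g L) q p = 0 := by
  simp only [mX, rix, List.map_map]
  apply List.sum_eq_zero
  intro x hx
  obtain ⟨t, -, rfl⟩ := List.mem_map.mp hx
  simp [Ne.symm (hq t.2.1)]

lemma mX_rix_col (M : Mod G) (f : κ → κ') (g : ι → ι')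
    (L : LQ κ ι (FreeGroup G)) (q : κ' × M.X) (p : ι' × M.X) (hp : ∀ i, g i ≠ p.1) :
    mX M (rix f g L) q p = 0 := by
  simp only [mX, rix, List.map_map]
  apply List.sum_eq_zero
  intro x hx
  obtain ⟨t, -, rfl⟩ := List.mem_map.mp hx
  simp [Ne.symm (hp t.2.2.1)]

/-- lists with integral coefficients have integral matrices -/
lemma mX_intg (M : Mod G) {L : LQ κ ι (FreeGroup G)} (hL : Intg L) :
    ∃ N : Matrix (κ × M.X) (ι × M.X) ℤ, mX M L = N.map (Int.cast : ℤ → ℚ) ∧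
      mR M L = N.map (Int.cast : ℤ → ℝ) := by
  have h1 : ∃ N : Matrix (κ × M.X) (ι × M.X) ℤ, mX M L = N.map (Int.cast : ℤ → ℚ) := by
    induction L with
    | nil => exact ⟨0, by ext q p; simp [mX]⟩
    | cons t L ih =>
      obtain ⟨N, hN⟩ := ih fun u hu => hL u (List.mem_cons_of_mem _ hu)
      obtain ⟨z, hz⟩ := hL t List.mem_cons_self
      refine ⟨(Matrix.of fun (q : κ × M.X) (p : ι × M.X) =>
        if q.1 = t.2.1 ∧ p.1 = t.2.2.1 ∧ p.2 = t.2.2.2 • q.2 then z else 0) + N, ?_⟩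
      rw [mX_cons, hN]
      ext q p
      simp only [eX, Matrix.add_apply, Matrix.map_apply, Matrix.of_apply, Int.cast_add, hz]
      congr 1
      split_ifs <;> simp
  obtain ⟨N, hN⟩ := h1
  refine ⟨N, hN, ?_⟩
  unfold mR
  rw [hN]
  ext q p
  simp

/-- a common denominator -/
lemma exists_den (L : LQ κ ι (FreeGroup G)) : ∃ D : ℕ, 0 < D ∧ Intg (sml D L) := by
  induction L with
  | nil => exact ⟨1, one_pos, fun t ht => by simp [sml] at ht⟩
  | cons t L ih =>
    obtain ⟨D, hD, h⟩ := ih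
    refine ⟨t.1.den * D, Nat.mul_pos t.1.den_pos hD, fun u hu => ?_⟩
    unfold sml at hu
    obtain ⟨v, hv, rfl⟩ := List.mem_map.mp hu
    rcases List.mem_cons.mp hv with rfl | hv
    · refine ⟨D * v.1.num, ?_⟩
      have h1 := Rat.mul_den_eq_num v.1
      push_cast
      rw [← h1]; ring
    · obtain ⟨z, hz⟩ := h (D * v.1, v.2) (List.mem_map.mpr ⟨v, hv, rfl⟩)
      refine ⟨t.1.den * z, ?_⟩
      push_cast
      rw [← hz]; push_cast; ring

lemma ratMat_mR [Fintype ι] (M : Mod G) (L : LQ ι ι (FreeGroup G)) : AHL.RatMat (mR M L) := by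
  obtain ⟨D, hD, h⟩ := exists_den L
  obtain ⟨N, -, hN⟩ := mX_intg M h
  refine ⟨D, hD, N, ?_⟩
  rw [← hN, mR_sml]
  simp

/-- the matrix of `row2` -/
lemma mX_row2_mulVec (M : Mod G) [Fintype ι] [Fintype ι'] (A : LQ κ ι (FreeGroup G))
    (B : LQ κ ι' (FreeGroup G)) (z : (ι ⊕ ι') × M.X → ℚ) :
    (mX M (row2 A B)).mulVec z = (mX M A).mulVec (fun p => z (Sum.inl p.1, p.2))
      + (mX M B).mulVec (fun p => z (Sum.inr p.1, p.2)) := by
  ext q
  have e1 : ∀ (i : ι) (x : M.X), mX M (row2 A B) q (Sum.inl i, x) = mX M A q (i, x) := by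
    intro i x
    have h1 := mX_rix M (f := (id : κ → κ)) Function.injective_id (g := (Sum.inl : ι → ι ⊕ ι'))
      Sum.inl_injective A q (i, x)
    have h2 := mX_rix_col M (id : κ → κ) (Sum.inr : ι' → ι ⊕ ι') B q (Sum.inl i, x)
      (fun i' => by simp)
    unfold row2
    rw [mX_append, Matrix.add_apply, h2, add_zero]
    exact h1
  have e2 : ∀ (i : ι') (x : M.X), mX M (row2 A B) q (Sum.inr i, x) = mX M B q (i, x) := by
    intro i x
    have h1 := mX_rix M (f := (id : κ → κ)) Function.injective_id (g := (Sum.inr : ι' → ι ⊕ ι'))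
      Sum.inr_injective B q (i, x)
    have h2 := mX_rix_col M (id : κ → κ) (Sum.inl : ι → ι ⊕ ι') A q (Sum.inr i, x)
      (fun i' => by simp)
    unfold row2
    rw [mX_append, Matrix.add_apply, h2, zero_add]
    exact h1
  simp only [Matrix.mulVec, dotProduct, Pi.add_apply]
  rw [Fintype.sum_prod_type, Fintype.sum_sum_type, Fintype.sum_prod_type, Fintype.sum_prod_type]
  simp only [e1, e2]

section Norm

variable [Fintype ι] [Fintype κ]

/-- the euclidean norm -/
def nrm {α : Type} [Fintype α] (x : α → ℝ) : ℝ := ‖(WithLp.toLp 2 x : EuclideanSpace ℝ α)‖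

lemma nrm_nonneg {α : Type} [Fintype α] (x : α → ℝ) : 0 ≤ nrm x := norm_nonneg _

lemma nrm_add {α : Type} [Fintype α] (x y : α → ℝ) : nrm (x + y) ≤ nrm x + nrm y :=
  norm_add_le (WithLp.toLp 2 x : EuclideanSpace ℝ α) (WithLp.toLp 2 y)

lemma nrm_sq {α : Type} [Fintype α] (x : α → ℝ) : nrm x ^ 2 = ∑ a, x a ^ 2 := by
  unfold nrm
  rw [EuclideanSpace.norm_sq_eq]
  simp

lemma nrm_sq' {α : Type} [Fintype α] (x : α → ℝ) : nrm x ^ 2 = x ⬝ᵥ x := by
  rw [nrm_sq]
  simp [dotProduct, sq]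

lemma abs_dot_le {α : Type} [Fintype α] (x y : α → ℝ) : |x ⬝ᵥ y| ≤ nrm x * nrm y := by
  have h := abs_real_inner_le_norm (WithLp.toLp 2 y : EuclideanSpace ℝ α) (WithLp.toLp 2 x)
  rw [EuclideanSpace.inner_eq_star_dotProduct] at h
  simp only [star_trivial] at h
  rw [mul_comm] at h
  exact h

lemma nrm_eX_le (M : Mod G) (t : ℚ × κ × ι × FreeGroup G) (x : ι × M.X → ℝ) :
    nrm (((eX M t).map fun x => (x : ℝ)) *ᵥ x) ≤ |(t.1 : ℝ)| * nrm x := by
  apply le_of_sq_le_sq _ (mul_nonneg (abs_nonneg _) (nrm_nonneg _))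
  rw [mul_pow, sq_abs, nrm_sq, nrm_sq]
  have h1 : ∀ q : κ × M.X, (((eX M t).map fun x => (x : ℝ)) *ᵥ x) q =
      if q.1 = t.2.1 then (t.1 : ℝ) * x (t.2.2.1, t.2.2.2 • q.2) else 0 := by
    intro q
    rw [Matrix.mulVec, dotProduct, Finset.sum_eq_single (t.2.2.1, t.2.2.2 • q.2)]
    · by_cases h : q.1 = t.2.1 <;> simp [eX, h]
    · rintro ⟨r1, r2⟩ _ hr
      have : ¬ (q.1 = t.2.1 ∧ r1 = t.2.2.1 ∧ r2 = t.2.2.2 • q.2) := by
        rintro ⟨-, h2, h3⟩
        exact hr (by rw [h2, h3])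
      simp [eX, this]
    · intro h
      exact absurd (Finset.mem_univ _) h
  have h2 : ∑ q : κ × M.X, (((eX M t).map fun x => (x : ℝ)) *ᵥ x) q ^ 2 =
      (t.1 : ℝ) ^ 2 * ∑ y : M.X, x (t.2.2.1, y) ^ 2 := by
    rw [Fintype.sum_prod_type]
    rw [Finset.sum_eq_single t.2.1]
    · simp only [h1, if_true]
      rw [Finset.mul_sum]
      rw [← Equiv.sum_comp (MulAction.toPerm t.2.2.2) fun y => (t.1 : ℝ) ^ 2 * x (t.2.2.1, y) ^ 2]
      refine Finset.sum_congr rfl fun y _ => ?_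
      rw [mul_pow]; rfl
    · intro j _ hj
      simp [h1, hj]
    · intro h
      exact absurd (Finset.mem_univ _) h
  rw [h2]
  refine mul_le_mul_of_nonneg_left ?_ (sq_nonneg _)
  rw [Fintype.sum_prod_type]
  exact Finset.single_le_sum (f := fun i => ∑ y : M.X, x (i, y) ^ 2)
    (fun i _ => Finset.sum_nonneg fun y _ => sq_nonneg _) (Finset.mem_univ t.2.2.1)

lemma n1_cons (t : ℚ × κ × ι × FreeGroup G) (L : LQ κ ι (FreeGroup G)) :
    n1 (t :: L) = |t.1| + n1 L := by
  simp [n1]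

lemma n1_nonneg (L : LQ κ ι (FreeGroup G)) : 0 ≤ n1 L := by
  unfold n1
  apply List.sum_nonneg
  intro x hx
  obtain ⟨t, -, rfl⟩ := List.mem_map.mp hx
  exact abs_nonneg _

lemma nrm_mR_le (M : Mod G) (L : LQ κ ι (FreeGroup G)) (x : ι × M.X → ℝ) :
    nrm (mR M L *ᵥ x) ≤ (n1 L : ℝ) * nrm x := by
  induction L with
  | nil =>
    have h0 : mR M ([] : LQ κ ι (FreeGroup G)) = 0 := by ext q p; simp [mR, mX]
    rw [h0, zero_mulVec]
    have : n1 ([] : LQ κ ι (FreeGroup G)) = 0 := rfl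
    rw [this]
    have h2 : nrm (0 : κ × M.X → ℝ) ^ 2 = 0 := by rw [nrm_sq]; simp
    have h3 := pow_eq_zero_iff (two_ne_zero) |>.mp h2
    rw [h3]; simp
  | cons t L ih =>
    have h1 : mR M (t :: L) = ((eX M t).map fun x => (x : ℝ)) + mR M L := by
      unfold mR
      rw [mX_cons]
      ext q p
      simp
    rw [h1, add_mulVec, n1_cons]
    refine (nrm_add _ _).trans ?_
    have h2 := nrm_eX_le M t x
    push_cast
    rw [add_mul]
    exact add_le_add h2 ih

/-- `N* N ≤ n1 ²` -/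
lemma psd_mR (M : Mod G) (L : LQ κ ι (FreeGroup G)) {s : ℝ} (hs : 0 ≤ s)
    (h : s * (n1 L : ℝ) ^ 2 ≤ 1) :
    ((1 : Matrix (ι × M.X) (ι × M.X) ℝ) - s • ((mR M L)ᴴ * mR M L)).PosSemidef := by
  rw [posSemidef_iff_dotProduct_mulVec]
  constructor
  · exact isHermitian_one.sub ((posSemidef_conjTranspose_mul_self _).smul hs).1
  · intro x
    have h1 : star x ⬝ᵥ ((1 - s • ((mR M L)ᴴ * mR M L)) *ᵥ x) =
        nrm x ^ 2 - s * nrm (mR M L *ᵥ x) ^ 2 := by
      rw [sub_mulVec, dotProduct_sub, one_mulVec, smul_mulVec, dotProduct_smul, nrm_sq', nrm_sq',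
        ← mulVec_mulVec, dotProduct_mulVec, smul_eq_mul]
      congr 2
      rw [star_trivial, vecMul_conjTranspose]
      simp
    rw [h1]
    have h2 := nrm_mR_le M L x
    have h3 : nrm (mR M L *ᵥ x) ^ 2 ≤ ((n1 L : ℝ) * nrm x) ^ 2 :=
      pow_le_pow_left₀ (nrm_nonneg _) h2 2
    have h4 : s * nrm (mR M L *ᵥ x) ^ 2 ≤ s * ((n1 L : ℝ) * nrm x) ^ 2 :=
      mul_le_mul_of_nonneg_left h3 hs
    have h5 : s * ((n1 L : ℝ) * nrm x) ^ 2 = (s * (n1 L : ℝ) ^ 2) * nrm x ^ 2 := by ring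
    have h6 : 0 ≤ nrm x ^ 2 := sq_nonneg _
    nlinarith

/-- bounds of a symmetric matrix -/
lemma bd_mR (M : Mod G) (L : LQ ι ι (FreeGroup G)) (hL : (mR M L).IsHermitian) :
    Bd (-(n1 L : ℝ)) (n1 L) (mR M L) := by
  have key : ∀ x : ι × M.X → ℝ, |star x ⬝ᵥ (mR M L *ᵥ x)| ≤ (n1 L : ℝ) * nrm x ^ 2 := by
    intro x
    have h1 := abs_dot_le (star x) (mR M L *ᵥ x)
    rw [star_trivial] at h1 ⊢
    have h2 := nrm_mR_le M L x
    have h3 := mul_le_mul_of_nonneg_left h2 (nrm_nonneg x)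
    nlinarith
  have hone : ∀ c : ℝ, (c • (1 : Matrix (ι × M.X) (ι × M.X) ℝ)).IsHermitian := by
    intro c
    rw [IsHermitian, conjTranspose_smul, conjTranspose_one]; simp
  constructor
  · rw [posSemidef_iff_dotProduct_mulVec]
    refine ⟨hL.sub (hone _), fun x => ?_⟩
    rw [sub_mulVec, dotProduct_sub, smul_mulVec, one_mulVec, dotProduct_smul, star_trivial,
      ← nrm_sq', smul_eq_mul]
    have h1 := (abs_le.mp (key x)).1
    rw [star_trivial] at h1
    linarith
  · rw [posSemidef_iff_dotProduct_mulVec]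
    refine ⟨(hone _).sub hL, fun x => ?_⟩
    rw [sub_mulVec, dotProduct_sub, smul_mulVec, one_mulVec, dotProduct_smul, star_trivial,
      ← nrm_sq', smul_eq_mul]
    have h1 := (abs_le.mp (key x)).2
    rw [star_trivial] at h1
    linarith

end Norm

end Pool.Agent.AH
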