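import Pool.Agent.AH.Defs

set_option autoImplicit false
set_option linter.unusedSectionVars false

noncomputable section

open scoped InnerProductSpace ENNReal Topology Matrix
open Classical Filter ContinuousLinearMap

/-!
PACKAGE AH-OPPOS. Self-adjoint operators on a Hilbert space and Hilbert-Schmidt norms.

`op_poly_nonneg`: if `c < d` put `S' = (2/(d-c)) (S - (c+d)/2)`, a self-adjoint operator with
`|⟨x, S' x⟩| ≤ ‖x‖²`, so `‖S'‖ ≤ 1` (for a self-adjoint operator the norm is the supremum of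
`|⟨x, S x⟩|`; Mathlib has `IsSelfAdjoint` / `rayleigh` lemmas, or use polarisation); the polynomial
`p' y = p ((d-c)/2 y + (c+d)/2)` satisfies `aeval S' p' = aeval S p`, `p' ≥ 0` on `[-1,1]`; use
`fc_poly` and `fc_nonneg` of `Pool.Agent.VN.Fc`. If `c = d` then `S = c`; if `c > d` the space is
zero. Alternatively show that the real spectrum of `S` is contained in `[c, d]`
(`algebraMap_le_iff_le_spectrum`-type lemmas) and use `cfc_nonneg` directly.
`sqrtO`: the square root of a positive equivariant operator: `fc S Real.sqrt`, it commutes with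
the translations by `fc_comm`.
`hs_adjoint`: `hs T = Re tr (T* T) = Re tr (T T*)` (`tr_comm`).
`hs_proj_le`: `hs (T Q) = hs (Q T*) ≤ hs (T*) = hs T`.
`tr_pj_mono`: `B = C C`, `C` self-adjoint equivariant; `Re tr (Q B) = Re tr (C Q C) = hs (Q C)` and
`‖Q v‖ ≤ ‖Q' v‖` for `Q ≤ Q'`.
-/

namespace Pool.Agent.AH

open Pool.Agent.VN Pool.Agent.LFT

section Gen

variable {E : Type*} [NormedAddCommGroup E] [InnerProductSpace ℂ E] [CompleteSpace E]

theorem op_poly_nonneg {S : E →L[ℂ] E} {c d : ℝ} (hS : IsSelfAdjoint S)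
    (h1 : ∀ x, c * ‖x‖ ^ 2 ≤ (⟪x, S x⟫_ℂ).re) (h2 : ∀ x, (⟪x, S x⟫_ℂ).re ≤ d * ‖x‖ ^ 2)
    (p : Polynomial ℝ) (hp : ∀ t ∈ Set.Icc c d, 0 ≤ p.eval t) (x : E) :
    0 ≤ (⟪x, (Polynomial.aeval S p : E →L[ℂ] E) x⟫_ℂ).re := by
  have hpos : ∀ {T : E →L[ℂ] E}, IsSelfAdjoint T → (∀ y, 0 ≤ (⟪y, T y⟫_ℂ).re) → 0 ≤ T := by
    intro T hT h
    rw [ContinuousLinearMap.nonneg_iff_isPositive, ContinuousLinearMap.isPositive_def']
    refine ⟨hT, fun y => ?_⟩
    rw [ContinuousLinearMap.reApplyInnerSelf_apply, ← inner_conj_symm, RCLike.conj_re]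
    exact h y
  have hal : ∀ r : ℝ, IsSelfAdjoint (algebraMap ℝ (E →L[ℂ] E) r) := fun r =>
    IsSelfAdjoint.algebraMap _ (IsSelfAdjoint.all r)
  have hin : ∀ (r : ℝ) (y : E), (⟪y, (algebraMap ℝ (E →L[ℂ] E) r) y⟫_ℂ).re = r * ‖y‖ ^ 2 := by
    intro r y
    have e1 : (algebraMap ℝ (E →L[ℂ] E) r) y = ((r : ℝ) : ℂ) • y := by
      rw [Algebra.algebraMap_eq_smul_one]
      change r • y = _
      exact (Complex.coe_smul r y).symm
    rw [e1, inner_smul_right, inner_self_eq_norm_sq_to_K, Complex.re_ofReal_mul]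
    norm_cast
  have hc : algebraMap ℝ (E →L[ℂ] E) c ≤ S := by
    rw [← sub_nonneg]
    refine hpos (hS.sub (hal c)) fun y => ?_
    rw [_root_.sub_apply, inner_sub_right, Complex.sub_re, hin]
    linarith [h1 y]
  have hd : S ≤ algebraMap ℝ (E →L[ℂ] E) d := by
    rw [← sub_nonneg]
    refine hpos ((hal d).sub hS) fun y => ?_
    rw [_root_.sub_apply, inner_sub_right, Complex.sub_re, hin]
    linarith [h2 y]
  have h3 : 0 ≤ cfc (fun t => p.eval t) S := cfc_nonneg fun t ht =>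
    hp t ⟨(algebraMap_le_iff_le_spectrum (a := S) hS).1 hc t ht,
      (le_algebraMap_iff_spectrum_le (a := S) hS).1 hd t ht⟩
  rw [cfc_polynomial p S hS, ContinuousLinearMap.nonneg_iff_isPositive] at h3
  exact (Complex.le_def.mp (h3.inner_nonneg_right x)).1

theorem OpPos_sqrt {B : E →L[ℂ] E} (hB : IsSelfAdjoint B) (h : ∀ x, 0 ≤ (⟪x, B x⟫_ℂ).re) :
    IsSelfAdjoint (fc B Real.sqrt) ∧ fc B Real.sqrt * fc B Real.sqrt = B := by
  have hpos : 0 ≤ B := by
    rw [ContinuousLinearMap.nonneg_iff_isPositive, ContinuousLinearMap.isPositive_def']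
    refine ⟨hB, fun y => ?_⟩
    rw [ContinuousLinearMap.reApplyInnerSelf_apply, ← inner_conj_symm, RCLike.conj_re]
    exact h y
  refine ⟨cfc_predicate Real.sqrt B, ?_⟩
  rw [← fc_mul Real.continuous_sqrt Real.continuous_sqrt]
  unfold fc
  have h1 : ∀ t ∈ spectrum ℝ B, Real.sqrt t * Real.sqrt t = t := fun t ht =>
    Real.mul_self_sqrt (spectrum_nonneg_of_nonneg hpos ht)
  rw [cfc_congr h1]
  exact cfc_id' ℝ B hB

end Gen

section Pj

variable {α : Type}

lemma pj_mem {P : Submodule ℂ (Ell α)} (x : Ell α) : pj P x ∈ P := by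
  unfold pj
  split_ifs with h
  · have : CompleteSpace P := h.completeSpace_coe
    exact P.starProjection_apply_mem x
  · exact P.zero_mem

lemma pj_of_mem {P : Submodule ℂ (Ell α)} (hP : IsClosed (P : Set (Ell α))) {x : Ell α}
    (hx : x ∈ P) : pj P x = x := by
  have : CompleteSpace P := hP.completeSpace_coe
  rw [pj_eq hP]
  exact Submodule.starProjection_eq_self_iff.2 hx

lemma pj_sa (P : Submodule ℂ (Ell α)) : IsSelfAdjoint (pj P) := by
  unfold pj
  split_ifs with h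
  · have : CompleteSpace P := h.completeSpace_coe
    exact isSelfAdjoint_starProjection P
  · exact IsSelfAdjoint.zero _

lemma pj_idem (P : Submodule ℂ (Ell α)) : pj P ∘L pj P = pj P := by
  by_cases h : IsClosed (P : Set (Ell α))
  · ext1 x
    exact pj_of_mem h (pj_mem x)
  · have h1 : pj P = 0 := by
      unfold pj
      rw [dif_neg h]
    rw [h1]
    rfl

lemma norm_pj_le (P : Submodule ℂ (Ell α)) (x : Ell α) : ‖pj P x‖ ≤ ‖x‖ := by
  unfold pj
  split_ifs with h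
  · have : CompleteSpace P := h.completeSpace_coe
    have h1 := norm_sub_proj_sq P x
    have h2 := sq_nonneg ‖x - P.starProjection x‖
    exact le_of_sq_le_sq (by linarith) (norm_nonneg _)
  · change ‖(0 : Ell α)‖ ≤ ‖x‖
    rw [norm_zero]
    exact norm_nonneg _

lemma pj_mono {P Q : Submodule ℂ (Ell α)} (hQ : IsClosed (Q : Set (Ell α))) (h : P ≤ Q) :
    pj P ∘L pj Q = pj P ∧ pj Q ∘L pj P = pj P := by
  have h1 : pj Q ∘L pj P = pj P := by
    ext1 x
    exact pj_of_mem hQ (h (pj_mem x))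
  refine ⟨?_, h1⟩
  have h2 := congrArg ContinuousLinearMap.adjoint h1
  rw [ContinuousLinearMap.adjoint_comp] at h2
  have h3 : ContinuousLinearMap.adjoint (pj P) = pj P := pj_sa P
  have h4 : ContinuousLinearMap.adjoint (pj Q) = pj Q := pj_sa Q
  rwa [h3, h4] at h2

end Pj

section Hs

variable {ι κ G : Type} [Fintype ι] [Fintype κ] [Group G]

lemma pj_equivar {P : Submodule ℂ (L2 ι G)} (hP : CI P) : Equivar (pj P) := by
  have : CompleteSpace P := hP.cl.completeSpace_coe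
  rw [pj_eq hP.cl]
  exact hP.inv.proj

lemma tr_pj {P : Submodule ℂ (L2 ι G)} (hP : CI P) : (tr (pj P)).re = dm P := by
  have : CompleteSpace P := hP.cl.completeSpace_coe
  rw [pj_eq hP.cl, tr_proj, Complex.ofReal_re]
  rfl

lemma hs_pj {P : Submodule ℂ (L2 ι G)} (hP : CI P) : hs (pj P) = dm P := by
  have : CompleteSpace P := hP.cl.completeSpace_coe
  unfold hs dm
  rw [pj_eq hP.cl, vdim_eq_sum]

lemma hs_eq_tr {T : L2 ι G →L[ℂ] L2 κ G} :
    hs T = (tr (ContinuousLinearMap.adjoint T ∘L T)).re := by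
  unfold hs tr
  rw [Complex.re_sum]
  refine Finset.sum_congr rfl fun i _ => ?_
  rw [ContinuousLinearMap.comp_apply, ContinuousLinearMap.adjoint_inner_right,
    inner_self_eq_norm_sq_to_K]
  norm_cast

lemma hs_adjoint {T : L2 ι G →L[ℂ] L2 κ G} (hT : Equivar T) :
    hs (ContinuousLinearMap.adjoint T) = hs T := by
  rw [hs_eq_tr, hs_eq_tr, ContinuousLinearMap.adjoint_adjoint, tr_comm hT.adjoint hT]

lemma hs_nonneg (T : L2 ι G →L[ℂ] L2 κ G) : 0 ≤ hs T := by
  unfold hs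
  positivity

/-- triangle inequality -/
lemma sqrt_hs_add_le (S T : L2 ι G →L[ℂ] L2 κ G) :
    Real.sqrt (hs (S + T)) ≤ Real.sqrt (hs S) + Real.sqrt (hs T) := by
  let f : (L2 ι G →L[ℂ] L2 κ G) → PiLp 2 (fun _ : ι => L2 κ G) := fun T =>
    WithLp.toLp 2 fun i => T (dl (i, (1 : G)))
  have h1 : ∀ T, Real.sqrt (hs T) = ‖f T‖ := fun T => by
    rw [PiLp.norm_eq_of_L2]
    rfl
  have h2 : f (S + T) = f S + f T := rfl
  rw [h1, h1, h1, h2]
  exact norm_add_le _ _

theorem hs_proj_le {T : L2 ι G →L[ℂ] L2 κ G} (hT : Equivar T) {Q : Submodule ℂ (L2 ι G)}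
    (hQ : CI Q) : hs (T ∘L pj Q) ≤ hs T := by
  have h1 : hs (T ∘L pj Q) = hs (pj Q ∘L ContinuousLinearMap.adjoint T) := by
    rw [← hs_adjoint (hT.comp (pj_equivar hQ)), ContinuousLinearMap.adjoint_comp]
    have h2 : ContinuousLinearMap.adjoint (pj Q) = pj Q := pj_sa Q
    rw [h2]
  rw [h1, ← hs_adjoint hT]
  unfold hs
  refine Finset.sum_le_sum fun i _ => ?_
  exact pow_le_pow_left₀ (norm_nonneg _) (norm_pj_le _ _) 2

/-- square roots of positive equivariant operators -/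
theorem exists_sqrtO {B : L2 ι G →L[ℂ] L2 ι G} (hB : Equivar B) {d : ℝ} (h : BdO 0 d B) :
    ∃ C : L2 ι G →L[ℂ] L2 ι G, Equivar C ∧ IsSelfAdjoint C ∧ C ∘L C = B := by
  have h1 : ∀ x : L2 ι G, 0 ≤ (⟪x, B x⟫_ℂ).re := fun x => by
    have := h.lo x
    rwa [zero_mul] at this
  obtain ⟨h2, h3⟩ := OpPos_sqrt h.sym h1
  exact ⟨fc B Real.sqrt, fun s x => fc_comm (B := lt s) (fun x => hB s x) Real.sqrt x, h2, h3⟩

theorem tr_pj_mono {B : L2 ι G →L[ℂ] L2 ι G} (hB : Equivar B) {d : ℝ} (h : BdO 0 d B)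
    {Q Q' : Submodule ℂ (L2 ι G)} (hQ : CI Q) (hQ' : CI Q') (hle : Q ≤ Q') :
    (tr (pj Q ∘L B)).re ≤ (tr (pj Q' ∘L B)).re := by
  obtain ⟨C, hC, hCs, hCB⟩ := exists_sqrtO hB h
  have key : ∀ {P : Submodule ℂ (L2 ι G)}, CI P →
      (tr (pj P ∘L B)).re = ∑ i : ι, ‖pj P (C (dl (i, (1 : G))))‖ ^ 2 := by
    intro P hP
    have h1 : pj P ∘L B = (pj P ∘L C) ∘L C := by
      rw [← hCB]
      rfl
    rw [h1, tr_comm hC ((pj_equivar hP).comp hC)]
    unfold tr
    rw [Complex.re_sum]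
    refine Finset.sum_congr rfl fun i _ => ?_
    have h2 : ContinuousLinearMap.adjoint C = C := hCs
    have h3 : ContinuousLinearMap.adjoint (pj P) = pj P := pj_sa P
    set v := C (dl (i, (1 : G))) with hv
    change (⟪dl (i, (1 : G)), C (pj P v)⟫_ℂ).re = _
    rw [← h2, ContinuousLinearMap.adjoint_inner_right, ← hv]
    have h4 : pj P v = pj P (pj P v) :=
      (congrArg (fun T : L2 ι G →L[ℂ] L2 ι G => T v) (pj_idem P)).symm
    rw [h4]
    conv_lhs => rw [← h3]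
    rw [ContinuousLinearMap.adjoint_inner_right]
    rw [h3, ← h4, inner_self_eq_norm_sq_to_K]
    norm_cast
  rw [key hQ, key hQ']
  refine Finset.sum_le_sum fun i _ => ?_
  refine pow_le_pow_left₀ (norm_nonneg _) ?_ 2
  have h1 := (pj_mono hQ'.cl hle).1
  rw [← h1, ContinuousLinearMap.comp_apply]
  exact norm_pj_le _ _

end Hs

end Pool.Agent.AH
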