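import Pool.Agent.AH.AlgG
import Pool.Agent.AH.AlgL
import Pool.Agent.AH.AlgX
import Pool.Agent.AH.OpPos

set_option autoImplicit false
set_option linter.unusedSectionVars false

noncomputable section

open scoped InnerProductSpace ENNReal Topology Matrix
open Classical Filter ContinuousLinearMap

/-!
PACKAGE AH-APPY. Approximation of `1 - P` by a local matrix with rational coefficients.

Let `Q = 1 - pj P`. For `i`, `j`, `u`: `c i j u = (Q (dl (i, 1))) (j, u)` is real, because `P` is
real (`pj P` commutes with `cj`, and `cj (dl q) = dl q`), and zero unless `u • d j = d i`, because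
`P` is local (`Loc (pV d) P`: `cutF (pV d) (d i)` commutes with `pj P`; `dl (i, 1)` is in the piece
of `d i`; `pV d (j, u) = u • d j`).
Choose a finite set of `u` such that the sum of the `|c i j u|^2` over all `i`, `j` and all other
`u` is at most `δ^2/2`, and rational numbers near the `c i j u` (zero where `c i j u = 0`) such that
the list `y0` of all the terms `(c', j, i, FreeGroup.of u)` satisfies `hs (oG y0 - Q) ≤ δ^2`: note
`oG y0 (dl (i,1)) = ∑ c' dl (j, u)` (`elem_apply`). It is local: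
`(pw (of u))⁻¹ • d i = u⁻¹ • d i = d j`.
Put `y = sml (1/2) (y0 ++ adj y0)`: local (`adj` of a local list is local), its matrices on models
are symmetric, its operator is self-adjoint, and `oG y - Q = ((oG y0 - Q) + (oG y0 - Q)*)/2`, so
`sqrt (hs (oG y - Q)) ≤ δ` by the triangle inequality and `hs_adjoint`.
-/

namespace Pool.Agent.AH

open Pool.Agent.VN Pool.Agent.LFT

/-- approximation of real vectors by finitely supported rational vectors -/
theorem AppY_rat_vec {α : Type} (x : Ell α) (hx : ∀ a, (x a).im = 0) {δ : ℝ} (hδ : 0 < δ) :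
    ∃ a : α →₀ ℚ, (∀ p ∈ a.support, x p ≠ 0) ∧
      ‖(∑ p ∈ a.support, ((a p : ℚ) : ℂ) • (dl p : Ell α)) - x‖ < δ := by
  have h1 := lp.hasSum_single (E := fun _ : α => ℂ) (p := 2) (by norm_num) x
  have h2 : ∀ᶠ s : Finset α in atTop, ‖(∑ p ∈ s, lp.single 2 p (x p)) - x‖ < δ / 2 := by
    have h3 := (Metric.tendsto_nhds.mp h1) (δ / 2) (by positivity)
    filter_upwards [h3] with s hs
    rwa [dist_eq_norm] at hs
  obtain ⟨s, hs⟩ := h2.exists
  -- rational approximations of the coefficients
  have h4 : ∀ p, ∃ q : ℚ, |(q : ℝ) - (x p).re| < δ / (2 * (s.card + 1)) := by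
    intro p
    have hpos : 0 < δ / (2 * (s.card + 1)) := by positivity
    obtain ⟨q, hq⟩ := exists_rat_btwn
      (show (x p).re - δ / (2 * (s.card + 1)) < (x p).re by linarith)
    refine ⟨q, ?_⟩
    rw [abs_lt]
    constructor
    · linarith [hq.1]
    · linarith [hq.2]
  choose q hq using h4
  set a : α →₀ ℚ := Finsupp.onFinset s (fun p => if p ∈ s ∧ x p ≠ 0 then q p else 0) (by
    intro p hp
    by_contra hps
    apply hp
    rw [if_neg]
    exact fun h => hps h.1) with ha
  have ha1 : ∀ p, a p = if p ∈ s ∧ x p ≠ 0 then q p else 0 := fun p => rfl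
  have hasub : a.support ⊆ s := Finsupp.support_onFinset_subset
  refine ⟨a, ?_, ?_⟩
  · intro p hp h0
    rw [Finsupp.mem_support_iff, ha1, if_neg (fun h => h.2 h0)] at hp
    exact hp rfl
  · have h5 : (∑ p ∈ a.support, ((a p : ℚ) : ℂ) • (dl p : Ell α)) =
        ∑ p ∈ s, ((a p : ℚ) : ℂ) • dl p := by
      refine Finset.sum_subset hasub fun p _ hp => ?_
      rw [Finsupp.notMem_support_iff] at hp
      rw [hp]
      simp
    have h6 : ‖(∑ p ∈ s, ((a p : ℚ) : ℂ) • (dl p : Ell α)) -
        ∑ p ∈ s, lp.single 2 p (x p)‖ ≤ δ / 2 := by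
      rw [← Finset.sum_sub_distrib]
      refine (norm_sum_le _ _).trans ?_
      have h7 : ∀ p ∈ s, ‖((a p : ℚ) : ℂ) • (dl p : Ell α) - lp.single 2 p (x p)‖
          ≤ δ / (2 * (s.card + 1)) := by
        intro p hp
        have h8 : lp.single 2 p (x p) = (x p) • (dl p : Ell α) := by
          ext r
          show (lp.single 2 p (x p) : Ell α) r = (x p) * (dl p : Ell α) r
          rw [dl_apply, lp.single_apply]
          by_cases h : r = p
          · subst h; simp
          · simp [h]
        rw [h8, ← sub_smul, norm_smul, norm_dl, mul_one, ha1]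
        by_cases h0 : x p = 0
        · rw [if_neg (fun h => h.2 h0), h0]
          simp
          positivity
        · rw [if_pos ⟨hp, h0⟩]
          have h9 : x p = (((x p).re : ℝ) : ℂ) := by
            apply Complex.ext
            · simp
            · simp [hx p]
          rw [h9]
          have h10 : ((q p : ℚ) : ℂ) - (((x p).re : ℝ) : ℂ) = (((q p : ℝ) - (x p).re : ℝ) : ℂ) := by
            push_cast; rfl
          rw [h10, Complex.norm_real, Real.norm_eq_abs]
          exact (hq p).le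
      refine (Finset.sum_le_sum h7).trans ?_
      rw [Finset.sum_const, nsmul_eq_mul]
      have h11 : (0 : ℝ) ≤ s.card := Nat.cast_nonneg _
      rw [← mul_div_assoc, div_le_div_iff₀ (by positivity) (by norm_num)]
      nlinarith
    rw [h5]
    calc ‖(∑ p ∈ s, ((a p : ℚ) : ℂ) • (dl p : Ell α)) - x‖
        = ‖((∑ p ∈ s, ((a p : ℚ) : ℂ) • (dl p : Ell α)) - ∑ p ∈ s, lp.single 2 p (x p)) +
          ((∑ p ∈ s, lp.single 2 p (x p)) - x)‖ := by rw [sub_add_sub_cancel]
      _ ≤ _ := norm_add_le _ _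
      _ < δ := by linarith

/-- the value of an operator on a basis vector -/
theorem AppY_oG_dl {ι κ G : Type} [Group G] (L : LQ κ ι (FreeGroup G)) (i0 : ι) :
    oG L (dl (i0, (1 : G))) = (L.map fun t => if t.2.2.1 = i0 then
      ((t.1 : ℚ) : ℂ) • (dl (t.2.1, pw G t.2.2.2) : L2 κ G) else 0).sum := by
  induction L with
  | nil => rfl
  | cons t L ih =>
    have h1 : oG (t :: L) = (t.1 : ℂ) • (elem t.2.1 (t.2.2.1, pw G t.2.2.2) : L2 ι G →L[ℂ] L2 κ G)
        + oG L := opL_cons _ _ _
    rw [h1, List.map_cons, List.sum_cons, ← ih]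
    have h2 : ((t.1 : ℂ) • (elem t.2.1 (t.2.2.1, pw G t.2.2.2) : L2 ι G →L[ℂ] L2 κ G) + oG L)
        (dl (i0, (1 : G))) = (t.1 : ℂ) • (elem t.2.1 (t.2.2.1, pw G t.2.2.2) :
          L2 ι G →L[ℂ] L2 κ G) (dl (i0, (1 : G))) + oG L (dl (i0, (1 : G))) := rfl
    rw [h2]
    congr 1
    ext q
    have h3 : ((t.1 : ℂ) • (elem t.2.1 (t.2.2.1, pw G t.2.2.2) : L2 ι G →L[ℂ] L2 κ G)
        (dl (i0, (1 : G)))) q = (t.1 : ℂ) * (elem t.2.1 (t.2.2.1, pw G t.2.2.2) :
          L2 ι G →L[ℂ] L2 κ G) (dl (i0, (1 : G))) q := rfl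
    rw [h3, elem_apply, dl_apply]
    by_cases hi : t.2.2.1 = i0
    · rw [if_pos hi]
      have h4 : ((t.1 : ℂ) • (dl (t.2.1, pw G t.2.2.2) : L2 κ G)) q =
          (t.1 : ℂ) * (dl (t.2.1, pw G t.2.2.2) : L2 κ G) q := rfl
      rw [h4, dl_apply]
      congr 1
      obtain ⟨q1, q2⟩ := q
      simp only [Prod.mk.injEq, hi, true_and]
      by_cases hq : q1 = t.2.1
      · rw [if_pos hq]
        congr 1
        rw [eq_iff_iff, mul_inv_eq_one]
        constructor
        · exact fun h => ⟨hq, h⟩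
        · exact fun h => h.2
      · rw [if_neg hq, if_neg fun h => hq h.1]
    · rw [if_neg hi]
      have h5 : ¬ ((t.2.2.1, q.2 * (pw G t.2.2.2)⁻¹) = (i0, (1 : G))) := fun h =>
        hi (congrArg Prod.fst h)
      simp only
      rw [if_neg h5]
      simp

theorem AppY_sum_toList {A B : Type*} [AddCommMonoid B] (s : Finset A) (f : A → B) :
    (s.toList.map f).sum = ∑ a ∈ s, f a := Finset.sum_map_toList s f

/-- the list of a finite family of rational vectors -/
theorem AppY_list {ι G : Type} [Fintype ι] [Group G] (a : ι → (ι × G →₀ ℚ)) :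
    ∃ L : LQ ι ι (FreeGroup G),
      (∀ t ∈ L, ∃ i, ∃ q ∈ (a i).support, t = (a i q, q.1, i, FreeGroup.of q.2)) ∧
      ∀ i, oG L (dl (i, (1 : G))) =
        ∑ p ∈ (a i).support, ((a i p : ℚ) : ℂ) • (dl p : L2 ι G) := by
  refine ⟨(Finset.univ : Finset ι).toList.flatMap fun i =>
    (a i).support.toList.map fun q => (a i q, q.1, i, FreeGroup.of q.2), ?_, ?_⟩
  · intro t ht
    obtain ⟨i, _, hi⟩ := List.mem_flatMap.mp ht
    obtain ⟨q, hq, rfl⟩ := List.mem_map.mp hi
    exact ⟨i, q, Finset.mem_toList.mp hq, rfl⟩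
  · intro i0
    have h1 : ∀ i : ι, oG ((a i).support.toList.map fun q =>
        ((a i q, q.1, i, FreeGroup.of q.2) : ℚ × ι × ι × FreeGroup G)) (dl (i0, (1 : G))) =
        if i = i0 then ∑ p ∈ (a i).support, ((a i p : ℚ) : ℂ) • (dl p : L2 ι G) else 0 := by
      intro i
      rw [AppY_oG_dl, List.map_map, AppY_sum_toList]
      by_cases hi : i = i0
      · rw [if_pos hi]
        refine Finset.sum_congr rfl fun q _ => ?_
        have h3 : pw G (FreeGroup.of q.2) = q.2 := by
          unfold pw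
          rw [FreeGroup.lift_apply_of]
          rfl
        show (if i = i0 then ((a i q : ℚ) : ℂ) • (dl (q.1, pw G (FreeGroup.of q.2)) : L2 ι G)
          else 0) = _
        rw [if_pos hi, h3]
      · rw [if_neg hi]
        refine Finset.sum_eq_zero fun q _ => ?_
        show (if i = i0 then ((a i q : ℚ) : ℂ) • (dl (q.1, pw G (FreeGroup.of q.2)) : L2 ι G)
          else 0) = _
        rw [if_neg hi]
    rw [AlgG_flatMap, AppY_sum_toList, _root_.sum_apply, Finset.sum_congr rfl fun i _ => h1 i,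
      Finset.sum_ite_eq' Finset.univ i0, if_pos (Finset.mem_univ _)]

/-- real and local coefficients of the projection -/
theorem AppY_real {α : Type} {P : Submodule ℂ (Ell α)} (hP : IsClosed (P : Set (Ell α)))
    (hr : Realv P) (a q : α) : (pj P (dl a) q).im = 0 := by
  have : CompleteSpace P := hP.completeSpace_coe
  rw [pj_eq hP]
  have hcj : ∀ x y : Ell α, ⟪cj x, y⟫_ℂ = star ⟪x, cj y⟫_ℂ := by
    intro x y
    have h1 := hasSum_inner' (cj x) y
    have h2 := (hasSum_inner' x (cj y)).star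
    refine h1.unique ?_
    convert h2 using 2 with b
    show star (star (x b)) * y b = star (star (x b) * star (y b))
    rw [star_star, star_mul', star_star, star_star]
  have h1 : P.starProjection (dl a) = cj (P.starProjection (dl a)) := by
    apply Submodule.eq_starProjection_of_mem_of_inner_eq_zero
    · exact hr _ (Submodule.starProjection_apply_mem _ _)
    · intro w hw
      have h2 : dl a - cj (P.starProjection (dl a)) = cj (dl a - P.starProjection (dl a)) := by
        ext b
        show (dl a : Ell α) b - star (P.starProjection (dl a) b) =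
          star ((dl a : Ell α) b - P.starProjection (dl a) b)
        rw [star_sub, dl_apply]
        congr 1
        split_ifs <;> simp
      rw [h2, hcj, P.starProjection_inner_eq_zero _ _ (hr w hw), star_zero]
  have h2 : P.starProjection (dl a) q = star (P.starProjection (dl a) q) :=
    congrArg (fun x : Ell α => x q) h1
  exact Complex.conj_eq_iff_im.mp h2.symm

theorem AppY_hs_smul {ι κ G : Type} [Fintype ι] [Group G] (c : ℂ) (T : L2 ι G →L[ℂ] L2 κ G) :
    hs (c • T) = ‖c‖ ^ 2 * hs T := by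
  unfold hs
  rw [Finset.mul_sum]
  refine Finset.sum_congr rfl fun i _ => ?_
  show ‖c • T (dl (i, 1))‖ ^ 2 = _
  rw [norm_smul, mul_pow]

variable {ι : Type} [Fintype ι] {G D : Type} [Group G] [MulAction G D]

theorem exists_y (d : ι → D) {P : Submodule ℂ (L2 ι G)} (hP : CI P) (hl : Loc (pV d) P)
    (hr : Realv P) {δ : ℝ} (hδ : 0 < δ) :
    ∃ y : LQ ι ι (FreeGroup G), LocL d d y ∧ (∀ M : Mod G, (mR M y).IsHermitian) ∧
      IsSelfAdjoint (oG y) ∧ hs (oG y - (1 - pj P)) ≤ δ ^ 2 := by
  have : CompleteSpace P := hP.cl.completeSpace_coe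
  set Q : L2 ι G →L[ℂ] L2 ι G := 1 - pj P with hQ
  have hQe : Equivar Q := Equivar.one.sub (pj_equivar hP)
  have hQs : IsSelfAdjoint Q := (IsSelfAdjoint.one _).sub (pj_sa P)
  have hQv : ∀ (x : L2 ι G) (q : ι × G), Q x q = x q - pj P x q := fun x q => rfl
  have hreal : ∀ i q, (Q (dl (i, (1 : G))) q).im = 0 := by
    intro i q
    rw [hQv, Complex.sub_im, AppY_real hP.cl hr, sub_zero, dl_apply]
    split_ifs <;> simp
  have hloc : ∀ i q, Q (dl (i, (1 : G))) q ≠ 0 → pV d q = d i := by
    intro i q hq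
    by_contra hne
    apply hq
    have h1 : cutF (pV (G := G) d) (d i) (dl (i, (1 : G)) : L2 ι G) = dl (i, 1) := by
      ext r
      rw [cutF_apply, dl_apply]
      by_cases hr : r = (i, (1 : G))
      · subst hr
        rw [if_pos (show pV d (i, (1 : G)) = d i from one_smul _ _)]
      · rw [if_neg hr, ite_self]
    have h2 : pj P (dl (i, (1 : G))) q = 0 := by
      rw [pj_eq hP.cl, ← h1, hl.proj, cutF_apply, if_neg hne]
    have h3 : (dl (i, (1 : G)) : L2 ι G) q = 0 := by
      rw [← h1, cutF_apply, if_neg hne]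
    rw [hQv, h2, h3, sub_zero]
  -- the approximation
  have hn : (0 : ℝ) ≤ Fintype.card ι := Nat.cast_nonneg _
  have hη : 0 < δ / (Fintype.card ι + 1) := by positivity
  have h1 := fun i : ι => AppY_rat_vec (Q (dl (i, (1 : G)))) (hreal i) hη
  choose a ha1 ha2 using h1
  obtain ⟨y0, hy1, hy2⟩ := AppY_list a
  have hLoc : LocL d d y0 := by
    intro t ht
    obtain ⟨i, q, hq, rfl⟩ := hy1 t ht
    have h2 := hloc i q (ha1 i q hq)
    have h3 : pw G (FreeGroup.of q.2) = q.2 := by
      unfold pw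
      rw [FreeGroup.lift_apply_of]
      rfl
    show (pw G (FreeGroup.of q.2))⁻¹ • d i = d q.1
    rw [h3, ← h2]
    show q.2⁻¹ • (q.2 • d q.1) = d q.1
    rw [smul_smul, inv_mul_cancel, one_smul]
  have hD : hs (oG y0 - Q) ≤ δ ^ 2 := by
    unfold hs
    have h4 : ∀ i ∈ (Finset.univ : Finset ι), ‖(oG y0 - Q) (dl (i, (1 : G)))‖ ^ 2 ≤
        (δ / (Fintype.card ι + 1)) ^ 2 := by
      intro i _
      have h5 : (oG y0 - Q) (dl (i, (1 : G))) = oG y0 (dl (i, 1)) - Q (dl (i, 1)) := rfl
      rw [h5, hy2]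
      exact pow_le_pow_left₀ (norm_nonneg _) (ha2 i).le 2
    refine (Finset.sum_le_sum h4).trans ?_
    rw [Finset.sum_const, nsmul_eq_mul, Finset.card_univ, div_pow, ← mul_div_assoc,
      div_le_iff₀ (by positivity)]
    nlinarith [sq_nonneg δ, mul_nonneg hn (sq_nonneg δ), mul_nonneg (mul_nonneg hn hn)
      (sq_nonneg δ)]
  have hDe : Equivar (oG y0 - Q) := (oG_equivar y0).sub hQe
  have hop : oG (sml (1 / 2) (y0 ++ adj y0)) =
      ((1 / 2 : ℚ) : ℂ) • (oG (G := G) y0 + ContinuousLinearMap.adjoint (oG y0)) := by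
    rw [oG_sml, oG_append, oG_adj]
  refine ⟨sml (1 / 2) (y0 ++ adj y0), (hLoc.append hLoc.adj).sml _, ?_, ?_, ?_⟩
  · intro M
    rw [mR_sml, mR_append, mR_adj]
    ext q p
    simp only [Matrix.conjTranspose_apply, Matrix.smul_apply, Matrix.add_apply,
      Matrix.transpose_apply, star_trivial, smul_eq_mul]
    ring
  · rw [hop]
    refine IsSelfAdjoint.smul ?_ ?_
    · rw [isSelfAdjoint_iff]
      simp
    · rw [isSelfAdjoint_iff, star_add, ContinuousLinearMap.star_eq_adjoint,
        ContinuousLinearMap.star_eq_adjoint, ContinuousLinearMap.adjoint_adjoint, add_comm]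
  · have h6 : oG (sml (1 / 2) (y0 ++ adj y0)) - Q = ((1 / 2 : ℝ) : ℂ) • (oG y0 - Q) +
        ((1 / 2 : ℝ) : ℂ) • ContinuousLinearMap.adjoint (oG y0 - Q) := by
      have h7 : ContinuousLinearMap.adjoint (oG y0 - Q) =
          ContinuousLinearMap.adjoint (oG y0) - Q := by
        rw [map_sub]
        congr 1
      rw [hop, h7]
      have h8 : ((1 / 2 : ℚ) : ℂ) = 1 / 2 := by push_cast; ring
      have h9 : ((1 / 2 : ℝ) : ℂ) = 1 / 2 := by push_cast; ring
      rw [h8, h9]
      clear_value Q
      module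
    have h10 := sqrt_hs_add_le (((1 / 2 : ℝ) : ℂ) • (oG y0 - Q))
      (((1 / 2 : ℝ) : ℂ) • ContinuousLinearMap.adjoint (oG y0 - Q))
    rw [← h6, AppY_hs_smul, AppY_hs_smul, hs_adjoint hDe, Complex.norm_real,
      Real.norm_of_nonneg (by norm_num)] at h10
    have h11 : Real.sqrt ((1 / 2) ^ 2 * hs (oG y0 - Q)) ≤ δ / 2 := by
      refine Real.sqrt_le_iff.mpr ⟨by positivity, ?_⟩
      nlinarith
    have h12 : Real.sqrt (hs (oG (sml (1 / 2) (y0 ++ adj y0)) - Q)) ≤ δ := by linarith
    exact (Real.sqrt_le_left hδ.le).mp h12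

end Pool.Agent.AH
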