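import Pool.Agent.AH.Final
import Pool.Agent.HI.A4

set_option autoImplicit false
set_option linter.unusedSectionVars false

noncomputable section

open scoped InnerProductSpace ENNReal Topology Matrix
open Classical Filter ContinuousLinearMap

/-!
Amenable edge groups: approximation along arbitrary nets of homomorphisms.
-/

namespace Pool.Agent.AH

open Pool.Agent.VN Pool.Agent.LFT Pool.Agent.HX

open Pool.Agent.HI Pool.Agent.HC

variable {G V : Type} [Group G] [MulAction G V]

/-- the formula for trees with amenable edge stabilisers -/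
theorem af_amenable (hG : IsSofic G) (T : SimpleGraph V) (hT : T.IsTree)
    (hadj : ∀ (g : G) (u v : V), T.Adj u v → T.Adj (g • u) (g • v))
    (hE : ∀ u v : V, T.Adj u v →
      Amn (MulAction.stabilizer G u ⊓ MulAction.stabilizer G v : Subgroup G)) :
    @AF Qc G _ T.Dart V {e : Sym2 V // e ∈ T.edgeSet} (dartAct T hadj) _ (edgeAct T hadj)
      (fun e : T.Dart => e.fst)
      (fun e : T.Dart => (⟨e.edge, e.edge_mem⟩ : {e : Sym2 V // e ∈ T.edgeSet})) := by
  have hsf := sf_neBot hG
  let i1 : MulAction G T.Dart := dartAct T hadj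
  let i2 : MulAction G {e : Sym2 V // e ∈ T.edgeSet} := edgeAct T hadj
  set α0 : T.Dart → V := fun e => e.fst with hα0
  set α1 : T.Dart → {e : Sym2 V // e ∈ T.edgeSet} := fun e => ⟨e.edge, e.edge_mem⟩ with hα1
  have h0 : Eqv G α0 := fun g δ => rfl
  have h1 : Eqv G α1 := fun g δ => rfl
  have hhalf := tree_half T hT
  have hst : ∀ δ : T.Dart, MulAction.stabilizer G δ
      = MulAction.stabilizer G δ.fst ⊓ MulAction.stabilizer G δ.snd := by
    intro δ
    ext g
    rw [Subgroup.mem_inf, MulAction.mem_stabilizer_iff, MulAction.mem_stabilizer_iff,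
      MulAction.mem_stabilizer_iff]
    constructor
    · intro h
      exact ⟨congrArg (fun e : T.Dart => e.fst) h, congrArg (fun e : T.Dart => e.snd) h⟩
    · rintro ⟨h, h'⟩
      apply SimpleGraph.Dart.ext
      exact Prod.ext h h'
  have hD : ∀ δ : T.Dart, Amn (MulAction.stabilizer G δ) := by
    intro δ
    rw [hst δ]
    exact hE _ _ δ.adj
  intro ι _ d K0 K1 hK0 hK1 ε hε
  obtain ⟨P, hP, hl, hr, hf⟩ := formula_real α0 α1 h0 h1 hhalf d hK0.ci hK1.ci hK0.loc hK1.loc
    (realv_rat hK0) (realv_rat hK1)
  have hU0 : Rat Qc (fun _ : ι => ()) K0 := hK0.mapLab (fun _ : V => ()) fun _ _ => rfl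
  have hU1 : Rat Qc (fun _ : ι => ()) K1 :=
    hK1.mapLab (fun _ : {e : Sym2 V // e ∈ T.edgeSet} => ()) fun _ _ => rfl
  obtain ⟨S, hS, h⟩ := main_ineq hsf d (fun i => hD (d i)) hP hl hr hU0 hU1 hε
  exact ⟨S, hS, by rw [hf]; exact h⟩

/-- Let a sofic group `G` act by automorphisms and without inversions on a tree such that the
stabilisers of all edges are amenable, and let `π i : G → H i` be homomorphisms such that every
`g ≠ 1` eventually has nontrivial image. If approximation over `ℚ` holds for the stabilisers of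
all vertices along the restrictions of the `π i` then it holds for `G`. -/
theorem approx_amenable (hG : IsSofic G) (T : SimpleGraph V) (hT : T.IsTree)
    (hadj : ∀ (g : G) (u v : V), T.Adj u v → T.Adj (g • u) (g • v))
    (hinv : ∀ (g : G) (u v : V), T.Adj u v → ¬ (g • u = v ∧ g • v = u))
    (hE : ∀ u v : V, T.Adj u v →
      Amn (MulAction.stabilizer G u ⊓ MulAction.stabilizer G v : Subgroup G))
    {I : Type} (l : Filter I) {H : I → Type} [∀ i, Group (H i)] (π : ∀ i, G →* H i)
    (hπ : ∀ g : G, g ≠ 1 → ∀ᶠ i in l, π i g ≠ 1)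
    (h : ∀ v : V, ApproxAlong Qc l (fun i => (π i).comp (MulAction.stabilizer G v).subtype)) :
    ApproxAlong Qc l π :=
  approx_tree T hT hadj hinv (af_amenable hG T hT hadj hE) l π hπ h

end Pool.Agent.AH
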