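import Pool.Agent.AH.LatF

/-!
Amenable edges, lattice block, part G: the slope filtration.
-/

set_option linter.unusedSectionVars false

namespace AHL

open Matrix Module
open scoped MatrixOrder

variable {J : Type*} [Fintype J] [DecidableEq J] {I : Type*} [Fintype I] [DecidableEq I]

/-- the degree: minus the logarithm of the covolume -/
noncomputable def deg (b : Matrix J J ℝ) (W : Submodule ℚ (J → ℚ)) : ℝ :=
  -(1 / 2) * Real.log (gdet b W)

/-- degree minus `t` times dimension -/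
noncomputable def hgt (b : Matrix J J ℝ) (t : ℝ) (W : Submodule ℚ (J → ℚ)) : ℝ :=
  deg b W - t * finrank ℚ W

/-- all entries are rational -/
def RatMat (b : Matrix J J ℝ) : Prop :=
  ∃ D : ℕ, 0 < D ∧ ∃ B : Matrix J J ℤ, (D : ℝ) • b = B.map (Int.cast : ℤ → ℝ)

theorem deg_super {b : Matrix J J ℝ} (hb : b.PosDef) (W W' : Submodule ℚ (J → ℚ)) :
    deg b W + deg b W' ≤ deg b (W ⊔ W') + deg b (W ⊓ W') := by
  have h := gdet_super hb W W'
  have p1 := gdet_pos hb W
  have p2 := gdet_pos hb W'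
  have p3 := gdet_pos hb (W ⊔ W')
  have p4 := gdet_pos hb (W ⊓ W')
  have h2 := Real.log_le_log (by positivity) h
  rw [Real.log_mul p3.ne' p4.ne', Real.log_mul p1.ne' p2.ne'] at h2
  unfold deg
  linarith

theorem hgt_super {b : Matrix J J ℝ} (hb : b.PosDef) (t : ℝ) (W W' : Submodule ℚ (J → ℚ)) :
    hgt b t W + hgt b t W' ≤ hgt b t (W ⊔ W') + hgt b t (W ⊓ W') := by
  have h := deg_super hb W W'
  have h2 : (finrank ℚ (W ⊔ W' : Submodule ℚ (J → ℚ)) : ℝ) +
      finrank ℚ (W ⊓ W' : Submodule ℚ (J → ℚ)) = finrank ℚ W + finrank ℚ W' := by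
    exact_mod_cast Submodule.finrank_sup_add_finrank_inf_eq W W'
  unfold hgt
  have h3 : t * (finrank ℚ (W ⊔ W' : Submodule ℚ (J → ℚ)) : ℝ) +
      t * finrank ℚ (W ⊓ W' : Submodule ℚ (J → ℚ)) = t * finrank ℚ W + t * finrank ℚ W' := by
    rw [← mul_add, h2, mul_add]
  linarith

theorem gdet_nat {b : Matrix J J ℝ} (hb : b.PosDef) {D : ℕ} (hD : 0 < D) {B : Matrix J J ℤ}
    (h : (D : ℝ) • b = B.map (Int.cast : ℤ → ℝ)) (W : Submodule ℚ (J → ℚ)) :
    ∃ N : ℕ, (N : ℝ) = (D : ℝ) ^ (Fintype.card J) * gdet b W := by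
  set v : Fin (finrank ℤ (lat W)) → J → ℤ :=
    fun i => ((Module.finBasis ℤ (lat W) i : lat W) : J → ℤ) with hv
  have h1 : (D : ℝ) • gram b v = (Matrix.of fun x y => ∑ j, ∑ i, v x i * B i j * v y j :
      Matrix (Fin (finrank ℤ (lat W))) (Fin (finrank ℤ (lat W))) ℤ).map (Int.cast : ℤ → ℝ) := by
    rw [← gram_smul, h]
    ext x y
    simp [gram, rows, Matrix.mul_apply, Finset.sum_mul]
  set C : Matrix (Fin (finrank ℤ (lat W))) (Fin (finrank ℤ (lat W))) ℤ :=
    Matrix.of fun x y => ∑ j, ∑ i, v x i * B i j * v y j with hC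
  have h2 : (C.map (Int.cast : ℤ → ℝ)).det = ((C.det : ℤ) : ℝ) := by
    have := (Int.castRingHom ℝ).map_det C
    simpa using this.symm
  have h3 : (D : ℝ) ^ (finrank ℤ (lat W)) * gdet b W = ((C.det : ℤ) : ℝ) := by
    rw [← h2, ← h1, det_smul, Fintype.card_fin]
    rfl
  have h4 : finrank ℤ (lat W) ≤ Fintype.card J := by
    rw [finrank_lat]
    have := Submodule.finrank_le W
    simpa using this
  have h5 : 0 < (D : ℝ) := by exact_mod_cast hD
  have h6 : 0 < C.det := by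
    have : (0 : ℝ) < ((C.det : ℤ) : ℝ) := by
      rw [← h3]
      have := gdet_pos hb W
      positivity
    exact_mod_cast this
  refine ⟨D ^ (Fintype.card J - finrank ℤ (lat W)) * C.det.toNat, ?_⟩
  have h7 : ((C.det.toNat : ℕ) : ℝ) = ((C.det : ℤ) : ℝ) := by
    have : ((C.det.toNat : ℕ) : ℤ) = C.det := Int.toNat_of_nonneg h6.le
    exact_mod_cast this
  push_cast
  rw [h7, ← h3, ← mul_assoc, ← pow_add, Nat.sub_add_cancel h4]

theorem exists_min_dim {b : Matrix J J ℝ} (hb : b.PosDef) (hr : RatMat b) (r : ℕ)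
    (h : ∃ W : Submodule ℚ (J → ℚ), finrank ℚ W = r) :
    ∃ W : Submodule ℚ (J → ℚ), finrank ℚ W = r ∧
      ∀ W' : Submodule ℚ (J → ℚ), finrank ℚ W' = r → gdet b W ≤ gdet b W' := by
  classical
  obtain ⟨D, hD, B, hB⟩ := hr
  have h5 : 0 < (D : ℝ) := by exact_mod_cast hD
  have hne : ∃ N : ℕ, ∃ W : Submodule ℚ (J → ℚ), finrank ℚ W = r ∧
      (N : ℝ) = (D : ℝ) ^ (Fintype.card J) * gdet b W := by
    obtain ⟨W, hW⟩ := h
    obtain ⟨N, hN⟩ := gdet_nat hb hD hB W
    exact ⟨N, W, hW, hN⟩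
  obtain ⟨W, hW, hN⟩ := Nat.find_spec hne
  refine ⟨W, hW, fun W' hW' => ?_⟩
  obtain ⟨N', hN'⟩ := gdet_nat hb hD hB W'
  have h1 : Nat.find hne ≤ N' := Nat.find_min' hne ⟨W', hW', hN'⟩
  have h2 : ((Nat.find hne : ℕ) : ℝ) ≤ N' := by exact_mod_cast h1
  rw [hN, hN'] at h2
  exact le_of_mul_le_mul_left h2 (by positivity)

theorem exists_max {b : Matrix J J ℝ} (hb : b.PosDef) (hr : RatMat b) (t : ℝ) :
    ∃ W : Submodule ℚ (J → ℚ), ∀ W' : Submodule ℚ (J → ℚ), hgt b t W' ≤ hgt b t W := by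
  classical
  set s : Finset ℕ := (Finset.range (Fintype.card J + 1)).filter
    (fun r => ∃ W : Submodule ℚ (J → ℚ), finrank ℚ W = r) with hs
  have hmem : ∀ W : Submodule ℚ (J → ℚ), finrank ℚ W ∈ s := by
    intro W
    rw [hs, Finset.mem_filter, Finset.mem_range]
    refine ⟨?_, W, rfl⟩
    have := Submodule.finrank_le W
    have h2 : finrank ℚ (J → ℚ) = Fintype.card J := by simp
    omega
  let f : ℕ → Submodule ℚ (J → ℚ) := fun r =>
    if h : ∃ W : Submodule ℚ (J → ℚ), finrank ℚ W = r then (exists_min_dim hb hr r h).choose else ⊥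
  obtain ⟨r, hr1, hr2⟩ := Finset.exists_max_image s (fun r => hgt b t (f r)) ⟨_, hmem ⊥⟩
  refine ⟨f r, fun W' => le_trans ?_ (hr2 _ (hmem W'))⟩
  have hex : ∃ W : Submodule ℚ (J → ℚ), finrank ℚ W = finrank ℚ W' := ⟨W', rfl⟩
  have hf : f (finrank ℚ W') = (exists_min_dim hb hr _ hex).choose := by
    simp only [f]
    rw [dif_pos hex]
  have hsp := (exists_min_dim hb hr _ hex).choose_spec
  rw [← hf] at hsp
  have h1 := hsp.2 W' rfl
  have h2 := Real.log_le_log (gdet_pos hb _) h1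
  unfold hgt deg
  rw [hsp.1]
  linarith

/-- `R` is the largest maximiser of `hgt b t`. -/
def IsSlope (b : Matrix J J ℝ) (t : ℝ) (R : Submodule ℚ (J → ℚ)) : Prop :=
  (∀ W, hgt b t W ≤ hgt b t R) ∧ ∀ W, hgt b t W = hgt b t R → W ≤ R

theorem exists_slope {b : Matrix J J ℝ} (hb : b.PosDef) (hr : RatMat b) (t : ℝ) :
    ∃ R, IsSlope b t R := by
  classical
  obtain ⟨W0, hW0⟩ := exists_max hb hr t
  set P : ℕ → Prop := fun n => ∃ W : Submodule ℚ (J → ℚ),
    hgt b t W = hgt b t W0 ∧ finrank ℚ W = n with hP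
  have hbd : ∀ n, P n → n ≤ Fintype.card J := by
    rintro n ⟨W, -, rfl⟩
    have := Submodule.finrank_le W
    simpa using this
  have hex : P (Nat.findGreatest P (Fintype.card J)) :=
    Nat.findGreatest_spec (hbd _ ⟨W0, rfl, rfl⟩) ⟨W0, rfl, rfl⟩
  obtain ⟨R, hR1, hR2⟩ := hex
  refine ⟨R, fun W => by rw [hR1]; exact hW0 W, fun W hW => ?_⟩
  have h1 := hgt_super hb t R W
  have h2 := hW0 (R ⊓ W)
  have h3 := hW0 (R ⊔ W)
  have h4 : hgt b t (R ⊔ W) = hgt b t W0 := by
    apply le_antisymm h3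
    rw [hW] at h1
    linarith
  have h5 : finrank ℚ (R ⊔ W : Submodule ℚ (J → ℚ)) ≤ finrank ℚ R := by
    rw [hR2]
    exact Nat.le_findGreatest (hbd _ ⟨_, h4, rfl⟩) ⟨_, h4, rfl⟩
  have h6 : R = R ⊔ W := Submodule.eq_of_le_of_finrank_le le_sup_left h5
  rw [h6]; exact le_sup_right

open Classical in
/-- The slope filtration: the largest maximiser of `deg - t * dim`. -/
noncomputable def slope (b : Matrix J J ℝ) (t : ℝ) : Submodule ℚ (J → ℚ) :=
  if h : ∃ R, IsSlope b t R then h.choose else ⊥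

theorem slope_spec {b : Matrix J J ℝ} (hb : b.PosDef) (hr : RatMat b) (t : ℝ) :
    IsSlope b t (slope b t) := by
  have h := exists_slope hb hr t
  rw [slope, dif_pos h]
  exact h.choose_spec

theorem slope_le_of {b : Matrix J J ℝ} (hb : b.PosDef) (hr : RatMat b) (t : ℝ)
    {W : Submodule ℚ (J → ℚ)} (hW : hgt b t (W ⊓ slope b t) ≤ hgt b t W) : W ≤ slope b t := by
  have hs := slope_spec hb hr t
  have h1 := hgt_super hb t W (slope b t)
  have h2 := hs.1 (W ⊔ slope b t)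
  exact le_trans le_sup_left (hs.2 (W ⊔ slope b t) (le_antisymm h2 (by linarith)))

theorem slope_inter {b : Matrix J J ℝ} (hb : b.PosDef) (hr : RatMat b) (t : ℝ)
    (W : Submodule ℚ (J → ℚ)) : hgt b t W ≤ hgt b t (W ⊓ slope b t) := by
  have hs := slope_spec hb hr t
  have h1 := hgt_super hb t W (slope b t)
  have h2 := hs.1 (W ⊔ slope b t)
  linarith

theorem slope_anti {b : Matrix J J ℝ} (hb : b.PosDef) (hr : RatMat b) {s t : ℝ} (h : s ≤ t) :
    slope b t ≤ slope b s := by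
  apply slope_le_of hb hr
  have h1 := (slope_spec hb hr t).1 (slope b t ⊓ slope b s)
  have h2 : (finrank ℚ (slope b t ⊓ slope b s : Submodule ℚ (J → ℚ)) : ℝ) ≤
      finrank ℚ (slope b t) := by
    exact_mod_cast Submodule.finrank_mono inf_le_left
  unfold hgt at h1 ⊢
  nlinarith

theorem deg_top {b : Matrix J J ℝ} (hb : b.PosSemidef) :
    deg b (⊤ : Submodule ℚ (J → ℚ)) = -(1 / 2) * Real.log b.det := by
  rw [deg, gdet_top hb]

theorem deg_bot (b : Matrix J J ℝ) : deg b (⊥ : Submodule ℚ (J → ℚ)) = 0 := by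
  rw [deg, gdet_bot]; simp

theorem slope_zero {b : Matrix J J ℝ} (hb : b.PosDef) (hr : RatMat b)
    (h1 : ((1 : Matrix J J ℝ) - b).PosSemidef) : slope b 0 = ⊤ := by
  have hs := slope_spec hb hr 0
  apply top_le_iff.mp
  apply hs.2
  apply le_antisymm (hs.1 ⊤)
  unfold hgt
  rw [zero_mul, zero_mul, sub_zero, sub_zero, deg_top hb.posSemidef]
  unfold deg
  have h2 := Real.log_le_log hb.det_pos (gdet_top_le hb h1 (slope b 0))
  linarith

theorem deg_le {b : Matrix J J ℝ} {T : ℝ}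
    (h : (b - Real.exp (-(2 * T)) • (1 : Matrix J J ℝ)).PosSemidef) (W : Submodule ℚ (J → ℚ)) :
    deg b W ≤ T * finrank ℚ W := by
  have h1 := gdet_ge (Real.exp_pos _) h W
  have h2 := Real.log_le_log (by positivity) h1
  rw [Real.log_pow, Real.log_exp] at h2
  unfold deg
  linarith

theorem slope_large {b : Matrix J J ℝ} (hb : b.PosDef) (hr : RatMat b) {T t : ℝ} (ht : T < t)
    (h : (b - Real.exp (-(2 * T)) • (1 : Matrix J J ℝ)).PosSemidef) : slope b t = ⊥ := by
  have hs := (slope_spec hb hr t).1 ⊥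
  have h1 := deg_le h (slope b t)
  have h2 : hgt b t ⊥ = 0 := by rw [hgt, deg_bot, finrank_bot]; simp
  rw [h2] at hs
  unfold hgt at hs
  have h3 : (finrank ℚ (slope b t) : ℝ) ≤ 0 := by
    by_contra hc
    push Not at hc
    nlinarith
  have h4 : finrank ℚ (slope b t) = 0 := by
    have : (0 : ℝ) ≤ finrank ℚ (slope b t) := Nat.cast_nonneg _
    exact_mod_cast le_antisymm h3 this
  exact Submodule.finrank_eq_zero.mp h4

/-- Functoriality of the slope filtration. -/
theorem slope_map {b : Matrix J J ℝ} (hb : b.PosDef) (hr : RatMat b) (φ : I → J)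
    (hφ : Function.Injective φ) (t : ℝ) :
    (slope (b.submatrix φ φ) t).map (ext0 φ) ≤ slope b t := by
  have hb' : (b.submatrix φ φ).PosDef := hb.submatrix hφ
  have hr' : RatMat (b.submatrix φ φ) := by
    obtain ⟨D, hD, B, hB⟩ := hr
    refine ⟨D, hD, B.submatrix φ φ, ?_⟩
    ext i j
    have := congrFun (congrFun hB (φ i)) (φ j)
    simpa using this
  apply slope_le_of hb hr
  set R := (slope (b.submatrix φ φ) t).map (ext0 φ) with hR
  -- the intersection is the image of a subspace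
  obtain ⟨W, hW⟩ : ∃ W : Submodule ℚ (I → ℚ), W.map (ext0 φ) = R ⊓ slope b t := by
    refine ⟨(R ⊓ slope b t).comap (ext0 φ), ?_⟩
    rw [Submodule.map_comap_eq]
    apply inf_eq_right.mpr
    refine le_trans inf_le_left ?_
    rw [hR]
    exact LinearMap.map_le_range
  rw [← hW, hR]
  have h1 := (slope_spec hb' hr' t).1 W
  unfold hgt deg at h1 ⊢
  rw [gdet_map hb.posSemidef φ hφ, gdet_map hb.posSemidef φ hφ, finrank_map φ hφ,
    finrank_map φ hφ]
  exact h1

/-- Upper bound of a degree by the dimensions of the intersections with the filtration. -/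
theorem deg_le_sum {b : Matrix J J ℝ} (hb : b.PosDef) (hr : RatMat b)
    (h1 : ((1 : Matrix J J ℝ) - b).PosSemidef) {T : ℝ}
    (hT : (b - Real.exp (-(2 * T)) • (1 : Matrix J J ℝ)).PosSemidef) {s : ℝ} (hs : 0 ≤ s) {m : ℕ}
    (hm : T < m * s) (W : Submodule ℚ (J → ℚ)) :
    deg b W ≤ ∑ i ∈ Finset.range m,
      s * finrank ℚ (W ⊓ slope b (i * s) : Submodule ℚ (J → ℚ)) := by
  have key : ∀ n : ℕ, deg b W ≤ deg b (W ⊓ slope b (n * s)) -
      n * s * finrank ℚ (W ⊓ slope b (n * s) : Submodule ℚ (J → ℚ)) +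
      ∑ i ∈ Finset.range n, s * finrank ℚ (W ⊓ slope b (i * s) : Submodule ℚ (J → ℚ)) := by
    intro n
    induction n with
    | zero =>
      have h0 : slope b (((0 : ℕ) : ℝ) * s) = ⊤ := by
        rw [Nat.cast_zero, zero_mul]; exact slope_zero hb hr h1
      rw [h0]; simp
    | succ n ih =>
      have h2 := slope_inter hb hr (((n + 1 : ℕ) : ℝ) * s) (W ⊓ slope b (n * s))
      have h3 : W ⊓ slope b (n * s) ⊓ slope b (((n + 1 : ℕ) : ℝ) * s) =
          W ⊓ slope b (((n + 1 : ℕ) : ℝ) * s) := by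
        rw [inf_assoc, inf_eq_right.mpr (slope_anti hb hr (by push_cast; nlinarith))]
      rw [h3] at h2
      unfold hgt at h2
      rw [Finset.sum_range_succ]
      push_cast at h2 ⊢
      nlinarith
  have h2 := key m
  have h3 : slope b (m * s) = ⊥ := slope_large hb hr hm hT
  rw [h3, inf_bot_eq, deg_bot, finrank_bot] at h2
  simpa using h2

/-- Lower bound of the degree of everything. -/
theorem sum_le_deg {b : Matrix J J ℝ} (hb : b.PosDef) (hr : RatMat b)
    (h1 : ((1 : Matrix J J ℝ) - b).PosSemidef) {s : ℝ} (m : ℕ) :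
    ∑ i ∈ Finset.range m, s * finrank ℚ (slope b (((i + 1 : ℕ) : ℝ) * s)) ≤
      -(1 / 2) * Real.log b.det := by
  rw [← deg_top hb.posSemidef]
  have key : ∀ n : ℕ, deg b (slope b (n * s)) -
      n * s * finrank ℚ (slope b (n * s)) +
      ∑ i ∈ Finset.range n, s * finrank ℚ (slope b (((i + 1 : ℕ) : ℝ) * s)) ≤ deg b ⊤ := by
    intro n
    induction n with
    | zero =>
      have h0 : slope b (((0 : ℕ) : ℝ) * s) = ⊤ := by
        rw [Nat.cast_zero, zero_mul]; exact slope_zero hb hr h1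
      rw [h0]; simp
    | succ n ih =>
      have h2 := (slope_spec hb hr (n * s)).1 (slope b (((n + 1 : ℕ) : ℝ) * s))
      unfold hgt at h2
      rw [Finset.sum_range_succ]
      push_cast at h2 ⊢
      nlinarith
  have h2 := key m
  have h3 := (slope_spec hb hr (m * s)).1 ⊥
  have h4 : hgt b (m * s) ⊥ = 0 := by rw [hgt, deg_bot, finrank_bot]; simp
  rw [h4] at h3
  unfold hgt at h3
  linarith

/-- Lower bound of the degree of the projection of a kernel. -/
theorem deg_proj_ge {b : Matrix J J ℝ} (hb : b.PosDef) {T : ℝ}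
    (hT : (b - Real.exp (-(2 * T)) • (1 : Matrix J J ℝ)).PosSemidef)
    {K : Type*} [Fintype K] [DecidableEq K] (M : Matrix K (J ⊕ I) ℤ) :
    -(1 / 2) * Real.log (fromBlocks b 0 0 (Real.exp (-(2 * T)) • (1 : Matrix I I ℝ)) +
        (M.map (Int.cast : ℤ → ℝ))ᴴ * M.map (Int.cast : ℤ → ℝ)).det -
      T * finrank ℚ (kerQ M ⊓ LinearMap.ker (resL J I) : Submodule ℚ (J ⊕ I → ℚ)) ≤
    deg b ((kerQ M).map (resL J I)) := by
  have hB := blockDiag_posDef (I := I) hb (Real.exp_pos (-(2 * T)))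
  have h1 := gdet_ker_le hB M
  have h2 := gdet_proj (I := I) hb (Real.exp_pos (-(2 * T))) hT (kerQ M)
  have h3 := h2.trans h1
  have p1 := gdet_pos hb ((kerQ M).map (resL J I))
  have h4 := Real.log_le_log (by positivity) h3
  rw [Real.log_mul p1.ne' (by positivity), Real.log_pow, Real.log_exp] at h4
  unfold deg
  linarith

end AHL
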