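import Pool.Agent.LFT.Sum
import Pool.Agent.VN.Kaz
import Pool.Agent.VN.Fc
import Pool.Agent.AH.LatG

set_option autoImplicit false
set_option linter.unusedSectionVars false

noncomputable section

open scoped InnerProductSpace ENNReal Topology
open Classical Filter ContinuousLinearMap

/-!
Amenable edge groups (MP_95030e): basic definitions.

Matrices over the rational group ring are given by lists of terms `(c, j, i, w)`: the coefficient
`c` of the word `w` (an element of the free group on the set `G`) in the row `j` and the column `i`.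
Such a list defines an operator on `ℓ²(G)` (`oG`), an infinite matrix indexed by `G` (`gX`), and a
finite matrix for every finite set with an action of the free group (`mX`, `mR`).
-/

namespace Pool.Agent.AH

open Pool.Agent.VN Pool.Agent.LFT

section Lists

variable {ι ι' κ κ' μ W : Type}

/-- lists of terms: coefficient, row, column, word -/
abbrev LQ (κ ι W : Type) := List (ℚ × κ × ι × W)

/-- the same list with complex coefficients -/
def toC (L : LQ κ ι W) : List (ℂ × κ × ι × W) := L.map fun t => ((t.1 : ℂ), t.2)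

/-- product of matrices -/
def cmp [Group W] (L : LQ κ μ W) (L' : LQ μ ι W) : LQ κ ι W :=
  L.flatMap fun a => L'.map fun b =>
    (if a.2.2.1 = b.2.1 then a.1 * b.1 else 0, a.2.1, b.2.2.1, b.2.2.2 * a.2.2.2)

/-- adjoint matrix -/
def adj [Group W] (L : LQ κ ι W) : LQ ι κ W := L.map fun t => (t.1, t.2.2.1, t.2.1, t.2.2.2⁻¹)

/-- multiple of a matrix -/
def sml (c : ℚ) (L : LQ κ ι W) : LQ κ ι W := L.map fun t => (c * t.1, t.2)

/-- the identity matrix -/
def one (ι W : Type) [Fintype ι] [Group W] : LQ ι ι W :=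
  (Finset.univ : Finset ι).toList.map fun i => (1, i, i, 1)

/-- powers -/
def pwL [Fintype ι] [Group W] (L : LQ ι ι W) : ℕ → LQ ι ι W
  | 0 => one ι W
  | n + 1 => cmp (pwL L n) L

/-- polynomials -/
def pol [Fintype ι] [Group W] (f : Polynomial ℚ) (L : LQ ι ι W) : LQ ι ι W :=
  (List.range (f.natDegree + 1)).flatMap fun n => sml (f.coeff n) (pwL L n)

/-- change of the indices of rows and columns -/
def rix (f : κ → κ') (g : ι → ι') (L : LQ κ ι W) : LQ κ' ι' W :=
  L.map fun t => (t.1, f t.2.1, g t.2.2.1, t.2.2.2)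

/-- the `ℓ¹` norm -/
def n1 (L : LQ κ ι W) : ℚ := (L.map fun t => |t.1|).sum

/-- integral coefficients -/
def Intg (L : LQ κ ι W) : Prop := ∀ t ∈ L, ∃ z : ℤ, t.1 = z

/-- the matrix `(A | B)` -/
def row2 (A : LQ κ ι W) (B : LQ κ ι' W) : LQ κ (ι ⊕ ι') W :=
  rix id Sum.inl A ++ rix id Sum.inr B

/-- the matrix `b ⊕ c` where `c` is a constant -/
def ext2 [Fintype ι'] [Group W] (b : LQ ι ι W) (c : ℚ) : LQ (ι ⊕ ι') (ι ⊕ ι') W :=
  rix Sum.inl Sum.inl b ++ rix Sum.inr Sum.inr (sml c (one ι' W))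

/-- the matrix `(b ⊕ c) + (A | B)* (A | B)` -/
def aL [Fintype ι'] [Group W] (b : LQ ι ι W) (c : ℚ) (A : LQ κ ι W) (B : LQ κ ι' W) :
    LQ (ι ⊕ ι') (ι ⊕ ι') W :=
  ext2 b c ++ cmp (adj (row2 A B)) (row2 A B)

end Lists

section Real

variable {G : Type} [Group G] {ι κ : Type}

/-- the value of a word -/
def pw (G : Type) [Group G] : FreeGroup G →* G := FreeGroup.lift id

/-- the operator of a list -/
def oG (L : LQ κ ι (FreeGroup G)) : L2 ι G →L[ℂ] L2 κ G := opL (pw G) (toC L)

/-- the matrix of a list, rows and columns indexed by elements of `G` -/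
def gX (L : LQ κ ι (FreeGroup G)) : Matrix (κ × G) (ι × G) ℚ := fun q p =>
  (L.map fun t =>
    if q.1 = t.2.1 ∧ p.1 = t.2.2.1 ∧ p.2 = q.2 * (pw G t.2.2.2)⁻¹ then t.1 else 0).sum

/-- finite sets with an action of the free group on `G` -/
structure Mod (G : Type) [Group G] where
  X : Type
  fin : Fintype X
  act : MulAction (FreeGroup G) X
  ne : Nonempty X

instance (M : Mod G) : Fintype M.X := M.fin
instance (M : Mod G) : MulAction (FreeGroup G) M.X := M.act
instance (M : Mod G) : Nonempty M.X := M.ne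

/-- the number of points of a model -/
def sz (M : Mod G) : ℝ := (Fintype.card M.X : ℝ)

/-- the matrix of a list, rows and columns indexed by points of a model -/
def mX (M : Mod G) (L : LQ κ ι (FreeGroup G)) : Matrix (κ × M.X) (ι × M.X) ℚ := fun q p =>
  (L.map fun t => if q.1 = t.2.1 ∧ p.1 = t.2.2.1 ∧ p.2 = t.2.2.2 • q.2 then t.1 else 0).sum

/-- the same matrix over the real numbers -/
def mR (M : Mod G) (L : LQ κ ι (FreeGroup G)) : Matrix (κ × M.X) (ι × M.X) ℝ :=
  (mX M L).map fun x => (x : ℝ)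

/-- the points where some word of the finite set `F` behaves in another way than in `G` -/
def bad (M : Mod G) (F : Finset (FreeGroup G)) : Finset M.X :=
  Finset.univ.filter fun x => ∃ w ∈ F, ¬ (w • x = x ↔ pw G w = 1)

/-- the filter of the models which approximate `G` -/
def sf (G : Type) [Group G] : Filter (Mod G) where
  sets := {s | ∃ (F : Finset (FreeGroup G)) (δ : ℝ), 0 < δ ∧
    ∀ M : Mod G, ((bad M F).card : ℝ) ≤ δ * sz M → M ∈ s}
  univ_sets := ⟨∅, 1, one_pos, fun _ _ => trivial⟩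
  sets_of_superset := by
    rintro s t ⟨F, δ, h1, h2⟩ h3
    exact ⟨F, δ, h1, fun M hM => h3 (h2 M hM)⟩
  inter_sets := by
    rintro s t ⟨F, δ, h1, h2⟩ ⟨F', δ', h1', h2'⟩
    refine ⟨F ∪ F', min δ δ', lt_min h1 h1', fun M hM => ⟨h2 M ?_, h2' M ?_⟩⟩
    · have h3 : bad M F ⊆ bad M (F ∪ F') := by
        intro x hx
        simp only [bad, Finset.mem_filter] at hx ⊢
        obtain ⟨h4, w, hw, h5⟩ := hx
        exact ⟨h4, w, Finset.mem_union_left _ hw, h5⟩
      have h6 : ((bad M F).card : ℝ) ≤ ((bad M (F ∪ F')).card : ℝ) := by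
        exact_mod_cast Finset.card_le_card h3
      have h7 : (0 : ℝ) ≤ sz M := by unfold sz; positivity
      exact h6.trans (hM.trans (mul_le_mul_of_nonneg_right (min_le_left _ _) h7))
    · have h3 : bad M F' ⊆ bad M (F ∪ F') := by
        intro x hx
        simp only [bad, Finset.mem_filter] at hx ⊢
        obtain ⟨h4, w, hw, h5⟩ := hx
        exact ⟨h4, w, Finset.mem_union_right _ hw, h5⟩
      have h6 : ((bad M F').card : ℝ) ≤ ((bad M (F ∪ F')).card : ℝ) := by
        exact_mod_cast Finset.card_le_card h3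
      have h7 : (0 : ℝ) ≤ sz M := by unfold sz; positivity
      exact h6.trans (hM.trans (mul_le_mul_of_nonneg_right (min_le_right _ _) h7))

/-- the definition of sofic groups -/
def IsSofic (G : Type) [Group G] : Prop :=
  ∀ (F : Finset G) (ε : ℝ), 0 < ε → ∃ (n : ℕ) (σ : G → Equiv.Perm (Fin n)), 0 < n ∧
    (∀ g ∈ F, ∀ h ∈ F,
      ((Finset.univ.filter fun x : Fin n => σ (g * h) x ≠ σ g (σ h x)).card : ℝ) ≤ ε * n) ∧
    ∀ g ∈ F, g ≠ 1 → ((Finset.univ.filter fun x : Fin n => σ g x = x).card : ℝ) ≤ ε * n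

/-- the field of rational numbers in the complex numbers -/
def Qc : Subring ℂ := (algebraMap ℚ ℂ).range

/-- local matrices -/
def LocL {D : Type} [MulAction G D] (d : ι → D) (d' : κ → D) (L : LQ κ ι (FreeGroup G)) : Prop :=
  ∀ t ∈ L, (pw G t.2.2.2)⁻¹ • d t.2.2.1 = d' t.2.1

/-- complex conjugation of an element of `ℓ²` -/
def cj {α : Type} (x : Ell α) : Ell α := ⟨fun a => star (x a), by
  have h := lp.memℓp x
  refine memℓp_gen' (C := ‖x‖ ^ 2) fun s => ?_
  have h2 := sum_norm_sq_le x s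
  simpa using h2⟩

/-- real subspaces -/
def Realv {α : Type} (X : Submodule ℂ (Ell α)) : Prop := ∀ x ∈ X, cj x ∈ X

/-- the orthogonal projection on a closed subspace (zero if the subspace is not closed) -/
def pj {α : Type} (P : Submodule ℂ (Ell α)) : Ell α →L[ℂ] Ell α :=
  if h : IsClosed (P : Set (Ell α)) then
    haveI : CompleteSpace P := h.completeSpace_coe
    P.starProjection
  else 0

lemma pj_eq {α : Type} {P : Submodule ℂ (Ell α)} (h : IsClosed (P : Set (Ell α)))
    [P.HasOrthogonalProjection] : pj P = P.starProjection := by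
  unfold pj
  rw [dif_pos h]

/-- bounds of an operator: self-adjoint, `c ≤ T ≤ d` -/
structure BdO (c d : ℝ) (T : L2 ι G →L[ℂ] L2 ι G) : Prop where
  sym : IsSelfAdjoint T
  lo : ∀ x : L2 ι G, c * ‖x‖ ^ 2 ≤ (⟪x, T x⟫_ℂ).re
  hi : ∀ x : L2 ι G, (⟪x, T x⟫_ℂ).re ≤ d * ‖x‖ ^ 2

/-- amenable groups (Følner's condition) -/
def Amn (Q : Type) [Group Q] : Prop :=
  ∀ (F : Finset Q) (ε : ℝ), 0 < ε → ∃ E : Finset Q, E.Nonempty ∧
    ∀ f ∈ F, ((E.filter fun x => f * x ∉ E).card : ℝ) ≤ ε * E.card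

/-- the closure of the set of all `x` such that `A x + B z = 0` for some `z` -/
def UG [Fintype ι] {ι' : Type} [Fintype ι'] (A : LQ κ ι (FreeGroup G))
    (B : LQ κ ι' (FreeGroup G)) : Submodule ℂ (L2 ι G) :=
  imc prL (kr (oG (row2 A B)))

/-- the set of all `(x, z)` such that `A x + B z = 0` and `x ∈ P` -/
def WG [Fintype ι] {ι' : Type} [Fintype ι'] (P : Submodule ℂ (L2 ι G))
    (A : LQ κ ι (FreeGroup G)) (B : LQ κ ι' (FreeGroup G)) : Submodule ℂ (L2 (ι ⊕ ι') G) :=
  kr (oG (row2 A B)) ⊓ P.comap (prL : L2 (ι ⊕ ι') G →L[ℂ] L2 ι G).toLinearMap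

/-- the kernel of the matrix of a list in a model -/
def kX [Fintype ι] (M : Mod G) (L : LQ κ ι (FreeGroup G)) : Submodule ℚ (ι × M.X → ℚ) :=
  LinearMap.ker (mX M L).mulVecLin

/-- the range of the matrix of a list in a model -/
def rX [Fintype ι] (M : Mod G) (L : LQ κ ι (FreeGroup G)) : Submodule ℚ (κ × M.X → ℚ) :=
  LinearMap.range (mX M L).mulVecLin

/-- the set of all `x` such that `A x + B z = 0` for some `z`, in a model -/
def UX [Fintype ι] {ι' : Type} [Fintype ι'] (M : Mod G) (A : LQ κ ι (FreeGroup G))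
    (B : LQ κ ι' (FreeGroup G)) : Submodule ℚ (ι × M.X → ℚ) :=
  (rX M B).comap (mX M A).mulVecLin

/-- the Hilbert-Schmidt norm (squared) -/
def hs [Fintype ι] (T : L2 ι G →L[ℂ] L2 κ G) : ℝ := ∑ i : ι, ‖T (dl (i, (1 : G)))‖ ^ 2

end Real

section Bd

variable {J : Type} [Fintype J] [DecidableEq J]

/-- bounds of a symmetric matrix: `c ≤ b ≤ d` -/
structure Bd (c d : ℝ) (b : Matrix J J ℝ) : Prop where
  lo : (b - c • (1 : Matrix J J ℝ)).PosSemidef
  hi : (d • (1 : Matrix J J ℝ) - b).PosSemidef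

end Bd

end Pool.Agent.AH
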