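import Pool.Agent.AH.Defs
import Pool.Agent.LFT.LF4

set_option autoImplicit false
set_option linter.unusedSectionVars false

noncomputable section

open scoped InnerProductSpace ENNReal Topology Matrix
open Classical Filter ContinuousLinearMap

/-!
Real subspaces: rational subspaces are real, and so is the closed span of the pieces of a real
subspace.
-/

namespace Pool.Agent.AH

open Pool.Agent.VN Pool.Agent.LFT

section Gen

variable {α : Type}

@[simp] lemma cj_apply (x : Ell α) (a : α) : (cj x) a = star (x a) := rfl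

lemma cj_cj (x : Ell α) : cj (cj x) = x := by
  ext a
  rw [cj_apply, cj_apply, star_star]

lemma cj_add (x y : Ell α) : cj (x + y) = cj x + cj y := by
  ext a
  rw [cj_apply, lp.coeFn_add, Pi.add_apply, star_add, lp.coeFn_add, Pi.add_apply, cj_apply,
    cj_apply]

lemma cj_sub (x y : Ell α) : cj (x - y) = cj x - cj y := by
  ext a
  rw [cj_apply, lp.coeFn_sub, Pi.sub_apply, star_sub, lp.coeFn_sub, Pi.sub_apply, cj_apply,
    cj_apply]

lemma cj_smul (c : ℂ) (x : Ell α) : cj (c • x) = star c • cj x := by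
  ext a
  rw [cj_apply, lp.coeFn_smul, Pi.smul_apply, smul_eq_mul, star_mul', lp.coeFn_smul,
    Pi.smul_apply, cj_apply, smul_eq_mul]

lemma cj_zero : cj (0 : Ell α) = 0 := by
  ext a
  rw [cj_apply]
  show star (0 : ℂ) = 0
  exact star_zero _

lemma norm_cj (x : Ell α) : ‖cj x‖ = ‖x‖ := by
  have h1 := norm_sq_eq_tsum (cj x)
  have h2 := norm_sq_eq_tsum x
  have h3 : ∀ a, ‖(cj x) a‖ ^ 2 = ‖x a‖ ^ 2 := fun a => by rw [cj_apply, norm_star]
  simp only [h3] at h1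
  rw [← h2] at h1
  exact (pow_left_inj₀ (norm_nonneg _) (norm_nonneg _) two_ne_zero).mp h1

lemma cj_continuous : Continuous (cj : Ell α → Ell α) := by
  refine (Isometry.of_dist_eq fun x y => ?_).continuous
  rw [dist_eq_norm, dist_eq_norm, ← cj_sub, norm_cj]

lemma Realv.closure {X : Submodule ℂ (Ell α)} (hX : Realv X) : Realv X.topologicalClosure := by
  intro x hx
  have h2 : Set.MapsTo (cj : Ell α → Ell α) (X : Set (Ell α)) (X : Set (Ell α)) :=
    fun y hy => hX y hy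
  exact h2.closure cj_continuous hx

lemma Realv.inf {X Y : Submodule ℂ (Ell α)} (hX : Realv X) (hY : Realv Y) : Realv (X ⊓ Y) :=
  fun x hx => ⟨hX x hx.1, hY x hx.2⟩

end Gen

section Rt

variable {G : Type} [Group G] {ι κ : Type}

lemma star_of_mem_Qc {c : ℂ} (h : c ∈ Qc) : star c = c := by
  obtain ⟨q, rfl⟩ := h
  simp

lemma cj_mulR [Fintype κ] {A : κ → (ι × G →₀ ℂ)} (hA : ∀ j, CoefIn Qc (A j)) (x : L2 ι G) :
    cj (mulR A x) = mulR A (cj x) := by
  ext q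
  rw [cj_apply, mulR_apply, mulR_apply, ev_def, ev_def, star_sum]
  refine Finset.sum_congr rfl fun p _ => ?_
  rw [star_mul', star_of_mem_Qc (hA q.1 p), cj_apply]

lemma realv_kr {M : Type} [MulAction G M] [Fintype κ] {lab : ι → M} {lab' : κ → M}
    {T : L2 ι G →L[ℂ] L2 κ G} (hT : LocOp Qc lab lab' T) : Realv (kr T) := by
  obtain ⟨A, hA, _, rfl⟩ := hT
  intro x hx
  rw [mem_kr] at hx ⊢
  rw [← cj_mulR hA, hx, cj_zero]

lemma realv_rat {M : Type} [MulAction G M] [Fintype ι] {lab : ι → M} {X : Submodule ℂ (L2 ι G)}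
    (hX : Rat Qc lab X) : Realv X := by
  obtain ⟨κ, μ, _, _, labκ, labμ, S, T, hS, hT, rfl⟩ := hX
  have h1 := realv_kr hS
  obtain ⟨A, hA, _, rfl⟩ := hT
  apply Realv.closure
  rintro _ ⟨x, hx, rfl⟩
  refine ⟨cj x, h1 x hx, ?_⟩
  exact (cj_mulR hA x).symm

lemma cj_cutF {D : Type} (p : ι × G → D) (δ : D) (x : L2 ι G) :
    cj (cutF p δ x) = cutF p δ (cj x) := by
  ext q
  rw [cj_apply, cutF_apply, cutF_apply, cj_apply]
  split_ifs
  · rfl
  · exact star_zero _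

lemma realv_LF4_P {D : Type} [MulAction G D] (d : ι → D) {K : Submodule ℂ (L2 ι G)}
    (hK : Realv K) : Realv (LF4_P d K) := by
  apply Realv.closure
  intro x hx
  induction hx using Submodule.iSup_induction' with
  | mem δ x hx =>
    obtain ⟨y, hy, rfl⟩ := hx
    refine Submodule.mem_iSup_of_mem δ ⟨cj y, hK y hy, ?_⟩
    exact (cj_cutF _ _ _).symm
  | zero => rw [cj_zero]; exact Submodule.zero_mem _
  | add x y _ _ hx hy => rw [cj_add]; exact Submodule.add_mem _ hx hy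

end Rt

/-- the formula for forests with a real subspace -/
theorem formula_real {G : Type} [Group G] {Δ V0 V1 : Type} [MulAction G Δ] [MulAction G V0]
    [MulAction G V1] (α0 : Δ → V0) (α1 : Δ → V1) (h0 : ∀ (g : G) δ, α0 (g • δ) = g • α0 δ)
    (h1 : ∀ (g : G) δ, α1 (g • δ) = g • α1 δ)
    (half : ∀ δ : Δ, ∃ Y : Set Δ, δ ∈ Y ∧ (∀ ε ε', α0 ε = α0 ε' → (ε ∈ Y ↔ ε' ∈ Y)) ∧
      (∀ ε ε', α1 ε = α1 ε' → ((ε ∈ Y ∧ ε ≠ δ) ↔ (ε' ∈ Y ∧ ε' ≠ δ))))
    {ι : Type} [Fintype ι] (d : ι → Δ) {K0 K1 : Submodule ℂ (L2 ι G)} (hK0 : CI K0) (hK1 : CI K1)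
    (hl0 : Loc (pV fun i => α0 (d i)) K0) (hl1 : Loc (pV fun i => α1 (d i)) K1)
    (hr0 : Realv K0) (hr1 : Realv K1) :
    ∃ P : Submodule ℂ (L2 ι G), CI P ∧ Loc (pV d) P ∧ Realv P ∧
      dm (K0 ⊓ K1) = dm (P ⊓ K0) + dm (P ⊓ K1) - dm P := by
  refine ⟨LF4_P d (K0 ⊓ K1), LF4_ci d (hK0.inf hK1), LF4_loc d _, realv_LF4_P d (hr0.inf hr1), ?_⟩
  set K := K0 ⊓ K1 with hK
  set P := LF4_P d K with hP
  have hPci : CI P := LF4_ci d (hK0.inf hK1)
  have hKP : K ≤ P := LF4_le_P d K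
  have hsup : csup (P ⊓ K0) (P ⊓ K1) = P := by
    apply le_antisymm
    · exact csup_le hPci.cl inf_le_left inf_le_left
    · apply LF4_P_le d (Submodule.isClosed_topologicalClosure _)
      intro x hx δ
      obtain ⟨Y, hδ, hY0, hY1⟩ := half δ
      have hY1' : ∀ ε ε', α1 ε = α1 ε' → (ε ∈ Y \ {δ} ↔ ε' ∈ Y \ {δ}) := fun ε ε' h => hY1 ε ε' h
      rw [LF4_split d hδ x]
      refine Submodule.add_mem _ ?_ (Submodule.sub_mem _ ?_ ?_)
      · apply le_csup_left
        exact ⟨LF4_cut_P d hx Y, LF4_cut_mem α0 h0 d hK0.cl hl0 hY0 hx.1⟩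
      · apply le_csup_right
        exact ⟨P.sub_mem (hKP hx) (LF4_cut_P d hx _),
          K1.sub_mem hx.2 (LF4_cut_mem α1 h1 d hK1.cl hl1 hY1' hx.2)⟩
      · apply le_csup_left
        exact ⟨hKP hx, hx.1⟩
  have h := dm_csup (hPci.inf hK0) (hPci.inf hK1)
  have h2 : (P ⊓ K0) ⊓ (P ⊓ K1) = K := by
    rw [inf_inf_inf_comm, inf_idem]
    exact inf_eq_right.mpr hKP
  rw [hsup, h2] at h
  linarith

end Pool.Agent.AH
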