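import Pool.Agent.AH.Defs

set_option autoImplicit false
set_option linter.unusedSectionVars false

noncomputable section

open scoped InnerProductSpace ENNReal Topology Matrix
open Classical Filter ContinuousLinearMap

/-!
PACKAGE AH-SOF. The filter `sf G` is not trivial for a sofic group `G`.

For a finite set `F` of words and `δ > 0` we need a model `M` with `|bad M F| ≤ δ |M|`. Let
`σ : G → Perm (Fin n)`. For a word `w` we show by induction on the word (`FreeGroup.induction_on`
or on the list of letters): for every `ε > 0` there are a finite set `F'` of `G` and `ε' > 0` such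
that for every `n` and `σ` as in `IsSofic` for `F'`, `ε'` the set of all `x` with
`lift σ w x ≠ σ (pw G w) x` has at most `ε n` elements: for `w = w' * of g`:
`lift σ (w' * of g) x = lift σ w' (σ g x)`, which equals `σ (pw w') (σ g x)` for all but few `x`
(`σ g` is a bijection), and `σ (pw w') (σ g x) = σ (pw w' * g) x` for all but few `x`; for
`w = w' * (of g)⁻¹`: `σ (pw w' * g⁻¹) (σ g y) = σ (pw w') y` for most `y`, put `y = (σ g)⁻¹ x`; for
the empty word: `σ 1 (σ 1 x) = σ 1 x` for most `x`, so `σ 1 y = y` for most `y`. The model is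
`Fin n` with the action of `FreeGroup.lift σ` (`MulAction.compHom`); for `pw G w ≠ 1` the fixed
points of `σ (pw G w)` are few (second condition of `IsSofic` with `pw G w ∈ F'`), for
`pw G w = 1` we have `σ 1 x = x` for most `x`. So `bad M F` is contained in a finite union of small
sets.
-/

namespace Pool.Agent.AH

open Pool.Agent.VN Pool.Agent.LFT

section Aux

variable {G : Type} [Group G] {n : ℕ}

private lemma sof_card {P : Fin n → Prop} (i1 i2 : DecidablePred P) :
    ((@Finset.filter _ P i1 Finset.univ).card : ℝ) =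
      (@Finset.filter _ P i2 Finset.univ).card := by
  rw [Subsingleton.elim i1 i2]

/-- the conditions in the definition of sofic groups -/
private def SofGood (σ : G → Equiv.Perm (Fin n)) (F : Finset G) (ε : ℝ) : Prop :=
  (∀ g ∈ F, ∀ h ∈ F,
    ((Finset.univ.filter fun x : Fin n => σ (g * h) x ≠ σ g (σ h x)).card : ℝ) ≤ ε * n) ∧
  ∀ g ∈ F, g ≠ 1 → ((Finset.univ.filter fun x : Fin n => σ g x = x).card : ℝ) ≤ ε * n

private lemma SofGood.mono {σ : G → Equiv.Perm (Fin n)} {F F' : Finset G} {ε ε' : ℝ}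
    (h : SofGood σ F' ε') (hF : F ⊆ F') (hε : ε' ≤ ε) : SofGood σ F ε := by
  have hn : (0 : ℝ) ≤ n := Nat.cast_nonneg n
  exact ⟨fun g hg k hk => (h.1 g (hF hg) k (hF hk)).trans (mul_le_mul_of_nonneg_right hε hn),
    fun g hg hg1 => (h.2 g (hF hg) hg1).trans (mul_le_mul_of_nonneg_right hε hn)⟩

/-- the set is small if `σ` is a good approximation -/
private def SofSmall (P : ∀ n : ℕ, (G → Equiv.Perm (Fin n)) → Fin n → Prop) : Prop :=
  ∀ ε : ℝ, 0 < ε → ∃ (F : Finset G) (ε' : ℝ), 0 < ε' ∧ ∀ (n : ℕ) (σ : G → Equiv.Perm (Fin n)),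
    SofGood σ F ε' → ((Finset.univ.filter fun x : Fin n => P n σ x).card : ℝ) ≤ ε * n

private lemma SofSmall.mono {P Q : ∀ n : ℕ, (G → Equiv.Perm (Fin n)) → Fin n → Prop}
    (h : SofSmall Q) (hPQ : ∀ n σ x, P n σ x → Q n σ x) : SofSmall P := by
  intro ε hε
  obtain ⟨F, ε', h1, h2⟩ := h ε hε
  refine ⟨F, ε', h1, fun n σ hσ => le_trans ?_ (h2 n σ hσ)⟩
  have : (Finset.univ.filter fun x : Fin n => P n σ x) ⊆
      (Finset.univ.filter fun x : Fin n => Q n σ x) := by
    intro x hx
    simp only [Finset.mem_filter, Finset.mem_univ, true_and] at hx ⊢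
    exact hPQ n σ x hx
  exact_mod_cast Finset.card_le_card this

private lemma SofSmall.or {P Q : ∀ n : ℕ, (G → Equiv.Perm (Fin n)) → Fin n → Prop}
    (hP : SofSmall P) (hQ : SofSmall Q) : SofSmall fun n σ x => P n σ x ∨ Q n σ x := by
  intro ε hε
  obtain ⟨F, a, h1, h2⟩ := hP (ε / 2) (half_pos hε)
  obtain ⟨F', b, h1', h2'⟩ := hQ (ε / 2) (half_pos hε)
  refine ⟨F ∪ F', min a b, lt_min h1 h1', fun n σ hσ => ?_⟩
  have h3 := h2 n σ (hσ.mono Finset.subset_union_left (min_le_left _ _))
  have h4 := h2' n σ (hσ.mono Finset.subset_union_right (min_le_right _ _))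
  have h5 : (Finset.univ.filter fun x : Fin n => P n σ x ∨ Q n σ x) ⊆
      (Finset.univ.filter fun x : Fin n => P n σ x) ∪
      (Finset.univ.filter fun x : Fin n => Q n σ x) := by
    intro x hx
    simp only [Finset.mem_filter, Finset.mem_univ, true_and, Finset.mem_union] at hx ⊢
    exact hx
  have h6 : ((Finset.univ.filter fun x : Fin n => P n σ x ∨ Q n σ x).card : ℝ) ≤
      ((Finset.univ.filter fun x : Fin n => P n σ x).card : ℝ) +
      ((Finset.univ.filter fun x : Fin n => Q n σ x).card : ℝ) := by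
    exact_mod_cast (Finset.card_le_card h5).trans (Finset.card_union_le _ _)
  refine (sof_card _ _).le.trans (h6.trans ?_)
  linarith

/-- change of the variable by a bijection -/
private lemma SofSmall.perm {P : ∀ n : ℕ, (G → Equiv.Perm (Fin n)) → Fin n → Prop}
    (hP : SofSmall P) (τ : ∀ n : ℕ, (G → Equiv.Perm (Fin n)) → Equiv.Perm (Fin n)) :
    SofSmall fun n σ x => P n σ (τ n σ x) := by
  intro ε hε
  obtain ⟨F, a, h1, h2⟩ := hP ε hε
  refine ⟨F, a, h1, fun n σ hσ => le_trans ?_ (h2 n σ hσ)⟩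
  have : (Finset.univ.filter fun x : Fin n => P n σ (τ n σ x)).card ≤
      (Finset.univ.filter fun x : Fin n => P n σ x).card := by
    refine Finset.card_le_card_of_injOn (τ n σ) ?_ (τ n σ).injective.injOn
    intro x hx
    simp only [Finset.coe_filter, Finset.mem_univ, true_and, Set.mem_ofPred_eq] at hx ⊢
    exact hx
  exact_mod_cast this

private lemma sofSmall_mul (g h : G) :
    SofSmall fun n (σ : G → Equiv.Perm (Fin n)) x => σ (g * h) x ≠ σ g (σ h x) := by
  intro ε hε
  refine ⟨{g, h}, ε, hε, fun n σ hσ => ?_⟩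
  exact (sof_card _ _).le.trans (hσ.1 g (by simp) h (by simp))

private lemma sofSmall_fix {g : G} (hg : g ≠ 1) :
    SofSmall fun n (σ : G → Equiv.Perm (Fin n)) x => σ g x = x := by
  intro ε hε
  refine ⟨{g}, ε, hε, fun n σ hσ => ?_⟩
  exact (sof_card _ _).le.trans (hσ.2 g (by simp) hg)

private lemma sofSmall_one : SofSmall fun n (σ : G → Equiv.Perm (Fin n)) x => σ 1 x ≠ x := by
  refine (sofSmall_mul (1 : G) 1).mono fun n σ x h h2 => h ?_
  rw [mul_one] at h2
  exact ((σ 1).injective h2).symm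

private lemma sofSmall_false : SofSmall fun n (_ : G → Equiv.Perm (Fin n)) (_ : Fin n) => False := by
  intro ε hε
  refine ⟨∅, 1, one_pos, fun n σ _ => ?_⟩
  simp only [Finset.filter_false, Finset.card_empty, Nat.cast_zero]
  positivity

private lemma sofSmall_word (w : FreeGroup G) :
    SofSmall fun n (σ : G → Equiv.Perm (Fin n)) x => FreeGroup.lift σ w x ≠ σ (pw G w) x := by
  induction w using FreeGroup.induction_on with
  | C1 =>
    refine sofSmall_one.mono fun n σ x h h2 => h ?_
    rw [map_one, map_one, Equiv.Perm.one_apply, h2]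
  | of g =>
    refine sofSmall_false.mono fun n σ x h => h ?_
    simp [pw]
  | inv_of g _ =>
    refine (((sofSmall_mul g⁻¹ g).or sofSmall_one).perm fun n σ => (σ g)⁻¹).mono
      fun n σ x h => ?_
    by_contra hcon
    push Not at hcon
    obtain ⟨h1, h2⟩ := hcon
    apply h
    rw [inv_mul_cancel, h2, Equiv.Perm.coe_inv, Equiv.apply_symm_apply] at h1
    simpa [pw] using h1
  | mul a b ha hb =>
    refine (((ha.perm fun n σ => FreeGroup.lift σ b).or hb).or
      (sofSmall_mul (pw G a) (pw G b))).mono fun n σ x h => ?_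
    by_contra hcon
    push Not at hcon
    obtain ⟨⟨h1, h2⟩, h3⟩ := hcon
    apply h
    rw [map_mul, map_mul, Equiv.Perm.mul_apply, h1, h2, h3]

private lemma sofSmall_bad (w : FreeGroup G) :
    SofSmall fun n (σ : G → Equiv.Perm (Fin n)) x =>
      ¬ (FreeGroup.lift σ w x = x ↔ pw G w = 1) := by
  by_cases hw : pw G w = 1
  · refine ((sofSmall_word w).or sofSmall_one).mono fun n σ x h => ?_
    by_contra hcon
    push Not at hcon
    apply h
    rw [hcon.1, hw, hcon.2]
    simp
  · refine ((sofSmall_word w).or (sofSmall_fix hw)).mono fun n σ x h => ?_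
    by_contra hcon
    push Not at hcon
    apply h
    rw [hcon.1]
    exact ⟨fun h1 => absurd h1 hcon.2, fun h1 => absurd h1 hw⟩

private lemma sofSmall_all (F : Finset (FreeGroup G)) :
    SofSmall fun n (σ : G → Equiv.Perm (Fin n)) x => ∃ w ∈ F,
      ¬ (FreeGroup.lift σ w x = x ↔ pw G w = 1) := by
  induction F using Finset.induction_on with
  | empty =>
    refine sofSmall_false.mono fun n σ x h => ?_
    obtain ⟨w, hw, -⟩ := h
    exact absurd hw (Finset.notMem_empty w)
  | insert w F _ ih =>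
    refine ((sofSmall_bad w).or ih).mono fun n σ x h => ?_
    obtain ⟨v, hv, h1⟩ := h
    rcases Finset.mem_insert.1 hv with rfl | hv
    · exact Or.inl h1
    · exact Or.inr ⟨v, hv, h1⟩

private lemma sof_model (hn : 0 < n) (σ : G → Equiv.Perm (Fin n)) (F : Finset (FreeGroup G))
    (c : ℝ) (h : ((Finset.univ.filter fun x : Fin n => ∃ w ∈ F,
      ¬ (FreeGroup.lift σ w x = x ↔ pw G w = 1)).card : ℝ) ≤ c * n) :
    ∃ M : Mod G, ((bad M F).card : ℝ) ≤ c * sz M := by
  refine ⟨{ X := Fin n
            fin := inferInstance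
            act := MulAction.compHom (Fin n) (FreeGroup.lift σ)
            ne := ⟨⟨0, hn⟩⟩ }, ?_⟩
  refine (sof_card _ _).le.trans (h.trans (le_of_eq ?_))
  unfold sz
  congr 2
  exact (Fintype.card_fin n).symm

end Aux

theorem sf_neBot {G : Type} [Group G] (h : IsSofic G) : (sf G).NeBot := by
  rw [Filter.neBot_iff]
  intro h0
  have h1 : (∅ : Set (Mod G)) ∈ sf G := by
    rw [h0]
    exact Filter.mem_bot
  obtain ⟨F, δ, hδ, h2⟩ := h1
  obtain ⟨F', ε', hε', h3⟩ := sofSmall_all F δ hδ
  obtain ⟨n, σ, hn, h4, h5⟩ := h F' ε' hε'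
  obtain ⟨M, hM⟩ := sof_model hn σ F δ ((sof_card _ _).le.trans (h3 n σ ⟨h4, h5⟩))
  exact Set.notMem_empty M (h2 M hM)

end Pool.Agent.AH
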