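import Pool.Agent.AH.MI
import Pool.Agent.AH.Sof
import Pool.Agent.AH.RealP
import Pool.Agent.HC.Tree

set_option autoImplicit false
set_option linter.unusedSectionVars false

noncomputable section

open scoped InnerProductSpace ENNReal Topology Matrix
open Classical Filter ContinuousLinearMap

/-!
Amenable edge groups: the final theorem.
-/

namespace Pool.Agent.AH

open Pool.Agent.VN Pool.Agent.LFT

open Pool.Agent.HI Pool.Agent.HC

section Fin

variable {G V : Type} [Group G] [MulAction G V]

lemma Amn.of_equiv {Q R : Type} [Group Q] [Group R] (e : Q ≃* R) (h : Amn Q) : Amn R := by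
  intro F ε hε
  obtain ⟨E, hE, h2⟩ := h (F.image e.symm) ε hε
  refine ⟨E.image e, hE.image _, fun f hf => ?_⟩
  have h3 := h2 (e.symm f) (Finset.mem_image_of_mem _ hf)
  have h4 : ((E.image e).filter fun x => f * x ∉ E.image e)
      = (E.filter fun x => e.symm f * x ∉ E).image e := by
    ext x
    simp only [Finset.mem_filter, Finset.mem_image]
    constructor
    · rintro ⟨⟨y, hy, rfl⟩, hx⟩
      refine ⟨y, ⟨hy, fun hy2 => hx ⟨_, hy2, ?_⟩⟩, rfl⟩
      simp
    · rintro ⟨y, ⟨hy, hy2⟩, rfl⟩
      refine ⟨⟨y, hy, rfl⟩, ?_⟩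
      rintro ⟨z, hz, hz2⟩
      apply hy2
      have h5 : z = e.symm f * y := by
        apply e.injective
        rw [hz2]
        simp
      rwa [← h5]
  rw [h4, Finset.card_image_of_injective _ e.injective,
    Finset.card_image_of_injective _ e.injective]
  exact h3

/-- Let a sofic group `G` act by automorphisms and without inversions on a tree such that the
stabilisers of all edges are amenable. If the stabilisers of all vertices satisfy the Atiyah
conjecture over `ℚ` then so does `G`. -/
theorem amenable_edges (hG : IsSofic G) (T : SimpleGraph V) (hT : T.IsTree)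
    (hadj : ∀ (g : G) (u v : V), T.Adj u v → T.Adj (g • u) (g • v))
    (hinv : ∀ (g : G) (u v : V), T.Adj u v → ¬ (g • u = v ∧ g • v = u))
    (hA : ∀ v : V, AtiyahOver Qc (MulAction.stabilizer G v))
    (hE : ∀ u v : V, T.Adj u v →
      Amn (MulAction.stabilizer G u ⊓ MulAction.stabilizer G v : Subgroup G)) :
    AtiyahOver Qc G := by
  have hsf := sf_neBot hG
  have hne : Nonempty V := hT.connected.nonempty
  obtain ⟨v0⟩ := hne
  by_cases hd : Nonempty T.Dart
  swap
  · -- no edges: a single vertex
    have hs : ∀ v : V, v = v0 := by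
      intro v
      by_contra hne
      obtain ⟨w⟩ := hT.connected.preconnected v v0
      cases w with
      | nil => exact hne rfl
      | cons h _ => exact hd ⟨⟨(_, _), h⟩⟩
    refine AtiyahOver.of_injective (hA v0) (MonoidHom.mk' (fun g : G =>
      (⟨g, hs _⟩ : MulAction.stabilizer G v0)) fun a b => rfl) ?_
    intro a b hab
    exact congrArg (fun x : MulAction.stabilizer G v0 => x.1) hab
  obtain ⟨δ0⟩ := hd
  let i1 : MulAction G T.Dart := dartAct T hadj
  let i2 : MulAction G {e : Sym2 V // e ∈ T.edgeSet} := edgeAct T hadj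
  obtain ⟨o, ho⟩ := exists_orient T hadj hinv
  set α0 : T.Dart → V := fun e => e.fst with hα0
  set α1 : T.Dart → {e : Sym2 V // e ∈ T.edgeSet} := fun e => ⟨e.edge, e.edge_mem⟩ with hα1
  have h0 : Eqv G α0 := fun g δ => rfl
  have h1 : Eqv G α1 := fun g δ => rfl
  have hhalf := tree_half T hT
  have hconn := tree_conn T hT
  have hst : ∀ δ : T.Dart, MulAction.stabilizer G δ
      = MulAction.stabilizer G δ.fst ⊓ MulAction.stabilizer G δ.snd := by
    intro δ
    ext g
    rw [Subgroup.mem_inf, MulAction.mem_stabilizer_iff, MulAction.mem_stabilizer_iff,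
      MulAction.mem_stabilizer_iff]
    constructor
    · intro h
      exact ⟨congrArg (fun e : T.Dart => e.fst) h, congrArg (fun e : T.Dart => e.snd) h⟩
    · rintro ⟨h, h'⟩
      apply SimpleGraph.Dart.ext
      exact Prod.ext h h'
  have hD : ∀ δ : T.Dart, Amn (MulAction.stabilizer G δ) := by
    intro δ
    rw [hst δ]
    exact hE _ _ δ.adj
  have hAF : AF Qc G α0 α1 := by
    intro ι _ d K0 K1 hK0 hK1 ε hε
    obtain ⟨P, hP, hl, hr, hf⟩ := formula_real α0 α1 h0 h1 hhalf d hK0.ci hK1.ci hK0.loc hK1.loc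
      (realv_rat hK0) (realv_rat hK1)
    have hU0 : Rat Qc (fun _ : ι => ()) K0 := hK0.mapLab (fun _ : V => ()) fun _ _ => rfl
    have hU1 : Rat Qc (fun _ : ι => ()) K1 :=
      hK1.mapLab (fun _ : {e : Sym2 V // e ∈ T.edgeSet} => ()) fun _ _ => rfl
    obtain ⟨S, hS, h⟩ := main_ineq hsf d (fun i => hD (d i)) hP hl hr hU0 hU1 hε
    exact ⟨S, hS, by rw [hf]; exact h⟩
  have hIA : Int0 Qc G V := fun ι _ lab X hX => Rat.int hA hX
  have hIB : Int0 Qc G {e : Sym2 V // e ∈ T.edgeSet} := by
    refine Int0.of_map (M' := V) o ho hIA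
  have hInt : Int0 Qc G Unit := by
    refine int_of_af (β := fun _ : T.Dart => ()) h0 h1 (fun _ _ => rfl)
      (fun _ => ⟨δ0, rfl⟩) (fun δ δ' _ => hconn δ δ') hAF hIA hIB
  exact atiyah_of_int0 hInt

end Fin

end Pool.Agent.AH
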