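import Pool.Agent.AH.AlgG
import Pool.Agent.LFT.LF1

set_option autoImplicit false
set_option linter.unusedSectionVars false

noncomputable section

open scoped InnerProductSpace ENNReal Topology Matrix
open Classical Filter ContinuousLinearMap

/-!
PACKAGE AH-GD. Dimensions on `ℓ²(G)`. All by `dm_imc` (`dm (imc T X) + dm (X ⊓ kr T) = dm X`).

`dm_UG`: `UG A B = imc prL (kr (oG (row2 A B)))`, and `kr (oG (row2 A B)) ⊓ kr prL` is the set of
the `inR z` with `oG B z = 0`, of dimension `dm (kr (oG B))` (`inR` is an isometry onto `kr prL`;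
`dm_imc` or `vdim_map` for `inR`).
`dm_inf_ge`: `K = kr (oG (row2 (cmp A N) B))`, `T (w, z) = oG N w`. `imc T K ≤ UG A B ⊓ imc (oG N) ⊤`
(for `(w, z) ∈ K`: `(N w, z) ∈ kr (oG (row2 A B))`), and `K ⊓ kr T = {(w,z) | N w = 0, B z = 0}`,
of dimension `dm (kr N) + dm (kr B)`.
`dm_WG`: `W = WG P A B` is the kernel of `T' = pjperp ∘ prL` on `K = kr (oG (row2 A B))`, where
`pjperp` is the projection on `Pᗮ` (`1 - pj P`; `pj_eq`): `dm W = dm K - dm (imc T' K)`,
`imc T' K = imc pjperp (UG A B)` (`imc_imc`), `dm (imc pjperp (UG A B)) = dm (UG A B) -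
dm (UG A B ⊓ P)`; with `dm_UG`: `dm W = dm K - dm (UG A B) + dm (P ⊓ UG A B)
= dm (kr (oG B)) + dm (P ⊓ UG A B)`.
-/

namespace Pool.Agent.AH

open Pool.Agent.VN Pool.Agent.LFT

variable {ι ι' κ ν : Type} [Fintype ι] [Fintype ι'] [Fintype κ] [Fintype ν] {G : Type} [Group G]

lemma GD_ci (A : LQ κ ι (FreeGroup G)) (B : LQ κ ι' (FreeGroup G)) :
    CI (kr (oG (row2 A B))) := CI.kr (oG_equivar _)

lemma GD_inf (A : LQ κ ι (FreeGroup G)) (B : LQ κ ι' (FreeGroup G)) :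
    kr (oG (row2 A B)) ⊓ kr (prL : L2 (ι ⊕ ι') G →L[ℂ] L2 ι G) =
      LF1_both ⊥ (kr (oG B)) := by
  ext z
  rw [Submodule.mem_inf, mem_kr, mem_kr, oG_row2, LF1_mem_both, Submodule.mem_bot, mem_kr]
  constructor
  · rintro ⟨h1, h2⟩
    rw [h2, map_zero, zero_add] at h1
    exact ⟨h2, h1⟩
  · rintro ⟨h1, h2⟩
    exact ⟨by rw [h1, h2, map_zero, zero_add], h1⟩

lemma UG_ci (A : LQ κ ι (FreeGroup G)) (B : LQ κ ι' (FreeGroup G)) : CI (UG A B) :=
  CI.imc LF1_equivar_prL (GD_ci A B).inv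

theorem dm_imc_top (N : LQ ι ν (FreeGroup G)) :
    dm (imc (oG N) ⊤) = Fintype.card ν - dm (kr (oG N)) := by
  have h1 := dm_imc (oG_equivar N) (CI.top (G := G) (ι := ν))
  rw [dm_top, top_inf_eq] at h1
  linarith

theorem dm_UG (A : LQ κ ι (FreeGroup G)) (B : LQ κ ι' (FreeGroup G)) :
    dm (UG A B) + dm (kr (oG B)) = dm (kr (oG (row2 A B))) := by
  have h1 := dm_imc (LF1_equivar_prL (κ := ι) (κ' := ι')) (GD_ci A B)
  rw [GD_inf, LF1_dm_both CI.bot (CI.kr (oG_equivar B)), dm_bot, zero_add] at h1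
  exact h1

theorem dm_inf_ge (A : LQ κ ι (FreeGroup G)) (B : LQ κ ι' (FreeGroup G))
    (N : LQ ι ν (FreeGroup G)) :
    dm (kr (oG (row2 (cmp A N) B)))
      ≤ dm (UG A B ⊓ imc (oG N) ⊤) + dm (kr (oG N)) + dm (kr (oG B)) := by
  have hT : Equivar (oG N ∘L (prL : L2 (ν ⊕ ι') G →L[ℂ] L2 ν G)) :=
    (oG_equivar N).comp LF1_equivar_prL
  have h1 := dm_imc hT (GD_ci (cmp A N) B)
  have h2 : kr (oG (row2 (cmp A N) B)) ⊓ kr (oG N ∘L (prL : L2 (ν ⊕ ι') G →L[ℂ] L2 ν G)) =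
      LF1_both (kr (oG N)) (kr (oG B)) := by
    ext z
    rw [Submodule.mem_inf, mem_kr, mem_kr, oG_row2, LF1_mem_both, mem_kr, mem_kr, oG_cmp,
      ContinuousLinearMap.comp_apply, ContinuousLinearMap.comp_apply]
    constructor
    · rintro ⟨h3, h4⟩
      rw [h4, map_zero, zero_add] at h3
      exact ⟨h4, h3⟩
    · rintro ⟨h3, h4⟩
      exact ⟨by rw [h3, h4, map_zero, zero_add], h3⟩
  rw [h2, LF1_dm_both (CI.kr (oG_equivar N)) (CI.kr (oG_equivar B))] at h1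
  have h3 : imc (oG N ∘L (prL : L2 (ν ⊕ ι') G →L[ℂ] L2 ν G)) (kr (oG (row2 (cmp A N) B))) ≤
      UG A B ⊓ imc (oG N) ⊤ := by
    refine imc_le ((UG_ci A B).cl.inter (Submodule.isClosed_topologicalClosure _)) ?_
    intro z hz
    rw [mem_kr, oG_row2, oG_cmp, ContinuousLinearMap.comp_apply] at hz
    refine ⟨?_, mem_imc (oG N) (x := prL z) trivial⟩
    have h4 : (inL (oG N (prL z)) + inR (prR z) : L2 (ι ⊕ ι') G) ∈ kr (oG (row2 A B)) := by
      have e1 : prL (inL (oG N (prL z)) + inR (prR z) : L2 (ι ⊕ ι') G) = oG N (prL z) := by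
        rw [map_add, prL_inL, prL_inR, add_zero]
      have e2 : prR (inL (oG N (prL z)) + inR (prR z) : L2 (ι ⊕ ι') G) = prR z := by
        rw [map_add, prR_inL, prR_inR, zero_add]
      rw [mem_kr, oG_row2, e1, e2]
      exact hz
    have h5 := mem_imc (prL : L2 (ι ⊕ ι') G →L[ℂ] L2 ι G) h4
    rw [map_add, prL_inL, prL_inR, add_zero] at h5
    exact h5
  have h4 := dm_mono h3
  linarith

theorem dm_WG {P : Submodule ℂ (L2 ι G)} (hP : CI P) (A : LQ κ ι (FreeGroup G))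
    (B : LQ κ ι' (FreeGroup G)) :
    dm (WG P A B) = dm (P ⊓ UG A B) + dm (kr (oG B)) := by
  have c1 : CompleteSpace P := hP.cl.completeSpace_coe
  have hπ : Equivar ((1 : L2 ι G →L[ℂ] L2 ι G) - P.starProjection) :=
    Equivar.one.sub hP.inv.proj
  have hkr : kr ((1 : L2 ι G →L[ℂ] L2 ι G) - P.starProjection) = P := by
    ext x
    rw [mem_kr]
    show x - P.starProjection x = 0 ↔ x ∈ P
    rw [sub_eq_zero]
    constructor
    · intro h
      rw [h]
      exact Submodule.starProjection_apply_mem _ _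
    · intro h
      exact (Submodule.starProjection_eq_self_iff.mpr h).symm
  have h1 := dm_imc (hπ.comp (LF1_equivar_prL (κ := ι) (κ' := ι'))) (GD_ci A B)
  have h2 : kr (oG (row2 A B)) ⊓ kr (((1 : L2 ι G →L[ℂ] L2 ι G) - P.starProjection) ∘L
      (prL : L2 (ι ⊕ ι') G →L[ℂ] L2 ι G)) = WG P A B := by
    unfold WG
    congr 1
    ext z
    rw [mem_kr, ContinuousLinearMap.comp_apply, ← mem_kr, hkr]
    rfl
  have h3 := dm_imc hπ (UG_ci A B)
  rw [hkr] at h3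
  rw [h2, ← imc_imc] at h1
  have h4 : imc ((1 : L2 ι G →L[ℂ] L2 ι G) - P.starProjection)
      (imc (prL : L2 (ι ⊕ ι') G →L[ℂ] L2 ι G) (kr (oG (row2 A B)))) =
      imc ((1 : L2 ι G →L[ℂ] L2 ι G) - P.starProjection) (UG A B) := rfl
  rw [h4] at h1
  have h5 := dm_UG A B
  rw [inf_comm] at h3
  linarith

end Pool.Agent.AH
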