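import Pool.Agent.AH.AlgG
import Pool.Agent.AH.OpPos

set_option autoImplicit false
set_option linter.unusedSectionVars false

noncomputable section

open scoped InnerProductSpace ENNReal Topology Matrix
open Classical Filter ContinuousLinearMap

/-!
PACKAGE AH-JEN. Jensen's inequality on `ℓ²(G)`.

Let `N = card ι + card ι'`, `T = -(1/2) log k`, `W = WG P A B` (closed, invariant), `Q = pj W`,
`a = oG (aL b k A B) = ext + R* R`, `R = oG (row2 A B)`, `ext = inL b prL + k inR prR` (`oG_aL`,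
`oG_ext2`), `R Q = 0`.
(1) `tr (l(a)) = tr (Q l(a) Q) + tr ((1-Q) l(a) (1-Q))` (`tr_comm`), that is the sum over the basis
vectors `v` of `⟨Q v, l(a) Q v⟩ + ⟨(1-Q) v, l(a) (1-Q) v⟩`.
(2) On `[k, K']`: `l x ≥ -(1/2) log x - 1 ≥ T - (x - k)/(2k) - 1` (tangent line of the convex
function at `k`), so `Re ⟨w, l(a) w⟩ ≥ (T - 1/2) ‖w‖² - (1/(2k)) Re ⟨w, a w⟩` for all `w`
(`op_poly_nonneg`). For `w = Q v`: `⟨w, a w⟩ = ⟨w, ext w⟩ = k ‖w‖² + ⟨prL w, (b - k) prL w⟩`. The sum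
over `v` of the last term is `Re tr (Q B')`, `B' = inL (b - k) prL`, `BdO 0 1 B'`, equivariant; by
`tr_pj_mono` it is at most `Re tr (pj P' B')` for `P' = P.comap prL ≥ W`, and
`pj P' = inL (pj P) prL + inR prR`, so this is `Re tr (pj P (b - k)) ≤ k`. The sum of the `‖Q v‖²` is
`r = dm W`. So the first part is at least `(T - 1/2) r - (1/(2k)) (k r + k) = (T - 1) r - 1/2`.
(3) On `[k, K']`: `l x ≥ -(1/2) log K' - 1`, so the second part is at least
`-((1/2) log K' + 1) (N - r)`. Sum: `≥ T r - 1/2 - N ((1/2) log K' + 1)`, as `log K' ≥ 0`.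
-/

namespace Pool.Agent.AH

open Pool.Agent.VN Pool.Agent.LFT

section Gen

variable {σ : Type} [Fintype σ] {G : Type} [Group G]

private lemma jen_sum {Q L : L2 σ G →L[ℂ] L2 σ G} (hs : IsSelfAdjoint Q) (hi : Q ∘L Q = Q)
    (hQ : Equivar Q) (hL : Equivar L) :
    ∑ i : σ, (⟪Q (dl (i, (1 : G))), L (Q (dl (i, (1 : G))))⟫_ℂ).re = (tr (Q ∘L L)).re := by
  have h1 : tr (Q ∘L L) = tr ((Q ∘L L) ∘L Q) := by
    rw [tr_comm hQ (hQ.comp hL), ← ContinuousLinearMap.comp_assoc, hi]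
  rw [h1]
  unfold tr
  rw [Complex.re_sum]
  refine Finset.sum_congr rfl fun i _ => ?_
  have h2 : ContinuousLinearMap.adjoint Q = Q := hs
  show (⟪Q (dl (i, (1 : G))), L (Q (dl (i, (1 : G))))⟫_ℂ).re =
    (⟪dl (i, (1 : G)), Q (L (Q (dl (i, (1 : G)))))⟫_ℂ).re
  rw [← ContinuousLinearMap.adjoint_inner_left Q, h2]

private lemma jen_aeval {a : L2 σ G →L[ℂ] L2 σ G} (ha : Equivar a) (l : Polynomial ℝ) :
    Equivar (Polynomial.aeval a l : L2 σ G →L[ℂ] L2 σ G) := by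
  rw [Polynomial.aeval_eq_sum_range]
  refine Equivar.sum _ fun n _ => ?_
  have h : l.coeff n • a ^ n = ((l.coeff n : ℝ) : ℂ) • a ^ n := rfl
  rw [h]
  exact (ha.pow n).smul _

private lemma jen_op {a : L2 σ G →L[ℂ] L2 σ G} {c d : ℝ} (ha : BdO c d a) (l : Polynomial ℝ)
    (u s : ℝ) (h : ∀ x ∈ Set.Icc c d, u - s * x ≤ l.eval x) (w : L2 σ G) :
    u * ‖w‖ ^ 2 - s * (⟪w, a w⟫_ℂ).re ≤
      (⟪w, (Polynomial.aeval a l : L2 σ G →L[ℂ] L2 σ G) w⟫_ℂ).re := by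
  have h1 := op_poly_nonneg ha.sym ha.lo ha.hi
    (l - Polynomial.C u + Polynomial.C s * Polynomial.X)
    (fun t ht => by
      have := h t ht
      simp only [Polynomial.eval_add, Polynomial.eval_sub, Polynomial.eval_C,
        Polynomial.eval_mul, Polynomial.eval_X]
      linarith) w
  rw [map_add, map_sub, map_mul, Polynomial.aeval_C, Polynomial.aeval_C, Polynomial.aeval_X,
    Algebra.algebraMap_eq_smul_one, Algebra.algebraMap_eq_smul_one] at h1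
  have h2 : 0 ≤ (⟪w, (Polynomial.aeval a l : L2 σ G →L[ℂ] L2 σ G) w - (u : ℂ) • w
      + (s : ℂ) • a w⟫_ℂ).re := h1
  clear h1
  rename' h2 => h1
  rw [inner_add_right, inner_sub_right, inner_smul_right, inner_smul_right,
    inner_self_eq_norm_sq_to_K] at h1
  have h3 : ((u : ℂ) * ((‖w‖ : ℂ) ^ 2)).re = u * ‖w‖ ^ 2 := by
    rw [← Complex.ofReal_pow, ← Complex.ofReal_mul, Complex.ofReal_re]
  have h4 : ((s : ℂ) * ⟪w, a w⟫_ℂ).re = s * (⟪w, a w⟫_ℂ).re := by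
    rw [Complex.re_ofReal_mul]
  simp only [Complex.add_re, Complex.sub_re, Complex.coe_algebraMap] at h1
  rw [h3, h4] at h1
  linarith

end Gen

variable {ι ι' κ : Type} [Fintype ι] [Fintype ι'] [Fintype κ] {G : Type} [Group G]

private lemma jen_prL_equivar : Equivar (prL : L2 (ι ⊕ ι') G →L[ℂ] L2 ι G) := by
  unfold prL crd
  exact mulR_equivar _

private lemma jen_inL_equivar : Equivar (inL : L2 ι G →L[ℂ] L2 (ι ⊕ ι') G) := by
  unfold inL
  exact mulR_equivar _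

private lemma jen_comap {P : Submodule ℂ (L2 ι G)} (hP : CI P) :
    CI (P.comap (prL : L2 (ι ⊕ ι') G →L[ℂ] L2 ι G).toLinearMap) := by
  refine ⟨hP.cl.preimage (prL : L2 (ι ⊕ ι') G →L[ℂ] L2 ι G).continuous, ?_⟩
  intro s x hx
  have h : (prL : L2 (ι ⊕ ι') G →L[ℂ] L2 ι G) (lt s x) = lt s (prL x) := jen_prL_equivar s x
  show (prL : L2 (ι ⊕ ι') G →L[ℂ] L2 ι G) (lt s x) ∈ P
  rw [h]
  exact hP.inv s _ hx

private lemma jen_inner_inL (x : L2 ι G) (y : L2 (ι ⊕ ι') G) :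
    ⟪(inL x : L2 (ι ⊕ ι') G), y⟫_ℂ = ⟪x, prL y⟫_ℂ := by
  have hj : Function.Injective (fun p : ι × G => ((Sum.inl p.1 : ι ⊕ ι'), p.2)) := by
    rintro ⟨a, b⟩ ⟨c, d⟩ h
    simpa using h
  have h1 : (inL x : L2 (ι ⊕ ι') G) = push _ hj x := by
    ext ⟨i, g⟩
    rcases i with i | i
    · rw [inL_inl]
      exact (push_apply _ hj x (i, g)).symm
    · rw [inL_inr, push_apply_of_notMem]
      rintro ⟨a, b⟩ h
      simp at h
  have h2 : prL y = pull _ hj y := by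
    ext ⟨i, g⟩
    rw [prL_apply]
    rfl
  rw [h1, h2]
  unfold push
  rw [ContinuousLinearMap.adjoint_inner_left]

private lemma jen_norm (x : L2 (ι ⊕ ι') G) : ‖(prL x : L2 ι G)‖ ≤ ‖x‖ := by
  have hj : Function.Injective (fun p : ι × G => ((Sum.inl p.1 : ι ⊕ ι'), p.2)) := by
    rintro ⟨a, b⟩ ⟨c, d⟩ h
    simpa using h
  have h2 : prL x = pull _ hj x := by
    ext ⟨i, g⟩
    rw [prL_apply]
    rfl
  rw [h2]
  exact norm_pull_le _ hj x

private lemma jen_pj_comap {P : Submodule ℂ (L2 ι G)} (hP : CI P) (x : L2 (ι ⊕ ι') G) :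
    pj (P.comap (prL : L2 (ι ⊕ ι') G →L[ℂ] L2 ι G).toLinearMap) x =
      inL (pj P (prL x)) + inR (prR x) := by
  have c1 := jen_comap (ι' := ι') hP
  have i1 : CompleteSpace (P.comap (prL : L2 (ι ⊕ ι') G →L[ℂ] L2 ι G).toLinearMap) :=
    c1.cl.completeSpace_coe
  have i2 : CompleteSpace P := hP.cl.completeSpace_coe
  rw [pj_eq c1.cl]
  apply Submodule.eq_starProjection_of_mem_of_inner_eq_zero
  · show (prL : L2 (ι ⊕ ι') G →L[ℂ] L2 ι G) (inL (pj P (prL x)) + inR (prR x)) ∈ P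
    rw [map_add, prL_inL, prL_inR, add_zero]
    exact pj_mem _
  · intro w hw
    have hw' : (prL : L2 (ι ⊕ ι') G →L[ℂ] L2 ι G) w ∈ P := hw
    have e1 : x - (inL (pj P (prL x)) + inR (prR x)) = inL (prL x - pj P (prL x)) := by
      rw [map_sub]
      nth_rewrite 1 [← inL_prL_add x]
      abel
    rw [e1, jen_inner_inL, pj_eq hP.cl]
    exact P.starProjection_inner_eq_zero _ _ hw'

lemma WG_ci {P : Submodule ℂ (L2 ι G)} (hP : CI P) (A : LQ κ ι (FreeGroup G))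
    (B : LQ κ ι' (FreeGroup G)) : CI (WG P A B) :=
  (CI.kr (oG_equivar _)).inf (jen_comap hP)

/-- the operator `inL C prL` -/
private def jenB (C : L2 ι G →L[ℂ] L2 ι G) : L2 (ι ⊕ ι') G →L[ℂ] L2 (ι ⊕ ι') G :=
  inL ∘L (C ∘L prL)

private lemma jenB_equivar {C : L2 ι G →L[ℂ] L2 ι G} (hC : Equivar C) :
    Equivar (jenB (ι' := ι') C) := jen_inL_equivar.comp (hC.comp jen_prL_equivar)

private lemma jenB_inner (C : L2 ι G →L[ℂ] L2 ι G) (x y : L2 (ι ⊕ ι') G) :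
    ⟪x, jenB C y⟫_ℂ = ⟪prL x, C (prL y)⟫_ℂ := by
  have h := jen_inner_inL (ι' := ι') (C (prL y)) x
  have h2 := congrArg (starRingEnd ℂ) h
  rw [inner_conj_symm, inner_conj_symm] at h2
  exact h2

private lemma jenB_bd {C : L2 ι G →L[ℂ] L2 ι G} {d : ℝ} (hd : 0 ≤ d) (hC : BdO 0 d C) :
    BdO 0 d (jenB (ι' := ι') C) := by
  refine ⟨?_, fun x => ?_, fun x => ?_⟩
  · rw [ContinuousLinearMap.isSelfAdjoint_iff_isSymmetric]
    intro x y
    show ⟪jenB C x, y⟫_ℂ = ⟪x, jenB C y⟫_ℂ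
    have h1 := hC.sym
    rw [ContinuousLinearMap.isSelfAdjoint_iff_isSymmetric] at h1
    have h2 : ⟪C (prL x), prL y⟫_ℂ = ⟪prL x, C (prL y)⟫_ℂ := h1 _ _
    rw [jenB_inner, ← h2]
    exact jen_inner_inL _ _
  · rw [jenB_inner, zero_mul]
    have := hC.lo (prL x)
    rwa [zero_mul] at this
  · rw [jenB_inner]
    refine (hC.hi (prL x)).trans ?_
    exact mul_le_mul_of_nonneg_left
      (pow_le_pow_left₀ (norm_nonneg _) (jen_norm x) 2) hd

/-- the trace on the big projection -/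
private lemma jenB_tr {P : Submodule ℂ (L2 ι G)} (hP : CI P) {C : L2 ι G →L[ℂ] L2 ι G}
    (hC : Equivar C) :
    tr (pj (P.comap (prL : L2 (ι ⊕ ι') G →L[ℂ] L2 ι G).toLinearMap) ∘L jenB C) =
      tr (pj P ∘L C) := by
  have h1 : pj (P.comap (prL : L2 (ι ⊕ ι') G →L[ℂ] L2 ι G).toLinearMap) ∘L jenB C =
      inL ∘L ((pj P ∘L C) ∘L prL) := by
    ext1 x
    show pj (P.comap (prL : L2 (ι ⊕ ι') G →L[ℂ] L2 ι G).toLinearMap) (inL (C (prL x))) =
      inL (pj P (C (prL x)))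
    rw [jen_pj_comap hP, prL_inL, prR_inL, map_zero, add_zero]
  rw [h1, tr_comm (((pj_equivar hP).comp hC).comp jen_prL_equivar) jen_inL_equivar]
  congr 1
  ext1 x
  show pj P (C (prL (inL (κ' := ι') x))) = pj P (C x)
  rw [prL_inL]

theorem jensen {P : Submodule ℂ (L2 ι G)} (hP : CI P) {k : ℚ} (h0 : 0 < k) (h1 : k < 1)
    {b : LQ ι ι (FreeGroup G)} (hb : BdO (k : ℝ) 1 (oG b))
    (hPb : (tr (pj P ∘L (oG b - (k : ℂ) • (1 : L2 ι G →L[ℂ] L2 ι G)))).re ≤ k)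
    (A : LQ κ ι (FreeGroup G)) (B : LQ κ ι' (FreeGroup G)) {K' : ℝ} (hK : 1 ≤ K')
    (ha : BdO (k : ℝ) K' (oG (aL b k A B))) (l : Polynomial ℝ)
    (hl : ∀ x ∈ Set.Icc (k : ℝ) K', -(1 / 2) * Real.log x - 1 ≤ l.eval x) :
    -(1 / 2) * Real.log k * dm (WG P A B)
        - (1 / 2 + (Fintype.card ι + Fintype.card ι') * (1 / 2 * Real.log K' + 1))
      ≤ (tr (Polynomial.aeval (oG (aL b k A B)) l)).re := by
  have k0 : (0 : ℝ) < (k : ℝ) := by exact_mod_cast h0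
  have k1 : (k : ℝ) < 1 := by exact_mod_cast h1
  set T : ℝ := -(1 / 2) * Real.log k with hT
  set a : L2 (ι ⊕ ι') G →L[ℂ] L2 (ι ⊕ ι') G := oG (aL b k A B) with haa
  set L : L2 (ι ⊕ ι') G →L[ℂ] L2 (ι ⊕ ι') G := Polynomial.aeval a l with hL
  have eL : Equivar L := jen_aeval (oG_equivar _) l
  have cW := WG_ci hP A B
  set W := WG P A B with hW
  set Q := pj W with hQ
  have eQ : Equivar Q := pj_equivar cW
  have sQ : IsSelfAdjoint Q := pj_sa W
  have iQ : Q ∘L Q = Q := pj_idem W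
  set Q' : L2 (ι ⊕ ι') G →L[ℂ] L2 (ι ⊕ ι') G := 1 - Q with hQ'
  have eQ' : Equivar Q' := Equivar.one.sub eQ
  have sQ' : IsSelfAdjoint Q' := (IsSelfAdjoint.one _).sub sQ
  have iQ' : Q' ∘L Q' = Q' := by
    ext1 x
    have := congrArg (fun S : L2 (ι ⊕ ι') G →L[ℂ] L2 (ι ⊕ ι') G => S x) iQ
    have h2 : Q (Q x) = Q x := this
    show (x - Q x) - Q (x - Q x) = x - Q x
    rw [map_sub, h2, sub_self, sub_zero]
  -- the operator C
  set C : L2 ι G →L[ℂ] L2 ι G := oG b - (k : ℂ) • (1 : L2 ι G →L[ℂ] L2 ι G) with hC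
  have eC : Equivar C := (oG_equivar b).sub (Equivar.one.smul _)
  have cast : ((k : ℚ) : ℂ) = (((k : ℚ) : ℝ) : ℂ) := by push_cast; rfl
  have bC : BdO 0 (1 - (k : ℝ)) C := by
    have e1 : ∀ x : L2 ι G, (⟪x, C x⟫_ℂ).re = (⟪x, oG b x⟫_ℂ).re - k * ‖x‖ ^ 2 := by
      intro x
      have e2 : C x = oG b x - (k : ℂ) • x := rfl
      rw [e2, inner_sub_right, inner_smul_right, inner_self_eq_norm_sq_to_K, cast,
        Complex.sub_re]
      congr 1
      simp only [Complex.coe_algebraMap]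
      rw [← Complex.ofReal_pow, ← Complex.ofReal_mul, Complex.ofReal_re]
    refine ⟨?_, fun x => ?_, fun x => ?_⟩
    · refine hb.sym.sub ?_
      rw [cast]
      refine IsSelfAdjoint.smul ?_ (IsSelfAdjoint.one _)
      rw [isSelfAdjoint_iff, Complex.star_def, Complex.conj_ofReal]
    · rw [e1]
      have := hb.lo x
      linarith
    · rw [e1]
      have := hb.hi x
      linarith
  -- the trace estimate
  have est : (tr (Q ∘L jenB C)).re ≤ k := by
    have h2 := tr_pj_mono (jenB_equivar (ι' := ι') eC)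
      (jenB_bd (ι' := ι') (by linarith) bC) cW (jen_comap (ι' := ι') hP)
      (inf_le_right : W ≤ _)
    rw [jenB_tr hP eC] at h2
    exact h2.trans hPb
  -- the value of a on W
  have hval : ∀ w ∈ W, a w = jenB C w + (k : ℂ) • w := by
    intro w hw
    have hR : oG (row2 A B) w = 0 := (Submodule.mem_inf.mp hw).1
    have e1 : a w = inL (oG b (prL w)) + (k : ℂ) • inR (prR w) +
        (ContinuousLinearMap.adjoint (oG (row2 A B))) (oG (row2 A B) w) := by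
      rw [haa, oG_aL, oG_ext2]
      rfl
    have e2 : jenB C w = inL (oG b (prL w)) - (k : ℂ) • inL (prL w) := by
      show inL (oG b (prL w) - (k : ℂ) • prL w) = _
      rw [map_sub, map_smul]
    have e3 : (k : ℂ) • w = (k : ℂ) • inL (prL w) + (k : ℂ) • inR (prR w) := by
      rw [← smul_add, inL_prL_add]
    rw [e1, hR, map_zero, add_zero, e2, e3]
    abel
  have mQ : ∀ x, Q x ∈ W := fun x => pj_mem x
  have hre : ∀ x, (⟪Q x, a (Q x)⟫_ℂ).re = (⟪Q x, jenB C (Q x)⟫_ℂ).re + k * ‖Q x‖ ^ 2 := by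
    intro x
    rw [hval _ (mQ x), inner_add_right, inner_smul_right, inner_self_eq_norm_sq_to_K, cast,
      Complex.add_re]
    congr 1
    simp only [Complex.coe_algebraMap]
    rw [← Complex.ofReal_pow, ← Complex.ofReal_mul, Complex.ofReal_re]
  -- sums
  have hr : ∑ i : ι ⊕ ι', ‖Q (dl (i, (1 : G)))‖ ^ 2 = dm W := hs_pj cW
  have hr' : ∑ i : ι ⊕ ι', ‖Q' (dl (i, (1 : G)))‖ ^ 2 =
      (Fintype.card ι + Fintype.card ι' : ℝ) - dm W := by
    have : CompleteSpace W := cW.cl.completeSpace_coe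
    have e1 : ∀ i : ι ⊕ ι', ‖Q' (dl (i, (1 : G)))‖ ^ 2 =
        1 - ‖Q (dl (i, (1 : G)))‖ ^ 2 := by
      intro i
      have e2 := norm_sub_proj_sq W (dl (i, (1 : G)))
      rw [norm_dl, one_pow, ← pj_eq cW.cl] at e2
      exact e2
    rw [Finset.sum_congr rfl fun i _ => e1 i, Finset.sum_sub_distrib, hr, Finset.sum_const,
      Finset.card_univ, Fintype.card_sum, nsmul_eq_mul, mul_one]
    push_cast
    rfl
  have hsum : (tr L).re = ∑ i : ι ⊕ ι', (⟪Q (dl (i, (1 : G))), L (Q (dl (i, (1 : G))))⟫_ℂ).re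
      + ∑ i : ι ⊕ ι', (⟪Q' (dl (i, (1 : G))), L (Q' (dl (i, (1 : G))))⟫_ℂ).re := by
    rw [jen_sum sQ iQ eQ eL, jen_sum sQ' iQ' eQ' eL, ← Complex.add_re, ← tr_add,
      ← ContinuousLinearMap.add_comp, hQ', add_sub_cancel]
    rfl
  -- the first part
  have tang : ∀ x ∈ Set.Icc (k : ℝ) K', (T - 1 / 2) - (1 / (2 * k)) * x ≤ l.eval x := by
    intro x hx
    refine le_trans ?_ (hl x hx)
    have x0 : 0 < x := lt_of_lt_of_le k0 hx.1
    have e1 : Real.log (x / k) ≤ x / k - 1 := Real.log_le_sub_one_of_pos (by positivity)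
    rw [Real.log_div x0.ne' k0.ne'] at e1
    have e2 : 1 / (2 * (k : ℝ)) * x = (1 / 2) * (x / k) := by
      field_simp
    rw [e2, hT]
    linarith
  have p1 : (T - 1) * dm W - 1 / 2 ≤
      ∑ i : ι ⊕ ι', (⟪Q (dl (i, (1 : G))), L (Q (dl (i, (1 : G))))⟫_ℂ).re := by
    have e1 : ∑ i : ι ⊕ ι', ((T - 1 / 2) * ‖Q (dl (i, (1 : G)))‖ ^ 2 -
        1 / (2 * k) * (⟪Q (dl (i, (1 : G))), a (Q (dl (i, (1 : G))))⟫_ℂ).re) ≤
        ∑ i : ι ⊕ ι', (⟪Q (dl (i, (1 : G))), L (Q (dl (i, (1 : G))))⟫_ℂ).re :=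
      Finset.sum_le_sum fun i _ => jen_op ha l _ _ tang _
    have e2 : ∑ i : ι ⊕ ι', (⟪Q (dl (i, (1 : G))), a (Q (dl (i, (1 : G))))⟫_ℂ).re =
        (tr (Q ∘L jenB C)).re + k * dm W := by
      rw [Finset.sum_congr rfl fun i _ => hre (dl (i, (1 : G))), Finset.sum_add_distrib,
        ← Finset.mul_sum, hr, jen_sum sQ iQ eQ (jenB_equivar eC)]
    rw [Finset.sum_sub_distrib, ← Finset.mul_sum, ← Finset.mul_sum, hr, e2] at e1
    refine le_trans ?_ e1
    have e3 : 1 / (2 * (k : ℝ)) * ((tr (Q ∘L jenB C)).re + k * dm W) ≤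
        1 / (2 * (k : ℝ)) * (k + k * dm W) :=
      mul_le_mul_of_nonneg_left (by linarith) (by positivity)
    have e4 : 1 / (2 * (k : ℝ)) * (k + k * dm W) = 1 / 2 + 1 / 2 * dm W := by
      field_simp
    linarith
  -- the second part
  have low : ∀ x ∈ Set.Icc (k : ℝ) K', -(1 / 2 * Real.log K' + 1) - 0 * x ≤ l.eval x := by
    intro x hx
    refine le_trans ?_ (hl x hx)
    have x0 : 0 < x := lt_of_lt_of_le k0 hx.1
    have e1 := Real.log_le_log x0 hx.2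
    linarith
  have p2 : -(1 / 2 * Real.log K' + 1) * ((Fintype.card ι + Fintype.card ι' : ℝ) - dm W) ≤
      ∑ i : ι ⊕ ι', (⟪Q' (dl (i, (1 : G))), L (Q' (dl (i, (1 : G))))⟫_ℂ).re := by
    rw [← hr', Finset.mul_sum]
    refine Finset.sum_le_sum fun i _ => ?_
    have := jen_op ha l _ _ low (Q' (dl (i, (1 : G))))
    rwa [zero_mul, sub_zero] at this
  have hdm : 0 ≤ dm W := dm_nonneg W
  have hlog : 0 ≤ Real.log K' := Real.log_nonneg hK
  rw [hsum]
  nlinarith [mul_nonneg hlog hdm]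

end Pool.Agent.AH
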