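import Pool.Agent.AH.AlgG

set_option autoImplicit false
set_option linter.unusedSectionVars false

noncomputable section

open scoped InnerProductSpace ENNReal Topology Matrix
open Classical Filter ContinuousLinearMap

/-!
PACKAGE AH-JENB. Bounds of the operator `a = ext + R* R` on `ℓ²(G)`: `oG_aL`, `oG_ext2`:
`⟨z, a z⟩ = ⟨prL z, b prL z⟩ + k ‖prR z‖² + ‖R z‖²`, `‖z‖² = ‖prL z‖² + ‖prR z‖²`,
`‖R‖ ≤ n1 (row2 A B)` (`norm_oG_le`).
-/

namespace Pool.Agent.AH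

open Pool.Agent.VN Pool.Agent.LFT

variable {ι ι' κ : Type} [Fintype ι] [Fintype ι'] [Fintype κ] {G : Type} [Group G]

lemma JenB_inner (z w : L2 (ι ⊕ ι') G) :
    ⟪z, w⟫_ℂ = ⟪prL z, prL w⟫_ℂ + ⟪prR z, prR w⟫_ℂ := by
  have h1 := lp.hasSum_inner (𝕜 := ℂ) (prL z) (prL w)
  have h2 := lp.hasSum_inner (𝕜 := ℂ) (prR z) (prR w)
  have h3 := lp.hasSum_inner (𝕜 := ℂ) z w
  have h4 := (Equiv.sumProdDistrib ι ι' G).symm.hasSum_iff.2 h3
  refine h4.unique (HasSum.sum (f := (fun i => ⟪z i, w i⟫_ℂ) ∘ (Equiv.sumProdDistrib ι ι' G).symm)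
    ?_ ?_)
  · refine h1.congr_fun ?_
    rintro ⟨i, g⟩
    simp
  · refine h2.congr_fun ?_
    rintro ⟨i, g⟩
    simp

lemma JenB_inner_inL (z : L2 (ι ⊕ ι') G) (y : L2 ι G) : ⟪z, inL y⟫_ℂ = ⟪prL z, y⟫_ℂ := by
  rw [JenB_inner, prL_inL, prR_inL, inner_zero_right, add_zero]

lemma JenB_inner_inR (z : L2 (ι ⊕ ι') G) (y : L2 ι' G) : ⟪z, inR y⟫_ℂ = ⟪prR z, y⟫_ℂ := by
  rw [JenB_inner, prL_inR, prR_inR, inner_zero_right, zero_add]

lemma JenB_rixL (b : LQ ι ι (FreeGroup G)) (z : L2 (ι ⊕ ι') G) :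
    oG (rix Sum.inl Sum.inl b : LQ (ι ⊕ ι') (ι ⊕ ι') (FreeGroup G)) z = inL (oG b (prL z)) := by
  ext ⟨i, g⟩
  rw [oG_apply]
  unfold rix
  rw [List.map_map]
  rcases i with i | i
  · rw [inL_inl, oG_apply]
    congr 1
    apply List.map_congr_left
    intro t _
    simp
  · rw [inL_inr]
    apply List.sum_eq_zero
    intro x hx
    obtain ⟨t, _, rfl⟩ := List.mem_map.mp hx
    simp

lemma JenB_rixR (b : LQ ι' ι' (FreeGroup G)) (z : L2 (ι ⊕ ι') G) :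
    oG (rix Sum.inr Sum.inr b : LQ (ι ⊕ ι') (ι ⊕ ι') (FreeGroup G)) z = inR (oG b (prR z)) := by
  ext ⟨i, g⟩
  rw [oG_apply]
  unfold rix
  rw [List.map_map]
  rcases i with i | i
  · rw [inR_inl]
    apply List.sum_eq_zero
    intro x hx
    obtain ⟨t, _, rfl⟩ := List.mem_map.mp hx
    simp
  · rw [inR_inr, oG_apply]
    congr 1
    apply List.map_congr_left
    intro t _
    simp

lemma JenB_ext2 (b : LQ ι ι (FreeGroup G)) (k : ℚ) (z : L2 (ι ⊕ ι') G) :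
    oG (ext2 b k : LQ (ι ⊕ ι') (ι ⊕ ι') (FreeGroup G)) z =
      inL (oG b (prL z)) + inR ((k : ℂ) • prR z) := by
  unfold ext2
  rw [oG_append, _root_.add_apply, JenB_rixL, JenB_rixR, oG_sml, oG_one]
  rfl

lemma JenB_aL (b : LQ ι ι (FreeGroup G)) (k : ℚ) (A : LQ κ ι (FreeGroup G))
    (B : LQ κ ι' (FreeGroup G)) : oG (aL b k A B) = oG (ext2 b k) +
      adjoint (oG (row2 A B)) ∘L oG (row2 A B) := by
  unfold aL
  rw [oG_append, oG_cmp, oG_adj]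

lemma norm_prL_prR (z : L2 (ι ⊕ ι') G) : ‖z‖ ^ 2 = ‖prL z‖ ^ 2 + ‖prR z‖ ^ 2 := by
  have h := JenB_inner z z
  rw [inner_self_eq_norm_sq_to_K, inner_self_eq_norm_sq_to_K, inner_self_eq_norm_sq_to_K] at h
  exact_mod_cast h

theorem bdO_aL {k : ℚ} (h0 : 0 < k) (h1 : k < 1) {b : LQ ι ι (FreeGroup G)}
    (hb : BdO (k : ℝ) 1 (oG b)) (A : LQ κ ι (FreeGroup G)) (B : LQ κ ι' (FreeGroup G)) :
    BdO (k : ℝ) (1 + (n1 (row2 A B) : ℝ) ^ 2) (oG (aL b k A B)) := by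
  set R := oG (G := G) (row2 A B) with hR
  have hq : ∀ z : L2 (ι ⊕ ι') G, (⟪z, oG (aL b k A B) z⟫_ℂ).re =
      (⟪prL z, oG b (prL z)⟫_ℂ).re + k * ‖prR z‖ ^ 2 + ‖R z‖ ^ 2 := by
    intro z
    rw [JenB_aL, _root_.add_apply, JenB_ext2, inner_add_right, inner_add_right, JenB_inner_inL,
      JenB_inner_inR, inner_smul_right, ContinuousLinearMap.comp_apply, adjoint_inner_right,
      inner_self_eq_norm_sq_to_K, inner_self_eq_norm_sq_to_K, Complex.add_re, Complex.add_re]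
    congr 1
    · congr 1
      have h7 : ((k : ℚ) : ℂ) = (((k : ℚ) : ℝ) : ℂ) := by push_cast; rfl
      rw [h7, Complex.re_ofReal_mul]
      norm_cast
    · norm_cast
  have hRn : ∀ z : L2 (ι ⊕ ι') G, ‖R z‖ ^ 2 ≤ (n1 (row2 A B) : ℝ) ^ 2 * ‖z‖ ^ 2 := by
    intro z
    have h2 := R.le_of_opNorm_le (norm_oG_le (row2 A B)) z
    rw [← mul_pow]
    exact pow_le_pow_left₀ (norm_nonneg _) h2 2
  have hk0 : (0 : ℝ) < k := by exact_mod_cast h0
  have hk1 : (k : ℝ) < 1 := by exact_mod_cast h1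
  refine ⟨?_, fun z => ?_, fun z => ?_⟩
  · rw [JenB_aL]
    refine IsSelfAdjoint.add ?_ ?_
    · refine LinearMap.IsSymmetric.isSelfAdjoint fun x y => ?_
      change ⟪oG (ext2 b k) x, y⟫_ℂ = ⟪x, oG (ext2 b k) y⟫_ℂ
      rw [JenB_ext2, JenB_ext2, JenB_inner, JenB_inner x]
      simp only [map_add, prL_inL, prL_inR, prR_inL, prR_inR, add_zero, zero_add]
      have hs : ⟪oG b (prL x), prL y⟫_ℂ = ⟪prL x, oG b (prL y)⟫_ℂ := hb.sym.isSymmetric _ _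
      rw [hs, inner_smul_left, inner_smul_right]
      simp
    · exact (ContinuousLinearMap.isPositive_adjoint_comp_self R).isSelfAdjoint
  · rw [hq z, norm_prL_prR z]
    have := hb.lo (prL z)
    nlinarith [sq_nonneg ‖R z‖]
  · rw [hq z]
    have h3 := hb.hi (prL z)
    have h4 := hRn z
    have h5 := norm_prL_prR z
    have h6 := sq_nonneg ‖prR z‖
    nlinarith

end Pool.Agent.AH
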