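import Mathlib

/-!
Amenable edges, lattice block, part A: determinant inequalities for real positive matrices.
-/

namespace AHL

open Matrix
open scoped MatrixOrder

theorem one_le_det_one_add {n : Type*} [Fintype n] [DecidableEq n] {E : Matrix n n ℝ}
    (hE : E.PosSemidef) : 1 ≤ (1 + E).det := by
  have h1 : (1 + E).IsHermitian := isHermitian_one.add hE.1
  rw [h1.det_eq_prod_eigenvalues]
  have : ∀ i, (1 : ℝ) ≤ h1.eigenvalues i := by
    intro i
    rw [h1.eigenvalues_eq]
    rw [add_mulVec, one_mulVec, dotProduct_add]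
    have h2 := hE.dotProduct_mulVec_nonneg (h1.eigenvectorBasis i).ofLp
    have h3 : (star (h1.eigenvectorBasis i).ofLp) ⬝ᵥ (h1.eigenvectorBasis i).ofLp = 1 := by
      have := h1.eigenvectorBasis.orthonormal.1 i
      have h4 : inner ℝ (h1.eigenvectorBasis i) (h1.eigenvectorBasis i) = (1 : ℝ) := by
        rw [real_inner_self_eq_norm_sq, this]; norm_num
      rw [EuclideanSpace.inner_eq_star_dotProduct, dotProduct_comm] at h4
      exact h4
    rw [h3]
    simpa using h2
  have h5 : ∀ s : Finset n, (1 : ℝ) ≤ ∏ i ∈ s, h1.eigenvalues i := by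
    intro s
    refine Finset.prod_induction _ (fun x : ℝ => 1 ≤ x) (fun a b ha hb => ?_) le_rfl
      (fun i _ => this i)
    nlinarith
  simpa using h5 Finset.univ

/-- Monotonicity of the determinant on positive semidefinite matrices. -/
theorem det_mono {n : Type*} [Fintype n] [DecidableEq n] {X Y : Matrix n n ℝ}
    (hX : X.PosSemidef) (hY : (Y - X).PosSemidef) : X.det ≤ Y.det := by
  by_cases hd : X.det = 0
  · rw [hd]
    have : Y = X + (Y - X) := by abel
    have h2 : Y.PosSemidef := by rw [this]; exact hX.add hY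
    exact h2.det_nonneg
  · obtain ⟨B, hB⟩ := CStarAlgebra.nonneg_iff_eq_star_mul_self.mp hX.nonneg
    rw [star_eq_conjTranspose] at hB
    have hBd : B.det ≠ 0 := by
      intro h; apply hd; rw [hB, det_mul, h, mul_zero]
    have hBu : IsUnit B.det := isUnit_iff_ne_zero.mpr hBd
    set E : Matrix n n ℝ := (B⁻¹)ᴴ * (Y - X) * B⁻¹ with hE
    have hEp : E.PosSemidef := hY.conjTranspose_mul_mul_same _
    have hYe : Y = Bᴴ * (1 + E) * B := by
      rw [hE, mul_add, add_mul, mul_one, ← hB]
      have e1 : Bᴴ * ((B⁻¹)ᴴ * (Y - X) * B⁻¹) * B = (Bᴴ * (B⁻¹)ᴴ) * (Y - X) * (B⁻¹ * B) := by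
        simp only [mul_assoc]
      rw [e1, ← conjTranspose_mul, nonsing_inv_mul _ hBu, conjTranspose_one, one_mul, mul_one]
      abel
    have h1 := one_le_det_one_add hEp
    have hXn : 0 ≤ X.det := hX.det_nonneg
    have hXd : X.det = Bᴴ.det * B.det := by rw [hB, det_mul]
    calc X.det = X.det * 1 := (mul_one _).symm
      _ ≤ X.det * (1 + E).det := mul_le_mul_of_nonneg_left h1 hXn
      _ = Y.det := by rw [hYe, det_mul, det_mul, hXd]; ring

/-- Fischer's inequality. -/
theorem fischer {m n : Type*} [Fintype m] [DecidableEq m] [Fintype n] [DecidableEq n]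
    {A : Matrix m m ℝ} {B : Matrix m n ℝ} {D : Matrix n n ℝ}
    (hN : (fromBlocks A B Bᴴ D).PosSemidef) (hA : A.PosDef) :
    (fromBlocks A B Bᴴ D).det ≤ A.det * D.det := by
  have : Invertible A := hA.isUnit.invertible
  have h1 : (D - Bᴴ * A⁻¹ * B).PosSemidef := (PosDef.fromBlocks₁₁ B D hA).mp hN
  rw [det_fromBlocks₁₁, invOf_eq_nonsing_inv]
  refine mul_le_mul_of_nonneg_left (det_mono h1 ?_) hA.det_pos.le
  have : D - (D - Bᴴ * A⁻¹ * B) = Bᴴ * A⁻¹ * B := by abel
  rw [this]
  exact hA.inv.posSemidef.conjTranspose_mul_mul_same _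

end AHL
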