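import Pool.Agent.AH.LatA

/-!
Amenable edges, lattice block, part B: integer points of rational subspaces, Gram determinants.
-/

set_option linter.unusedSectionVars false

namespace AHL

open Matrix Module
open scoped MatrixOrder

variable {J : Type*} [Fintype J] [DecidableEq J]

/-- coordinatewise cast -/
def castL (J : Type*) : (J → ℤ) →ₗ[ℤ] (J → ℚ) where
  toFun v := fun j => (v j : ℚ)
  map_add' _ _ := by ext; simp
  map_smul' _ _ := by ext; simp

theorem castL_apply (v : J → ℤ) (j : J) : castL J v j = (v j : ℚ) := rfl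

theorem castL_injective : Function.Injective (castL J) := by
  intro v w h
  ext j
  have := congrFun h j
  simpa [castL_apply] using this

/-- integer points of a rational subspace -/
def lat (W : Submodule ℚ (J → ℚ)) : Submodule ℤ (J → ℤ) :=
  (W.restrictScalars ℤ).comap (castL J)

theorem mem_lat {W : Submodule ℚ (J → ℚ)} {v : J → ℤ} : v ∈ lat W ↔ castL J v ∈ W := Iff.rfl

theorem lat_mono {W W' : Submodule ℚ (J → ℚ)} (h : W ≤ W') : lat W ≤ lat W' :=
  fun _ hv => h hv

/-- matrix of integer rows -/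
def rows {α : Type*} (v : α → J → ℤ) : Matrix α J ℝ := Matrix.of fun x j => (v x j : ℝ)

/-- Gram matrix of integer vectors -/
def gram {α : Type*} (b : Matrix J J ℝ) (v : α → J → ℤ) : Matrix α α ℝ :=
  rows v * b * (rows v)ᴴ

theorem rows_comb {α β : Type*} [Fintype β] (C : Matrix α β ℤ) (w : β → J → ℤ) :
    rows (fun x => ∑ y, C x y • w y) = (C.map (Int.cast : ℤ → ℝ)) * rows w := by
  ext x j
  simp [rows, Matrix.mul_apply]

theorem gram_comb {α β : Type*} [Fintype β] (b : Matrix J J ℝ) (C : Matrix α β ℤ)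
    (w : β → J → ℤ) : gram b (fun x => ∑ y, C x y • w y) =
      (C.map (Int.cast : ℤ → ℝ)) * gram b w * (C.map (Int.cast : ℤ → ℝ))ᴴ := by
  rw [gram, rows_comb, gram, conjTranspose_mul]
  simp only [Matrix.mul_assoc]

theorem det_gram_comb {α : Type*} [Fintype α] [DecidableEq α] (b : Matrix J J ℝ)
    (C : Matrix α α ℤ) (w : α → J → ℤ) :
    (gram b (fun x => ∑ y, C x y • w y)).det = ((C.det : ℤ) : ℝ) ^ 2 * (gram b w).det := by
  rw [gram_comb, det_mul, det_mul]
  have h1 : (C.map (Int.cast : ℤ → ℝ)).det = ((C.det : ℤ) : ℝ) := by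
    have := (Int.castRingHom ℝ).map_det C
    simpa using this.symm
  have h2 : ((C.map (Int.cast : ℤ → ℝ))ᴴ).det = ((C.det : ℤ) : ℝ) := by
    rw [det_conjTranspose, h1]; simp
  rw [h1, h2]; ring

theorem det_gram_equiv {α β : Type*} [Fintype α] [DecidableEq α] [Fintype β] [DecidableEq β]
    (b : Matrix J J ℝ) (σ : α ≃ β) (w : β → J → ℤ) :
    (gram b (fun x => w (σ x))).det = (gram b w).det := by
  have : gram b (fun x => w (σ x)) = (gram b w).submatrix σ σ := by
    ext x y; simp [gram, rows, Matrix.mul_apply, Matrix.submatrix_apply]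
  rw [this, det_submatrix_equiv_self]

theorem li_cast {α : Type*} {v : α → J → ℤ} (hv : LinearIndependent ℤ v) :
    LinearIndependent ℚ (fun x => castL J (v x)) := by
  have h1 : LinearIndependent ℤ (fun x => castL J (v x)) :=
    hv.map' (castL J) (LinearMap.ker_eq_bot.mpr castL_injective)
  exact (LinearIndependent.iff_fractionRing ℤ ℚ).mp h1

theorem li_of_cast {α : Type*} {v : α → J → ℤ}
    (hv : LinearIndependent ℚ (fun x => castL J (v x))) : LinearIndependent ℤ v := by
  have h1 : LinearIndependent ℤ (fun x => castL J (v x)) :=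
    (LinearIndependent.iff_fractionRing ℤ ℚ).mpr hv
  exact h1.of_comp (castL J)

theorem rows_injective {α : Type*} [Fintype α] {v : α → J → ℤ}
    (hv : LinearIndependent ℤ v) : Function.Injective (fun x : α → ℝ => x ᵥ* rows v) := by
  classical
  set A : Matrix α J ℚ := Matrix.of fun x j => (v x j : ℚ) with hA
  have h1 : LinearIndependent ℚ A.row := li_cast hv
  have h2 : Function.Injective A.vecMul := vecMul_injective_iff.mpr h1
  have h3 : Function.Injective (A.vecMulLinear) := h2
  obtain ⟨g, hg⟩ := LinearMap.exists_leftInverse_of_injective A.vecMulLinear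
    (LinearMap.ker_eq_bot.mpr h3)
  set B : Matrix J α ℚ := Matrix.of fun j x => g (Pi.single j 1) x with hB
  have hAB : A * B = 1 := by
    ext x y
    have h4 := congrArg (fun f : (α → ℚ) →ₗ[ℚ] (α → ℚ) => f (Pi.single x 1) y) hg
    simp only [LinearMap.comp_apply, LinearMap.id_apply] at h4
    rw [Matrix.mul_apply, Matrix.one_apply]
    have h5 : A.vecMulLinear (Pi.single x 1) = ∑ j, A x j • (Pi.single j 1 : J → ℚ) := by
      ext j
      simp [Finset.sum_apply, Pi.single_apply]
    rw [h5, map_sum, Finset.sum_apply] at h4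
    simp only [map_smul, Pi.smul_apply, smul_eq_mul] at h4
    have h6 : ∑ j, A x j * B j y = ∑ j, A x j * g (Pi.single j 1) y := rfl
    rw [h6, h4, Pi.single_apply]
    by_cases hxy : x = y
    · subst hxy; simp
    · simp [hxy, Ne.symm hxy]
  have hAB' : rows v * B.map (Rat.cast : ℚ → ℝ) = 1 := by
    have h7 : rows v = A.map (Rat.cast : ℚ → ℝ) := by
      ext x j; simp [rows, hA]
    have h8 : (A * B).map (Rat.cast : ℚ → ℝ) = (1 : Matrix α α ℚ).map (Rat.cast : ℚ → ℝ) := by
      rw [hAB]
    rw [h7]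
    have h9 : (A * B).map (Rat.cast : ℚ → ℝ) = A.map (Rat.cast : ℚ → ℝ) * B.map (Rat.cast : ℚ → ℝ) := by
      have := Matrix.map_mul (L := A) (M := B) (f := (Rat.castHom ℝ))
      simpa using this
    rw [← h9, h8]
    ext x y; by_cases hxy : x = y <;> simp [hxy, Matrix.one_apply]
  intro x y hxy
  have h10 := congrArg (fun z => z ᵥ* (B.map (Rat.cast : ℚ → ℝ))) hxy
  simpa [Matrix.vecMul_vecMul, hAB'] using h10

theorem gram_posDef {α : Type*} [Fintype α] [DecidableEq α] {b : Matrix J J ℝ} (hb : b.PosDef)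
    {v : α → J → ℤ} (hv : LinearIndependent ℤ v) : (gram b v).PosDef :=
  hb.mul_mul_conjTranspose_same (rows_injective hv)

theorem gram_posSemidef {α : Type*} [Fintype α] [DecidableEq α] {b : Matrix J J ℝ}
    (hb : b.PosSemidef) (v : α → J → ℤ) : (gram b v).PosSemidef :=
  hb.mul_mul_conjTranspose_same _

/-- The squared covolume of the lattice of integer points of `W`, for the metric `b`. -/
noncomputable def gdet (b : Matrix J J ℝ) (W : Submodule ℚ (J → ℚ)) : ℝ :=
  (gram b (fun i => ((Module.finBasis ℤ (lat W) i : lat W) : J → ℤ))).det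

theorem coe_li {α : Type*} {W : Submodule ℚ (J → ℚ)} {e : α → lat W}
    (he : LinearIndependent ℤ e) : LinearIndependent ℤ (fun i => ((e i : lat W) : J → ℤ)) :=
  he.map' (lat W).subtype (LinearMap.ker_eq_bot.mpr (Submodule.injective_subtype _))

theorem expand {α β : Type*} [Fintype β] {W : Submodule ℚ (J → ℚ)} (e : Basis β ℤ (lat W))
    (v : α → lat W) : (fun x => ((v x : lat W) : J → ℤ)) =
      fun x => ∑ y, (e.repr (v x) y) • ((e y : lat W) : J → ℤ) := by
  funext x
  have h := congrArg (fun u : lat W => (u : J → ℤ)) (e.sum_repr (v x))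
  simp only [Submodule.coe_sum, Submodule.coe_smul] at h
  exact h.symm

theorem det_le_aux {α : Type*} [Fintype α] [DecidableEq α] {b : Matrix J J ℝ}
    (hb : b.PosSemidef) {W : Submodule ℚ (J → ℚ)} (e : Basis α ℤ (lat W)) (v : α → lat W)
    (hv : LinearIndependent ℤ v) :
    (gram b (fun i => ((e i : lat W) : J → ℤ))).det ≤
      (gram b (fun i => ((v i : lat W) : J → ℤ))).det := by
  have h0 : 0 ≤ (gram b (fun i => ((e i : lat W) : J → ℤ))).det := (gram_posSemidef hb _).det_nonneg
  set C : Matrix α α ℤ := Matrix.of fun x y => e.repr (v x) y with hC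
  have hE : (fun x => ((v x : lat W) : J → ℤ)) =
      fun x => ∑ y, C x y • ((e y : lat W) : J → ℤ) := expand e v
  rw [hE, det_gram_comb]
  have h1 : C.det ≠ 0 := by
    have h2 : C.row = fun x => ⇑(e.repr (v x)) := rfl
    have h3 : LinearIndependent ℤ C.row := by
      have h4 : LinearIndependent ℤ (fun x => e.equivFun (v x)) :=
        hv.map' e.equivFun.toLinearMap (LinearMap.ker_eq_bot.mpr e.equivFun.injective)
      exact h4
    intro hdet
    obtain ⟨w, hw0, hw⟩ := Matrix.exists_vecMul_eq_zero_iff.mpr hdet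
    apply hw0
    have h5 := Fintype.linearIndependent_iff.mp h3 w (by
      rw [← hw]; ext j; simp [Matrix.vecMul, dotProduct, Finset.sum_apply])
    ext i; exact h5 i
  have h6 : (1 : ℝ) ≤ ((C.det : ℤ) : ℝ) ^ 2 := by
    have h7 : (1 : ℤ) ≤ C.det ^ 2 := by
      have : 0 < C.det ^ 2 := by positivity
      omega
    exact_mod_cast h7
  nlinarith

theorem gdet_basis {α : Type*} [Fintype α] [DecidableEq α] {b : Matrix J J ℝ}
    (hb : b.PosSemidef) {W : Submodule ℚ (J → ℚ)} (e : Basis α ℤ (lat W)) :
    (gram b (fun i => ((e i : lat W) : J → ℤ))).det = gdet b W := by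
  let f := Module.finBasis ℤ (lat W)
  let σ : α ≃ Fin (finrank ℤ (lat W)) := e.indexEquiv f
  let f' : Basis α ℤ (lat W) := f.reindex σ.symm
  have h1 : (gram b (fun i => ((f' i : lat W) : J → ℤ))).det = gdet b W := by
    rw [gdet, ← det_gram_equiv b σ]
    congr 1
    ext x y
    simp [f', f]
  rw [← h1]
  exact le_antisymm (det_le_aux hb e f' f'.linearIndependent)
    (det_le_aux hb f' e e.linearIndependent)

theorem gdet_le {α : Type*} [Fintype α] [DecidableEq α] {b : Matrix J J ℝ}
    (hb : b.PosSemidef) {W : Submodule ℚ (J → ℚ)} (v : α → lat W)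
    (hv : LinearIndependent ℤ v) (hc : Fintype.card α = finrank ℤ (lat W)) :
    gdet b W ≤ (gram b (fun i => ((v i : lat W) : J → ℤ))).det := by
  let f := Module.finBasis ℤ (lat W)
  let σ : α ≃ Fin (finrank ℤ (lat W)) := Fintype.equivFinOfCardEq hc
  let f' : Basis α ℤ (lat W) := f.reindex σ.symm
  rw [← gdet_basis hb f']
  exact det_le_aux hb f' v hv

theorem gdet_pos {b : Matrix J J ℝ} (hb : b.PosDef) (W : Submodule ℚ (J → ℚ)) :
    0 < gdet b W :=
  (gram_posDef hb (coe_li (Module.finBasis ℤ (lat W)).linearIndependent)).det_pos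

end AHL
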