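import Pool.Agent.AH.LatB

/-!
Amenable edges, lattice block, part C: adapted bases, supermodularity of the degree.
-/

set_option linter.unusedSectionVars false

namespace AHL

open Matrix Module
open scoped MatrixOrder

variable {J : Type*} [Fintype J] [DecidableEq J]

theorem exists_smul_mem (w : J → ℚ) : ∃ D : ℤ, D ≠ 0 ∧ ∃ v : J → ℤ, castL J v = (D : ℚ) • w := by
  refine ⟨∏ j, ((w j).den : ℤ), ?_, fun j => (w j).num * ∏ i ∈ Finset.univ.erase j, ((w i).den : ℤ),
    ?_⟩
  · exact Finset.prod_ne_zero_iff.mpr fun j _ => by exact_mod_cast (w j).den_nz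
  · ext j
    rw [castL_apply, Pi.smul_apply, smul_eq_mul]
    rw [← Finset.mul_prod_erase Finset.univ (fun i => ((w i).den : ℤ)) (Finset.mem_univ j)]
    push_cast
    have h := Rat.mul_den_eq_num (w j)
    have h2 : (w j) * ((w j).den : ℚ) = ((w j).num : ℚ) := h
    rw [← h2]; ring

theorem span_lat (W : Submodule ℚ (J → ℚ)) :
    Submodule.span ℚ (castL J '' (lat W : Set (J → ℤ))) = W := by
  apply le_antisymm
  · rw [Submodule.span_le]
    rintro _ ⟨v, hv, rfl⟩
    exact hv
  · intro w hw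
    obtain ⟨D, hD, v, hv⟩ := exists_smul_mem w
    have hD' : (D : ℚ) ≠ 0 := by exact_mod_cast hD
    have h1 : w = (D : ℚ)⁻¹ • castL J v := by
      rw [hv, smul_smul, inv_mul_cancel₀ hD', one_smul]
    rw [h1]
    refine Submodule.smul_mem _ _ (Submodule.subset_span ⟨v, ?_, rfl⟩)
    change castL J v ∈ W
    rw [hv]; exact W.smul_mem _ hw

theorem span_basis {α : Type*} [Fintype α] {W : Submodule ℚ (J → ℚ)} (e : Basis α ℤ (lat W)) :
    Submodule.span ℚ (Set.range fun i => castL J ((e i : lat W) : J → ℤ)) = W := by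
  apply le_antisymm
  · rw [Submodule.span_le]
    rintro _ ⟨i, rfl⟩
    exact (e i).2
  · conv_lhs => rw [← span_lat W]
    rw [Submodule.span_le]
    rintro _ ⟨v, hv, rfl⟩
    have h := congrArg (fun u : lat W => castL J (u : J → ℤ)) (e.sum_repr ⟨v, hv⟩)
    simp only [Submodule.coe_sum, Submodule.coe_smul, map_sum, map_smul] at h
    rw [← h]
    refine Submodule.sum_mem _ fun i _ => ?_
    have h2 : (e.repr ⟨v, hv⟩ i) • castL J ((e i : lat W) : J → ℤ) =
        ((e.repr ⟨v, hv⟩ i : ℤ) : ℚ) • castL J ((e i : lat W) : J → ℤ) := by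
      ext j; simp
    rw [h2]
    exact Submodule.smul_mem _ _ (Submodule.subset_span ⟨i, rfl⟩)

theorem card_basis {α : Type*} [Fintype α] {W : Submodule ℚ (J → ℚ)} (e : Basis α ℤ (lat W)) :
    Fintype.card α = finrank ℚ W := by
  have h1 := finrank_span_eq_card (li_cast (coe_li e.linearIndependent))
  rw [span_basis e] at h1
  exact h1.symm

theorem finrank_lat (W : Submodule ℚ (J → ℚ)) : finrank ℤ (lat W) = finrank ℚ W := by
  rw [← card_basis (Module.finBasis ℤ (lat W)), Fintype.card_fin]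

theorem exists_adapted {W0 W : Submodule ℚ (J → ℚ)} (h : W0 ≤ W) {α : Type*} [Fintype α]
    (q : Basis α ℤ (lat W0)) :
    ∃ (k : ℕ) (e : Basis (α ⊕ Fin k) ℤ (lat W)),
      ∀ i, ((e (Sum.inl i) : lat W) : J → ℤ) = ((q i : lat W0) : J → ℤ) := by
  let N : Submodule ℤ (lat W) := (lat W0).submoduleOf (lat W)
  let E : N ≃ₗ[ℤ] lat W0 := Submodule.submoduleOfEquivOfLe (lat_mono h)
  let q' : Basis α ℤ N := q.map E.symm
  have htf : Module.IsTorsionFree ℤ (lat W ⧸ N) := by
    refine Module.IsTorsionFree.of_smul_eq_zero fun r m hm => ?_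
    by_cases hr : r = 0
    · exact Or.inl hr
    right
    obtain ⟨v, rfl⟩ := Submodule.Quotient.mk_surjective _ m
    rw [← Submodule.Quotient.mk_smul, Submodule.Quotient.mk_eq_zero] at hm
    rw [Submodule.Quotient.mk_eq_zero]
    change castL J (r • (v : J → ℤ)) ∈ W0 at hm
    change castL J (v : J → ℤ) ∈ W0
    have h1 : castL J (r • (v : J → ℤ)) = (r : ℚ) • castL J (v : J → ℤ) := by
      ext j; simp [castL_apply]
    rw [h1] at hm
    have hr' : (r : ℚ) ≠ 0 := by exact_mod_cast hr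
    exact (W0.smul_mem_iff hr').mp hm
  refine ⟨finrank ℤ (lat W ⧸ N), Module.Basis.sumQuot q' (Module.finBasis ℤ (lat W ⧸ N)),
    fun i => ?_⟩
  rw [Module.Basis.sumQuot_inl]
  rfl

end AHL
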