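import Pool.Agent.AH.LatC

/-!
Amenable edges, lattice block, part D: Schur complements, Fischer, supermodularity of the degree.
-/

set_option linter.unusedSectionVars false

namespace AHL

open Matrix Module
open scoped MatrixOrder

section schur

variable {α β γ : Type*} [Fintype α] [DecidableEq α] [Fintype β] [DecidableEq β]
  [Fintype γ] [DecidableEq γ]

/-- Schur complement of the first block. -/
noncomputable def schur (N : Matrix (α ⊕ β) (α ⊕ β) ℝ) : Matrix β β ℝ :=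
  N.toBlocks₂₂ - N.toBlocks₁₂ᴴ * N.toBlocks₁₁⁻¹ * N.toBlocks₁₂

theorem blocks_eq {N : Matrix (α ⊕ β) (α ⊕ β) ℝ} (hN : N.IsHermitian) :
    fromBlocks N.toBlocks₁₁ N.toBlocks₁₂ N.toBlocks₁₂ᴴ N.toBlocks₂₂ = N := by
  have h : N.toBlocks₁₂ᴴ = N.toBlocks₂₁ := by
    ext i j
    have := congrFun (congrFun hN (Sum.inr i)) (Sum.inl j)
    simpa [toBlocks₁₂, toBlocks₂₁, conjTranspose_apply] using this
  rw [h, fromBlocks_toBlocks]

theorem posDef_11 {N : Matrix (α ⊕ β) (α ⊕ β) ℝ} (hN : N.PosDef) : N.toBlocks₁₁.PosDef :=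
  hN.submatrix (e := Sum.inl) Sum.inl_injective

theorem posDef_22 {N : Matrix (α ⊕ β) (α ⊕ β) ℝ} (hN : N.PosDef) : N.toBlocks₂₂.PosDef :=
  hN.submatrix (e := Sum.inr) Sum.inr_injective

theorem det_schur {N : Matrix (α ⊕ β) (α ⊕ β) ℝ} (hN : N.PosDef) :
    N.det = N.toBlocks₁₁.det * (schur N).det := by
  have : Invertible N.toBlocks₁₁ := (posDef_11 hN).isUnit.invertible
  conv_lhs => rw [← blocks_eq hN.1]
  rw [det_fromBlocks₁₁, invOf_eq_nonsing_inv]
  rfl

theorem schur_psd {N : Matrix (α ⊕ β) (α ⊕ β) ℝ} (hN : N.PosDef) : (schur N).PosSemidef := by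
  have : Invertible N.toBlocks₁₁ := (posDef_11 hN).isUnit.invertible
  refine (PosDef.fromBlocks₁₁ N.toBlocks₁₂ N.toBlocks₂₂ (posDef_11 hN)).mp ?_
  rw [blocks_eq hN.1]; exact hN.posSemidef

theorem schur_posDef {N : Matrix (α ⊕ β) (α ⊕ β) ℝ} (hN : N.PosDef) : (schur N).PosDef := by
  rw [(schur_psd hN).posDef_iff_det_ne_zero]
  intro h
  have := det_schur hN
  rw [h, mul_zero] at this
  exact hN.det_pos.ne' this

theorem schur_mono {N N' : Matrix (α ⊕ β) (α ⊕ β) ℝ} (hN : N.PosDef) (hN' : N'.PosDef)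
    (h : (N' - N).PosSemidef) : (schur N' - schur N).PosSemidef := by
  have i1 : Invertible N.toBlocks₁₁ := (posDef_11 hN).isUnit.invertible
  have i2 : Invertible N'.toBlocks₁₁ := (posDef_11 hN').isUnit.invertible
  have e1 : (fromBlocks N.toBlocks₁₁ N.toBlocks₁₂ N.toBlocks₁₂ᴴ
      (N.toBlocks₂₂ - schur N)).PosSemidef := by
    rw [PosDef.fromBlocks₁₁ _ _ (posDef_11 hN)]
    have : N.toBlocks₂₂ - schur N - N.toBlocks₁₂ᴴ * N.toBlocks₁₁⁻¹ * N.toBlocks₁₂ = 0 := by
      rw [schur]; abel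
    rw [this]; exact PosSemidef.zero
  have e2 : (fromBlocks N'.toBlocks₁₁ N'.toBlocks₁₂ N'.toBlocks₁₂ᴴ
      (N'.toBlocks₂₂ - schur N)).PosSemidef := by
    have : fromBlocks N'.toBlocks₁₁ N'.toBlocks₁₂ N'.toBlocks₁₂ᴴ (N'.toBlocks₂₂ - schur N) =
        fromBlocks N.toBlocks₁₁ N.toBlocks₁₂ N.toBlocks₁₂ᴴ (N.toBlocks₂₂ - schur N) + (N' - N) := by
      have hd : N' - N =
          fromBlocks N'.toBlocks₁₁ N'.toBlocks₁₂ N'.toBlocks₁₂ᴴ N'.toBlocks₂₂ +
          -fromBlocks N.toBlocks₁₁ N.toBlocks₁₂ N.toBlocks₁₂ᴴ N.toBlocks₂₂ := by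
        rw [blocks_eq hN'.1, blocks_eq hN.1, sub_eq_add_neg]
      rw [hd, fromBlocks_neg, fromBlocks_add, fromBlocks_add]
      congr 1 <;> abel
    rw [this]
    exact e1.add h
  rw [PosDef.fromBlocks₁₁ _ _ (posDef_11 hN')] at e2
  have : schur N' - schur N = N'.toBlocks₂₂ - schur N -
      N'.toBlocks₁₂ᴴ * N'.toBlocks₁₁⁻¹ * N'.toBlocks₁₂ := by
    rw [schur, schur]; abel
  rw [this]; exact e2

theorem fischer3 {N : Matrix (α ⊕ (β ⊕ γ)) (α ⊕ (β ⊕ γ)) ℝ} (hN : N.PosDef) :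
    N.det * N.toBlocks₁₁.det ≤
      (N.submatrix (Sum.map id Sum.inl) (Sum.map id Sum.inl) : Matrix (α ⊕ β) (α ⊕ β) ℝ).det *
      (N.submatrix (Sum.map id Sum.inr) (Sum.map id Sum.inr) : Matrix (α ⊕ γ) (α ⊕ γ) ℝ).det := by
  set N1 : Matrix (α ⊕ β) (α ⊕ β) ℝ := N.submatrix (Sum.map id Sum.inl) (Sum.map id Sum.inl)
    with hN1
  set N2 : Matrix (α ⊕ γ) (α ⊕ γ) ℝ := N.submatrix (Sum.map id Sum.inr) (Sum.map id Sum.inr)
    with hN2
  have p1 : N1.PosDef := hN.submatrix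
    (Function.Injective.sumMap Function.injective_id Sum.inl_injective)
  have p2 : N2.PosDef := hN.submatrix
    (Function.Injective.sumMap Function.injective_id Sum.inr_injective)
  have s1 : schur N1 = (schur N).toBlocks₁₁ := rfl
  have s2 : schur N2 = (schur N).toBlocks₂₂ := rfl
  have b1 : N1.toBlocks₁₁ = N.toBlocks₁₁ := rfl
  have b2 : N2.toBlocks₁₁ = N.toBlocks₁₁ := rfl
  have hS := schur_posDef hN
  have hf : (schur N).det ≤ (schur N).toBlocks₁₁.det * (schur N).toBlocks₂₂.det := by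
    have hbl := blocks_eq hS.1
    have hps : (fromBlocks (schur N).toBlocks₁₁ (schur N).toBlocks₁₂ (schur N).toBlocks₁₂ᴴ
      (schur N).toBlocks₂₂).PosSemidef := by rw [hbl]; exact hS.posSemidef
    have := fischer hps (posDef_11 hS)
    rwa [hbl] at this
  rw [det_schur hN, det_schur p1, det_schur p2, s1, s2, b1, b2]
  have hp : 0 < N.toBlocks₁₁.det := (posDef_11 hN).det_pos
  have : 0 ≤ N.toBlocks₁₁.det * N.toBlocks₁₁.det := by positivity
  nlinarith [mul_le_mul_of_nonneg_left hf this]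

end schur

variable {J : Type*} [Fintype J] [DecidableEq J]

theorem gram_submatrix {α β : Type*} (b : Matrix J J ℝ) (v : α → J → ℤ) (f : β → α) :
    (gram b v).submatrix f f = gram b (fun x => v (f x)) := by
  ext x y; simp [gram, rows, Matrix.mul_apply, Matrix.submatrix_apply]

/-- Supermodularity of the degree. -/
theorem gdet_super {b : Matrix J J ℝ} (hb : b.PosDef) (W W' : Submodule ℚ (J → ℚ)) :
    gdet b (W ⊔ W') * gdet b (W ⊓ W') ≤ gdet b W * gdet b W' := by
  let q := Module.finBasis ℤ (lat (W ⊓ W'))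
  obtain ⟨k, e, he⟩ := exists_adapted (inf_le_left : W ⊓ W' ≤ W) q
  obtain ⟨k', e', he'⟩ := exists_adapted (inf_le_right : W ⊓ W' ≤ W') q
  let v : Fin (finrank ℤ (lat (W ⊓ W'))) ⊕ (Fin k ⊕ Fin k') → J → ℤ :=
    Sum.elim (fun i => ((q i : lat (W ⊓ W')) : J → ℤ))
      (Sum.elim (fun j => ((e (Sum.inr j) : lat W) : J → ℤ))
        (fun j => ((e' (Sum.inr j) : lat W') : J → ℤ)))
  have hvf : ∀ x, v (Sum.map id Sum.inl x) = ((e x : lat W) : J → ℤ) := by
    rintro (i | j)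
    · exact (he i).symm
    · rfl
  have hvg : ∀ x, v (Sum.map id Sum.inr x) = ((e' x : lat W') : J → ℤ) := by
    rintro (i | j)
    · exact (he' i).symm
    · rfl
  have hspan : Submodule.span ℚ (Set.range fun x => castL J (v x)) = W ⊔ W' := by
    apply le_antisymm
    · rw [Submodule.span_le]
      rintro _ ⟨x, rfl⟩
      rcases x with i | j | j
      · exact (le_sup_left : W ≤ W ⊔ W') (q i).2.1
      · exact (le_sup_left : W ≤ W ⊔ W') (e (Sum.inr j)).2
      · exact (le_sup_right : W' ≤ W ⊔ W') (e' (Sum.inr j)).2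
    · apply sup_le
      · conv_lhs => rw [← span_basis e]
        rw [Submodule.span_le]
        rintro _ ⟨x, rfl⟩
        apply Submodule.subset_span
        exact ⟨Sum.map id Sum.inl x, by simp only [hvf]⟩
      · conv_lhs => rw [← span_basis e']
        rw [Submodule.span_le]
        rintro _ ⟨x, rfl⟩
        apply Submodule.subset_span
        exact ⟨Sum.map id Sum.inr x, by simp only [hvg]⟩
  have hcard : Fintype.card (Fin (finrank ℤ (lat (W ⊓ W'))) ⊕ (Fin k ⊕ Fin k')) =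
      finrank ℚ (W ⊔ W' : Submodule ℚ (J → ℚ)) := by
    have c1 := card_basis q
    have c2 := card_basis e
    have c3 := card_basis e'
    have c4 := Submodule.finrank_sup_add_finrank_inf_eq W W'
    simp only [Fintype.card_sum, Fintype.card_fin] at c1 c2 c3 ⊢
    omega
  have hli : LinearIndependent ℤ v := by
    apply li_of_cast
    rw [linearIndependent_iff_card_eq_finrank_span, Set.finrank, hspan, hcard]
  have hmem : ∀ x, v x ∈ lat (W ⊔ W') := by
    intro x
    rw [mem_lat, ← hspan]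
    exact Submodule.subset_span ⟨x, rfl⟩
  have hN : (gram b v).PosDef := gram_posDef hb hli
  have h1 := fischer3 hN
  have e1 : ((gram b v).submatrix (Sum.map id Sum.inl) (Sum.map id Sum.inl) :
      Matrix (Fin (finrank ℤ (lat (W ⊓ W'))) ⊕ Fin k) _ ℝ).det = gdet b W := by
    rw [gram_submatrix, ← gdet_basis hb.posSemidef e]
    simp only [hvf]
  have e2 : ((gram b v).submatrix (Sum.map id Sum.inr) (Sum.map id Sum.inr) :
      Matrix (Fin (finrank ℤ (lat (W ⊓ W'))) ⊕ Fin k') _ ℝ).det = gdet b W' := by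
    rw [gram_submatrix, ← gdet_basis hb.posSemidef e']
    simp only [hvg]
  have e3 : (gram b v).toBlocks₁₁.det = gdet b (W ⊓ W') := by
    rw [← gdet_basis hb.posSemidef q]
    rfl
  rw [e1, e2, e3] at h1
  refine le_trans (mul_le_mul_of_nonneg_right ?_ (gdet_pos hb _).le) h1
  let v' : Fin (finrank ℤ (lat (W ⊓ W'))) ⊕ (Fin k ⊕ Fin k') → lat (W ⊔ W') :=
    fun x => ⟨v x, hmem x⟩
  have hv' : LinearIndependent ℤ v' := by
    apply LinearIndependent.of_comp (lat (W ⊔ W')).subtype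
    exact hli
  exact gdet_le hb.posSemidef v' hv' (by rw [hcard, finrank_lat])

end AHL
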