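import Pool.Agent.AH.LatD

/-!
Amenable edges, lattice block, part E: bounds of the degree.
-/

set_option linter.unusedSectionVars false

namespace AHL

open Matrix Module
open scoped MatrixOrder

variable {J : Type*} [Fintype J] [DecidableEq J]

theorem gram_sub {α : Type*} (b b' : Matrix J J ℝ) (v : α → J → ℤ) :
    gram (b' - b) v = gram b' v - gram b v := by
  simp [gram, Matrix.mul_sub, Matrix.sub_mul]

theorem gram_add {α : Type*} (b b' : Matrix J J ℝ) (v : α → J → ℤ) :
    gram (b + b') v = gram b v + gram b' v := by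
  simp [gram, Matrix.mul_add, Matrix.add_mul]

theorem gram_smul {α : Type*} (c : ℝ) (b : Matrix J J ℝ) (v : α → J → ℤ) :
    gram (c • b) v = c • gram b v := by
  simp [gram]

theorem gram_one_int {α : Type*} (v : α → J → ℤ) :
    gram (1 : Matrix J J ℝ) v = (Matrix.of fun x y => ∑ j, v x j * v y j : Matrix α α ℤ).map
      (Int.cast : ℤ → ℝ) := by
  ext x y
  simp [gram, rows, Matrix.mul_apply]

/-- An integral Gram matrix which is positive definite has determinant at least one. -/
theorem one_le_det_gram_one {α : Type*} [Fintype α] [DecidableEq α] {v : α → J → ℤ}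
    (hv : LinearIndependent ℤ v) : 1 ≤ (gram (1 : Matrix J J ℝ) v).det := by
  have h1 : 0 < (gram (1 : Matrix J J ℝ) v).det := (gram_posDef PosDef.one hv).det_pos
  rw [gram_one_int] at h1 ⊢
  set C : Matrix α α ℤ := Matrix.of fun x y => ∑ j, v x j * v y j
  have h2 : (C.map (Int.cast : ℤ → ℝ)).det = ((C.det : ℤ) : ℝ) := by
    have := (Int.castRingHom ℝ).map_det C
    simpa using this.symm
  rw [h2] at h1 ⊢
  have h3 : (0 : ℤ) < C.det := by exact_mod_cast h1
  have h4 : (1 : ℤ) ≤ C.det := h3
  exact_mod_cast h4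

theorem gdet_one_ge (W : Submodule ℚ (J → ℚ)) : 1 ≤ gdet (1 : Matrix J J ℝ) W :=
  one_le_det_gram_one (coe_li (Module.finBasis ℤ (lat W)).linearIndependent)

/-- If `κ ≤ b` then the squared covolume is at least `κ ^ dim`. -/
theorem gdet_ge {b : Matrix J J ℝ} {κ : ℝ} (hκ : 0 < κ)
    (h : (b - κ • (1 : Matrix J J ℝ)).PosSemidef) (W : Submodule ℚ (J → ℚ)) :
    κ ^ finrank ℚ W ≤ gdet b W := by
  have hli := coe_li (Module.finBasis ℤ (lat W)).linearIndependent
  set v : Fin (finrank ℤ (lat W)) → J → ℤ :=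
    fun i => ((Module.finBasis ℤ (lat W) i : lat W) : J → ℤ) with hv
  have hp : (κ • gram (1 : Matrix J J ℝ) v).PosSemidef := by
    have := gram_posSemidef ((PosSemidef.one (n := J) (R := ℝ)).smul hκ.le) v
    rwa [gram_smul] at this
  have h1 : (κ • gram (1 : Matrix J J ℝ) v).det ≤ (gram b v).det := by
    apply det_mono hp
    rw [← gram_smul, ← gram_sub]
    exact gram_posSemidef h v
  have h2 : gdet b W = (gram b v).det := rfl
  rw [h2]
  refine le_trans ?_ h1
  have h3 := one_le_det_gram_one hli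
  rw [det_smul, Fintype.card_fin]
  have h5 : κ ^ finrank ℤ (lat W) = κ ^ finrank ℚ W := by rw [finrank_lat]
  rw [h5]
  have h4 : 0 < κ ^ finrank ℚ W := by positivity
  nlinarith

/-- The standard basis of the integer points of the whole space. -/
noncomputable def topBasis (J : Type*) [Fintype J] [DecidableEq J] :
    Basis J ℤ (lat (⊤ : Submodule ℚ (J → ℚ))) :=
  (Pi.basisFun ℤ J).map
    ((Submodule.topEquiv (R := ℤ) (M := J → ℤ)).symm.trans
      (LinearEquiv.ofEq _ _ (by ext v; simp [lat])))

theorem topBasis_apply (i : J) : ((topBasis J i : lat (⊤ : Submodule ℚ (J → ℚ))) : J → ℤ) =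
    Pi.single i 1 := by
  simp [topBasis]

theorem gdet_top {b : Matrix J J ℝ} (hb : b.PosSemidef) :
    gdet b (⊤ : Submodule ℚ (J → ℚ)) = b.det := by
  rw [← gdet_basis hb (topBasis J)]
  congr 1
  have : rows (fun i => ((topBasis J i : lat (⊤ : Submodule ℚ (J → ℚ))) : J → ℤ)) =
      (1 : Matrix J J ℝ) := by
    ext i j
    simp only [rows, topBasis_apply, Matrix.of_apply, Matrix.one_apply, Pi.single_apply]
    by_cases h : i = j
    · simp [h]
    · simp [h, Ne.symm h]
  rw [gram, this]; simp

/-- Monotonicity of quotient covolumes. -/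
theorem gdet_quot {b b' : Matrix J J ℝ} (hb : b.PosDef) (hb' : b'.PosDef)
    (h : (b' - b).PosSemidef) {W V : Submodule ℚ (J → ℚ)} (hWV : W ≤ V) :
    gdet b V * gdet b' W ≤ gdet b' V * gdet b W := by
  let q := Module.finBasis ℤ (lat W)
  obtain ⟨k, e, he⟩ := exists_adapted hWV q
  set v : Fin (finrank ℤ (lat W)) ⊕ Fin k → J → ℤ := fun x => ((e x : lat V) : J → ℤ) with hv
  have hli : LinearIndependent ℤ v := coe_li e.linearIndependent
  have hN := gram_posDef hb hli
  have hN' := gram_posDef hb' hli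
  have h1 : gdet b V = (gram b v).det := (gdet_basis hb.posSemidef e).symm
  have h1' : gdet b' V = (gram b' v).det := (gdet_basis hb'.posSemidef e).symm
  have h11 : ∀ c : Matrix J J ℝ, (gram c v).toBlocks₁₁ =
      gram c (fun i => ((q i : lat W) : J → ℤ)) := by
    intro c
    have : (gram c v).toBlocks₁₁ = (gram c v).submatrix Sum.inl Sum.inl := rfl
    rw [this, gram_submatrix]
    congr 1
    funext i
    exact he i
  have h2 : gdet b W = (gram b v).toBlocks₁₁.det := by rw [h11, gdet_basis hb.posSemidef q]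
  have h2' : gdet b' W = (gram b' v).toBlocks₁₁.det := by rw [h11, gdet_basis hb'.posSemidef q]
  have h3 := schur_mono hN hN' (by rw [← gram_sub]; exact gram_posSemidef h v)
  have h4 := det_mono (schur_psd hN) h3
  rw [h1, h1', h2, h2', det_schur hN, det_schur hN']
  have p1 := (posDef_11 hN).det_pos
  have p2 := (posDef_11 hN').det_pos
  have p3 : 0 ≤ (gram b v).toBlocks₁₁.det * (gram b' v).toBlocks₁₁.det := by positivity
  nlinarith [mul_le_mul_of_nonneg_left h4 p3]

/-- If `b ≤ 1` the whole space has the largest degree. -/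
theorem gdet_top_le {b : Matrix J J ℝ} (hb : b.PosDef)
    (h : ((1 : Matrix J J ℝ) - b).PosSemidef) (W : Submodule ℚ (J → ℚ)) :
    b.det ≤ gdet b W := by
  have h1 := gdet_quot hb PosDef.one h (le_top : W ≤ ⊤)
  rw [gdet_top hb.posSemidef, gdet_top PosSemidef.one, det_one, one_mul] at h1
  have h2 := gdet_one_ge W
  have h3 := hb.det_pos
  nlinarith

/-- The kernel of an integer matrix, as a rational subspace. -/
def kerQ {K : Type*} (M : Matrix K J ℤ) : Submodule ℚ (J → ℚ) :=
  LinearMap.ker (M.map (Int.cast : ℤ → ℚ)).mulVecLin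

theorem mem_lat_kerQ {K : Type*} (M : Matrix K J ℤ) (v : J → ℤ) :
    v ∈ lat (kerQ M) ↔ M *ᵥ v = 0 := by
  rw [mem_lat, kerQ, LinearMap.mem_ker, Matrix.mulVecLin_apply]
  have h : (M.map (Int.cast : ℤ → ℚ)) *ᵥ (castL J v) = fun k => (((M *ᵥ v) k : ℤ) : ℚ) := by
    ext k
    simp [Matrix.mulVec, dotProduct, castL_apply]
  rw [h]
  constructor
  · intro h2
    ext k
    have := congrFun h2 k
    simpa using this
  · intro h2
    ext k
    simp [h2]

/-- Lower bound of the degree of a kernel. -/
theorem gdet_ker_le {K : Type*} [Fintype K] [DecidableEq K] {b : Matrix J J ℝ} (hb : b.PosDef)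
    (M : Matrix K J ℤ) :
    gdet b (kerQ M) ≤
      (b + (M.map (Int.cast : ℤ → ℝ))ᴴ * M.map (Int.cast : ℤ → ℝ)).det := by
  set MR : Matrix K J ℝ := M.map (Int.cast : ℤ → ℝ) with hMR
  set a : Matrix J J ℝ := b + MRᴴ * MR with ha
  have hpp : (MRᴴ * MR).PosSemidef := posSemidef_conjTranspose_mul_self MR
  have haP : a.PosDef := hb.add_posSemidef hpp
  set W := kerQ M with hW
  let q := Module.finBasis ℤ (lat W)
  obtain ⟨k, e, he⟩ := exists_adapted (le_top : W ≤ ⊤) q
  set v : Fin (finrank ℤ (lat W)) ⊕ Fin k → J → ℤ :=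
    fun x => ((e x : lat (⊤ : Submodule ℚ (J → ℚ))) : J → ℤ) with hv
  have hli : LinearIndependent ℤ v := coe_li e.linearIndependent
  have hN := gram_posDef hb hli
  have hN' := gram_posDef haP hli
  have h11 : (gram b v).toBlocks₁₁ = gram b (fun i => ((q i : lat W) : J → ℤ)) := by
    have : (gram b v).toBlocks₁₁ = (gram b v).submatrix Sum.inl Sum.inl := rfl
    rw [this, gram_submatrix]
    congr 1
    funext i
    exact he i
  -- the integral part
  set w : Fin k → K → ℤ := fun j => M *ᵥ v (Sum.inr j) with hw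
  have hrows : rows v * MRᴴ = rows (fun x => M *ᵥ v x) := by
    ext x y
    simp [rows, Matrix.mul_apply, hMR, Matrix.mulVec, dotProduct, mul_comm]
  have hgr : gram (MRᴴ * MR) v = gram (1 : Matrix K K ℝ) (fun x => M *ᵥ v x) := by
    rw [gram, gram, Matrix.mul_one, ← hrows, conjTranspose_mul, conjTranspose_conjTranspose]
    simp only [Matrix.mul_assoc]
  have hker : ∀ i, M *ᵥ v (Sum.inl i) = 0 := by
    intro i
    rw [← mem_lat_kerQ]
    have : v (Sum.inl i) = ((q i : lat W) : J → ℤ) := he i
    rw [this]; exact (q i).2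
  have hg11 : ∀ x y, gram (MRᴴ * MR) v (Sum.inl x) y = 0 := by
    intro x y
    rw [hgr]
    simp [gram, rows, Matrix.mul_apply, hker]
  have hg11' : ∀ x y, gram (MRᴴ * MR) v y (Sum.inl x) = 0 := by
    intro x y
    rw [hgr]
    simp [gram, rows, Matrix.mul_apply, hker]
  have hwli : LinearIndependent ℤ w := by
    rw [Fintype.linearIndependent_iff]
    intro c hc j
    have h1 : (∑ j, c j • v (Sum.inr j)) ∈ lat W := by
      rw [mem_lat_kerQ]
      rw [← hc, Matrix.mulVec_sum]
      refine Finset.sum_congr rfl fun j _ => ?_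
      rw [Matrix.mulVec_smul]
    obtain ⟨u, hu⟩ : ∃ u : lat W, (u : J → ℤ) = ∑ j, c j • v (Sum.inr j) := ⟨⟨_, h1⟩, rfl⟩
    have h2 := congrArg (fun u : lat W => (u : J → ℤ)) (q.sum_repr u)
    simp only [Submodule.coe_sum, Submodule.coe_smul] at h2
    rw [Fintype.linearIndependent_iff] at hli
    have h3 := hli (Sum.elim (fun i => q.repr u i) (fun j => - c j)) (by
      rw [Fintype.sum_sum_type]
      simp only [Sum.elim_inl, Sum.elim_inr, neg_smul, Finset.sum_neg_distrib]
      rw [← hu, ← h2]
      have : ∀ i, v (Sum.inl i) = ((q i : lat W) : J → ℤ) := he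
      simp only [this]
      abel) (Sum.inr j)
    simpa using h3
  have hZ : 1 ≤ (gram (1 : Matrix K K ℝ) w).det := one_le_det_gram_one hwli
  have hsum : gram a v = gram b v + gram (MRᴴ * MR) v := gram_add _ _ _
  have b11 : (gram a v).toBlocks₁₁ = (gram b v).toBlocks₁₁ := by
    ext x y
    change gram a v (Sum.inl x) (Sum.inl y) = gram b v (Sum.inl x) (Sum.inl y)
    rw [hsum, Matrix.add_apply, hg11, add_zero]
  have b12 : (gram a v).toBlocks₁₂ = (gram b v).toBlocks₁₂ := by
    ext x y
    change gram a v (Sum.inl x) (Sum.inr y) = gram b v (Sum.inl x) (Sum.inr y)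
    rw [hsum, Matrix.add_apply, hg11, add_zero]
  have b22 : (gram a v).toBlocks₂₂ = (gram b v).toBlocks₂₂ + gram (1 : Matrix K K ℝ) w := by
    ext x y
    rw [hsum, hgr]
    rfl
  have hs : schur (gram a v) = schur (gram b v) + gram (1 : Matrix K K ℝ) w := by
    rw [schur, schur, b11, b12, b22]; abel
  have hdet : 1 ≤ (schur (gram a v)).det := by
    refine le_trans hZ (det_mono (gram_posSemidef PosSemidef.one w) ?_)
    rw [hs, add_sub_cancel_right]
    exact schur_psd hN
  have h5 : a.det = (gram a v).toBlocks₁₁.det * (schur (gram a v)).det := by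
    rw [← det_schur hN', gdet_basis haP.posSemidef e, gdet_top haP.posSemidef]
  rw [h5, b11, h11, gdet_basis hb.posSemidef q]
  have h6 := gdet_pos hb W
  nlinarith

end AHL
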