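import Pool.Agent.AH.LatE

/-!
Amenable edges, lattice block, part F: functoriality of the degree.
-/

set_option linter.unusedSectionVars false

namespace AHL

open Matrix Module
open scoped MatrixOrder

variable {J : Type*} [Fintype J] [DecidableEq J] {I : Type*} [Fintype I] [DecidableEq I]

/-- extension by zero of the coordinates -/
noncomputable def ext0 (φ : I → J) : (I → ℚ) →ₗ[ℚ] (J → ℚ) := Function.ExtendByZero.linearMap ℚ φ

theorem ext0_apply (φ : I → J) (hφ : Function.Injective φ) (w : I → ℚ) (i : I) :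
    ext0 φ w (φ i) = w i := by
  change Function.extend φ w 0 (φ i) = w i
  rw [hφ.extend_apply]

theorem ext0_apply' (φ : I → J) (w : I → ℚ) (j : J) (hj : ¬ ∃ i, φ i = j) :
    ext0 φ w j = 0 := by
  change Function.extend φ w 0 j = 0
  rw [Function.extend_apply' _ _ _ hj]; rfl

theorem ext0_injective (φ : I → J) (hφ : Function.Injective φ) :
    Function.Injective (ext0 φ) := by
  intro v w h
  ext i
  rw [← ext0_apply φ hφ v, ← ext0_apply φ hφ w, h]

/-- extension by zero of integer vectors -/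
noncomputable def extZ (φ : I → J) (v : I → ℤ) : J → ℤ := Function.extend φ v 0

theorem extZ_apply (φ : I → J) (hφ : Function.Injective φ) (v : I → ℤ) (i : I) :
    extZ φ v (φ i) = v i := by
  rw [extZ, hφ.extend_apply]

theorem extZ_apply' (φ : I → J) (v : I → ℤ) (j : J) (hj : ¬ ∃ i, φ i = j) :
    extZ φ v j = 0 := by
  rw [extZ, Function.extend_apply' _ _ _ hj]; rfl

theorem castL_extZ (φ : I → J) (hφ : Function.Injective φ) (v : I → ℤ) :
    castL J (extZ φ v) = ext0 φ (castL I v) := by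
  ext j
  by_cases hj : ∃ i, φ i = j
  · obtain ⟨i, rfl⟩ := hj
    rw [ext0_apply φ hφ, castL_apply, castL_apply, extZ_apply φ hφ]
  · rw [ext0_apply' φ _ j hj, castL_apply, extZ_apply' φ _ j hj]; simp

/-- lattice points of the image of a subspace under an extension by zero -/
noncomputable def latExtL (φ : I → J) (hφ : Function.Injective φ) (W : Submodule ℚ (I → ℚ)) :
    lat W →ₗ[ℤ] lat (W.map (ext0 φ)) where
  toFun v := ⟨extZ φ (v : I → ℤ), by
    rw [mem_lat, castL_extZ φ hφ]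
    exact Submodule.mem_map_of_mem v.2⟩
  map_add' v w := by
    ext j
    change extZ φ ((v : I → ℤ) + (w : I → ℤ)) j = extZ φ (v : I → ℤ) j + extZ φ (w : I → ℤ) j
    by_cases hj : ∃ i, φ i = j
    · obtain ⟨i, rfl⟩ := hj
      simp only [extZ_apply φ hφ, Pi.add_apply]
    · simp only [extZ_apply' φ _ j hj, add_zero]
  map_smul' c v := by
    ext j
    change extZ φ (c • (v : I → ℤ)) j = c • extZ φ (v : I → ℤ) j
    by_cases hj : ∃ i, φ i = j
    · obtain ⟨i, rfl⟩ := hj
      simp only [extZ_apply φ hφ, Pi.smul_apply]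
    · simp only [extZ_apply' φ _ j hj, smul_zero]

theorem latExtL_bij (φ : I → J) (hφ : Function.Injective φ) (W : Submodule ℚ (I → ℚ)) :
    Function.Bijective (latExtL φ hφ W) := by
  constructor
  · intro v w h
    ext i
    have h1 : extZ φ (v : I → ℤ) (φ i) = extZ φ (w : I → ℤ) (φ i) :=
      congrArg (fun u : lat (W.map (ext0 φ)) => (u : J → ℤ) (φ i)) h
    rwa [extZ_apply φ hφ, extZ_apply φ hφ] at h1
  · rintro ⟨u, hu⟩
    obtain ⟨w, hw, hwu⟩ := id hu
    have h1 : castL I (fun i => u (φ i)) = w := by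
      ext i
      have := congrFun hwu (φ i)
      rw [ext0_apply φ hφ, castL_apply] at this
      rw [castL_apply, this]
    refine ⟨⟨fun i => u (φ i), by rw [mem_lat, h1]; exact hw⟩, ?_⟩
    ext j
    change extZ φ (fun i => u (φ i)) j = u j
    by_cases hj : ∃ i, φ i = j
    · obtain ⟨i, rfl⟩ := hj
      rw [extZ_apply φ hφ]
    · have h2 := congrFun hwu j
      rw [ext0_apply' φ _ j hj, castL_apply] at h2
      have h3 : u j = 0 := by exact_mod_cast h2.symm
      rw [extZ_apply' φ _ j hj, h3]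

/-- lattice points of the image of a subspace under an extension by zero -/
noncomputable def latExt (φ : I → J) (hφ : Function.Injective φ) (W : Submodule ℚ (I → ℚ)) :
    lat W ≃ₗ[ℤ] lat (W.map (ext0 φ)) :=
  LinearEquiv.ofBijective (latExtL φ hφ W) (latExtL_bij φ hφ W)

theorem latExt_apply (φ : I → J) (hφ : Function.Injective φ) (W : Submodule ℚ (I → ℚ))
    (v : lat W) : ((latExt φ hφ W v : lat (W.map (ext0 φ))) : J → ℤ) =
      extZ φ (v : I → ℤ) := rfl

theorem rows_extend {α : Type*} (φ : I → J) (hφ : Function.Injective φ) (v : α → I → ℤ) :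
    rows (fun x => extZ φ (v x)) =
      rows v * (Matrix.of fun i j => if φ i = j then 1 else 0 : Matrix I J ℝ) := by
  ext x j
  simp only [rows, Matrix.of_apply, Matrix.mul_apply]
  by_cases hj : ∃ i, φ i = j
  · obtain ⟨i, rfl⟩ := hj
    rw [extZ_apply φ hφ, Finset.sum_eq_single i]
    · simp
    · intro i' _ hi'
      rw [if_neg (fun h => hi' (hφ h)), mul_zero]
    · simp
  · rw [extZ_apply' φ _ j hj, Finset.sum_eq_zero]
    · simp
    · intro i _
      rw [if_neg (fun h => hj ⟨i, h⟩), mul_zero]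

theorem gram_extend {α : Type*} (b : Matrix J J ℝ) (φ : I → J) (hφ : Function.Injective φ)
    (v : α → I → ℤ) :
    gram b (fun x => extZ φ (v x)) = gram (b.submatrix φ φ) v := by
  rw [gram, rows_extend φ hφ, gram, conjTranspose_mul]
  have h : (Matrix.of fun i j => if φ i = j then 1 else 0 : Matrix I J ℝ) * b *
      (Matrix.of fun i j => if φ i = j then 1 else 0 : Matrix I J ℝ)ᴴ = b.submatrix φ φ := by
    ext i i'
    simp [Matrix.mul_apply]
  rw [← h]
  simp only [Matrix.mul_assoc]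

/-- The degree does not change under extension by zero. -/
theorem gdet_map {b : Matrix J J ℝ} (hb : b.PosSemidef) (φ : I → J)
    (hφ : Function.Injective φ) (W : Submodule ℚ (I → ℚ)) :
    gdet b (W.map (ext0 φ)) = gdet (b.submatrix φ φ) W := by
  have hb' : (b.submatrix φ φ).PosSemidef := hb.submatrix φ
  rw [← gdet_basis hb ((Module.finBasis ℤ (lat W)).map (latExt φ hφ W))]
  have : (fun i => ((((Module.finBasis ℤ (lat W)).map (latExt φ hφ W)) i :
      lat (W.map (ext0 φ))) : J → ℤ)) =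
      fun i => extZ φ ((Module.finBasis ℤ (lat W) i : lat W) : I → ℤ) := by
    funext i
    rw [Basis.map_apply, latExt_apply]
  rw [this, gram_extend b φ hφ]
  rfl

theorem finrank_map (φ : I → J) (hφ : Function.Injective φ) (W : Submodule ℚ (I → ℚ)) :
    finrank ℚ (W.map (ext0 φ)) = finrank ℚ W :=
  (Submodule.equivMapOfInjective (ext0 φ) (ext0_injective φ hφ) W).finrank_eq.symm

/-- restriction to the first coordinates -/
def resL (J J' : Type*) : (J ⊕ J' → ℚ) →ₗ[ℚ] (J → ℚ) := LinearMap.funLeft ℚ ℚ Sum.inl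

/-- the first block of coordinates is in `W` -/
noncomputable def latCyl (W : Submodule ℚ (J → ℚ)) :
    lat (W.comap (resL J I)) ≃ₗ[ℤ] lat W × (I → ℤ) where
  toFun v := ⟨⟨fun j => (v : J ⊕ I → ℤ) (Sum.inl j), v.2⟩, fun i => (v : J ⊕ I → ℤ) (Sum.inr i)⟩
  map_add' _ _ := rfl
  map_smul' _ _ := rfl
  invFun p := ⟨Sum.elim (p.1 : J → ℤ) p.2, p.1.2⟩
  left_inv v := by
    ext x
    rcases x with j | i <;> rfl
  right_inv p := rfl

theorem latCyl_symm_inl (W : Submodule ℚ (J → ℚ)) (p : lat W × (I → ℤ)) (j : J) :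
    (((latCyl (I := I) W).symm p : lat (W.comap (resL J I))) : J ⊕ I → ℤ) (Sum.inl j) =
      (p.1 : J → ℤ) j := rfl

theorem latCyl_symm_inr (W : Submodule ℚ (J → ℚ)) (p : lat W × (I → ℤ)) (i : I) :
    (((latCyl (I := I) W).symm p : lat (W.comap (resL J I))) : J ⊕ I → ℤ) (Sum.inr i) =
      p.2 i := rfl

theorem blockDiag_posSemidef {b : Matrix J J ℝ} (hb : b.PosSemidef) {κ : ℝ} (hκ : 0 ≤ κ) :
    (fromBlocks b 0 0 (κ • (1 : Matrix I I ℝ))).PosSemidef := by
  have h1 : (κ • (1 : Matrix I I ℝ)).PosSemidef := PosSemidef.one.smul hκ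
  rw [posSemidef_iff_dotProduct_mulVec]
  constructor
  · have := hb.1; have h2 := h1.1
    rw [IsHermitian, fromBlocks_conjTranspose, this, h2]; simp
  · intro x
    have h2 := hb.dotProduct_mulVec_nonneg (fun j => x (Sum.inl j))
    have h3 := h1.dotProduct_mulVec_nonneg (fun j => x (Sum.inr j))
    have h4 : star x ⬝ᵥ (fromBlocks b 0 0 (κ • (1 : Matrix I I ℝ)) *ᵥ x) =
        star (fun j => x (Sum.inl j)) ⬝ᵥ (b *ᵥ fun j => x (Sum.inl j)) +
        star (fun j => x (Sum.inr j)) ⬝ᵥ ((κ • (1 : Matrix I I ℝ)) *ᵥ fun j => x (Sum.inr j)) := by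
      simp [dotProduct, Matrix.mulVec, Fintype.sum_sum_type]
    rw [h4]
    exact add_nonneg h2 h3

theorem blockDiag_posDef {b : Matrix J J ℝ} (hb : b.PosDef) {κ : ℝ} (hκ : 0 < κ) :
    (fromBlocks b 0 0 (κ • (1 : Matrix I I ℝ))).PosDef := by
  rw [(blockDiag_posSemidef hb.posSemidef hκ.le).posDef_iff_det_ne_zero, det_fromBlocks_zero₂₁,
    det_smul, det_one, mul_one]
  have := hb.det_pos
  positivity

theorem gdet_bot (b : Matrix J J ℝ) : gdet b (⊥ : Submodule ℚ (J → ℚ)) = 1 := by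
  have h : finrank ℤ (lat (⊥ : Submodule ℚ (J → ℚ))) = 0 := by rw [finrank_lat, finrank_bot]
  have : IsEmpty (Fin (finrank ℤ (lat (⊥ : Submodule ℚ (J → ℚ))))) := by
    rw [h]; infer_instance
  rw [gdet, det_isEmpty]

theorem gdet_cyl {b : Matrix J J ℝ} (hb : b.PosSemidef) {κ : ℝ} (hκ : 0 ≤ κ)
    (W : Submodule ℚ (J → ℚ)) :
    gdet (fromBlocks b 0 0 (κ • (1 : Matrix I I ℝ))) (W.comap (resL J I)) =
      gdet b W * κ ^ Fintype.card I := by
  have hB := blockDiag_posSemidef (I := I) hb hκ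
  let e := ((Module.finBasis ℤ (lat W)).prod (Pi.basisFun ℤ I)).map
    (latCyl (I := I) W).symm
  rw [← gdet_basis hB e]
  have hrows : rows (fun x => ((e x : lat (W.comap (resL J I))) : J ⊕ I → ℤ)) =
      fromBlocks (rows (fun i => ((Module.finBasis ℤ (lat W) i : lat W) : J → ℤ))) 0 0
        (1 : Matrix I I ℝ) := by
    ext x y
    rcases x with x | x <;> rcases y with y | y
    · simp [rows, e, latCyl_symm_inl]
    · simp [rows, e, latCyl_symm_inr]
    · simp [rows, e, latCyl_symm_inl]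
    · simp [rows, e, latCyl_symm_inr, Matrix.one_apply, Pi.single_apply, eq_comm]
  have hg : gram (fromBlocks b 0 0 (κ • (1 : Matrix I I ℝ)))
      (fun x => ((e x : lat (W.comap (resL J I))) : J ⊕ I → ℤ)) =
      fromBlocks (gram b (fun i => ((Module.finBasis ℤ (lat W) i : lat W) : J → ℤ))) 0 0
        (κ • (1 : Matrix I I ℝ)) := by
    rw [gram, hrows, fromBlocks_conjTranspose, fromBlocks_multiply, fromBlocks_multiply]
    simp [gram]
  rw [hg, det_fromBlocks_zero₂₁, det_smul, det_one, mul_one]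
  rfl

/-- Degree of a projection. -/
theorem gdet_proj {b : Matrix J J ℝ} (hb : b.PosDef) {κ : ℝ} (hκ : 0 < κ)
    (h : (b - κ • (1 : Matrix J J ℝ)).PosSemidef) (V : Submodule ℚ (J ⊕ I → ℚ)) :
    gdet b (V.map (resL J I)) * κ ^ finrank ℚ (V ⊓ LinearMap.ker (resL J I) : Submodule ℚ _) ≤
      gdet (fromBlocks b 0 0 (κ • (1 : Matrix I I ℝ))) V := by
  have hB := blockDiag_posDef (I := I) hb hκ
  have h1 := gdet_super hB V (LinearMap.ker (resL J I))
  have h2 : V ⊔ LinearMap.ker (resL J I) = (V.map (resL J I)).comap (resL J I) :=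
    (Submodule.comap_map_eq _ _).symm
  have h3 : (LinearMap.ker (resL J I) : Submodule ℚ (J ⊕ I → ℚ)) =
      (⊥ : Submodule ℚ (J → ℚ)).comap (resL J I) := rfl
  have h4 : gdet b (⊥ : Submodule ℚ (J → ℚ)) = 1 := gdet_bot b
  rw [h2, gdet_cyl hb.posSemidef hκ.le] at h1
  have h5 : gdet (fromBlocks b 0 0 (κ • (1 : Matrix I I ℝ))) (LinearMap.ker (resL J I)) =
      κ ^ Fintype.card I := by
    rw [h3, gdet_cyl hb.posSemidef hκ.le, h4, one_mul]
  rw [h5] at h1
  have h6 : (fromBlocks b 0 0 (κ • (1 : Matrix I I ℝ)) -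
      κ • (1 : Matrix (J ⊕ I) (J ⊕ I) ℝ)).PosSemidef := by
    have h7 : fromBlocks b 0 0 (κ • (1 : Matrix I I ℝ)) - κ • (1 : Matrix (J ⊕ I) (J ⊕ I) ℝ) =
        fromBlocks (b - κ • (1 : Matrix J J ℝ)) 0 0 ((0 : ℝ) • (1 : Matrix I I ℝ)) := by
      rw [← fromBlocks_one, fromBlocks_smul, sub_eq_add_neg, fromBlocks_neg, fromBlocks_add]
      simp [sub_eq_add_neg]
    rw [h7]
    exact blockDiag_posSemidef h le_rfl
  have h8 := gdet_ge hκ h6 (V ⊓ LinearMap.ker (resL J I))
  have p1 : 0 < κ ^ Fintype.card I := by positivity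
  have p2 := gdet_pos hb (V.map (resL J I))
  have h9 : gdet b (V.map (resL J I)) * κ ^ Fintype.card I *
      κ ^ finrank ℚ (V ⊓ LinearMap.ker (resL J I) : Submodule ℚ _) ≤
      gdet (fromBlocks b 0 0 (κ • (1 : Matrix I I ℝ))) V * κ ^ Fintype.card I :=
    le_trans (mul_le_mul_of_nonneg_left h8 (by positivity)) h1
  nlinarith

end AHL
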