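import Pool.Agent.AH.Defs

set_option autoImplicit false
set_option linter.unusedSectionVars false

noncomputable section

open scoped InnerProductSpace ENNReal Topology MatrixOrder Matrix
open Classical Filter

/-!
Polynomials in real symmetric matrices.
-/

namespace Pool.Agent.AH

open Matrix Polynomial

variable {J : Type} [Fintype J] [DecidableEq J]

lemma Bd.herm {c d : ℝ} {A : Matrix J J ℝ} (h : Bd c d A) : A.IsHermitian := by
  have h1 := h.lo.1
  have h2 : (c • (1 : Matrix J J ℝ)).IsHermitian := by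
    rw [IsHermitian, conjTranspose_smul, conjTranspose_one]; simp
  have h3 := h1.add h2
  rwa [sub_add_cancel] at h3

private lemma sym_unit {A : Matrix J J ℝ} (hA : A.IsHermitian) (i : J) :
    star ((hA.eigenvectorBasis i).ofLp) ⬝ᵥ (hA.eigenvectorBasis i).ofLp = 1 := by
  have := hA.eigenvectorBasis.orthonormal.1 i
  have h4 : inner ℝ (hA.eigenvectorBasis i) (hA.eigenvectorBasis i) = (1 : ℝ) := by
    rw [real_inner_self_eq_norm_sq, this]; norm_num
  rw [EuclideanSpace.inner_eq_star_dotProduct, dotProduct_comm] at h4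
  exact h4

lemma Bd.eig {c d : ℝ} {A : Matrix J J ℝ} (h : Bd c d A) (hA : A.IsHermitian) (i : J) :
    hA.eigenvalues i ∈ Set.Icc c d := by
  have e := hA.eigenvalues_eq i
  have u := sym_unit hA i
  have h1 := h.lo.dotProduct_mulVec_nonneg (hA.eigenvectorBasis i).ofLp
  have h2 := h.hi.dotProduct_mulVec_nonneg (hA.eigenvectorBasis i).ofLp
  rw [sub_mulVec, dotProduct_sub, smul_mulVec, one_mulVec, dotProduct_smul, u] at h1 h2
  have e' : hA.eigenvalues i = star ((hA.eigenvectorBasis i).ofLp) ⬝ᵥ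
      (A *ᵥ (hA.eigenvectorBasis i).ofLp) := e
  rw [e']
  constructor
  · simpa using h1
  · simpa using h2

lemma aeval_diag {A : Matrix J J ℝ} (hA : A.IsHermitian) (p : ℝ[X]) :
    aeval A p = (hA.eigenvectorUnitary : Matrix J J ℝ) *
      diagonal (fun i => p.eval (hA.eigenvalues i)) *
        (hA.eigenvectorUnitary : Matrix J J ℝ)ᴴ := by
  have h1 : A = Unitary.conjStarAlgAut ℝ _ hA.eigenvectorUnitary
      (diagonal hA.eigenvalues) := hA.spectral_theorem
  have h2 : aeval A p = Unitary.conjStarAlgAut ℝ _ hA.eigenvectorUnitary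
      (aeval (diagonal hA.eigenvalues : Matrix J J ℝ) p) := by
    conv_lhs => rw [h1]
    exact Polynomial.aeval_algHom_apply
      ((Unitary.conjStarAlgAut ℝ (Matrix J J ℝ) hA.eigenvectorUnitary).toAlgEquiv.toAlgHom) _ p
  have h3 : aeval (diagonal hA.eigenvalues : Matrix J J ℝ) p =
      diagonal (fun i => p.eval (hA.eigenvalues i)) := by
    have h4 : (diagonal hA.eigenvalues : Matrix J J ℝ) =
      (Matrix.diagonalAlgHom ℝ) hA.eigenvalues := rfl
    rw [h4, Polynomial.aeval_algHom_apply]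
    have h5 : aeval hA.eigenvalues p = fun i => p.eval (hA.eigenvalues i) := by
      ext i
      have h6 := Polynomial.aeval_algHom_apply (Pi.evalAlgHom ℝ (fun _ : J => ℝ) i)
        hA.eigenvalues p
      rw [← Polynomial.coe_aeval_eq_eval]
      exact h6.symm
    rw [h5]; rfl
  rw [h2, h3, Unitary.conjStarAlgAut_apply]
  rfl

lemma trace_aeval {A : Matrix J J ℝ} (hA : A.IsHermitian) (p : ℝ[X]) :
    (aeval A p).trace = ∑ i, p.eval (hA.eigenvalues i) := by
  rw [aeval_diag hA, Matrix.trace_mul_cycle, ← Matrix.star_eq_conjTranspose,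
    Unitary.coe_star_mul_self, one_mul, Matrix.trace_diagonal]

/-- a polynomial which is nonnegative on the interval -/
theorem aeval_psd {c d : ℝ} {A : Matrix J J ℝ} (h : Bd c d A) {p : ℝ[X]}
    (hp : ∀ x ∈ Set.Icc c d, 0 ≤ p.eval x) : (aeval A p).PosSemidef := by
  rw [aeval_diag h.herm]
  apply PosSemidef.mul_mul_conjTranspose_same
  exact PosSemidef.diagonal fun i => hp _ (h.eig h.herm i)

theorem trace_le_log {c d : ℝ} (hc : 0 < c) {A : Matrix J J ℝ} (h : Bd c d A) {l : ℝ[X]}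
    (hl : ∀ x ∈ Set.Icc c d, l.eval x ≤ -(1 / 2) * Real.log x) :
    (aeval A l).trace ≤ -(1 / 2) * Real.log A.det := by
  rw [trace_aeval h.herm, h.herm.det_eq_prod_eigenvalues]
  have hpos : ∀ i, 0 < h.herm.eigenvalues i := fun i => hc.trans_le (h.eig h.herm i).1
  have h1 : Real.log (∏ i, ((h.herm.eigenvalues i : ℝ) : ℝ)) =
      ∑ i, Real.log (h.herm.eigenvalues i) :=
    Real.log_prod fun i _ => (hpos i).ne'
  have h2 : (∏ i, (RCLike.ofReal (h.herm.eigenvalues i) : ℝ)) = ∏ i, h.herm.eigenvalues i := rfl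
  rw [h2, h1, Finset.mul_sum]
  exact Finset.sum_le_sum fun i _ => hl _ (h.eig h.herm i)

theorem log_le_trace {c d : ℝ} (hc : 0 < c) {A : Matrix J J ℝ} (h : Bd c d A) {l : ℝ[X]}
    (hl : ∀ x ∈ Set.Icc c d, -(1 / 2) * Real.log x ≤ l.eval x) :
    -(1 / 2) * Real.log A.det ≤ (aeval A l).trace := by
  rw [trace_aeval h.herm, h.herm.det_eq_prod_eigenvalues]
  have hpos : ∀ i, 0 < h.herm.eigenvalues i := fun i => hc.trans_le (h.eig h.herm i).1
  have h1 : Real.log (∏ i, ((h.herm.eigenvalues i : ℝ) : ℝ)) =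
      ∑ i, Real.log (h.herm.eigenvalues i) :=
    Real.log_prod fun i _ => (hpos i).ne'
  have h2 : (∏ i, (RCLike.ofReal (h.herm.eigenvalues i) : ℝ)) = ∏ i, h.herm.eigenvalues i := rfl
  rw [h2, h1, Finset.mul_sum]
  exact Finset.sum_le_sum fun i _ => hl _ (h.eig h.herm i)

lemma Bd.isHermitian {c d : ℝ} {A : Matrix J J ℝ} (h : Bd c d A) : A.IsHermitian := h.herm

lemma Bd.posDef {c d : ℝ} {A : Matrix J J ℝ} (hc : 0 < c) (h : Bd c d A) : A.PosDef := by
  have h1 : (c • (1 : Matrix J J ℝ)).PosDef := PosDef.one.smul hc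
  have h2 := h1.add_posSemidef h.lo
  rwa [add_sub_cancel] at h2

/-- spectral theorem -/
theorem exists_spec {A : Matrix J J ℝ} (hA : A.IsHermitian) :
    ∃ (e : J → ℝ) (U : Matrix J J ℝ), U * Uᵀ = 1 ∧ Uᵀ * U = 1 ∧ A = U * diagonal e * Uᵀ ∧
      A.det = ∏ i, e i ∧
      (∀ p : Polynomial ℝ, Polynomial.aeval A p = U * diagonal (fun i => p.eval (e i)) * Uᵀ) ∧
      (∀ p : Polynomial ℝ, (Polynomial.aeval A p).trace = ∑ i, p.eval (e i)) ∧
      ∀ c d : ℝ, Bd c d A → ∀ i, c ≤ e i ∧ e i ≤ d := by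
  have hU1 : (hA.eigenvectorUnitary : Matrix J J ℝ) *
      ((hA.eigenvectorUnitary : Matrix J J ℝ))ᵀ = 1 := by
    have := Unitary.coe_mul_star_self hA.eigenvectorUnitary
    simpa [Matrix.star_eq_conjTranspose] using this
  have hU2 : ((hA.eigenvectorUnitary : Matrix J J ℝ))ᵀ *
      (hA.eigenvectorUnitary : Matrix J J ℝ) = 1 := by
    have := Unitary.coe_star_mul_self hA.eigenvectorUnitary
    simpa [Matrix.star_eq_conjTranspose] using this
  have hp : ∀ p : Polynomial ℝ, Polynomial.aeval A p = (hA.eigenvectorUnitary : Matrix J J ℝ) *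
      diagonal (fun i => p.eval (hA.eigenvalues i)) *
        ((hA.eigenvectorUnitary : Matrix J J ℝ))ᵀ := by
    intro p
    have := aeval_diag hA p
    simpa using this
  refine ⟨hA.eigenvalues, hA.eigenvectorUnitary, hU1, hU2, ?_, ?_, hp, trace_aeval hA,
    fun c d h i => h.eig hA i⟩
  · have := hp X
    simpa using this
  · have := hA.det_eq_prod_eigenvalues
    simpa using this

theorem poly_psd {c d : ℝ} {A : Matrix J J ℝ} (h : Bd c d A) (p : Polynomial ℝ)
    (hp : ∀ x ∈ Set.Icc c d, 0 ≤ p.eval x) : (Polynomial.aeval A p).PosSemidef :=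
  aeval_psd h hp

theorem logdet_ge {c d : ℝ} (hc : 0 < c) {A : Matrix J J ℝ} (h : Bd c d A) (l : Polynomial ℝ)
    (hl : ∀ x ∈ Set.Icc c d, l.eval x ≤ -(1 / 2) * Real.log x) :
    (Polynomial.aeval A l).trace ≤ -(1 / 2) * Real.log A.det :=
  trace_le_log hc h hl

theorem logdet_le {c d : ℝ} (hc : 0 < c) {A : Matrix J J ℝ} (h : Bd c d A) (l : Polynomial ℝ)
    (hl : ∀ x ∈ Set.Icc c d, -(1 / 2) * Real.log x ≤ l.eval x) :
    -(1 / 2) * Real.log A.det ≤ (Polynomial.aeval A l).trace :=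
  log_le_trace hc h hl

variable {K : Type} [Fintype K] [DecidableEq K]

theorem det_one_add_ge (N : Matrix K J ℤ) {x : ℝ} (hx : 0 < x) :
    x ^ (Fintype.card J - Module.finrank ℚ (LinearMap.ker (N.map (Int.cast : ℤ → ℚ)).mulVecLin))
      ≤ (1 + x • ((N.map (Int.cast : ℤ → ℝ))ᵀ * N.map (Int.cast : ℤ → ℝ))).det := by
  change x ^ (Fintype.card J - Module.finrank ℚ (AHL.kerQ N)) ≤ _
  have hk : Module.finrank ℚ (AHL.kerQ N) ≤ Fintype.card J := by
    have := Submodule.finrank_le (AHL.kerQ N)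
    simpa using this
  have hb : (x⁻¹ • (1 : Matrix J J ℝ)).PosDef := PosDef.one.smul (inv_pos.mpr hx)
  have h1 := AHL.gdet_ker_le hb N
  have h2 := AHL.gdet_ge (b := x⁻¹ • (1 : Matrix J J ℝ)) (inv_pos.mpr hx)
    (by rw [sub_self]; exact PosSemidef.zero) (AHL.kerQ N)
  have h3 : x • (x⁻¹ • (1 : Matrix J J ℝ) +
      (N.map (Int.cast : ℤ → ℝ))ᴴ * N.map (Int.cast : ℤ → ℝ)) =
      1 + x • ((N.map (Int.cast : ℤ → ℝ))ᵀ * N.map (Int.cast : ℤ → ℝ)) := by
    rw [smul_add, smul_smul, mul_inv_cancel₀ hx.ne', one_smul]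
    simp
  rw [← h3, det_smul]
  refine le_trans ?_ (mul_le_mul_of_nonneg_left (h2.trans h1) (by positivity))
  rw [inv_pow, pow_sub₀ _ hx.ne' hk]

/-- the rational kernel is at most as big as the real one -/
theorem finrank_ker_rat_le (N : Matrix K J ℚ) :
    Module.finrank ℚ (LinearMap.ker N.mulVecLin) ≤
      Module.finrank ℝ (LinearMap.ker (N.map (Rat.cast : ℚ → ℝ)).mulVecLin) := by
  set W := LinearMap.ker N.mulVecLin with hW
  set e := Module.finBasis ℤ (AHL.lat W) with he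
  have hli := AHL.coe_li e.linearIndependent
  have hinj := AHL.rows_injective hli
  set v : Fin (Module.finrank ℤ (AHL.lat W)) → J → ℤ := fun i => ((e i :
    AHL.lat W) : J → ℤ) with hv
  have hmem : ∀ i, AHL.rows v i ∈ LinearMap.ker (N.map (Rat.cast : ℚ → ℝ)).mulVecLin := by
    intro i
    have h1 : N.mulVecLin (AHL.castL J (v i)) = 0 := (e i).2
    rw [LinearMap.mem_ker, mulVecLin_apply]
    rw [mulVecLin_apply] at h1
    ext k
    have h2 := congrFun h1 k
    have h3 : (N.map (Rat.cast : ℚ → ℝ) *ᵥ AHL.rows v i) k =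
        (((N *ᵥ AHL.castL J (v i)) k : ℚ) : ℝ) := by
      simp [Matrix.mulVec, dotProduct, AHL.rows, AHL.castL_apply]
    rw [h3, h2]; simp
  have hli2 : LinearIndependent ℝ (AHL.rows v).row := vecMul_injective_iff.mp hinj
  let w : Fin (Module.finrank ℤ (AHL.lat W)) →
      LinearMap.ker (N.map (Rat.cast : ℚ → ℝ)).mulVecLin := fun i => ⟨AHL.rows v i, hmem i⟩
  have hw : LinearIndependent ℝ w := by
    apply LinearIndependent.of_comp (Submodule.subtype _)
    exact hli2
  have h4 := hw.fintype_card_le_finrank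
  rw [Fintype.card_fin, AHL.finrank_lat] at h4
  exact h4

/-- the kernel of a matrix `N` and the trace of the powers of `1 - s NᵀN` -/
theorem finrank_ker_le_trace' (N : Matrix K J ℝ) {s : ℝ}
    (h : ((1 : Matrix J J ℝ) - s • (Nᴴ * N)).PosSemidef) (n : ℕ) :
    (Module.finrank ℝ (LinearMap.ker N.mulVecLin) : ℝ) ≤
      (((1 : Matrix J J ℝ) - s • (Nᴴ * N)) ^ n).trace := by
  have hH : (Nᴴ * N).IsHermitian := isHermitian_conjTranspose_mul_self N
  have hbd : ∀ i, s * hH.eigenvalues i ≤ 1 := by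
    intro i
    have e' : hH.eigenvalues i = star ((hH.eigenvectorBasis i).ofLp) ⬝ᵥ
      ((Nᴴ * N) *ᵥ (hH.eigenvectorBasis i).ofLp) := hH.eigenvalues_eq i
    have h1 := h.dotProduct_mulVec_nonneg (hH.eigenvectorBasis i).ofLp
    rw [sub_mulVec, dotProduct_sub, smul_mulVec, one_mulVec, dotProduct_smul, sym_unit hH i,
      ← e'] at h1
    simpa using h1
  have h0 : ∀ i, 0 ≤ hH.eigenvalues i := fun i =>
    (posSemidef_conjTranspose_mul_self N).eigenvalues_nonneg i
  have hp : ((1 : Matrix J J ℝ) - s • (Nᴴ * N)) ^ n =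
      aeval (Nᴴ * N) ((1 - C s * X) ^ n : ℝ[X]) := by
    simp [Algebra.smul_def]
  rw [hp, trace_aeval hH]
  have h2 : ∀ i, (if hH.eigenvalues i = 0 then (1 : ℝ) else 0) ≤
      ((1 - C s * X) ^ n : ℝ[X]).eval (hH.eigenvalues i) := by
    intro i
    simp only [eval_pow, eval_sub, eval_one, eval_mul, eval_C, eval_X]
    split_ifs with h3
    · rw [h3]; simp
    · exact pow_nonneg (by linarith [hbd i]) _
  refine le_trans ?_ (Finset.sum_le_sum fun i _ => h2 i)
  have h3 : (Nᴴ * N).rank = Fintype.card {i // hH.eigenvalues i ≠ 0} :=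
    hH.rank_eq_card_non_zero_eigs
  have h4 : (Nᴴ * N).rank = N.rank := rank_conjTranspose_mul_self N
  have h5 : N.rank + Module.finrank ℝ (LinearMap.ker N.mulVecLin) = Fintype.card J := by
    have := LinearMap.finrank_range_add_finrank_ker N.mulVecLin
    simpa [Matrix.rank] using this
  have h6 : (∑ i, if hH.eigenvalues i = 0 then (1 : ℝ) else 0) =
      (Fintype.card {i // hH.eigenvalues i = 0} : ℝ) := by
    rw [Finset.sum_boole, Fintype.card_subtype]
  have h7 : Fintype.card {i // hH.eigenvalues i = 0} +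
      Fintype.card {i // hH.eigenvalues i ≠ 0} = Fintype.card J := by
    have := Fintype.card_subtype_compl (fun i => hH.eigenvalues i = 0)
    have h8 := Fintype.card_subtype_le (fun i => hH.eigenvalues i = 0)
    simp only [ne_eq]
    omega
  rw [h6]
  have h9 : Module.finrank ℝ (LinearMap.ker N.mulVecLin) =
      Fintype.card {i // hH.eigenvalues i = 0} := by omega
  rw [h9]

theorem finrank_ker_le_trace (N : Matrix K J ℚ) {k : ℝ} (hk : 0 < k)
    (h : (k • (1 : Matrix J J ℝ) -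
      (N.map (Rat.cast : ℚ → ℝ))ᵀ * N.map (Rat.cast : ℚ → ℝ)).PosSemidef)
    (n : ℕ) :
    (Module.finrank ℚ (LinearMap.ker N.mulVecLin) : ℝ) ≤
      ((1 - k⁻¹ • ((N.map (Rat.cast : ℚ → ℝ))ᵀ * N.map (Rat.cast : ℚ → ℝ))) ^ n).trace := by
  have h0 : ((Module.finrank ℚ (LinearMap.ker N.mulVecLin) : ℕ) : ℝ) ≤
      ((Module.finrank ℝ (LinearMap.ker (N.map (Rat.cast : ℚ → ℝ)).mulVecLin) : ℕ) : ℝ) := by
    exact_mod_cast finrank_ker_rat_le N
  refine h0.trans ?_
  have h1 : ((1 : Matrix J J ℝ) - k⁻¹ • ((N.map (Rat.cast : ℚ → ℝ))ᴴ *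
      N.map (Rat.cast : ℚ → ℝ))).PosSemidef := by
    have h2 := h.smul (inv_nonneg.mpr hk.le)
    rw [smul_sub, smul_smul, inv_mul_cancel₀ hk.ne', one_smul] at h2
    simpa using h2
  have h3 := finrank_ker_le_trace' (N.map (Rat.cast : ℚ → ℝ)) h1 n
  simpa using h3

end Pool.Agent.AH
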