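import Pool.Agent.AH.Tr
import Pool.Agent.AH.Sym
import Pool.Agent.AH.OpPos

set_option autoImplicit false
set_option linter.unusedSectionVars false

noncomputable section

open scoped InnerProductSpace ENNReal Topology Matrix
open Classical Filter ContinuousLinearMap

/-!
PACKAGE AH-LUECK. Lück's approximation theorem for sofic approximations.

We may assume that `L` is integral (multiplication by a positive integer does not change kernels,
`exists_intg`). Let `S = cmp (adj L) L`, `k = (n1 L)^2 + 1`, so `0 ≤ mR M S ≤ k` and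
`0 ≤ oG S ≤ k`.
Upper bound: `finrank (kX M L) ≤ trace ((1 - k⁻¹ mR M S) ^ n)` (`finrank_ker_le_trace`), and
`Re tr ((1 - k⁻¹ oG S) ^ n) ≤ dm (kr (oG L)) + ε` for a suitable `n` (`exists_tr_le` for
`k^{-1/2} oG L`); use `tendsto_trace_poly`.
Lower bound: let `x > 1` and `r = card ι * |X| - finrank (kX M L)`. `det_one_add_ge` gives
`r log x ≤ log det (1 + x mR M S)`. Let `q` be a real polynomial with
`|q y - log (1 + x y)| ≤ ε` on `[0, k]` (`exists_polynomial_near_of_continuousOn`). Then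
`log det (1 + x mR M S) ≤ trace (aeval (mR M S) q) + ε card ι |X|` (`exists_spec`), and
`Re tr (aeval (oG S) q) ≤ ε card ι + (log (1 + x k) + ε) (card ι - dm (kr (oG L)))`: with
`Q = pj (kr (oG L))`: `tr q(S) = tr (Q q(S) Q) + tr ((1-Q) q(S) (1-Q))`, `q(S) Q = q(0) Q`,
`|q 0| ≤ ε`, and `⟨v, q(S) v⟩ ≤ (log (1 + x k) + ε) ‖v‖²` (`op_poly_nonneg`). So
`r / |X| ≤ (log (1 + x k) + ε)/(log x) (card ι - dm ker) + 3 ε card ι / log x` for all good
models; let `x → ∞`, so that `log (1 + x k) / log x → 1`.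
-/

namespace Pool.Agent.AH

open Pool.Agent.VN Pool.Agent.LFT

open Matrix

variable {ι κ : Type} [Fintype ι] [Fintype κ] {G : Type} [Group G]

lemma sz_pos (M : Mod G) : 0 < sz M := by
  unfold sz
  exact_mod_cast Fintype.card_pos

lemma kX_sml (M : Mod G) (L : LQ κ ι (FreeGroup G)) {c : ℚ} (hc : c ≠ 0) :
    kX M (sml c L) = kX M L := by
  ext x
  simp only [kX, LinearMap.mem_ker, mulVecLin_apply, mX_sml, smul_mulVec]
  rw [smul_eq_zero_iff_right hc]

lemma kr_sml (L : LQ κ ι (FreeGroup G)) {c : ℚ} (hc : c ≠ 0) :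
    kr (oG (sml c L)) = kr (oG L) := by
  ext x
  rw [mem_kr, mem_kr, oG_sml]
  have hc' : (c : ℂ) ≠ 0 := by exact_mod_cast hc
  show (c : ℂ) • oG L x = 0 ↔ oG L x = 0
  rw [smul_eq_zero_iff_right hc']

private lemma lk_SG (L : LQ κ ι (FreeGroup G)) : oG (cmp (adj L) L) =
    (ContinuousLinearMap.adjoint (oG L)) ∘L oG L := by
  rw [oG_cmp, oG_adj]

private lemma lk_bdo (L : LQ κ ι (FreeGroup G)) {k : ℝ} (hk : (n1 L : ℝ) ^ 2 ≤ k) :
    BdO 0 k (oG (cmp (adj L) L)) := by
  have hin : ∀ x : L2 ι G, (⟪x, oG (cmp (adj L) L) x⟫_ℂ).re = ‖oG L x‖ ^ 2 := by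
    intro x
    rw [lk_SG]
    show (⟪x, ContinuousLinearMap.adjoint (oG L) (oG L x)⟫_ℂ).re = _
    rw [adjoint_inner_right, inner_self_eq_norm_sq_to_K]
    norm_cast
  refine ⟨?_, ?_, ?_⟩
  · rw [lk_SG, ContinuousLinearMap.isSelfAdjoint_iff', ContinuousLinearMap.adjoint_comp,
      ContinuousLinearMap.adjoint_adjoint]
  · intro x
    rw [hin, zero_mul]
    positivity
  · intro x
    rw [hin]
    have h1 := (oG L).le_opNorm x
    have h2 := norm_oG_le L
    have h3 : ‖oG L x‖ ≤ (n1 L : ℝ) * ‖x‖ :=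
      h1.trans (mul_le_mul_of_nonneg_right h2 (norm_nonneg _))
    calc ‖oG L x‖ ^ 2 ≤ ((n1 L : ℝ) * ‖x‖) ^ 2 := pow_le_pow_left₀ (norm_nonneg _) h3 2
      _ = (n1 L : ℝ) ^ 2 * ‖x‖ ^ 2 := by ring
      _ ≤ k * ‖x‖ ^ 2 := mul_le_mul_of_nonneg_right hk (sq_nonneg _)

private lemma lk_mRS (M : Mod G) (L : LQ κ ι (FreeGroup G)) :
    mR M (cmp (adj L) L) = (mR M L)ᵀ * mR M L := by
  rw [mR_cmp, mR_adj]

/-- upper bound -/
private lemma lk_upper (L : LQ κ ι (FreeGroup G)) {ε : ℝ} (hε : 0 < ε) :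
    ∀ᶠ M : Mod G in sf G, (Module.finrank ℚ (kX M L) : ℝ) / sz M <
      dm (kr (oG L)) + 2 * ε := by
  set k : ℝ := (n1 L : ℝ) ^ 2 + 1 with hk
  have hk0 : 0 < k := by positivity
  set r : ℝ := (Real.sqrt k)⁻¹ with hr
  have hr0 : 0 < r := by positivity
  have hr2 : r * r = k⁻¹ := by
    rw [hr, ← mul_inv, Real.mul_self_sqrt hk0.le]
  set T : L2 ι G →L[ℂ] L2 κ G := (r : ℂ) • oG L with hT
  have hTn : ‖T‖ ≤ 1 := by
    rw [hT, norm_smul, Complex.norm_real, Real.norm_of_nonneg hr0.le]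
    have h1 := norm_oG_le L
    have h2 : (n1 L : ℝ) ≤ Real.sqrt k := by
      apply Real.le_sqrt_of_sq_le
      rw [hk]; linarith
    calc r * ‖oG L‖ ≤ r * Real.sqrt k := mul_le_mul_of_nonneg_left (h1.trans h2) hr0.le
      _ = 1 := by
        rw [hr]
        exact inv_mul_cancel₀ (by positivity)
  obtain ⟨m, hm⟩ := exists_tr_le T hTn hε
  have hker : LinearMap.ker T.toLinearMap = kr (oG L) := by
    ext x
    have hc : (r : ℂ) ≠ 0 := by exact_mod_cast hr0.ne'
    show (r : ℂ) • oG L x = 0 ↔ oG L x = 0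
    rw [smul_eq_zero_iff_right hc]
  set p : Polynomial ℝ := (1 - Polynomial.C k⁻¹ * Polynomial.X) ^ m with hp
  have hpG : Polynomial.aeval (oG (cmp (adj L) L)) p =
      ((1 : L2 ι G →L[ℂ] L2 ι G) - (adjoint T) ∘L T) ^ m := by
    rw [hp, map_pow, map_sub, map_one, map_mul, Polynomial.aeval_C, Polynomial.aeval_X]
    congr 2
    rw [lk_SG, hT]
    ext1 x
    show (algebraMap ℝ (L2 ι G →L[ℂ] L2 ι G) k⁻¹) (adjoint (oG L) (oG L x)) =
      adjoint ((r : ℂ) • oG L) ((r : ℂ) • oG L x)
    rw [LinearIsometryEquiv.map_smulₛₗ, Algebra.algebraMap_eq_smul_one]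
    show k⁻¹ • (adjoint (oG L) (oG L x)) =
      (starRingEnd ℂ (r : ℂ)) • adjoint (oG L) ((r : ℂ) • oG L x)
    rw [map_smul, Complex.conj_ofReal, smul_smul, ← Complex.ofReal_mul, hr2]
    rfl
  have h1 := tendsto_trace_poly (cmp (adj L) L) p
  rw [hpG] at h1
  have h2 : (tr (((1 : L2 ι G →L[ℂ] L2 ι G) - (adjoint T) ∘L T) ^ m)).re <
      dm (kr (oG L)) + 2 * ε := by
    rw [hker] at hm
    change _ ≤ dm (kr (oG L)) + ε at hm
    linarith
  have h3 := h1.eventually (gt_mem_nhds h2)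
  filter_upwards [h3] with M hM
  refine lt_of_le_of_lt ?_ hM
  apply div_le_div_of_nonneg_right _ (sz_pos M).le
  have h4 : (k • (1 : Matrix (ι × M.X) (ι × M.X) ℝ) -
      ((mX M L).map (Rat.cast : ℚ → ℝ))ᵀ * (mX M L).map (Rat.cast : ℚ → ℝ)).PosSemidef := by
    have h5 := psd_mR M L (s := k⁻¹) (by positivity) (by
      rw [inv_mul_le_iff₀ hk0, mul_one, hk]; linarith)
    have h6 := h5.smul hk0.le
    rw [smul_sub, smul_smul, mul_inv_cancel₀ hk0.ne', one_smul] at h6
    have h6' : (k • (1 : Matrix (ι × M.X) (ι × M.X) ℝ) - (mR M L)ᵀ * mR M L).PosSemidef := by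
      simpa using h6
    exact h6'
  have h7 := finrank_ker_le_trace (mX M L) hk0 h4 m
  refine h7.trans (le_of_eq ?_)
  congr 1
  rw [hp, map_pow, map_sub, map_one, map_mul, Polynomial.aeval_C, Polynomial.aeval_X, lk_mRS,
    Algebra.algebraMap_eq_smul_one, smul_mul_assoc, one_mul]
  rfl

/-- the trace of a polynomial which is bounded by `C` on the spectrum -/
private lemma lk_trG (L : LQ κ ι (FreeGroup G)) {k : ℝ} (hk : (n1 L : ℝ) ^ 2 ≤ k)
    (q : Polynomial ℝ) {C : ℝ} (hq : ∀ y ∈ Set.Icc 0 k, q.eval y ≤ C)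
    (hq0 : q.eval 0 ≤ 1) :
    (tr (Polynomial.aeval (oG (cmp (adj L) L)) q)).re ≤
      Fintype.card ι + C * (Fintype.card ι - dm (kr (oG L))) := by
  set S := oG (cmp (adj L) L) with hS
  have hb := lk_bdo L hk
  set B : L2 ι G →L[ℂ] L2 ι G := Polynomial.aeval S q with hB
  have hcl : IsClosed (kr (oG L) : Set (L2 ι G)) := kr_closed _
  have : CompleteSpace (kr (oG L)) := hcl.completeSpace_coe
  set P := (kr (oG L)).starProjection with hP
  have hSk : ∀ x ∈ kr (oG L), S x = 0 := by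
    intro x hx
    rw [hS, lk_SG]
    show ContinuousLinearMap.adjoint (oG L) (oG L x) = 0
    rw [mem_kr.mp hx, map_zero]
  have hBk : ∀ x ∈ kr (oG L), B x = (q.eval 0 : ℝ) • x := by
    intro x hx
    have h1 : ∀ q : Polynomial ℝ, (Polynomial.aeval S q : L2 ι G →L[ℂ] L2 ι G) x =
        (q.eval 0 : ℝ) • x := by
      intro q
      induction q using Polynomial.induction_on' with
      | add p q hp hq =>
        rw [map_add, Polynomial.eval_add, add_smul, ← hp, ← hq]
        rfl
      | monomial n a =>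
        rw [Polynomial.aeval_monomial, Algebra.algebraMap_eq_smul_one, smul_mul_assoc, one_mul]
        show a • ((S ^ n) x) = _
        cases n with
        | zero => simp
        | succ n =>
          rw [pow_succ]
          show a • ((S ^ n) (S x)) = _
          rw [hSk x hx, map_zero]
          simp
    exact h1 q
  have hBsa : ∀ x y : L2 ι G, ⟪B x, y⟫_ℂ = ⟪x, B y⟫_ℂ := by
    have h0 : ∀ (q : Polynomial ℝ) (x y : L2 ι G),
        ⟪(Polynomial.aeval S q : L2 ι G →L[ℂ] L2 ι G) x, y⟫_ℂ =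
        ⟪x, (Polynomial.aeval S q : L2 ι G →L[ℂ] L2 ι G) y⟫_ℂ := by
      intro q x y
      induction q using Polynomial.induction_on' with
      | add p q hp hq =>
        rw [map_add]
        show ⟪(Polynomial.aeval S p : L2 ι G →L[ℂ] L2 ι G) x +
          (Polynomial.aeval S q : L2 ι G →L[ℂ] L2 ι G) x, y⟫_ℂ = ⟪x,
          (Polynomial.aeval S p : L2 ι G →L[ℂ] L2 ι G) y +
          (Polynomial.aeval S q : L2 ι G →L[ℂ] L2 ι G) y⟫_ℂ
        rw [inner_add_left, inner_add_right, hp, hq]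
      | monomial n a =>
        rw [Polynomial.aeval_monomial, Algebra.algebraMap_eq_smul_one, smul_mul_assoc, one_mul]
        show ⟪a • (S ^ n) x, y⟫_ℂ = ⟪x, a • (S ^ n) y⟫_ℂ
        have h2 := (hb.sym.pow n).adjoint_eq
        have h3 : ⟪(S ^ n) x, y⟫_ℂ = ⟪x, (S ^ n) y⟫_ℂ := by
          conv_lhs => rw [← h2]
          rw [adjoint_inner_left]
        rw [RCLike.real_smul_eq_coe_smul (K := ℂ), RCLike.real_smul_eq_coe_smul (K := ℂ),
          inner_smul_left, inner_smul_right, h3, RCLike.conj_ofReal]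
    exact fun x y => h0 q x y
  have key : ∀ v : L2 ι G, (⟪v, B v⟫_ℂ).re ≤ ‖P v‖ ^ 2 + C * (‖v‖ ^ 2 - ‖P v‖ ^ 2) := by
    intro v
    set u := P v with hu
    set w := v - P v with hw
    have hv : v = u + w := by rw [hu, hw]; abel
    have hum : u ∈ kr (oG L) := (kr (oG L)).starProjection_apply_mem v
    have huw : ⟪u, w⟫_ℂ = 0 := by
      have h1 : w ∈ (kr (oG L))ᗮ := (kr (oG L)).sub_starProjection_mem_orthogonal v
      exact Submodule.inner_right_of_mem_orthogonal hum h1
    have hwu : ⟪w, u⟫_ℂ = 0 := by rw [← inner_conj_symm, huw, map_zero]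
    have hn : ‖w‖ ^ 2 = ‖v‖ ^ 2 - ‖u‖ ^ 2 := by
      have h1 := norm_sub_proj_sq (kr (oG L)) v
      exact h1
    have e1 : ⟪v, B v⟫_ℂ = ⟪u, B u⟫_ℂ + ⟪w, B w⟫_ℂ := by
      have h1 : ⟪u, B w⟫_ℂ = 0 := by
        rw [← hBsa, hBk u hum, RCLike.real_smul_eq_coe_smul (K := ℂ), inner_smul_left, huw, mul_zero]
      have h2 : ⟪w, B u⟫_ℂ = 0 := by
        rw [hBk u hum, RCLike.real_smul_eq_coe_smul (K := ℂ), inner_smul_right, hwu, mul_zero]
      conv_lhs => rw [hv]
      rw [map_add, inner_add_left, inner_add_right, inner_add_right, h1, h2]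
      ring
    have e2 : (⟪u, B u⟫_ℂ).re = q.eval 0 * ‖u‖ ^ 2 := by
      rw [hBk u hum, RCLike.real_smul_eq_coe_smul (K := ℂ), inner_smul_right,
        inner_self_eq_norm_sq_to_K]
      have : ((RCLike.ofReal (q.eval 0) : ℂ) * (RCLike.ofReal ‖u‖ : ℂ) ^ 2) =
          ((q.eval 0 * ‖u‖ ^ 2 : ℝ) : ℂ) := by push_cast; rfl
      rw [this, Complex.ofReal_re]
    have e3 : (⟪w, B w⟫_ℂ).re ≤ C * ‖w‖ ^ 2 := by
      have h1 := op_poly_nonneg hb.sym hb.lo hb.hi (Polynomial.C C - q) (by
        intro t ht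
        rw [Polynomial.eval_sub, Polynomial.eval_C]
        linarith [hq t ht]) w
      have hpoly : (Polynomial.aeval S (Polynomial.C C - q) : L2 ι G →L[ℂ] L2 ι G) =
          (algebraMap ℝ (L2 ι G →L[ℂ] L2 ι G)) C - Polynomial.aeval S q := by
        rw [map_sub, Polynomial.aeval_C]
      replace h1 : 0 ≤ (⟪w, (Polynomial.aeval S (Polynomial.C C - q) :
        L2 ι G →L[ℂ] L2 ι G) w⟫_ℂ).re := h1
      rw [hpoly] at h1
      have h2 : ⟪w, ((algebraMap ℝ (L2 ι G →L[ℂ] L2 ι G)) C - Polynomial.aeval S q) w⟫_ℂ =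
          ((C * ‖w‖ ^ 2 : ℝ) : ℂ) - ⟪w, B w⟫_ℂ := by
        rw [Algebra.algebraMap_eq_smul_one]
        show ⟪w, C • w - B w⟫_ℂ = _
        rw [inner_sub_right, RCLike.real_smul_eq_coe_smul (K := ℂ), inner_smul_right,
          inner_self_eq_norm_sq_to_K]
        push_cast
        rfl
      rw [h2, Complex.sub_re, Complex.ofReal_re] at h1
      linarith
    rw [e1, Complex.add_re, e2, ← hn]
    have h5 : q.eval 0 * ‖u‖ ^ 2 ≤ 1 * ‖u‖ ^ 2 := mul_le_mul_of_nonneg_right hq0 (sq_nonneg _)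
    linarith
  have hdm : dm (kr (oG L)) = ∑ i : ι, ‖P (dl (i, (1 : G)))‖ ^ 2 := vdim_eq_sum _
  have hle : dm (kr (oG L)) ≤ Fintype.card ι := dm_le_card _
  have h6 : (tr B).re ≤ ∑ i : ι, (‖P (dl (i, (1 : G)))‖ ^ 2 +
      C * (1 - ‖P (dl (i, (1 : G)))‖ ^ 2)) := by
    unfold tr
    rw [Complex.re_sum]
    refine Finset.sum_le_sum fun i _ => ?_
    have h7 := key (dl (i, (1 : G)))
    rw [norm_dl, one_pow] at h7
    exact h7
  refine h6.trans ?_
  rw [Finset.sum_add_distrib, ← Finset.mul_sum, Finset.sum_sub_distrib, ← hdm]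
  simp only [Finset.sum_const, Finset.card_univ, nsmul_eq_mul, mul_one]
  linarith

/-- lower bound -/
private lemma lk_lower (L : LQ κ ι (FreeGroup G)) (hL : Intg L) {η : ℝ} (hη : 0 < η) :
    ∀ᶠ M : Mod G in sf G, dm (kr (oG L)) - η < (Module.finrank ℚ (kX M L) : ℝ) / sz M := by
  set k : ℝ := (n1 L : ℝ) ^ 2 with hk
  have hk0 : 0 ≤ k := by positivity
  set n : ℝ := (Fintype.card ι : ℝ) with hn
  have hn0 : 0 ≤ n := by positivity
  set D : ℝ := (Real.log (1 + k) + 1) * n + 2 * n + 1 with hD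
  have hlogk : 0 ≤ Real.log (1 + k) := Real.log_nonneg (by linarith)
  have hD0 : 0 < D := by positivity
  set x : ℝ := Real.exp (2 * D / η) with hx
  have hx1 : 1 ≤ x := Real.one_le_exp (by positivity)
  have hx0 : 0 < x := Real.exp_pos _
  have hlx : Real.log x = 2 * D / η := Real.log_exp _
  have hlx0 : 0 < Real.log x := by rw [hlx]; positivity
  -- the polynomial
  obtain ⟨q, hq⟩ := exists_polynomial_near_of_continuousOn 0 k (fun y => Real.log (1 + x * y)) (by
    apply ContinuousOn.log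
    · fun_prop
    · intro y hy
      have : 0 ≤ x * y := mul_nonneg hx0.le hy.1
      positivity) 1 one_pos
  have hq0 : q.eval 0 ≤ 1 := by
    have h1 := (abs_lt.mp (hq 0 ⟨le_rfl, hk0⟩)).2
    simp only [mul_zero, add_zero, Real.log_one, sub_zero] at h1
    exact h1.le
  have hqC : ∀ y ∈ Set.Icc 0 k, q.eval y ≤ Real.log x + Real.log (1 + k) + 1 := by
    intro y hy
    have h1 := (abs_lt.mp (hq y hy)).2
    have h2 : Real.log (1 + x * y) ≤ Real.log x + Real.log (1 + k) := by
      rw [← Real.log_mul hx0.ne' (by positivity)]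
      apply Real.log_le_log
      · have : 0 ≤ x * y := mul_nonneg hx0.le hy.1
        positivity
      · have : x * y ≤ x * k := mul_le_mul_of_nonneg_left hy.2 hx0.le
        nlinarith
    linarith
  have h1 := lk_trG L le_rfl q hqC hq0
  have h2 := tendsto_trace_poly (cmp (adj L) L) q
  have h3 : (tr (Polynomial.aeval (oG (cmp (adj L) L)) q)).re <
      (n + (Real.log x + Real.log (1 + k) + 1) * (n - dm (kr (oG L)))) + 1 := by
    linarith
  have h4 := h2.eventually (gt_mem_nhds h3)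
  filter_upwards [h4] with M hM
  have hsz := sz_pos M
  obtain ⟨N, hN1, hN2⟩ := mX_intg M hL
  set A := mR M (cmp (adj L) L) with hA
  have hAe : A = (N.map (Int.cast : ℤ → ℝ))ᵀ * N.map (Int.cast : ℤ → ℝ) := by
    rw [hA, lk_mRS, hN2]
  have hAh : A.IsHermitian := by
    rw [hAe]
    have := isHermitian_conjTranspose_mul_self (N.map (Int.cast : ℤ → ℝ))
    simpa using this
  have hbd : Bd 0 k A := by
    constructor
    · rw [zero_smul, sub_zero, hAe]
      have := posSemidef_conjTranspose_mul_self (N.map (Int.cast : ℤ → ℝ))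
      simpa using this
    · by_cases hk' : k = 0
      · -- then the matrix is zero
        have h5 : n1 L = 0 := by
          have : (n1 L : ℝ) = 0 := by
            rw [hk] at hk'
            exact pow_eq_zero_iff (two_ne_zero) |>.mp hk'
          exact_mod_cast this
        have h6 : mR M L = 0 := by
          ext q p
          have h7 := nrm_mR_le M L (Pi.single p 1)
          rw [h5] at h7
          simp only [Rat.cast_zero, zero_mul] at h7
          have h8 : nrm (mR M L *ᵥ Pi.single p 1) ^ 2 = 0 := by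
            have := nrm_nonneg (mR M L *ᵥ Pi.single p 1)
            have h9 : nrm (mR M L *ᵥ Pi.single p 1) = 0 := le_antisymm h7 this
            rw [h9]; ring
          rw [nrm_sq] at h8
          have h9 := (Finset.sum_eq_zero_iff_of_nonneg fun q _ => sq_nonneg _).mp h8 q
            (Finset.mem_univ q)
          have h10 := pow_eq_zero_iff (two_ne_zero) |>.mp h9
          simpa using h10
        rw [hk', zero_smul, zero_sub, hA, lk_mRS, h6]
        simp only [Matrix.transpose_zero, Matrix.zero_mul, neg_zero]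
        exact PosSemidef.zero
      · have hkp : 0 < k := lt_of_le_of_ne hk0 (Ne.symm hk')
        have h5 := psd_mR M L (s := k⁻¹) (by positivity) (by
          rw [hk] at hkp ⊢
          rw [inv_mul_cancel₀ hkp.ne'])
        have h6 := h5.smul hkp.le
        rw [smul_sub, smul_smul, mul_inv_cancel₀ hkp.ne', one_smul] at h6
        rw [hA, lk_mRS]
        simpa using h6
  obtain ⟨e, U, hU1, hU2, -, -, hpol, htr, hev⟩ := exists_spec hAh
  have he := hev 0 k hbd
  have hdet : (1 + x • A).det = ∏ i, (1 + x * e i) := by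
    have h5 : (1 + x • A) = Polynomial.aeval A (1 + Polynomial.C x * Polynomial.X) := by
      simp [Algebra.smul_def]
    rw [h5, hpol, det_mul, det_mul, det_diagonal]
    have h6 : U.det * Uᵀ.det = 1 := by rw [← det_mul, hU1, det_one]
    have h7 : ∀ i, (1 + Polynomial.C x * Polynomial.X : Polynomial ℝ).eval (e i) =
        1 + x * e i := fun i => by simp
    simp only [h7]
    rw [mul_right_comm, h6, one_mul]
  have hpos : ∀ i, 0 < 1 + x * e i := by
    intro i
    have := mul_nonneg hx0.le (he i).1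
    positivity
  have hlog : Real.log (1 + x • A).det ≤ (Polynomial.aeval A q).trace + n * sz M := by
    rw [hdet, Real.log_prod fun i _ => (hpos i).ne', htr]
    have h5 : ∀ i, Real.log (1 + x * e i) ≤ q.eval (e i) + 1 := by
      intro i
      have := (abs_lt.mp (hq (e i) (he i))).1
      linarith
    refine (Finset.sum_le_sum fun i _ => h5 i).trans (le_of_eq ?_)
    rw [Finset.sum_add_distrib]
    congr 1
    simp [n, sz]
  have hr := det_one_add_ge N hx0
  have hker : LinearMap.ker (N.map (Int.cast : ℤ → ℚ)).mulVecLin = kX M L := by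
    unfold kX
    rw [hN1]
  rw [hker, ← hAe] at hr
  have hlr := Real.log_le_log (by positivity) hr
  rw [Real.log_pow] at hlr
  have hfr : Module.finrank ℚ (kX M L) ≤ Fintype.card (ι × M.X) := by
    have := Submodule.finrank_le (kX M L)
    simpa using this
  have hcard : (Fintype.card (ι × M.X) : ℝ) = n * sz M := by
    simp [n, sz]
  rw [Nat.cast_sub hfr, hcard] at hlr
  set F : ℝ := (Module.finrank ℚ (kX M L) : ℝ) with hF
  set dk := dm (kr (oG L)) with hdk
  have hdk0 : 0 ≤ dk := dm_nonneg _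
  -- combine
  have hM' : (Polynomial.aeval A q).trace <
      ((n + (Real.log x + Real.log (1 + k) + 1) * (n - dk)) + 1) * sz M := by
    rwa [div_lt_iff₀ hsz] at hM
  have h8 : (n * sz M - F) * Real.log x <
      ((n - dk) * Real.log x + D) * sz M := by
    have h9 : (Real.log (1 + k) + 1) * (n - dk) ≤ (Real.log (1 + k) + 1) * n :=
      mul_le_mul_of_nonneg_left (by linarith) (by linarith)
    have h10 : ((n + (Real.log x + Real.log (1 + k) + 1) * (n - dk)) + 1) * sz M + n * sz M ≤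
        ((n - dk) * Real.log x + D) * sz M := by
      rw [← add_mul]
      apply mul_le_mul_of_nonneg_right _ hsz.le
      rw [hD]
      nlinarith
    linarith
  have h9 : D = η / 2 * Real.log x := by
    rw [hlx]; field_simp
  rw [h9, ← add_mul] at h8
  have h10 : n * sz M - F < ((n - dk) + η / 2) * sz M := by
    have h11 : (n * sz M - F) * Real.log x < (((n - dk) + η / 2) * sz M) * Real.log x := by
      linarith
    exact lt_of_mul_lt_mul_right h11 hlx0.le
  rw [lt_div_iff₀ hsz]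
  nlinarith

theorem lueck (L : LQ κ ι (FreeGroup G)) :
    Tendsto (fun M : Mod G => (Module.finrank ℚ (kX M L) : ℝ) / sz M) (sf G)
      (𝓝 (dm (kr (oG L)))) := by
  obtain ⟨D, hD, hI⟩ := exists_den L
  have hD' : ((D : ℕ) : ℚ) ≠ 0 := by exact_mod_cast hD.ne'
  rw [tendsto_order]
  constructor
  · intro a ha
    have h1 := lk_lower (sml D L) hI (η := dm (kr (oG L)) - a) (by linarith)
    rw [kr_sml L hD'] at h1
    filter_upwards [h1] with M hM
    rw [kX_sml M L hD'] at hM
    linarith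
  · intro a ha
    have h1 := lk_upper L (ε := (a - dm (kr (oG L))) / 4) (by linarith)
    filter_upwards [h1] with M hM
    linarith

end Pool.Agent.AH
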