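import Pool.Agent.AH.Defs

set_option autoImplicit false
set_option linter.unusedSectionVars false

noncomputable section

open scoped InnerProductSpace ENNReal Topology Matrix
open Classical Filter ContinuousLinearMap

/-!
PACKAGE AH-POLYF. The polynomial `f` (real analysis).

Let `s = min` of `σ`, `(1 - k)/4`, `1 - exp (-2)`. Let `φ` be the continuous function with
`φ x = k + s/2` for `x ≤ θ/2`, `φ x = 1 - s/2` for `x ≥ θ` and linear in between. By the theorem of
Weierstrass (`exists_polynomial_near_of_continuousOn`) there is a real polynomial with distance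
`< s/4` from `φ` on `[-K, K]`; change its coefficients to rational ones (distance `< s/4` on
`[-K, K]`): `f`. Then `k ≤ f ≤ 1` on `[-K, K]`, `f ≤ k + s` for `x ≤ θ/2` and `f ≥ 1 - s ≥ exp (-2)`
for `x ≥ θ`.
Second claim: if `|x| < θ/2` then `f x ≤ k + σ`; otherwise `(2/θ)^2 x^2 ≥ 1 ≥ f x`.
Third claim: if `x < θ` then `-(1/2) log f x ≤ -(1/2) log k` and `((1-x)/(1-θ))^2 ≥ 1`; if `x ≥ θ`
then `-(1/2) log f x ≤ 1`.
-/

namespace Pool.Agent.AH

open Pool.Agent.VN Pool.Agent.LFT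

/-- rational approximation of real polynomials on an interval -/
lemma exists_rat_poly (p : Polynomial ℝ) (K : ℝ) {s : ℝ} (hs : 0 < s) :
    ∃ f : Polynomial ℚ, ∀ x ∈ Set.Icc (-K) K,
      |(f.map (algebraMap ℚ ℝ)).eval x - p.eval x| ≤ s := by
  set B : ℝ := ∑ i ∈ Finset.range (p.natDegree + 1), |K| ^ i with hB
  have hB0 : 0 < B := by
    refine Finset.sum_pos' (fun i _ => by positivity) ⟨0, by simp, by simp⟩
  have hq : ∀ i : ℕ, ∃ q : ℚ, |p.coeff i - q| < s / B := fun i =>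
    exists_rat_near (p.coeff i) (div_pos hs hB0)
  choose q hq using hq
  refine ⟨∑ i ∈ Finset.range (p.natDegree + 1), Polynomial.C (q i) * Polynomial.X ^ i,
    fun x hx => ?_⟩
  have hxK : |x| ≤ |K| := (abs_le.2 ⟨hx.1, hx.2⟩).trans (le_abs_self K)
  have h1 : ((∑ i ∈ Finset.range (p.natDegree + 1),
      Polynomial.C (q i) * Polynomial.X ^ i : Polynomial ℚ).map (algebraMap ℚ ℝ)).eval x =
      ∑ i ∈ Finset.range (p.natDegree + 1), (q i : ℝ) * x ^ i := by
    rw [Polynomial.map_sum, Polynomial.eval_finsetSum]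
    refine Finset.sum_congr rfl fun i _ => ?_
    rw [Polynomial.map_mul, Polynomial.map_pow, Polynomial.map_C, Polynomial.map_X,
      Polynomial.eval_mul, Polynomial.eval_pow, Polynomial.eval_C, Polynomial.eval_X]
    rfl
  rw [h1, Polynomial.eval_eq_sum_range, ← Finset.sum_sub_distrib]
  calc |∑ i ∈ Finset.range (p.natDegree + 1), ((q i : ℝ) * x ^ i - p.coeff i * x ^ i)|
      ≤ ∑ i ∈ Finset.range (p.natDegree + 1), |(q i : ℝ) * x ^ i - p.coeff i * x ^ i| :=
        Finset.abs_sum_le_sum_abs _ _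
    _ ≤ ∑ i ∈ Finset.range (p.natDegree + 1), s / B * |K| ^ i := by
        refine Finset.sum_le_sum fun i _ => ?_
        rw [← sub_mul, abs_mul, abs_pow, abs_sub_comm]
        exact mul_le_mul (hq i).le (pow_le_pow_left₀ (abs_nonneg x) hxK i) (by positivity)
          (div_pos hs hB0).le
    _ = s := by
        rw [← Finset.mul_sum, ← hB, div_mul_cancel₀ _ hB0.ne']

theorem exists_f {k : ℚ} (h0 : 0 < k) (h1 : k < 1) {θ : ℝ} (hθ : 0 < θ) (hθ1 : θ < 1) (K : ℝ)
    {σ : ℝ} (hσ : 0 < σ) :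
    ∃ f : Polynomial ℚ, ∀ x ∈ Set.Icc (-K) K,
      (k : ℝ) ≤ (f.map (algebraMap ℚ ℝ)).eval x ∧ (f.map (algebraMap ℚ ℝ)).eval x ≤ 1 ∧
      (f.map (algebraMap ℚ ℝ)).eval x ≤ k + σ + (2 / θ) ^ 2 * x ^ 2 ∧
      -(1 / 2) * Real.log ((f.map (algebraMap ℚ ℝ)).eval x)
        ≤ -(1 / 2) * Real.log k * ((1 - x) / (1 - θ)) ^ 2 + 1 := by
  have hk0 : (0 : ℝ) < k := by exact_mod_cast h0
  have hk1 : (k : ℝ) < 1 := by exact_mod_cast h1
  have he : Real.exp (-2) < 1 := by
    rw [Real.exp_lt_one_iff]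
    norm_num
  obtain ⟨s, hs, hsσ, hsk, hse⟩ : ∃ s : ℝ, 0 < s ∧ s ≤ σ ∧ s ≤ (1 - k) / 4 ∧
      s ≤ 1 - Real.exp (-2) := by
    refine ⟨min σ (min ((1 - k) / 4) (1 - Real.exp (-2))), ?_, min_le_left _ _,
      (min_le_right _ _).trans (min_le_left _ _), (min_le_right _ _).trans (min_le_right _ _)⟩
    exact lt_min hσ (lt_min (by linarith) (by linarith))
  set φ : ℝ → ℝ := fun x => k + s / 2 +
    (1 - s - k) * max 0 (min 1 ((x - θ / 2) / (θ / 2))) with hφ
  have hφc : Continuous φ := by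
    rw [hφ]
    fun_prop
  have hφl : ∀ x, x ≤ θ / 2 → φ x = k + s / 2 := by
    intro x hx
    have h2 : (x - θ / 2) / (θ / 2) ≤ 0 :=
      div_nonpos_of_nonpos_of_nonneg (by linarith) (by linarith)
    have h3 : max 0 (min 1 ((x - θ / 2) / (θ / 2))) = 0 :=
      max_eq_left ((min_le_right _ _).trans h2)
    simp only [hφ, h3, mul_zero, add_zero]
  have hφr : ∀ x, θ ≤ x → φ x = 1 - s / 2 := by
    intro x hx
    have h2 : 1 ≤ (x - θ / 2) / (θ / 2) := by
      rw [le_div_iff₀ (by linarith)]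
      linarith
    have h3 : max 0 (min 1 ((x - θ / 2) / (θ / 2))) = 1 := by
      rw [min_eq_left h2]
      exact max_eq_right zero_le_one
    simp only [hφ, h3]
    ring
  have hφb : ∀ x, k + s / 2 ≤ φ x ∧ φ x ≤ 1 - s / 2 := by
    intro x
    have h2 : 0 ≤ max 0 (min 1 ((x - θ / 2) / (θ / 2))) := le_max_left _ _
    have h3 : max 0 (min 1 ((x - θ / 2) / (θ / 2))) ≤ 1 := max_le zero_le_one (min_le_left _ _)
    have h4 : 0 ≤ 1 - s - k := by linarith
    constructor
    · have := mul_nonneg h4 h2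
      simp only [hφ]
      linarith
    · have := mul_le_mul_of_nonneg_left h3 h4
      simp only [hφ]
      linarith
  obtain ⟨p, hp⟩ := exists_polynomial_near_of_continuousOn (-K) K φ hφc.continuousOn (s / 4)
    (by linarith)
  obtain ⟨f, hf⟩ := exists_rat_poly p K (s := s / 4) (by linarith)
  refine ⟨f, fun x hx => ?_⟩
  have h2 := abs_lt.1 (hp x hx)
  have h3 := abs_le.1 (hf x hx)
  obtain ⟨h4, h5⟩ := hφb x
  set y : ℝ := (f.map (algebraMap ℚ ℝ)).eval x with hy
  have h6 : (k : ℝ) ≤ y := by linarith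
  have h7 : y ≤ 1 := by linarith
  have hy0 : 0 < y := lt_of_lt_of_le hk0 h6
  have hlogk : Real.log k < 0 := Real.log_neg hk0 hk1
  have hterm : 0 ≤ -(1 / 2) * Real.log k * ((1 - x) / (1 - θ)) ^ 2 := by
    have : 0 ≤ -(1 / 2) * Real.log k := by linarith
    positivity
  refine ⟨h6, h7, ?_, ?_⟩
  · rcases le_or_gt x (θ / 2) with h | h
    · rw [hφl x h] at h2
      have : 0 ≤ (2 / θ) ^ 2 * x ^ 2 := by positivity
      linarith
    · have h8 : 1 ≤ 2 / θ * x := by
        rw [div_mul_eq_mul_div, le_div_iff₀ hθ]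
        linarith
      have h9 : 1 ≤ (2 / θ) ^ 2 * x ^ 2 := by
        rw [← mul_pow]
        exact one_le_pow₀ h8
      linarith
  · rcases lt_or_ge x θ with h | h
    · have h8 : 1 ≤ (1 - x) / (1 - θ) := by
        rw [le_div_iff₀ (by linarith)]
        linarith
      have h9 : 1 ≤ ((1 - x) / (1 - θ)) ^ 2 := one_le_pow₀ h8
      have h10 : Real.log k ≤ Real.log y := Real.log_le_log hk0 h6
      have h11 : -(1 / 2) * Real.log k * 1 ≤ -(1 / 2) * Real.log k * ((1 - x) / (1 - θ)) ^ 2 :=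
        mul_le_mul_of_nonneg_left h9 (by linarith)
      linarith
    · rw [hφr x h] at h2
      have h8 : Real.exp (-2) ≤ y := by linarith
      have h9 : -2 ≤ Real.log y := by
        rw [Real.le_log_iff_exp_le hy0]
        exact h8
      linarith

/-- polynomials near `-(1/2) log` -/
theorem exists_l {c d : ℝ} (hc : 0 < c) {s : ℝ} (hs : 0 < s) (r : ℝ) :
    ∃ l : Polynomial ℝ, ∀ x ∈ Set.Icc c d, |l.eval x - (-(1 / 2) * Real.log x + r)| ≤ s := by
  have hcont : ContinuousOn (fun x : ℝ => -(1 / 2) * Real.log x + r) (Set.Icc c d) := by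
    refine ContinuousOn.add (ContinuousOn.mul continuousOn_const ?_) continuousOn_const
    exact Real.continuousOn_log.mono fun x hx => (lt_of_lt_of_le hc hx.1).ne'
  obtain ⟨l, hl⟩ := exists_polynomial_near_of_continuousOn c d _ hcont s hs
  exact ⟨l, fun x hx => (hl x hx).le⟩

end Pool.Agent.AH
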