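import Pool.Agent.AH.AlgX
import Pool.Agent.AH.Sym

set_option autoImplicit false
set_option linter.unusedSectionVars false

noncomputable section

open scoped InnerProductSpace ENNReal Topology Matrix
open Classical Filter ContinuousLinearMap

/-!
PACKAGE AH-XD. Dimensions and degrees on a model (finite matrices).

`finrank_rX`: rank-nullity.
`finrank_UX_inf`: the linear map `(w, z) ↦ N w` on `kX M (row2 (cmp A N) B)` (the set of all
`(w, z)` with `A N w + B z = 0`) has the range `UX M A B ⊓ rX M N` (if `A x + B z = 0`, `x = N w`)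
and the kernel `{(w, z) | N w = 0, B z = 0}`, of dimension `dim (kX M N) + dim (kX M B)`. Use
`mX_row2_mulVec`, `mX_cmp` and functions on `(ν ⊕ ι') × M.X` as pairs.
`deg_UX_ge`: apply `AHL.deg_proj_ge` with `J = ι × M.X`, `I = ι' × M.X`, `T = -(1/2) log k`
(so that `exp (-(2 T)) = k`) and the integral matrix `(A | B)`: rows `κ × M.X` and columns
`(ι × M.X) ⊕ (ι' × M.X) ≃ (ι ⊕ ι') × M.X` (`Equiv.sumProdDistrib`). `kerQ` of this matrix projects
onto `UX M A B`, its intersection with the kernel of `resL` is isomorphic to `kX M B`, and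
`mR M (aL b k A B)`, reindexed, is `fromBlocks b 0 0 (k • 1) + (A|B)ᵀ (A|B)` (entries of `rix`; the
determinant does not change: `Matrix.det_submatrix_equiv_self`).
-/

namespace Pool.Agent.AH

open Pool.Agent.VN Pool.Agent.LFT

open Matrix

variable {ι ι' κ ν : Type} [Fintype ι] [Fintype ι'] [Fintype κ] [Fintype ν] {G : Type} [Group G]
  (M : Mod G)

theorem finrank_rX (N : LQ ι ν (FreeGroup G)) :
    Module.finrank ℚ (rX M N) + Module.finrank ℚ (kX M N)
      = Fintype.card ν * Fintype.card M.X := by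
  have h := LinearMap.finrank_range_add_finrank_ker (mX M N).mulVecLin
  unfold rX kX
  rw [h]
  simp

/-- the equivalence of index sets -/
def XD_e (ι ι' : Type) (X : Type) : (ι × X) ⊕ (ι' × X) ≃ (ι ⊕ ι') × X :=
  (Equiv.sumProdDistrib ι ι' X).symm

lemma XD_row2 (A : LQ κ ι (FreeGroup G)) (B : LQ κ ι' (FreeGroup G)) :
    (mX M (row2 A B)).submatrix id (XD_e ι ι' M.X) = fromCols (mX M A) (mX M B) := by
  ext q p
  rcases p with p | p
  · show mX M (row2 A B) q (Sum.inl p.1, p.2) = mX M A q p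
    unfold row2
    rw [mX_append, Matrix.add_apply]
    have h1 := mX_rix M (f := (id : κ → κ)) Function.injective_id (g := (Sum.inl : ι → ι ⊕ ι'))
      Sum.inl_injective A q p
    have h2 := mX_rix_col M (id : κ → κ) (Sum.inr : ι' → ι ⊕ ι') B q (Sum.inl p.1, p.2)
      (fun i h => by simp at h)
    rw [h2, add_zero]
    exact h1
  · show mX M (row2 A B) q (Sum.inr p.1, p.2) = mX M B q p
    unfold row2
    rw [mX_append, Matrix.add_apply]
    have h1 := mX_rix M (f := (id : κ → κ)) Function.injective_id (g := (Sum.inr : ι' → ι ⊕ ι'))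
      Sum.inr_injective B q p
    have h2 := mX_rix_col M (id : κ → κ) (Sum.inl : ι → ι ⊕ ι') A q (Sum.inr p.1, p.2)
      (fun i h => by simp at h)
    rw [h2, zero_add]
    exact h1

lemma XD_ext2 (b : LQ ι ι (FreeGroup G)) (c : ℚ) :
    (mX M (ext2 (ι' := ι') b c)).submatrix (XD_e ι ι' M.X) (XD_e ι ι' M.X)
      = fromBlocks (mX M b) 0 0 (c • (1 : Matrix (ι' × M.X) (ι' × M.X) ℚ)) := by
  have hone : mX M (sml c (one ι' (FreeGroup G))) = c • (1 : Matrix (ι' × M.X) (ι' × M.X) ℚ) := by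
    rw [mX_sml, mX_one]
  ext q p
  unfold ext2
  rcases q with q | q <;> rcases p with p | p
  · show mX M _ (Sum.inl q.1, q.2) (Sum.inl p.1, p.2) = mX M b q p
    rw [mX_append, Matrix.add_apply]
    rw [mX_rix_col M (Sum.inr : ι' → ι ⊕ ι') (Sum.inr : ι' → ι ⊕ ι') _ (Sum.inl q.1, q.2)
      (Sum.inl p.1, p.2) (fun i h => by simp at h), add_zero]
    exact mX_rix M Sum.inl_injective Sum.inl_injective b q p
  · show mX M _ (Sum.inl q.1, q.2) (Sum.inr p.1, p.2) = 0
    rw [mX_append, Matrix.add_apply]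
    rw [mX_rix_col M (Sum.inl : ι → ι ⊕ ι') (Sum.inl : ι → ι ⊕ ι') _ (Sum.inl q.1, q.2)
      (Sum.inr p.1, p.2) (fun i h => by simp at h),
      mX_rix_row M (Sum.inr : ι' → ι ⊕ ι') (Sum.inr : ι' → ι ⊕ ι') _ (Sum.inl q.1, q.2)
      (Sum.inr p.1, p.2) (fun i h => by simp at h), add_zero]
  · show mX M _ (Sum.inr q.1, q.2) (Sum.inl p.1, p.2) = 0
    rw [mX_append, Matrix.add_apply]
    rw [mX_rix_row M (Sum.inl : ι → ι ⊕ ι') (Sum.inl : ι → ι ⊕ ι') _ (Sum.inr q.1, q.2)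
      (Sum.inl p.1, p.2) (fun i h => by simp at h),
      mX_rix_col M (Sum.inr : ι' → ι ⊕ ι') (Sum.inr : ι' → ι ⊕ ι') _ (Sum.inr q.1, q.2)
      (Sum.inl p.1, p.2) (fun i h => by simp at h), add_zero]
  · show mX M _ (Sum.inr q.1, q.2) (Sum.inr p.1, p.2) = _
    rw [mX_append, Matrix.add_apply]
    rw [mX_rix_col M (Sum.inl : ι → ι ⊕ ι') (Sum.inl : ι → ι ⊕ ι') _ (Sum.inr q.1, q.2)
      (Sum.inr p.1, p.2) (fun i h => by simp at h), zero_add]
    rw [mX_rix M Sum.inr_injective Sum.inr_injective _ q p, hone]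
    rfl


/-- functions on the sum as pairs -/
def XD_P (ι ι' : Type) (X : Type) : ((ι ⊕ ι') × X → ℚ) ≃ₗ[ℚ] (ι × X → ℚ) × (ι' × X → ℚ) :=
  (LinearEquiv.funCongrLeft ℚ ℚ (XD_e ι ι' X)).trans
    (LinearEquiv.sumArrowLequivProdArrow (ι × X) (ι' × X) ℚ ℚ)

lemma XD_P_fst (z : (ι ⊕ ι') × M.X → ℚ) :
    (XD_P ι ι' M.X z).1 = fun p => z (Sum.inl p.1, p.2) := rfl

lemma XD_P_snd (z : (ι ⊕ ι') × M.X → ℚ) :
    (XD_P ι ι' M.X z).2 = fun p => z (Sum.inr p.1, p.2) := rfl

lemma XD_finrank_prod {V W : Type} [AddCommGroup V] [Module ℚ V] [AddCommGroup W] [Module ℚ W]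
    [FiniteDimensional ℚ V] [FiniteDimensional ℚ W] (p : Submodule ℚ V) (q : Submodule ℚ W) :
    Module.finrank ℚ (p.prod q : Submodule ℚ (V × W)) = Module.finrank ℚ p + Module.finrank ℚ q := by
  rw [← Module.finrank_prod]
  exact LinearEquiv.finrank_eq
    { toFun := fun x => (⟨x.1.1, x.2.1⟩, ⟨x.1.2, x.2.2⟩)
      invFun := fun x => ⟨(x.1.1, x.2.1), x.1.2, x.2.2⟩
      left_inv := fun _ => rfl
      right_inv := fun _ => rfl
      map_add' := fun _ _ => rfl
      map_smul' := fun _ _ => rfl }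

lemma XD_finrank_equiv {V W : Type} [AddCommGroup V] [Module ℚ V] [AddCommGroup W] [Module ℚ W]
    (e : V ≃ₗ[ℚ] W) (q : Submodule ℚ W) :
    Module.finrank ℚ (q.comap e.toLinearMap : Submodule ℚ V) = Module.finrank ℚ q := by
  have h1 : (q.comap e.toLinearMap : Submodule ℚ V) = q.map e.symm.toLinearMap := by
    ext x
    rw [Submodule.mem_comap, Submodule.mem_map]
    constructor
    · intro h
      exact ⟨_, h, e.symm_apply_apply x⟩
    · rintro ⟨y, hy, rfl⟩
      show e (e.symm y) ∈ q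
      rwa [e.apply_symm_apply]
  rw [h1]
  exact LinearEquiv.finrank_map_eq e.symm q

lemma mem_kX_row2 (A : LQ κ ι (FreeGroup G)) (B : LQ κ ι' (FreeGroup G))
    (z : (ι ⊕ ι') × M.X → ℚ) : z ∈ kX M (row2 A B) ↔
      (mX M A).mulVec (XD_P ι ι' M.X z).1 + (mX M B).mulVec (XD_P ι ι' M.X z).2 = 0 := by
  unfold kX
  rw [LinearMap.mem_ker, Matrix.mulVecLin_apply, mX_row2_mulVec]
  rfl

theorem finrank_UX_inf (A : LQ κ ι (FreeGroup G)) (B : LQ κ ι' (FreeGroup G))
    (N : LQ ι ν (FreeGroup G)) :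
    Module.finrank ℚ (UX M A B ⊓ rX M N : Submodule ℚ (ι × M.X → ℚ))
        + Module.finrank ℚ (kX M N) + Module.finrank ℚ (kX M B)
      = Module.finrank ℚ (kX M (row2 (cmp A N) B)) := by
  set f : ((ν ⊕ ι') × M.X → ℚ) →ₗ[ℚ] (ι × M.X → ℚ) :=
    (mX M N).mulVecLin ∘ₗ (LinearMap.fst ℚ _ _ ∘ₗ (XD_P ν ι' M.X).toLinearMap) with hf
  set K := kX M (row2 (cmp A N) B) with hK
  have hfz : ∀ z, f z = (mX M N).mulVec (XD_P ν ι' M.X z).1 := fun z => rfl
  have h1 : K.map f = UX M A B ⊓ rX M N := by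
    ext x
    rw [Submodule.mem_map, Submodule.mem_inf]
    constructor
    · rintro ⟨z, hz, rfl⟩
      rw [hK, mem_kX_row2, mX_cmp, ← Matrix.mulVec_mulVec, ← hfz] at hz
      refine ⟨?_, ⟨_, rfl⟩⟩
      show (mX M A).mulVecLin (f z) ∈ rX M B
      refine ⟨-(XD_P ν ι' M.X z).2, ?_⟩
      rw [Matrix.mulVecLin_apply, Matrix.mulVecLin_apply, Matrix.mulVec_neg]
      exact (eq_neg_of_add_eq_zero_left hz).symm
    · rintro ⟨⟨z, hz⟩, ⟨w, hw⟩⟩
      rw [Matrix.mulVecLin_apply] at hz hw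
      refine ⟨(XD_P ν ι' M.X).symm (w, -z), ?_, ?_⟩
      · rw [hK, mem_kX_row2, LinearEquiv.apply_symm_apply, mX_cmp, ← Matrix.mulVec_mulVec]
        simp only
        rw [hw, Matrix.mulVec_neg, hz, Matrix.mulVecLin_apply, add_neg_cancel]
      · rw [hfz, LinearEquiv.apply_symm_apply]
        exact hw
  have h2 : K ⊓ LinearMap.ker f
      = ((kX M N).prod (kX M B)).comap (XD_P ν ι' M.X).toLinearMap := by
    ext z
    rw [Submodule.mem_inf, LinearMap.mem_ker, hfz, hK, mem_kX_row2, Submodule.mem_comap,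
      Submodule.mem_prod, mX_cmp, ← Matrix.mulVec_mulVec]
    unfold kX
    rw [LinearMap.mem_ker, LinearMap.mem_ker, Matrix.mulVecLin_apply, Matrix.mulVecLin_apply]
    constructor
    · rintro ⟨h3, h4⟩
      rw [h4, Matrix.mulVec_zero, zero_add] at h3
      exact ⟨h4, h3⟩
    · rintro ⟨h3, h4⟩
      have h5 : (mX M N).mulVec (XD_P ν ι' M.X z).1 = 0 := h3
      have h6 : (mX M B).mulVec (XD_P ν ι' M.X z).2 = 0 := h4
      rw [h5, h6, Matrix.mulVec_zero, add_zero]
      exact ⟨rfl, rfl⟩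
  have h3 := LinearMap.finrank_range_add_finrank_ker (f.domRestrict K)
  have h4 : LinearMap.range (f.domRestrict K) = K.map f := LinearMap.range_domRestrict K f
  have h5 : Module.finrank ℚ (LinearMap.ker (f.domRestrict K))
      = Module.finrank ℚ (K ⊓ LinearMap.ker f : Submodule ℚ _) := by
    have : (LinearMap.ker (f.domRestrict K)).map K.subtype = K ⊓ LinearMap.ker f := by
      ext z
      rw [Submodule.mem_map, Submodule.mem_inf]
      constructor
      · rintro ⟨y, hy, rfl⟩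
        exact ⟨y.2, hy⟩
      · rintro ⟨h6, h7⟩
        exact ⟨⟨z, h6⟩, h7, rfl⟩
    rw [← this]
    exact (Submodule.finrank_map_subtype_eq K (LinearMap.ker (f.domRestrict K))).symm
  rw [h4, h1, h5, h2, XD_finrank_equiv, XD_finrank_prod] at h3
  rw [← h3]
  ring

lemma XD_row2R (A : LQ κ ι (FreeGroup G)) (B : LQ κ ι' (FreeGroup G)) :
    (mR M (row2 A B)).submatrix id (XD_e ι ι' M.X) = fromCols (mR M A) (mR M B) := by
  have h := XD_row2 M A B
  ext q p
  have h1 := congrFun (congrFun h q) p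
  rcases p with p | p
  · exact congrArg (fun x : ℚ => (x : ℝ)) h1
  · exact congrArg (fun x : ℚ => (x : ℝ)) h1

lemma XD_ext2R (b : LQ ι ι (FreeGroup G)) (c : ℚ) :
    (mR M (ext2 (ι' := ι') b c)).submatrix (XD_e ι ι' M.X) (XD_e ι ι' M.X)
      = fromBlocks (mR M b) 0 0 ((c : ℝ) • (1 : Matrix (ι' × M.X) (ι' × M.X) ℝ)) := by
  have h := XD_ext2 (ι' := ι') M b c
  ext q p
  have h1 := congrFun (congrFun h q) p
  have h2 : ((mR M (ext2 (ι' := ι') b c)).submatrix (XD_e ι ι' M.X) (XD_e ι ι' M.X)) q p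
      = (((mX M (ext2 (ι' := ι') b c)).submatrix (XD_e ι ι' M.X) (XD_e ι ι' M.X)) q p : ℚ) := rfl
  rw [h2, h1]
  rcases q with q | q <;> rcases p with p | p
  · rfl
  · simp
  · simp
  · by_cases hqp : q = p
    · subst hqp
      simp
    · simp [Matrix.one_apply_ne hqp]

lemma XD_aL (b : LQ ι ι (FreeGroup G)) (c : ℚ) (A : LQ κ ι (FreeGroup G))
    (B : LQ κ ι' (FreeGroup G)) :
    (mR M (aL b c A B)).submatrix (XD_e ι ι' M.X) (XD_e ι ι' M.X)
      = fromBlocks (mR M b) 0 0 ((c : ℝ) • (1 : Matrix (ι' × M.X) (ι' × M.X) ℝ))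
        + (fromCols (mR M A) (mR M B))ᵀ * fromCols (mR M A) (mR M B) := by
  unfold aL
  rw [mR_append, mR_cmp, mR_adj, Matrix.submatrix_add]
  simp only [Pi.add_apply]
  rw [XD_ext2R, ← XD_row2R]
  congr 1

theorem deg_UX_ge {k : ℚ} (h0 : 0 < k) {b : LQ ι ι (FreeGroup G)} (hb : Bd (k : ℝ) 1 (mR M b))
    {A : LQ κ ι (FreeGroup G)} {B : LQ κ ι' (FreeGroup G)} (hA : Intg A) (hB : Intg B) :
    -(1 / 2) * Real.log (mR M (aL b k A B)).det
        - (-(1 / 2) * Real.log k) * Module.finrank ℚ (kX M B)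
      ≤ AHL.deg (mR M b) (UX M A B) := by
  obtain ⟨NA, hNA, hNA'⟩ := mX_intg M hA
  obtain ⟨NB, hNB, hNB'⟩ := mX_intg M hB
  have hk : (0 : ℝ) < k := by exact_mod_cast h0
  set T : ℝ := -(1 / 2) * Real.log k with hT
  have hexp : Real.exp (-(2 * T)) = (k : ℝ) := by
    have : -(2 * T) = Real.log k := by rw [hT]; ring
    rw [this, Real.exp_log hk]
  have hpd : (mR M b).PosDef := hb.posDef hk
  have hlo : (mR M b - Real.exp (-(2 * T)) • (1 : Matrix (ι × M.X) (ι × M.X) ℝ)).PosSemidef := by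
    rw [hexp]
    exact hb.lo
  have h := AHL.deg_proj_ge (I := ι' × M.X) hpd hlo (fromCols NA NB)
  have hmap : (fromCols NA NB).map (Int.cast : ℤ → ℝ) = fromCols (mR M A) (mR M B) := by
    rw [hNA', hNB']
    ext q p
    rcases p with p | p <;> rfl
  have hmapQ : (fromCols NA NB).map (Int.cast : ℤ → ℚ) = fromCols (mX M A) (mX M B) := by
    rw [hNA, hNB]
    ext q p
    rcases p with p | p <;> rfl
  rw [hmap, hexp] at h
  have hdet : (mR M (aL b k A B)).det = (fromBlocks (mR M b) 0 0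
      ((k : ℝ) • (1 : Matrix (ι' × M.X) (ι' × M.X) ℝ)) + (fromCols (mR M A) (mR M B))ᴴ
        * fromCols (mR M A) (mR M B)).det := by
    rw [← Matrix.det_submatrix_equiv_self (XD_e ι ι' M.X) (mR M (aL b k A B)), XD_aL,
      Matrix.conjTranspose_eq_transpose_of_trivial]
  have hker : ∀ z : (ι × M.X) ⊕ (ι' × M.X) → ℚ, z ∈ AHL.kerQ (fromCols NA NB) ↔
      (mX M A).mulVec (fun p => z (Sum.inl p)) + (mX M B).mulVec (fun p => z (Sum.inr p)) = 0 := by
    intro z
    unfold AHL.kerQ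
    rw [hmapQ, LinearMap.mem_ker, Matrix.mulVecLin_apply]
    have : (fromCols (mX M A) (mX M B)).mulVec z
        = (mX M A).mulVec (fun p => z (Sum.inl p)) + (mX M B).mulVec (fun p => z (Sum.inr p)) := by
      have h5 := Matrix.fromCols_mulVec (mX M A) (mX M B) z
      exact h5
    rw [this]
  have hres : ∀ z : (ι × M.X) ⊕ (ι' × M.X) → ℚ, AHL.resL (ι × M.X) (ι' × M.X) z
      = fun p => z (Sum.inl p) := fun z => rfl
  have hU : (AHL.kerQ (fromCols NA NB)).map (AHL.resL (ι × M.X) (ι' × M.X)) = UX M A B := by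
    ext x
    rw [Submodule.mem_map]
    constructor
    · rintro ⟨z, hz, rfl⟩
      rw [hker] at hz
      show (mX M A).mulVecLin _ ∈ rX M B
      refine ⟨-(fun p => z (Sum.inr p)), ?_⟩
      rw [Matrix.mulVecLin_apply, Matrix.mulVecLin_apply, Matrix.mulVec_neg, hres]
      exact (eq_neg_of_add_eq_zero_left hz).symm
    · rintro ⟨z, hz⟩
      rw [Matrix.mulVecLin_apply, Matrix.mulVecLin_apply] at hz
      refine ⟨Sum.elim x (-z), ?_, ?_⟩
      · rw [hker]
        show (mX M A).mulVec x + (mX M B).mulVec (-z) = 0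
        rw [Matrix.mulVec_neg, hz, add_neg_cancel]
      · rw [hres]
        rfl
  have hfin : Module.finrank ℚ (AHL.kerQ (fromCols NA NB)
      ⊓ LinearMap.ker (AHL.resL (ι × M.X) (ι' × M.X)) : Submodule ℚ _)
      = Module.finrank ℚ (kX M B) := by
    have h6 : (AHL.kerQ (fromCols NA NB)
      ⊓ LinearMap.ker (AHL.resL (ι × M.X) (ι' × M.X)) : Submodule ℚ _)
      = ((⊥ : Submodule ℚ (ι × M.X → ℚ)).prod (kX M B)).comap
        (LinearEquiv.sumArrowLequivProdArrow (ι × M.X) (ι' × M.X) ℚ ℚ).toLinearMap := by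
      ext z
      rw [Submodule.mem_inf, LinearMap.mem_ker, hker, hres, Submodule.mem_comap,
        Submodule.mem_prod, Submodule.mem_bot]
      unfold kX
      rw [LinearMap.mem_ker, Matrix.mulVecLin_apply]
      constructor
      · rintro ⟨h7, h8⟩
        refine ⟨h8, ?_⟩
        rw [h8, Matrix.mulVec_zero, zero_add] at h7
        exact h7
      · rintro ⟨h7, h8⟩
        have h9 : (fun p => z (Sum.inl p)) = (0 : ι × M.X → ℚ) := h7
        refine ⟨?_, h9⟩
        rw [h9, Matrix.mulVec_zero, zero_add]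
        exact h8
    rw [h6, XD_finrank_equiv, XD_finrank_prod, finrank_bot, zero_add]
  rw [hU, hfin, ← hdet] at h
  exact h

/-- bounds of the matrix `a` on models -/
theorem bd_aL {k : ℚ} (h0 : 0 < k) (h1 : k < 1) {b : LQ ι ι (FreeGroup G)}
    (hb : Bd (k : ℝ) 1 (mR M b)) (A : LQ κ ι (FreeGroup G)) (B : LQ κ ι' (FreeGroup G)) :
    Bd (k : ℝ) (1 + (n1 (row2 A B) : ℝ) ^ 2) (mR M (aL b k A B)) := by
  have hk : (0 : ℝ) < k := by exact_mod_cast h0
  have hk1 : (k : ℝ) < 1 := by exact_mod_cast h1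
  set E := mR M (ext2 (ι' := ι') b k) with hE
  set R := mR M (row2 A B) with hR
  set n : ℝ := (n1 (row2 A B) : ℝ) with hn
  have ha : mR M (aL b k A B) = E + Rᴴ * R := by
    unfold aL
    rw [mR_append, mR_cmp, mR_adj, Matrix.conjTranspose_eq_transpose_of_trivial]
  have hRR : (Rᴴ * R).PosSemidef := posSemidef_conjTranspose_mul_self R
  have hsub : ∀ c : ℝ, ((E - c • (1 : Matrix ((ι ⊕ ι') × M.X) ((ι ⊕ ι') × M.X) ℝ)).submatrix
      (XD_e ι ι' M.X) (XD_e ι ι' M.X))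
      = fromBlocks (mR M b - c • (1 : Matrix (ι × M.X) (ι × M.X) ℝ)) 0 0
        (((k : ℝ) - c) • (1 : Matrix (ι' × M.X) (ι' × M.X) ℝ)) := by
    intro c
    have h3 : (1 : Matrix ((ι ⊕ ι') × M.X) ((ι ⊕ ι') × M.X) ℝ).submatrix
        (XD_e ι ι' M.X) (XD_e ι ι' M.X) = 1 := Matrix.submatrix_one_equiv _
    have h4 : (E - c • (1 : Matrix ((ι ⊕ ι') × M.X) ((ι ⊕ ι') × M.X) ℝ)).submatrix
        (XD_e ι ι' M.X) (XD_e ι ι' M.X) = E.submatrix (XD_e ι ι' M.X) (XD_e ι ι' M.X)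
          - c • (1 : Matrix ((ι ⊕ ι') × M.X) ((ι ⊕ ι') × M.X) ℝ).submatrix
            (XD_e ι ι' M.X) (XD_e ι ι' M.X) := rfl
    rw [h4, h3, hE, XD_ext2R, ← Matrix.fromBlocks_one, Matrix.fromBlocks_smul, smul_zero,
      smul_zero, sub_eq_add_neg, Matrix.fromBlocks_neg, Matrix.fromBlocks_add, neg_zero, neg_zero,
      add_zero, add_zero, ← sub_eq_add_neg, ← sub_eq_add_neg, ← sub_smul]
  refine ⟨?_, ?_⟩
  · rw [ha, add_sub_right_comm]
    refine Matrix.PosSemidef.add ?_ hRR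
    rw [← Matrix.posSemidef_submatrix_equiv (XD_e ι ι' M.X), hsub]
    have := AHL.blockDiag_posSemidef (I := ι' × M.X) hb.lo (le_refl (0 : ℝ))
    rw [sub_self]
    exact this
  · have h5 : (1 + n ^ 2) • (1 : Matrix ((ι ⊕ ι') × M.X) ((ι ⊕ ι') × M.X) ℝ)
        - mR M (aL b k A B)
        = ((1 : Matrix ((ι ⊕ ι') × M.X) ((ι ⊕ ι') × M.X) ℝ) - E) + (n ^ 2 • 1 - Rᴴ * R) := by
      rw [ha, add_smul, one_smul]
      abel
    rw [h5]
    refine Matrix.PosSemidef.add ?_ ?_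
    · rw [← Matrix.posSemidef_submatrix_equiv (XD_e ι ι' M.X)]
      have h6 : ((1 : Matrix ((ι ⊕ ι') × M.X) ((ι ⊕ ι') × M.X) ℝ) - E).submatrix
          (XD_e ι ι' M.X) (XD_e ι ι' M.X)
          = fromBlocks ((1 : ℝ) • (1 : Matrix (ι × M.X) (ι × M.X) ℝ) - mR M b) 0 0
            ((1 - (k : ℝ)) • (1 : Matrix (ι' × M.X) (ι' × M.X) ℝ)) := by
        have h7 := hsub 1
        have h8 : ((1 : Matrix ((ι ⊕ ι') × M.X) ((ι ⊕ ι') × M.X) ℝ) - E).submatrix
          (XD_e ι ι' M.X) (XD_e ι ι' M.X)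
          = - ((E - (1 : ℝ) • (1 : Matrix ((ι ⊕ ι') × M.X) ((ι ⊕ ι') × M.X) ℝ)).submatrix
            (XD_e ι ι' M.X) (XD_e ι ι' M.X)) := by
          rw [one_smul, ← neg_sub E 1]
          rfl
        rw [h8, h7, Matrix.fromBlocks_neg, neg_zero, neg_zero, neg_sub, ← neg_smul, neg_sub]
      rw [h6]
      exact AHL.blockDiag_posSemidef (I := ι' × M.X) hb.hi (by linarith)
    · rw [posSemidef_iff_dotProduct_mulVec]
      constructor
      · refine Matrix.IsHermitian.sub ?_ hRR.1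
        rw [Matrix.IsHermitian, conjTranspose_smul, conjTranspose_one]
        simp
      · intro x
        have h6 : star x ⬝ᵥ ((n ^ 2 • (1 : Matrix ((ι ⊕ ι') × M.X) ((ι ⊕ ι') × M.X) ℝ)
            - Rᴴ * R) *ᵥ x) = n ^ 2 * nrm x ^ 2 - nrm (R *ᵥ x) ^ 2 := by
          rw [sub_mulVec, dotProduct_sub, smul_mulVec, one_mulVec, dotProduct_smul, nrm_sq',
            nrm_sq', ← mulVec_mulVec, dotProduct_mulVec, smul_eq_mul]
          congr 2
          rw [star_trivial, vecMul_conjTranspose]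
          simp
        rw [h6]
        have h7 := nrm_mR_le M (row2 A B) x
        have h8 : nrm (R *ᵥ x) ^ 2 ≤ (n * nrm x) ^ 2 :=
          pow_le_pow_left₀ (nrm_nonneg _) h7 2
        nlinarith

end Pool.Agent.AH
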