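import Pool.Agent.AH.Jen
import Pool.Agent.AH.JenB
import Pool.Agent.AH.XD
import Pool.Agent.AH.GD
import Pool.Agent.AH.Lueck
import Pool.Agent.AH.PolyF

set_option autoImplicit false
set_option linter.unusedSectionVars false

noncomputable section

open scoped InnerProductSpace ENNReal Topology Matrix
open Classical Filter ContinuousLinearMap

/-!
PACKAGE AH-LWR. Lower bound for the degree of a rational subspace of a model.

Let `K' = 1 + n1 (row2 A B) ^ 2`, `T = -(1/2) log k`, `N = card ι + s`, `a = aL b k A B`. Choose `l`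
with `-(1/2) log x - 1 ≤ l x ≤ -(1/2) log x` on `[k, K']` (`exists_l` with `r = -1/2`, `s = 1/2`).
For all good models: `-(1/2) log det (mR M a) ≥ trace (aeval (mR M a) l)` (`logdet_ge` /
`trace_le_log`, `bd_aL`) `≥ (Re tr (aeval (oG a) l) - 1) sz M` (`tendsto_trace_poly`)
`≥ (T dm (WG P A B) - (1/2 + N ((1/2) log K' + 1)) - 1) sz M` (`jensen`, `bdO_aL`), and
`T finrank (kX M B) ≤ (T dm (kr (oG B)) + 1) sz M` (`lueck`). So with `deg_UX_ge` and `dm_WG`
`deg ≥ (T dm (P ⊓ UG A B) - C) sz M`, `C = 1/2 + N ((1/2) log K' + 1) + 2`.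
-/

namespace Pool.Agent.AH

open Pool.Agent.VN Pool.Agent.LFT

open Matrix

variable {ι : Type} [Fintype ι] {G : Type} [Group G]

/-- lower bound of the degree, all finite index sets -/
lemma Lwr_inst {J : Type} [Fintype J] (d1 d2 : DecidableEq J) (A : Matrix J J ℝ)
    (l : Polynomial ℝ) :
    (@Polynomial.aeval ℝ (Matrix J J ℝ) _ (@Matrix.semiring J ℝ _ _ d1)
        (@Matrix.instAlgebra J ℝ ℝ _ d1 _ _ _) A l).trace
      = (@Polynomial.aeval ℝ (Matrix J J ℝ) _ (@Matrix.semiring J ℝ _ _ d2)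
        (@Matrix.instAlgebra J ℝ ℝ _ d2 _ _ _) A l).trace := by
  obtain rfl : d1 = d2 := Subsingleton.elim _ _
  rfl

theorem Lwr_gen {ι' κ : Type} [Fintype ι'] [Fintype κ] {P : Submodule ℂ (L2 ι G)} (hP : CI P)
    {A : LQ κ ι (FreeGroup G)} {B : LQ κ ι' (FreeGroup G)} (hA : Intg A) (hB : Intg B) :
    ∃ C : ℝ, ∀ (k : ℚ), 0 < k → k < 1 → ∀ b : LQ ι ι (FreeGroup G),
      (∀ M : Mod G, Bd (k : ℝ) 1 (mR M b)) → BdO (k : ℝ) 1 (oG b) →
      (tr (pj P ∘L (oG b - (k : ℂ) • (1 : L2 ι G →L[ℂ] L2 ι G)))).re ≤ k →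
        ∀ᶠ M in sf G, (-(1 / 2) * Real.log k * dm (P ⊓ UG A B) - C) * sz M
          ≤ AHL.deg (mR M b) (UX M A B) := by
  set K' : ℝ := 1 + (n1 (row2 A B) : ℝ) ^ 2 with hK'
  have hK1 : 1 ≤ K' := by
    rw [hK']
    nlinarith [sq_nonneg ((n1 (row2 A B) : ℚ) : ℝ)]
  refine ⟨1 / 2 + (Fintype.card ι + Fintype.card ι') * (1 / 2 * Real.log K' + 1) + 1 + 1,
    fun k h0 h1 b hM hO hPb => ?_⟩
  have hk0 : (0 : ℝ) < k := by exact_mod_cast h0
  have hk1 : (k : ℝ) < 1 := by exact_mod_cast h1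
  have hT : 0 < -(1 / 2) * Real.log k := by
    have := Real.log_neg hk0 hk1
    linarith
  set T : ℝ := -(1 / 2) * Real.log k with hTdef
  obtain ⟨l, hl⟩ := exists_l (c := (k : ℝ)) (d := K') hk0 (s := 1 / 2) (by norm_num) (-(1 / 2))
  have hl1 : ∀ x ∈ Set.Icc (k : ℝ) K', -(1 / 2) * Real.log x - 1 ≤ l.eval x := by
    intro x hx
    have := abs_le.mp (hl x hx)
    linarith [this.1]
  have hl2 : ∀ x ∈ Set.Icc (k : ℝ) K', l.eval x ≤ -(1 / 2) * Real.log x := by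
    intro x hx
    have := abs_le.mp (hl x hx)
    linarith [this.2]
  have hj := jensen hP h0 h1 hO hPb A B hK1 (bdO_aL h0 h1 hO A B) l hl1
  rw [dm_WG hP A B] at hj
  have e1 := (tendsto_trace_poly (aL b k A B) l).eventually_const_lt
    (sub_one_lt (tr (Polynomial.aeval (oG (aL b k A B)) l)).re)
  have e2 : ∀ᶠ M in sf G, (Module.finrank ℚ (kX M B) : ℝ) / sz M
      < dm (kr (oG B)) + 1 / T :=
    (lueck B).eventually_lt_const (lt_add_of_pos_right _ (by positivity))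
  filter_upwards [e1, e2] with M h3 h4
  have hs : 0 < sz M := sz_pos M
  rw [lt_div_iff₀ hs] at h3
  rw [div_lt_iff₀ hs] at h4
  have h5 := deg_UX_ge (M := M) h0 (hM M) hA hB
  have h6 := logdet_ge hk0 (bd_aL M h0 h1 (hM M) A B) l hl2
  have h7 : T * (Module.finrank ℚ (kX M B) : ℝ) ≤ (T * dm (kr (oG B)) + 1) * sz M := by
    have h8 : T * (Module.finrank ℚ (kX M B) : ℝ) ≤ T * ((dm (kr (oG B)) + 1 / T) * sz M) :=
      mul_le_mul_of_nonneg_left h4.le hT.le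
    have h9 : T * ((dm (kr (oG B)) + 1 / T) * sz M) = (T * dm (kr (oG B)) + 1) * sz M := by
      field_simp
    linarith
  have h10 : (T * (dm (P ⊓ UG A B) + dm (kr (oG B)))
      - (1 / 2 + (Fintype.card ι + Fintype.card ι') * (1 / 2 * Real.log K' + 1))) * sz M
      ≤ (tr (Polynomial.aeval (oG (aL b k A B)) l)).re * sz M :=
    mul_le_mul_of_nonneg_right hj hs.le
  rw [← hTdef] at h5
  have key : ∀ x y c S t u dd e f : ℝ, (t - 1) * S < u → u ≤ dd → dd - f ≤ e →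
      f ≤ (T * y + 1) * S → (T * (x + y) - c) * S ≤ t * S →
      (T * x - (c + 1 + 1)) * S ≤ e := by
    intro x y c S t u dd e f g1 g2 g3 g4 g5
    have g6 : (T * (x + y) - c) * S = (T * x - (c + 1 + 1)) * S + (T * y + 1) * S + S := by ring
    have g7 : (t - 1) * S = t * S - S := by ring
    linarith
  exact key _ _ _ _ _ _ _ _ _ h3 ((Lwr_inst _ _ _ _).le.trans h6) h5 h7 h10

theorem deg_lower {P : Submodule ℂ (L2 ι G)} (hP : CI P) {r s : ℕ}
    {A : LQ (Fin r) ι (FreeGroup G)} {B : LQ (Fin r) (Fin s) (FreeGroup G)} (hA : Intg A)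
    (hB : Intg B) :
    ∃ C : ℝ, ∀ (k : ℚ), 0 < k → k < 1 → ∀ b : LQ ι ι (FreeGroup G),
      (∀ M : Mod G, Bd (k : ℝ) 1 (mR M b)) → BdO (k : ℝ) 1 (oG b) →
      (tr (pj P ∘L (oG b - (k : ℂ) • (1 : L2 ι G →L[ℂ] L2 ι G)))).re ≤ k →
        ∀ᶠ M in sf G, (-(1 / 2) * Real.log k * dm (P ⊓ UG A B) - C) * sz M
          ≤ AHL.deg (mR M b) (UX M A B) :=
  Lwr_gen hP hA hB

end Pool.Agent.AH
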