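import Pool.Agent.AH.AppY
import Pool.Agent.AH.PolyF
import Pool.Agent.AH.Sym
import Pool.Agent.AH.AlgL

set_option autoImplicit false
set_option linter.unusedSectionVars false

noncomputable section

open scoped InnerProductSpace ENNReal Topology Matrix
open Classical Filter ContinuousLinearMap

/-!
PACKAGE AH-MET. The metric.

Let `T = -(1/2) log k > 0`, `n = card ι`. Choose `θ ∈ (0,1)` and `δ > 0` with
`(sqrt (dm P) + δ)^2 / (1-θ)^2 ≤ dm P + ε` and `(2/θ)^2 δ^2 ≤ k/2`; `y` from `exists_y`,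
`K = n1 y`, `σ` with `σ n ≤ k/2`, `f` from `exists_f`, `b = nz (pol f y)` (`nz` removes the terms
with coefficient zero, so `b` is local: `LocL.nz_pol`; matrices and operators do not change).
(1) `-K ≤ mR M y ≤ K` (`bd_mR`), `mR M b = aeval (mR M y) f`, so `Bd k 1 (mR M b)` by `poly_psd` for
`f - k` and `1 - f`. Similarly `BdO k 1 (oG b)` with `norm_oG_le` and `op_poly_nonneg`.
(2) Let `l ≤ -(1/2) log + 1` on `[k, 1]`. `aeval (oG b) l = aeval (oG y) (l.comp f)` and on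
`[-K, K]`: `l (f x) ≤ -(1/2) log (f x) + 1 ≤ T ((1-x)/(1-θ))^2 + 2`. By `op_poly_nonneg` applied to
the vectors `dl (i, 1)`: `Re tr (aeval (oG b) l) ≤ T/(1-θ)^2 * Re tr ((1 - oG y)^2) + 2 n`, and
`Re tr ((1 - oG y)^2) = hs (1 - oG y) ≤ (sqrt (hs (pj P)) + sqrt (hs (1 - pj P - oG y)))^2
≤ (sqrt (dm P) + δ)^2`.
(3) `tr (pj P (b - k)) = tr (pj P (b - k) pj P)`, and with `v = pj P (dl (i,1))`:
`Re ⟨v, (b - k) v⟩ ≤ σ ‖v‖^2 + (2/θ)^2 ‖y v‖^2`; `∑ ‖v‖^2 ≤ n` and
`∑ ‖oG y v‖^2 = hs (oG y ∘ pj P) = hs ((oG y - (1 - pj P)) ∘ pj P) ≤ δ^2` (`hs_proj_le`).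
Sum: `≤ σ n + (2/θ)^2 δ^2 ≤ k`.
-/

namespace Pool.Agent.AH

open Pool.Agent.VN Pool.Agent.LFT

variable {ι : Type} [Fintype ι] {G D : Type} [Group G] [MulAction G D]

/-- the choice of the constants -/
private lemma met_const {m ε k : ℝ} (hm : 0 ≤ m) (hε : 0 < ε) (hk : 0 < k) :
    ∃ θ : ℝ, 0 < θ ∧ θ < 1 ∧ ∃ δ : ℝ, 0 < δ ∧
      (Real.sqrt m + δ) ^ 2 ≤ (m + ε) * (1 - θ) ^ 2 ∧ (2 / θ) ^ 2 * δ ^ 2 ≤ k / 2 := by
  have h1 : Tendsto (fun t : ℝ => (m + ε) * (1 - t) ^ 2 - (Real.sqrt m + t) ^ 2) (𝓝 0)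
      (𝓝 ((m + ε) * (1 - 0) ^ 2 - (Real.sqrt m + 0) ^ 2)) := by
    apply Continuous.tendsto
    fun_prop
  have h2 : (m + ε) * (1 - 0) ^ 2 - (Real.sqrt m + 0) ^ 2 = ε := by
    rw [add_zero, Real.sq_sqrt hm]; ring
  rw [h2] at h1
  have h3 : ∀ᶠ t : ℝ in 𝓝 0, 0 < (m + ε) * (1 - t) ^ 2 - (Real.sqrt m + t) ^ 2 :=
    h1.eventually (lt_mem_nhds hε)
  have h4 : ∀ᶠ t : ℝ in 𝓝[>] (0 : ℝ), 0 < (m + ε) * (1 - t) ^ 2 - (Real.sqrt m + t) ^ 2 :=
    h3.filter_mono nhdsWithin_le_nhds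
  have h5 : ∀ᶠ t : ℝ in 𝓝[>] (0 : ℝ), t ∈ Set.Ioo (0 : ℝ) 1 := Ioo_mem_nhdsGT one_pos
  obtain ⟨θ, hθ, hθ0, hθ1⟩ := (h4.and h5).exists
  refine ⟨θ, hθ0, hθ1, min θ (θ * Real.sqrt (k / 8)), ?_, ?_, ?_⟩
  · exact lt_min hθ0 (mul_pos hθ0 (Real.sqrt_pos.mpr (by positivity)))
  · have h6 : min θ (θ * Real.sqrt (k / 8)) ≤ θ := min_le_left _ _
    have h7 : 0 ≤ min θ (θ * Real.sqrt (k / 8)) := le_min hθ0.le (by positivity)
    have h8 := Real.sqrt_nonneg m
    have h9 : (Real.sqrt m + min θ (θ * Real.sqrt (k / 8))) ^ 2 ≤ (Real.sqrt m + θ) ^ 2 :=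
      pow_le_pow_left₀ (by positivity) (by linarith) 2
    linarith
  · have h6 : min θ (θ * Real.sqrt (k / 8)) ≤ θ * Real.sqrt (k / 8) := min_le_right _ _
    have h7 : 0 ≤ min θ (θ * Real.sqrt (k / 8)) := le_min hθ0.le (by positivity)
    have h8 : (min θ (θ * Real.sqrt (k / 8))) ^ 2 ≤ (θ * Real.sqrt (k / 8)) ^ 2 :=
      pow_le_pow_left₀ h7 h6 2
    have h9 : (θ * Real.sqrt (k / 8)) ^ 2 = θ ^ 2 * (k / 8) := by
      rw [mul_pow, Real.sq_sqrt (by positivity)]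
    rw [h9] at h8
    have h10 : (2 / θ) ^ 2 * (min θ (θ * Real.sqrt (k / 8))) ^ 2
        ≤ (2 / θ) ^ 2 * (θ ^ 2 * (k / 8)) := mul_le_mul_of_nonneg_left h8 (by positivity)
    refine h10.trans (le_of_eq ?_)
    field_simp
    ring

/-- the trace of a polynomial and the values of the polynomial -/
private lemma met_tr_le {S : L2 ι G →L[ℂ] L2 ι G} {c e : ℝ} (hS : BdO c e S)
    (p q : Polynomial ℝ) (h : ∀ x ∈ Set.Icc c e, p.eval x ≤ q.eval x) :
    (tr (Polynomial.aeval S p)).re ≤ (tr (Polynomial.aeval S q)).re := by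
  unfold tr
  rw [Complex.re_sum, Complex.re_sum]
  refine Finset.sum_le_sum fun i _ => ?_
  have h1 : 0 ≤ (⟪(dl (i, (1 : G)) : L2 ι G), (Polynomial.aeval S (q - p) : L2 ι G →L[ℂ] L2 ι G)
      (dl (i, (1 : G)))⟫_ℂ).re := op_poly_nonneg hS.sym hS.lo hS.hi (q - p) (fun t ht => by
    rw [Polynomial.eval_sub]; linarith [h t ht]) (dl (i, (1 : G)))
  have h2 : (Polynomial.aeval S (q - p) : L2 ι G →L[ℂ] L2 ι G) (dl (i, (1 : G)))
      = (Polynomial.aeval S q : L2 ι G →L[ℂ] L2 ι G) (dl (i, (1 : G)))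
        - (Polynomial.aeval S p : L2 ι G →L[ℂ] L2 ι G) (dl (i, (1 : G))) := by
    rw [map_sub]; rfl
  rw [h2, inner_sub_right, Complex.sub_re] at h1
  linarith

private lemma met_inner_C (S : L2 ι G →L[ℂ] L2 ι G) (c : ℝ) (x : L2 ι G) :
    (⟪x, (Polynomial.aeval S (Polynomial.C c) : L2 ι G →L[ℂ] L2 ι G) x⟫_ℂ).re = c * ‖x‖ ^ 2 := by
  rw [Polynomial.aeval_C]
  have h1 : (algebraMap ℝ (L2 ι G →L[ℂ] L2 ι G) c) x = (c : ℂ) • x := rfl
  rw [h1, inner_smul_right, inner_self_eq_norm_sq_to_K, Complex.re_ofReal_mul]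
  norm_cast

private lemma met_inner_sub (S : L2 ι G →L[ℂ] L2 ι G) (p q : Polynomial ℝ) (x : L2 ι G) :
    (⟪x, (Polynomial.aeval S (p - q) : L2 ι G →L[ℂ] L2 ι G) x⟫_ℂ).re
      = (⟪x, (Polynomial.aeval S p : L2 ι G →L[ℂ] L2 ι G) x⟫_ℂ).re
        - (⟪x, (Polynomial.aeval S q : L2 ι G →L[ℂ] L2 ι G) x⟫_ℂ).re := by
  rw [map_sub]
  show (⟪x, (Polynomial.aeval S p : L2 ι G →L[ℂ] L2 ι G) x
    - (Polynomial.aeval S q : L2 ι G →L[ℂ] L2 ι G) x⟫_ℂ).re = _
  rw [inner_sub_right, Complex.sub_re]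

private lemma met_sa {S : L2 ι G →L[ℂ] L2 ι G} (hS : IsSelfAdjoint S) (p : Polynomial ℝ) :
    IsSelfAdjoint (Polynomial.aeval S p : L2 ι G →L[ℂ] L2 ι G) := by
  rw [Polynomial.aeval_eq_sum_range]
  refine isSelfAdjoint_sum _ fun n _ => ?_
  have h1 : (p.coeff n • S ^ n : L2 ι G →L[ℂ] L2 ι G) = ((p.coeff n : ℝ) : ℂ) • S ^ n := rfl
  rw [h1]
  exact IsSelfAdjoint.smul (Complex.conj_ofReal _) (hS.pow n)

theorem exists_metric (d : ι → D) {P : Submodule ℂ (L2 ι G)} (hP : CI P) (hl : Loc (pV d) P)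
    (hr : Realv P) {ε : ℝ} (hε : 0 < ε) {k : ℚ} (h0 : 0 < k) (h1 : k < 1) :
    ∃ b : LQ ι ι (FreeGroup G), LocL d d b ∧ (∀ M : Mod G, Bd (k : ℝ) 1 (mR M b)) ∧
      BdO (k : ℝ) 1 (oG b) ∧
      (∀ l : Polynomial ℝ, (∀ x ∈ Set.Icc (k : ℝ) 1, l.eval x ≤ -(1 / 2) * Real.log x + 1) →
        (tr (Polynomial.aeval (oG b) l)).re
          ≤ -(1 / 2) * Real.log k * (dm P + ε) + 2 * Fintype.card ι) ∧
      (tr (pj P ∘L (oG b - (k : ℂ) • (1 : L2 ι G →L[ℂ] L2 ι G)))).re ≤ k := by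
  have hk0 : (0 : ℝ) < (k : ℝ) := by exact_mod_cast h0
  have hk1 : (k : ℝ) < 1 := by exact_mod_cast h1
  have hdm : 0 ≤ dm P := vdim_nonneg P
  obtain ⟨θ, hθ0, hθ1, δ, hδ, hA, hB⟩ := met_const hdm hε hk0
  obtain ⟨y, hyl, hyM, hysa, hy⟩ := exists_y d hP hl hr hδ
  obtain ⟨n, hn⟩ : ∃ n : ℝ, n = Fintype.card ι := ⟨_, rfl⟩
  have hn0 : 0 ≤ n := by rw [hn]; exact Nat.cast_nonneg _
  have hσ : 0 < (k : ℝ) / (2 * (n + 1)) := by positivity
  obtain ⟨f, hf⟩ := exists_f h0 h1 hθ0 hθ1 (n1 y : ℝ) hσ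
  obtain ⟨F, hF⟩ : ∃ F : Polynomial ℝ, F = f.map (algebraMap ℚ ℝ) := ⟨_, rfl⟩
  rw [← hF] at hf
  have hmR : ∀ M : Mod G, mR M (nz (pol f y)) = Polynomial.aeval (mR M y) F := by
    intro M
    unfold mR at *
    rw [mX_nz]
    have := mR_pol M f y
    rw [hF]
    exact this
  have hoG : oG (nz (pol f y)) = Polynomial.aeval (oG (G := G) y) F := by
    rw [oG_nz, oG_pol, hF]
  have hyO : BdO (-(n1 y : ℝ)) (n1 y : ℝ) (oG (G := G) y) := by
    have h : ∀ x : L2 ι G, |(⟪x, oG y x⟫_ℂ).re| ≤ (n1 y : ℝ) * ‖x‖ ^ 2 := by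
      intro x
      have h1 : |(⟪x, oG y x⟫_ℂ).re| ≤ ‖⟪x, oG y x⟫_ℂ‖ := Complex.abs_re_le_norm _
      have h2 := norm_inner_le_norm (𝕜 := ℂ) x (oG y x)
      have h3 : ‖oG y x‖ ≤ (n1 y : ℝ) * ‖x‖ := (oG y).le_of_opNorm_le (norm_oG_le y) x
      have h4 := norm_nonneg x
      nlinarith
    refine ⟨hysa, fun x => ?_, fun x => ?_⟩
    · have := (abs_le.mp (h x)).1
      linarith
    · exact (abs_le.mp (h x)).2
  refine ⟨nz (pol f y), hyl.nz_pol f, ?_, ?_, ?_, ?_⟩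
  · intro M
    have hb := bd_mR M y (hyM M)
    rw [hmR]
    constructor
    · have h2 := poly_psd hb (F - Polynomial.C (k : ℝ)) (fun x hx => by
        rw [Polynomial.eval_sub, Polynomial.eval_C]
        linarith [(hf x hx).1])
      rw [map_sub, Polynomial.aeval_C, Algebra.algebraMap_eq_smul_one] at h2
      exact h2
    · have h2 := poly_psd hb (Polynomial.C (1 : ℝ) - F) (fun x hx => by
        rw [Polynomial.eval_sub, Polynomial.eval_C]
        linarith [(hf x hx).2.1])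
      rw [map_sub, Polynomial.aeval_C, Algebra.algebraMap_eq_smul_one] at h2
      exact h2
  · rw [hoG]
    have hgen : ∀ (p : Polynomial ℝ), (∀ x ∈ Set.Icc (-(n1 y : ℝ)) (n1 y : ℝ), 0 ≤ p.eval x) →
        ∀ x : L2 ι G, 0 ≤ (⟪x, (Polynomial.aeval (oG y) p : L2 ι G →L[ℂ] L2 ι G) x⟫_ℂ).re :=
      fun p hp x => op_poly_nonneg hyO.sym hyO.lo hyO.hi p hp x
    refine ⟨met_sa hyO.sym F, ?_, ?_⟩
    · intro x
      have h2 := hgen (F - Polynomial.C (k : ℝ)) (fun x hx => by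
        rw [Polynomial.eval_sub, Polynomial.eval_C]
        linarith [(hf x hx).1]) x
      rw [met_inner_sub, met_inner_C] at h2
      linarith
    · intro x
      have h2 := hgen (Polynomial.C (1 : ℝ) - F) (fun x hx => by
        rw [Polynomial.eval_sub, Polynomial.eval_C]
        linarith [(hf x hx).2.1]) x
      rw [met_inner_sub, met_inner_C] at h2
      linarith
  · -- the trace of the polynomials below the logarithm
    intro l hlog
    rw [hoG]
    have e1 : Polynomial.aeval (Polynomial.aeval (oG (G := G) y) F) l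
        = Polynomial.aeval (oG (G := G) y) (l.comp F) := by
      rw [Polynomial.aeval_comp]
    rw [e1]
    set T0 : ℝ := -(1 / 2) * Real.log k with hT0
    have hT : 0 < T0 := by
      have := Real.log_neg hk0 hk1
      rw [hT0]; linarith
    set q : Polynomial ℝ := Polynomial.C (T0 / (1 - θ) ^ 2) * (Polynomial.C 1 - Polynomial.X) ^ 2
      + Polynomial.C 2 with hq
    have hθ2 : 0 < (1 - θ) ^ 2 := pow_pos (by linarith) 2
    have h2 := met_tr_le hyO (l.comp F) q (fun x hx => by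
      rw [Polynomial.eval_comp]
      have h3 := hf x hx
      have h4 := hlog (F.eval x) ⟨h3.1, h3.2.1⟩
      have h5 := h3.2.2.2
      rw [hq]
      simp only [Polynomial.eval_add, Polynomial.eval_mul, Polynomial.eval_C, Polynomial.eval_pow,
        Polynomial.eval_sub, Polynomial.eval_X]
      have h6 : T0 / (1 - θ) ^ 2 * (1 - x) ^ 2 = T0 * ((1 - x) / (1 - θ)) ^ 2 := by
        rw [div_pow]; ring
      rw [h6]
      linarith)
    refine h2.trans ?_
    -- the trace of `q`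
    have h3 : (tr (Polynomial.aeval (oG (G := G) y) q)).re
        = T0 / (1 - θ) ^ 2 * hs (1 - oG (G := G) y) + 2 * n := by
      have e2 : (Polynomial.aeval (oG (G := G) y) q : L2 ι G →L[ℂ] L2 ι G)
          = ((T0 / (1 - θ) ^ 2 : ℝ) : ℂ) • (adjoint (1 - oG (G := G) y) ∘L (1 - oG (G := G) y))
            + (2 : ℂ) • (1 : L2 ι G →L[ℂ] L2 ι G) := by
        have e3 : adjoint (1 - oG (G := G) y) = (1 - oG (G := G) y : L2 ι G →L[ℂ] L2 ι G) := by
          have : IsSelfAdjoint (1 - oG (G := G) y : L2 ι G →L[ℂ] L2 ι G) :=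
            (IsSelfAdjoint.one _).sub hysa
          exact this
        rw [e3, hq, map_add, map_mul, map_pow, map_sub, Polynomial.aeval_C, Polynomial.aeval_C,
          Polynomial.aeval_C, Polynomial.aeval_X, map_one, sq]
        ext x q
        simp only [Algebra.algebraMap_eq_smul_one]
        rfl
      rw [e2, tr_add, tr_smul, tr_smul, tr_one, Complex.add_re, Complex.re_ofReal_mul, ← hs_eq_tr, hn]
      congr 1
      simp
    rw [h3]
    have h4 : Real.sqrt (hs (1 - oG (G := G) y)) ≤ Real.sqrt (dm P) + δ := by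
      have h5 : (1 - oG (G := G) y : L2 ι G →L[ℂ] L2 ι G) = pj P + -(oG y - (1 - pj P)) := by abel
      rw [h5]
      refine (sqrt_hs_add_le _ _).trans ?_
      rw [hs_pj hP]
      have h6 : hs (-(oG (G := G) y - (1 - pj P))) = hs (oG (G := G) y - (1 - pj P)) := by
        unfold hs
        refine Finset.sum_congr rfl fun i _ => ?_
        have : (-(oG (G := G) y - (1 - pj P))) (dl (i, (1 : G)))
            = -((oG (G := G) y - (1 - pj P)) (dl (i, (1 : G)))) := rfl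
        rw [this, norm_neg]
      rw [h6]
      have h7 : Real.sqrt (hs (oG (G := G) y - (1 - pj P))) ≤ δ := by
        rw [Real.sqrt_le_left hδ.le]
        exact hy
      linarith
    have h5 : hs (1 - oG (G := G) y) ≤ (dm P + ε) * (1 - θ) ^ 2 := by
      have h6 := pow_le_pow_left₀ (Real.sqrt_nonneg _) h4 2
      rw [Real.sq_sqrt (hs_nonneg _)] at h6
      exact h6.trans hA
    have h6 : T0 / (1 - θ) ^ 2 * hs (1 - oG (G := G) y) ≤ T0 * (dm P + ε) := by
      calc T0 / (1 - θ) ^ 2 * hs (1 - oG (G := G) y)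
          ≤ T0 / (1 - θ) ^ 2 * ((dm P + ε) * (1 - θ) ^ 2) :=
            mul_le_mul_of_nonneg_left h5 (by positivity)
        _ = T0 * (dm P + ε) := by
            have h8 : (1 - θ) ^ 2 ≠ 0 := hθ2.ne'
            rw [div_mul_eq_mul_div, mul_comm (dm P + ε), ← mul_assoc, mul_div_right_comm,
              mul_div_assoc, div_self h8, mul_one]
    rw [← hn]
    linarith
  · -- the trace on `P`
    rw [hoG]
    set S : L2 ι G →L[ℂ] L2 ι G := oG y with hS
    have hSe : Equivar S := oG_equivar y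
    set B : L2 ι G →L[ℂ] L2 ι G := Polynomial.aeval S F - (k : ℂ) • (1 : L2 ι G →L[ℂ] L2 ι G) with hB'
    have hBe : Equivar B := by
      have h2 : Equivar (Polynomial.aeval S F : L2 ι G →L[ℂ] L2 ι G) := by
        rw [← hoG]; exact oG_equivar _
      exact h2.sub (Equivar.one.smul _)
    have hBp : (Polynomial.aeval S (F - Polynomial.C (k : ℝ)) : L2 ι G →L[ℂ] L2 ι G) = B := by
      rw [map_sub, Polynomial.aeval_C, hB']
      congr 1
    have hPe := pj_equivar hP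
    -- cyclicity
    have h2 : tr (pj P ∘L B) = ∑ i : ι, ⟪pj P (dl (i, (1 : G))), B (pj P (dl (i, (1 : G))))⟫_ℂ := by
      have h3 : tr (pj P ∘L B) = tr ((pj P ∘L B) ∘L pj P) := by
        conv_lhs => rw [← pj_idem P, ContinuousLinearMap.comp_assoc]
        rw [tr_comm hPe (hPe.comp hBe)]
      rw [h3]
      unfold tr
      refine Finset.sum_congr rfl fun i _ => ?_
      have h4 := (pj_sa P).adjoint_eq
      calc ⟪dl (i, (1 : G)), pj P (B (pj P (dl (i, (1 : G)))))⟫_ℂ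
          = ⟪dl (i, (1 : G)), adjoint (pj P) (B (pj P (dl (i, (1 : G)))))⟫_ℂ := by rw [h4]
        _ = _ := adjoint_inner_right _ _ _
    rw [h2, Complex.re_sum]
    set σ : ℝ := (k : ℝ) / (2 * (n + 1)) with hσd
    have h3 : ∀ i : ι, (⟪pj P (dl (i, (1 : G))), B (pj P (dl (i, (1 : G))))⟫_ℂ).re
        ≤ σ + (2 / θ) ^ 2 * ‖(S ∘L pj P) (dl (i, (1 : G)))‖ ^ 2 := by
      intro i
      set v := pj P (dl (i, (1 : G))) with hv
      have h4 : 0 ≤ (⟪v, (Polynomial.aeval S (Polynomial.C σ + Polynomial.C ((2 / θ) ^ 2) *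
          Polynomial.X ^ 2 - (F - Polynomial.C (k : ℝ))) : L2 ι G →L[ℂ] L2 ι G) v⟫_ℂ).re :=
        op_poly_nonneg hyO.sym hyO.lo hyO.hi _ (fun t ht => by
          have := (hf t ht).2.2.1
          simp only [Polynomial.eval_sub, Polynomial.eval_add, Polynomial.eval_mul,
            Polynomial.eval_C, Polynomial.eval_pow, Polynomial.eval_X]
          linarith) v
      rw [met_inner_sub, hBp] at h4
      have h5 : ∀ c2 : ℝ, (⟪v, (Polynomial.aeval S (Polynomial.C σ + Polynomial.C c2 *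
          Polynomial.X ^ 2) : L2 ι G →L[ℂ] L2 ι G) v⟫_ℂ).re
          = σ * ‖v‖ ^ 2 + c2 * ‖S v‖ ^ 2 := by
        intro c2
        have e4 : (Polynomial.aeval S (Polynomial.C σ + Polynomial.C c2 *
          Polynomial.X ^ 2) : L2 ι G →L[ℂ] L2 ι G) v = (σ : ℂ) • v + (c2 : ℂ) • S (S v) := by
          rw [map_add, map_mul, map_pow, Polynomial.aeval_C, Polynomial.aeval_C,
            Polynomial.aeval_X, sq S]
          rfl
        have e5 : ⟪v, S (S v)⟫_ℂ = ⟪S v, S v⟫_ℂ := by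
          have h6 := hysa.adjoint_eq
          calc ⟪v, S (S v)⟫_ℂ = ⟪v, adjoint S (S v)⟫_ℂ := by rw [h6]
            _ = _ := adjoint_inner_right _ _ _
        rw [e4, inner_add_right, inner_smul_right, inner_smul_right, e5,
          inner_self_eq_norm_sq_to_K, inner_self_eq_norm_sq_to_K, Complex.add_re,
          Complex.re_ofReal_mul, Complex.re_ofReal_mul]
        norm_cast
      rw [h5] at h4
      have h6 : ‖v‖ ≤ 1 := by
        have := norm_pj_le P (dl (i, (1 : G)))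
        rwa [norm_dl] at this
      have h7 : ‖v‖ ^ 2 ≤ 1 := pow_le_one₀ (norm_nonneg _) h6
      have h8 : (S ∘L pj P) (dl (i, (1 : G))) = S v := rfl
      rw [h8]
      nlinarith
    refine (Finset.sum_le_sum fun i _ => h3 i).trans ?_
    rw [Finset.sum_add_distrib, ← Finset.mul_sum, Finset.sum_const, Finset.card_univ, nsmul_eq_mul,
      ← hn]
    have h4 : ∑ i : ι, ‖(S ∘L pj P) (dl (i, (1 : G)))‖ ^ 2 ≤ δ ^ 2 := by
      have h5 : S ∘L pj P = (S - (1 - pj P)) ∘L pj P := by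
        ext x q
        have h6 : (1 - pj P : L2 ι G →L[ℂ] L2 ι G) (pj P x) = 0 := by
          have h7 : pj P (pj P x) = pj P x := by
            have := pj_idem P
            exact congrArg (fun T => T x) this
          show pj P x - pj P (pj P x) = 0
          rw [h7, sub_self]
        show (S (pj P x)) q = (S (pj P x) - (1 - pj P : L2 ι G →L[ℂ] L2 ι G) (pj P x)) q
        rw [h6, sub_zero]
      have h8 : Equivar (S - (1 - pj P)) := hSe.sub (Equivar.one.sub hPe)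
      have h9 := hs_proj_le h8 hP
      rw [← h5] at h9
      exact h9.trans hy
    have h5 : n * σ ≤ (k : ℝ) / 2 := by
      rw [hσd, ← mul_div_assoc, div_le_div_iff₀ (by positivity) (by norm_num)]
      nlinarith
    have h6 : (2 / θ) ^ 2 * ∑ i : ι, ‖(S ∘L pj P) (dl (i, (1 : G)))‖ ^ 2 ≤ (k : ℝ) / 2 :=
      (mul_le_mul_of_nonneg_left h4 (by positivity)).trans hB
    linarith

end Pool.Agent.AH
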