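import Pool.Agent.AH.Upp
import Pool.Agent.AH.Lwr
import Pool.Agent.AH.Met

set_option autoImplicit false
set_option linter.unusedSectionVars false

noncomputable section

open scoped InnerProductSpace ENNReal Topology Matrix
open Classical Filter ContinuousLinearMap

/-!
PACKAGE AH-MI. The main inequality.

Let `U1 = UG A1 B1`, `U2 = UG A2 B2` (`exists_UG`), `C1`, `C2` from `deg_lower`, `n = card ι`,
`Δ = dm (P ⊓ U1) + dm (P ⊓ U2) - dm P ≤ 2 n`. If `Δ ≤ ε` take `S = ⊥`. Otherwise choose a rational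
`k ∈ (0,1)` with `T = -(1/2) log k` large (`(3/4) ε T > C + 2 n`, `C` below), `m = ⌊T⌋₊ + 1`,
`l` with `|l x + (1/2) log x| ≤ 1` on `[k, 1]` (`exists_l`), `b` from `exists_metric` with `ε/4`,
`S j` from `deg_upper`. For a good model `M` (`hG.exists`): adding `deg_lower` and `deg_upper` for
`U1` and `U2` and dividing by `sz M > 0`:
`T (dm (P ⊓ U1) + dm (P ⊓ U2)) - C1 - C2 ≤ ∑ j < m, (dm (U1 ⊓ S j) + dm (U2 ⊓ S j)) + 6 n + 10`.
Subtract `∑ dm (S j) ≤ Λ + 2 n + 3 ≤ T (dm P + ε/4) + 4 n + 3`: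
`T (Δ - ε/4) - C ≤ ∑ j < m, (dm (U1 ⊓ S j) + dm (U2 ⊓ S j) - dm (S j))`,
`C = C1 + C2 + 10 n + 13`. If every term were `< Δ - ε` then the sum would be
`≤ m (Δ - ε) ≤ (T + 1) (Δ - ε)`, so `(3/4) ε T < C + Δ - ε`, a contradiction.
-/

namespace Pool.Agent.AH

open Pool.Agent.VN Pool.Agent.LFT

variable {ι : Type} [Fintype ι] {G D : Type} [Group G] [MulAction G D]

/-- the choice of `k` -/
private theorem mI_rat {ε : ℝ} (hε : 0 < ε) (C : ℝ) :
    ∃ k : ℚ, 0 < k ∧ k < 1 ∧ C < 3 / 4 * ε * (-(1 / 2) * Real.log (k : ℝ)) := by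
  obtain ⟨k, hk0, hk⟩ := exists_rat_btwn (Real.exp_pos (-(2 * max (C * (4 / 3) / ε) 0)))
  have hk0' : (0 : ℚ) < k := by exact_mod_cast hk0
  have h1 : Real.log (k : ℝ) < -(2 * max (C * (4 / 3) / ε) 0) := by
    have := Real.log_lt_log hk0 hk
    rwa [Real.log_exp] at this
  refine ⟨k, hk0', ?_, ?_⟩
  · have h2 : Real.exp (-(2 * max (C * (4 / 3) / ε) 0)) ≤ 1 := by
      rw [Real.exp_le_one_iff]
      have := le_max_right (C * (4 / 3) / ε) 0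
      linarith
    exact_mod_cast hk.trans_le h2
  · have h3 : C * (4 / 3) / ε < -(1 / 2) * Real.log (k : ℝ) := by
      have := le_max_left (C * (4 / 3) / ε) 0
      linarith
    rw [div_lt_iff₀ hε] at h3
    nlinarith

theorem main_ineq (hG : (sf G).NeBot) (d : ι → D)
    (hD : ∀ i, Amn (MulAction.stabilizer G (d i))) {P U1 U2 : Submodule ℂ (L2 ι G)} (hP : CI P)
    (hl : Loc (pV d) P) (hr : Realv P) (hU1 : Rat Qc (fun _ : ι => ()) U1)
    (hU2 : Rat Qc (fun _ : ι => ()) U2) {ε : ℝ} (hε : 0 < ε) :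
    ∃ S, Rat Qc d S ∧ dm (P ⊓ U1) + dm (P ⊓ U2) - dm P - ε
      ≤ dm (U1 ⊓ S) + dm (U2 ⊓ S) - dm S := by
  by_cases hΔ : dm (P ⊓ U1) + dm (P ⊓ U2) - dm P ≤ ε
  · refine ⟨⊥, Rat.bot d, ?_⟩
    rw [inf_bot_eq, inf_bot_eq, dm_bot]
    linarith
  push Not at hΔ
  obtain ⟨r1, s1, A1, B1, hA1, hB1, rfl⟩ := exists_UG hU1
  obtain ⟨r2, s2, A2, B2, hA2, hB2, rfl⟩ := exists_UG hU2
  obtain ⟨C1, hC1⟩ := deg_lower hP hA1 hB1
  obtain ⟨C2, hC2⟩ := deg_lower hP hA2 hB2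
  have hn1 : dm (P ⊓ UG A1 B1) ≤ Fintype.card ι := dm_le_card _
  have hn2 : dm (P ⊓ UG A2 B2) ≤ Fintype.card ι := dm_le_card _
  have hn0 : 0 ≤ dm P := dm_nonneg P
  obtain ⟨k, hk0, hk1⟩ := mI_rat (ε := ε) hε (C1 + C2 + 10 * Fintype.card ι + 13 +
    2 * Fintype.card ι)
  obtain ⟨hk1, hk2⟩ := hk1
  obtain ⟨l, hll⟩ := exists_l (c := (k : ℝ)) (d := 1) (by exact_mod_cast hk0) one_pos 0
  have hl' : ∀ x ∈ Set.Icc (k : ℝ) 1, |l.eval x - -(1 / 2) * Real.log x| ≤ 1 := by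
    intro x hx
    have := hll x hx
    rwa [add_zero] at this
  obtain ⟨b, hb, hbM, hbO, hbl, hbt⟩ := exists_metric d hP hl hr (ε := ε / 4) (by linarith) hk0 hk1
  have hm : -(1 / 2) * Real.log k < ((⌊-(1 / 2) * Real.log k⌋₊ + 1 : ℕ) : ℝ) := by
    push_cast
    exact Nat.lt_floor_add_one _
  obtain ⟨S, hS, hS1, hS2⟩ := deg_upper hG d hD hb hk0 hk1 hbM hbO l hl' _ hm
  have hlog : Real.log (k : ℝ) < 0 := Real.log_neg (by exact_mod_cast hk0) (by exact_mod_cast hk1)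
  have hm2 : ((⌊-(1 / 2) * Real.log k⌋₊ + 1 : ℕ) : ℝ) ≤ -(1 / 2) * Real.log k + 1 := by
    push_cast
    have := Nat.floor_le (a := -(1 / 2) * Real.log (k : ℝ)) (by linarith)
    linarith
  have htr := hbl l (fun x hx => by
    have := (abs_le.1 (hl' x hx)).2
    linarith)
  obtain ⟨M, hM⟩ := ((((hC1 k hk0 hk1 b hbM hbO hbt).and (hC2 k hk0 hk1 b hbM hbO hbt)).and
    (hS2 r1 s1 A1 B1)).and (hS2 r2 s2 A2 B2)).exists
  obtain ⟨⟨⟨h1, h2⟩, h3⟩, h4⟩ := hM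
  have hsz : 0 < sz M := by
    unfold sz
    exact_mod_cast Fintype.card_pos
  have h5 := le_of_mul_le_mul_right (h1.trans h3) hsz
  have h6 := le_of_mul_le_mul_right (h2.trans h4) hsz
  by_contra hcon
  push Not at hcon
  generalize hT : -(1 / 2) * Real.log (k : ℝ) = T at *
  generalize hmm : ⌊T⌋₊ + 1 = m at *
  have h7 : ∑ j ∈ Finset.range m, (dm (UG A1 B1 ⊓ S j) + dm (UG A2 B2 ⊓ S j) - dm (S j)) ≤
      ∑ j ∈ Finset.range m, (dm (P ⊓ UG A1 B1) + dm (P ⊓ UG A2 B2) - dm P - ε) :=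
    Finset.sum_le_sum fun j _ => (hcon (S j) (hS j)).le
  rw [Finset.sum_sub_distrib, Finset.sum_add_distrib, Finset.sum_const, Finset.card_range,
    nsmul_eq_mul] at h7
  generalize ∑ j ∈ Finset.range m, dm (UG A1 B1 ⊓ S j) = X1 at *
  generalize ∑ j ∈ Finset.range m, dm (UG A2 B2 ⊓ S j) = X2 at *
  generalize ∑ j ∈ Finset.range m, dm (S j) = X3 at *
  generalize dm (P ⊓ UG A1 B1) = a1 at *
  generalize dm (P ⊓ UG A2 B2) = a2 at *
  generalize dm P = a3 at *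
  generalize (tr (Polynomial.aeval (oG b) l)).re = Λ at *
  generalize (m : ℝ) = mr at *
  generalize ((Fintype.card ι : ℕ) : ℝ) = n at *
  have h8 : mr * (a1 + a2 - a3 - ε) ≤ (T + 1) * (a1 + a2 - a3 - ε) :=
    mul_le_mul_of_nonneg_right hm2 (by linarith)
  nlinarith

end Pool.Agent.AH
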