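import Pool.Agent.AH.AlgG
import Pool.Agent.AH.AlgX

set_option autoImplicit false
set_option linter.unusedSectionVars false

noncomputable section

open scoped InnerProductSpace ENNReal Topology Matrix
open Classical Filter ContinuousLinearMap

/-!
PACKAGE AH-TR. Traces on models.

`tendsto_trace`: `trace (mX M L) = ∑ t ∈ L, [t.row = t.col] t.c * |{x | t.word • x = x}|`. If the
finite set `F` contains all words of `L` then every point outside `bad M F` satisfies
`w • x = x ↔ pw G w = 1`, so the number of fixed points of `w` differs from `[pw G w = 1] sz M` by at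
most `|bad M F| ≤ δ sz M`. Compare with `tr_oG`; `|difference| ≤ n1 L * δ`.
`tendsto_trace_poly`: linearity: `aeval A l = ∑ l.coeff n • A ^ n`, `mR_pwL`, `oG_pwL`.
-/

namespace Pool.Agent.AH

open Pool.Agent.VN Pool.Agent.LFT

open Matrix

variable {ι : Type} [Fintype ι] {G : Type} [Group G]

lemma Tr_sz_pos (M : Mod G) : 0 < sz M := by
  unfold sz
  exact_mod_cast Fintype.card_pos

lemma Tr_fix (w : FreeGroup G) :
    Tendsto (fun M : Mod G => ((Finset.univ.filter fun x : M.X => w • x = x).card : ℝ) / sz M)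
      (sf G) (𝓝 (if pw G w = 1 then 1 else 0)) := by
  rw [Metric.tendsto_nhds]
  intro ε hε
  refine ⟨{w}, ε / 2, by positivity, fun M hM => ?_⟩
  have hs := Tr_sz_pos M
  show dist _ _ < ε
  rw [Real.dist_eq]
  by_cases hw : pw G w = 1
  · rw [if_pos hw]
    have h1 : (Finset.univ.filter fun x : M.X => ¬ w • x = x) ⊆ bad M {w} := by
      intro x hx
      simp only [Finset.mem_filter, Finset.mem_univ, true_and] at hx
      simp only [bad, Finset.mem_filter, Finset.mem_univ, true_and]
      exact ⟨w, Finset.mem_singleton_self w, fun h => hx (h.2 hw)⟩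
    have h2 : ((Finset.univ.filter fun x : M.X => ¬ w • x = x).card : ℝ) ≤ ε / 2 * sz M :=
      le_trans (by exact_mod_cast Finset.card_le_card h1) hM
    have h3 : ((Finset.univ.filter fun x : M.X => w • x = x).card : ℝ) +
        ((Finset.univ.filter fun x : M.X => ¬ w • x = x).card : ℝ) = sz M := by
      unfold sz
      rw [← Finset.card_univ]
      exact_mod_cast Finset.card_filter_add_card_filter_not _
    have h4 : ((Finset.univ.filter fun x : M.X => w • x = x).card : ℝ) / sz M - 1 =
        -(((Finset.univ.filter fun x : M.X => ¬ w • x = x).card : ℝ) / sz M) := by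
      rw [eq_neg_iff_add_eq_zero, sub_add_eq_add_sub, ← add_div, h3, div_self hs.ne', sub_self]
    rw [h4, abs_neg, abs_of_nonneg (by positivity), div_lt_iff₀ hs]
    nlinarith
  · rw [if_neg hw]
    have h1 : (Finset.univ.filter fun x : M.X => w • x = x) ⊆ bad M {w} := by
      intro x hx
      simp only [Finset.mem_filter, Finset.mem_univ, true_and] at hx
      simp only [bad, Finset.mem_filter, Finset.mem_univ, true_and]
      exact ⟨w, Finset.mem_singleton_self w, fun h => hw (h.1 hx)⟩
    have h2 : ((Finset.univ.filter fun x : M.X => w • x = x).card : ℝ) ≤ ε / 2 * sz M :=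
      le_trans (by exact_mod_cast Finset.card_le_card h1) hM
    rw [sub_zero, abs_of_nonneg (by positivity), div_lt_iff₀ hs]
    nlinarith

lemma Tr_term (M : Mod G) (t : ℚ × ι × ι × FreeGroup G) :
    ((eX M t).map fun x => (x : ℝ)).trace = (if t.2.1 = t.2.2.1 then (t.1 : ℝ) else 0) *
      ((Finset.univ.filter fun x : M.X => t.2.2.2 • x = x).card : ℝ) := by
  rw [Matrix.trace, Fintype.sum_prod_type]
  have h1 : ∀ (i : ι) (x : M.X), ((eX M t).map fun x => (x : ℝ)).diag (i, x) =
      if i = t.2.1 then (if t.2.1 = t.2.2.1 then (t.1 : ℝ) else 0) *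
        (if t.2.2.2 • x = x then 1 else 0) else 0 := by
    intro i x
    simp only [Matrix.diag_apply, Matrix.map_apply, eX]
    by_cases h1 : i = t.2.1
    · subst h1
      by_cases h2 : t.2.1 = t.2.2.1
      · by_cases h3 : t.2.2.2 • x = x
        · rw [if_pos ⟨rfl, h2, h3.symm⟩, if_pos rfl, if_pos h2, if_pos h3, mul_one]
        · rw [if_neg (fun h => h3 h.2.2.symm), if_pos rfl, if_neg h3, mul_zero, Rat.cast_zero]
      · rw [if_neg (fun h => h2 h.2.1), if_pos rfl, if_neg h2, zero_mul, Rat.cast_zero]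
    · rw [if_neg (fun h => h1 h.1), if_neg h1, Rat.cast_zero]
  simp only [h1]
  rw [Finset.sum_eq_single t.2.1]
  · simp only [if_true]
    rw [← Finset.mul_sum, Finset.sum_boole]
  · intro i _ hi
    simp [hi]
  · intro h
    exact absurd (Finset.mem_univ _) h

theorem tendsto_trace (L : LQ ι ι (FreeGroup G)) :
    Tendsto (fun M : Mod G => (mR M L).trace / sz M) (sf G) (𝓝 (tr (oG L)).re) := by
  rw [tr_oG]
  have hre : ∀ q : ℚ, ((q : ℂ)).re = (q : ℝ) := fun q => by
    have h3 : (q : ℂ) = (((q : ℚ) : ℝ) : ℂ) := by push_cast; rfl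
    rw [h3, Complex.ofReal_re]
  rw [hre]
  induction L with
  | nil =>
    have h0 : ∀ M : Mod G, (mR M ([] : LQ ι ι (FreeGroup G))).trace / sz M = 0 := by
      intro M
      have : mR M ([] : LQ ι ι (FreeGroup G)) = 0 := by ext q p; simp [mR, mX]
      rw [this, Matrix.trace_zero, zero_div]
    simp only [h0, List.map_nil, List.sum_nil, Rat.cast_zero]
    exact tendsto_const_nhds
  | cons t L ih =>
    have h1 : ∀ M : Mod G, (mR M (t :: L)).trace / sz M =
        (if t.2.1 = t.2.2.1 then (t.1 : ℝ) else 0) *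
          (((Finset.univ.filter fun x : M.X => t.2.2.2 • x = x).card : ℝ) / sz M) +
          (mR M L).trace / sz M := by
      intro M
      have h2 : mR M (t :: L) = ((eX M t).map fun x => (x : ℝ)) + mR M L := by
        unfold mR
        rw [mX_cons]
        ext q p
        simp
      rw [h2, Matrix.trace_add, Tr_term, add_div, mul_div_assoc]
    simp only [h1]
    have h2 := ((Tr_fix t.2.2.2).const_mul (if t.2.1 = t.2.2.1 then (t.1 : ℝ) else 0)).add ih
    have h3 : ((((t :: L).map fun t => if t.2.1 = t.2.2.1 ∧ pw G t.2.2.2 = 1 then t.1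
        else 0).sum : ℚ) : ℝ) = (if t.2.1 = t.2.2.1 then (t.1 : ℝ) else 0) *
          (if pw G t.2.2.2 = 1 then 1 else 0) +
        (((L.map fun t => if t.2.1 = t.2.2.1 ∧ pw G t.2.2.2 = 1 then t.1 else 0).sum : ℚ) : ℝ) := by
      rw [List.map_cons, List.sum_cons, Rat.cast_add]
      congr 1
      by_cases h4 : t.2.1 = t.2.2.1
      · by_cases h5 : pw G t.2.2.2 = 1
        · rw [if_pos ⟨h4, h5⟩, if_pos h4, if_pos h5, mul_one]
        · rw [if_neg (fun h => h5 h.2), if_neg h5, mul_zero, Rat.cast_zero]
      · rw [if_neg (fun h => h4 h.1), if_neg h4, zero_mul, Rat.cast_zero]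
    rw [h3]
    exact h2

lemma Tr_sum {σ : Type} (s : Finset σ) (c : σ → ℝ) (T : σ → (L2 ι G →L[ℂ] L2 ι G)) :
    (tr (∑ n ∈ s, c n • T n)).re = ∑ n ∈ s, c n * (tr (T n)).re := by
  induction s using Finset.induction_on with
  | empty =>
    rw [Finset.sum_empty, Finset.sum_empty]
    simp [tr]
  | insert a s ha ih =>
    rw [Finset.sum_insert ha, Finset.sum_insert ha, ← ih]
    have h1 : ∀ (A B : L2 ι G →L[ℂ] L2 ι G) (r : ℝ),
        (tr (r • A + B)).re = r * (tr A).re + (tr B).re := by
      intro A B r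
      have h2 : ∀ x : L2 ι G, (r • A + B) x = (r : ℂ) • A x + B x := fun x => rfl
      unfold tr
      simp only [h2, inner_add_right, inner_smul_right]
      rw [Finset.sum_add_distrib, Complex.add_re, ← Finset.mul_sum, Complex.re_ofReal_mul]
    exact h1 _ _ _

theorem tendsto_trace_poly (L : LQ ι ι (FreeGroup G)) (l : Polynomial ℝ) :
    Tendsto (fun M : Mod G => (Polynomial.aeval (mR M L) l).trace / sz M) (sf G)
      (𝓝 (tr (Polynomial.aeval (oG L) l)).re) := by
  have h1 : ∀ M : Mod G, (Polynomial.aeval (mR M L) l).trace / sz M =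
      ∑ n ∈ Finset.range (l.natDegree + 1), l.coeff n * ((mR M (pwL L n)).trace / sz M) := by
    intro M
    rw [Polynomial.aeval_eq_sum_range, Matrix.trace_sum, Finset.sum_div]
    refine Finset.sum_congr rfl fun n _ => ?_
    rw [Matrix.trace_smul, mR_pwL, smul_eq_mul, mul_div_assoc]
  simp only [h1]
  rw [Polynomial.aeval_eq_sum_range, Tr_sum]
  refine tendsto_finsetSum _ fun n _ => ?_
  refine Tendsto.const_mul _ ?_
  rw [← oG_pwL]
  exact tendsto_trace (pwL L n)

end Pool.Agent.AH
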