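import Pool.Agent.AH.WDefs
import Pool.Agent.AH.AlgX

set_option autoImplicit false
set_option linter.unusedSectionVars false

noncomputable section

open scoped InnerProductSpace ENNReal Topology Matrix
open Classical Filter ContinuousLinearMap

/-!
PACKAGE AH-WEMB. The copy of a window at a good point of a model.

`F` = all the words `of h * t.w * (of g)⁻¹` and `of h * (of g)⁻¹` for `(j, g)`, `(i, h)` in `I` and
`t ∈ b`. For `p ∉ bad M F`: `w • p = p ↔ pw G w = 1` for all `w ∈ F`. The entry of `mX M b` at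
`(j, (of g)⁻¹ • p)`, `(i, (of h)⁻¹ • p)` is the sum of `t.c` over all `t ∈ b` with `t.row = j`,
`t.col = i` and `(of h)⁻¹ • p = t.w • (of g)⁻¹ • p`, that is `(of h * t.w * (of g)⁻¹) • p = p`, that is
`h * pw t.w * g⁻¹ = 1`, that is `h = g * (pw t.w)⁻¹` (`pw_of`), the condition in `gX`. Injectivity:
the words `of h * (of g)⁻¹`.
-/

namespace Pool.Agent.AH

open Pool.Agent.VN Pool.Agent.LFT

open Matrix

variable {ι : Type} [Fintype ι] {G : Type} [Group G]

theorem exists_words (b : LQ ι ι (FreeGroup G)) (I : Finset (ι × G)) :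
    ∃ F : Finset (FreeGroup G), ∀ (M : Mod G) (p : M.X), p ∉ bad M F →
      Function.Injective (jp M I p) ∧
        (mR M b).submatrix (jp M I p) (jp M I p) = bI b I := by
  refine ⟨((I ×ˢ I).image fun x => FreeGroup.of x.2.2 * (FreeGroup.of x.1.2)⁻¹) ∪
    (((I ×ˢ I) ×ˢ b.toFinset).image fun x =>
      FreeGroup.of x.1.2.2 * x.2.2.2.2 * (FreeGroup.of x.1.1.2)⁻¹), fun M p hp => ?_⟩
  have hgood : ∀ w ∈ ((I ×ˢ I).image fun x => FreeGroup.of x.2.2 * (FreeGroup.of x.1.2)⁻¹) ∪
    (((I ×ˢ I) ×ˢ b.toFinset).image fun x =>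
      FreeGroup.of x.1.2.2 * x.2.2.2.2 * (FreeGroup.of x.1.1.2)⁻¹),
      (w • p = p ↔ pw G w = 1) := by
    intro w hw
    by_contra hcon
    apply hp
    unfold bad
    rw [Finset.mem_filter]
    exact ⟨Finset.mem_univ _, w, hw, hcon⟩
  have hof : ∀ g : G, pw G (FreeGroup.of g) = g := fun g => FreeGroup.lift_apply_of
  constructor
  · intro q q' hqq
    have h1 : q.1.1 = q'.1.1 := (Prod.ext_iff.1 hqq).1
    have h2 : (FreeGroup.of q.1.2)⁻¹ • p = (FreeGroup.of q'.1.2)⁻¹ • p := (Prod.ext_iff.1 hqq).2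
    have h3 : (FreeGroup.of q'.1.2 * (FreeGroup.of q.1.2)⁻¹) • p = p := by
      rw [mul_smul, h2, smul_inv_smul]
    have h4 := (hgood (FreeGroup.of q'.1.2 * (FreeGroup.of q.1.2)⁻¹)
      (Finset.mem_union_left _ (Finset.mem_image.2
        ⟨(q.1, q'.1), Finset.mk_mem_product q.2 q'.2, rfl⟩))).1 h3
    rw [map_mul, map_inv, hof, hof, mul_inv_eq_one] at h4
    exact Subtype.ext (Prod.ext h1 h4.symm)
  · ext q q'
    show ((mX M b (jp M I p q) (jp M I p q') : ℚ) : ℝ) = ((gX b q.1 q'.1 : ℚ) : ℝ)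
    congr 1
    unfold mX gX
    congr 1
    refine List.map_congr_left fun t ht => ?_
    refine if_congr ?_ rfl rfl
    refine and_congr Iff.rfl (and_congr Iff.rfl ?_)
    have h1 := hgood (FreeGroup.of q'.1.2 * t.2.2.2 * (FreeGroup.of q.1.2)⁻¹)
      (Finset.mem_union_right _ (Finset.mem_image.2
        ⟨((q.1, q'.1), t), Finset.mk_mem_product (Finset.mk_mem_product q.2 q'.2)
          (List.mem_toFinset.2 ht), rfl⟩))
    have h2 : (jp M I p q').2 = t.2.2.2 • (jp M I p q).2 ↔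
        (FreeGroup.of q'.1.2 * t.2.2.2 * (FreeGroup.of q.1.2)⁻¹) • p = p := by
      show (FreeGroup.of q'.1.2)⁻¹ • p = t.2.2.2 • (FreeGroup.of q.1.2)⁻¹ • p ↔ _
      rw [mul_smul, mul_smul, inv_smul_eq_iff]
      exact eq_comm
    rw [h2, h1, map_mul, map_mul, map_inv, hof, hof, mul_inv_eq_one]
    constructor
    · intro h
      rw [← h]
      group
    · intro h
      rw [h]
      group

end Pool.Agent.AH
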