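import Pool.Agent.AH.WNL
import Pool.Agent.AH.WEmb
import Pool.Agent.AH.XD

set_option autoImplicit false
set_option linter.unusedSectionVars false

noncomputable section

open scoped InnerProductSpace ENNReal Topology Matrix
open Classical Filter ContinuousLinearMap

/-!
PACKAGE AH-WUP. The copies of the windows in a model are contained in the canonical filtration.

Let `F` contain the words of `exists_words b (I a)` for all `a`, and let `|bad M F| ≤ δ sz M` with
`δ p ≤ ε`. For `x ∉ bad M F` and `a`: `w (a, x) = ext0 (jp M (I a) x) (r a)` is in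
`slope (mR M b) t`, by `AHL.slope_map` (`bI b (I a)` is the submatrix), and it is the column
`(a, x)` of the matrix `mX M (NL v)` (`mX_NL_mulVec`, `ext0_jp`). Let `Σ` be the span of these
`w (a, x)`. It is contained in `slope` and in the range `rX M (NL v)`, and the range is the sum of
`Σ` and the span of the at most `p * |bad M F|` other columns, so
`finrank (rX M (NL v)) ≤ finrank Σ + p |bad M F|`.
-/

namespace Pool.Agent.AH

open Pool.Agent.VN Pool.Agent.LFT

open Matrix

variable {ι : Type} [Fintype ι] {G : Type} [Group G]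

private lemma WUp_posDef {J : Type} [Fintype J] [DecidableEq J] {c d : ℝ} {b : Matrix J J ℝ}
    (hc : 0 < c) (h : Bd c d b) : b.PosDef := by
  have h1 : (c • (1 : Matrix J J ℝ)).PosDef := Matrix.PosDef.one.smul hc
  have h2 := h1.add_posSemidef h.lo
  simpa using h2

lemma WUp_inst {α : Type} (d1 d2 : DecidableEq α) (a : α) (c : ℚ) :
    @Pi.single α (fun _ => ℚ) _ d1 a c = @Pi.single α (fun _ => ℚ) _ d2 a c := by
  obtain rfl : d1 = d2 := Subsingleton.elim _ _
  rfl

theorem windows_up {b : LQ ι ι (FreeGroup G)} {k : ℚ} (h0 : 0 < k)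
    (hM : ∀ M : Mod G, Bd (k : ℝ) 1 (mR M b)) (t : ℝ) {p : ℕ} (I : Fin p → Finset (ι × G))
    (r : ∀ a : Fin p, I a → ℚ) (hr : ∀ a, r a ∈ AHL.slope (bI b (I a)) t) {ε : ℝ} (hε : 0 < ε) :
    ∀ᶠ M in sf G, ∃ V : Submodule ℚ (ι × M.X → ℚ), V ≤ AHL.slope (mR M b) t ∧
      V ≤ rX M (NL fun a => exF (I a) (r a)) ∧
      (Module.finrank ℚ (rX M (NL fun a => exF (I a) (r a))) : ℝ) - ε * sz M
        ≤ Module.finrank ℚ V := by
  choose F hF using fun a => exists_words b (I a)
  have hp : (0 : ℝ) < p + 1 := by positivity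
  refine ⟨Finset.univ.biUnion F, ε / (p + 1), div_pos hε hp, fun M hb => ?_⟩
  obtain ⟨W, hW⟩ : ∃ W : Finset (FreeGroup G), W = Finset.univ.biUnion F := ⟨_, rfl⟩
  rw [← hW] at hb
  obtain ⟨N, hN⟩ : ∃ N : Matrix (ι × M.X) (Fin p × M.X) ℚ,
      N = mX M (NL fun a => exF (I a) (r a)) := ⟨_, rfl⟩
  have hrX : rX M (NL fun a => exF (I a) (r a)) = LinearMap.range N.mulVecLin := by
    rw [hN]
    rfl
  have hgood : ∀ (a : Fin p) (x : M.X), x ∉ bad M W →
      N.mulVec (Pi.single (a, x) 1) ∈ AHL.slope (mR M b) t := by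
    intro a x hx
    have hx' : x ∉ bad M (F a) := by
      intro h
      apply hx
      simp only [bad, Finset.mem_filter, Finset.mem_univ, true_and] at h ⊢
      obtain ⟨w, hw, h2⟩ := h
      exact ⟨w, by rw [hW]; exact Finset.mem_biUnion.2 ⟨a, Finset.mem_univ a, hw⟩, h2⟩
    obtain ⟨h1, h2⟩ := hF a M x hx'
    have h4 : N.mulVec (Pi.single (a, x) 1) = AHL.ext0 (jp M (I a) x) (r a) := by
      rw [hN, ext0_jp M (I a) x h1 (r a)]
      exact (congrArg (fun v => Matrix.mulVec _ v) (WUp_inst _ _ _ _)).trans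
        (mX_NL_mulVec M (fun a => exF (I a) (r a)) a x)
    rw [h4]
    have h3 := AHL.slope_map (WUp_posDef (by exact_mod_cast h0) (hM M)) (ratMat_mR M b)
      (jp M (I a) x) h1 t
    rw [h2] at h3
    exact h3 (Submodule.mem_map_of_mem (hr a))
  obtain ⟨V, hV⟩ : ∃ V : Submodule ℚ (ι × M.X → ℚ), V = Submodule.span ℚ
      ((fun y : Fin p × M.X => N.mulVec (Pi.single y 1)) '' {y | y.2 ∉ bad M W}) := ⟨_, rfl⟩
  obtain ⟨V', hV'⟩ : ∃ V' : Submodule ℚ (ι × M.X → ℚ), V' = Submodule.span ℚ
      (((Finset.univ ×ˢ bad M W).image fun y : Fin p × M.X => N.mulVec (Pi.single y 1) :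
        Finset (ι × M.X → ℚ)) : Set (ι × M.X → ℚ)) := ⟨_, rfl⟩
  refine ⟨V, ?_, ?_, ?_⟩
  · rw [hV, Submodule.span_le]
    rintro _ ⟨⟨a, x⟩, hx, rfl⟩
    exact hgood a x hx
  · rw [hV, Submodule.span_le, hrX]
    rintro _ ⟨y, -, rfl⟩
    exact ⟨Pi.single y 1, rfl⟩
  · have h1 : LinearMap.range N.mulVecLin ≤ V ⊔ V' := by
      rw [Matrix.range_mulVecLin, Submodule.span_le]
      rintro _ ⟨⟨a, x⟩, rfl⟩
      have e : N.col (a, x) = N.mulVec (Pi.single (a, x) 1) := (N.mulVec_single_one (a, x)).symm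
      rw [e]
      by_cases hx : x ∈ bad M W
      · apply Submodule.mem_sup_right
        rw [hV']
        apply Submodule.subset_span
        rw [Finset.mem_coe]
        exact Finset.mem_image_of_mem _ (Finset.mem_product.2 ⟨Finset.mem_univ a, hx⟩)
      · apply Submodule.mem_sup_left
        rw [hV]
        exact Submodule.subset_span ⟨(a, x), hx, rfl⟩
    have h2 := Submodule.finrank_mono h1
    have h3 := Submodule.finrank_add_le_finrank_add_finrank V V'
    have h4 : Module.finrank ℚ V' ≤ p * (bad M W).card := by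
      rw [hV']
      refine (finrank_span_finset_le_card _).trans (Finset.card_image_le.trans ?_)
      rw [Finset.card_product, Finset.card_univ, Fintype.card_fin]
    have h5 : (Module.finrank ℚ (LinearMap.range N.mulVecLin) : ℝ) ≤
        Module.finrank ℚ V + p * (bad M W).card := by
      exact_mod_cast (h2.trans h3).trans (Nat.add_le_add_left h4 _)
    have hs : 0 ≤ sz M := Nat.cast_nonneg _
    have h6 : (p : ℝ) * (bad M W).card ≤ ε * sz M := by
      have h7 : (p : ℝ) * (bad M W).card ≤ p * (ε / (p + 1) * sz M) :=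
        mul_le_mul_of_nonneg_left hb (Nat.cast_nonneg _)
      refine h7.trans ?_
      have h8 : (p : ℝ) * (ε / (p + 1) * sz M) = ε * sz M * (p / (p + 1)) := by
        field_simp
      rw [h8]
      have h9 : (p : ℝ) / (p + 1) ≤ 1 := by
        rw [div_le_one hp]
        linarith
      exact mul_le_of_le_one_right (mul_nonneg hε.le hs) h9
    rw [hrX]
    linarith

end Pool.Agent.AH
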