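import Pool.Agent.AH.WLow
import Pool.Agent.AH.WUp
import Pool.Agent.AH.Lueck
import Pool.Agent.AH.GD

set_option autoImplicit false
set_option linter.unusedSectionVars false

noncomputable section

open scoped InnerProductSpace ENNReal Topology Matrix
open Classical Filter ContinuousLinearMap

/-!
PACKAGE AH-UPP. Upper bound for the degree of a rational subspace of a model.

Let `n = card ι`, `T = -(1/2) log k < m`, `Λ = Re tr (aeval (oG b) l)`, `N j`, `S j` from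
`windows_low`, `Γ j = slope (mR M b) j`. For all good models `M` (eventually along `sf G`):
(1) `trace (aeval (mR M b) l) ≤ (Λ + 1) sz M` (`tendsto_trace_poly`), so
`-(1/2) log det (mR M b) ≤ (Λ + 1 + n) sz M` (`logdet_le` / `log_le_trace` for `l + 1`; the trace of
the identity is `n sz M`). By `AHL.sum_le_deg` (`s = 1`):
`∑ j < m, finrank (Γ (j+1)) ≤ (Λ + 1 + n) sz M`, and `finrank (Γ 0) ≤ n sz M`, so
`∑ j < m, finrank (Γ j) ≤ (Λ + 1 + 2 n) sz M`.
(2) For `j < m`: `V j` from `windows_up` with `ε = 1/(m+1)`, and by `lueck` and `dm_imc_top`,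
`finrank_rX`: `finrank (rX M (N j)) ≥ (dm (S j) - 1/(m+1)) sz M`. So
`finrank (V j) ≥ (dm (S j) - 2/(m+1)) sz M`, and `V j ≤ Γ j`. Hence
`∑ j < m, dm (S j) ≤ Λ + 2 n + 3`: the second claim (divide by `sz M > 0` for some good model; here
`sf G` has to be non-trivial), and
`∑ j < m, (finrank (Γ j) - finrank (V j)) ≤ (Λ + 1 + 2 n + 2 - ∑ dm (S j)) sz M ≤ (3 n + 4) sz M`.
(3) Let `U = UX M A B`. `AHL.deg_le_sum`: `deg U ≤ ∑ j < m, finrank (U ⊓ Γ j)`, and
`finrank (U ⊓ Γ j) ≤ finrank (U ⊓ V j) + finrank (Γ j) - finrank (V j)` (as `V j ≤ Γ j`: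
`finrank_sup_add_finrank_inf_eq` for `U ⊓ Γ j` and `V j`), and
`finrank (U ⊓ V j) ≤ finrank (U ⊓ rX M (N j)) ≤ (dm (UG A B ⊓ S j) + 1/(m+1)) sz M` by
`finrank_UX_inf`, `dm_inf_ge` and `lueck` for the three lists `row2 (cmp A (N j)) B`, `N j`, `B`
(each within `1/(3(m+1))`). So `deg U ≤ (∑ j < m, dm (UG A B ⊓ S j) + 1 + 3 n + 4) sz M`.
-/

namespace Pool.Agent.AH

open Pool.Agent.VN Pool.Agent.LFT

open Matrix

variable {ι : Type} [Fintype ι] {G D : Type} [Group G] [MulAction G D]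

lemma Upp_sz_pos (M : Mod G) : 0 < sz M := by
  unfold sz
  exact_mod_cast Fintype.card_pos

lemma Upp_lueck {κ ν : Type} [Fintype κ] [Fintype ν] (L : LQ κ ν (FreeGroup G)) {ε : ℝ}
    (hε : 0 < ε) : ∀ᶠ M in sf G,
      |(Module.finrank ℚ (kX M L) : ℝ) - dm (kr (oG L)) * sz M| ≤ ε * sz M := by
  have h := lueck L
  rw [Metric.tendsto_nhds] at h
  filter_upwards [h ε hε] with M hM
  have hsz := Upp_sz_pos M
  rw [Real.dist_eq] at hM
  have e : (Module.finrank ℚ (kX M L) : ℝ) - dm (kr (oG L)) * sz M =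
      ((Module.finrank ℚ (kX M L) : ℝ) / sz M - dm (kr (oG L))) * sz M := by
    field_simp
  rw [e, abs_mul, abs_of_pos hsz]
  exact mul_le_mul_of_nonneg_right hM.le hsz.le

lemma Upp_slopes {b : LQ ι ι (FreeGroup G)} {k : ℚ} (h0 : 0 < k)
    (hM : ∀ M : Mod G, Bd (k : ℝ) 1 (mR M b)) (l : Polynomial ℝ)
    (hl : ∀ x ∈ Set.Icc (k : ℝ) 1, |l.eval x - -(1 / 2) * Real.log x| ≤ 1) (m : ℕ) :
    ∀ᶠ M in sf G, ∑ j ∈ Finset.range m,
      (Module.finrank ℚ (AHL.slope (mR M b) (j : ℝ)) : ℝ) ≤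
        ((tr (Polynomial.aeval (oG b) l)).re + 1 + 2 * Fintype.card ι) * sz M := by
  have hk0 : (0 : ℝ) < k := by exact_mod_cast h0
  have h2 := (tendsto_trace_poly b l).eventually
    (gt_mem_nhds (show (tr (Polynomial.aeval (oG b) l)).re <
      (tr (Polynomial.aeval (oG b) l)).re + 1 by linarith))
  filter_upwards [h2] with M h3
  have hsz := Upp_sz_pos M
  rw [div_lt_iff₀ hsz] at h3
  have hcard : (Fintype.card (ι × M.X) : ℝ) = Fintype.card ι * sz M := by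
    simp [sz]
  have h4 := logdet_le hk0 (hM M) (l + 1) (fun x hx => by
    rw [Polynomial.eval_add, Polynomial.eval_one]
    have := (abs_le.1 (hl x hx)).1
    linarith)
  rw [map_add, map_one, Matrix.trace_add, Matrix.trace_one, hcard] at h4
  have h1 : ((1 : Matrix (ι × M.X) (ι × M.X) ℝ) - mR M b).PosSemidef := by
    have := (hM M).hi
    rwa [one_smul] at this
  have h5 : ∑ j ∈ Finset.range m,
      (Module.finrank ℚ (AHL.slope (mR M b) ((j + 1 : ℕ) : ℝ)) : ℝ) ≤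
      -(1 / 2) * Real.log (mR M b).det := by
    refine le_trans (le_of_eq ?_)
      (AHL.sum_le_deg ((hM M).posDef hk0) (ratMat_mR M b) h1 (s := 1) m)
    exact Finset.sum_congr rfl fun i _ => by rw [mul_one, one_mul]
  have h6 : ∑ j ∈ Finset.range m, (Module.finrank ℚ (AHL.slope (mR M b) (j : ℝ)) : ℝ) ≤
      ∑ j ∈ Finset.range m, (Module.finrank ℚ (AHL.slope (mR M b) ((j + 1 : ℕ) : ℝ)) : ℝ) +
        (Module.finrank ℚ (AHL.slope (mR M b) ((0 : ℕ) : ℝ)) : ℝ) := by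
    rw [← Finset.sum_range_succ'
      (fun j : ℕ => (Module.finrank ℚ (AHL.slope (mR M b) (j : ℝ)) : ℝ)) m,
      Finset.sum_range_succ]
    have : (0 : ℝ) ≤ (Module.finrank ℚ (AHL.slope (mR M b) (m : ℝ)) : ℝ) := Nat.cast_nonneg _
    linarith
  have h7 : (Module.finrank ℚ (AHL.slope (mR M b) ((0 : ℕ) : ℝ)) : ℝ) ≤
      Fintype.card ι * sz M := by
    rw [← hcard]
    have := Submodule.finrank_le (AHL.slope (mR M b) ((0 : ℕ) : ℝ))
    rw [Module.finrank_fintype_fun_eq_card] at this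
    exact_mod_cast this
  linarith

/-- the ranges of the lists contain large subspaces of the canonical filtration -/
lemma Upp_V {b : LQ ι ι (FreeGroup G)} {k : ℚ} (h0 : 0 < k)
    (hM : ∀ M : Mod G, Bd (k : ℝ) 1 (mR M b)) (t : ℝ) {p : ℕ} (I : Fin p → Finset (ι × G))
    (r : ∀ a : Fin p, I a → ℚ) (hr : ∀ a, r a ∈ AHL.slope (bI b (I a)) t) {ε : ℝ} (hε : 0 < ε) :
    ∀ᶠ M in sf G, ∃ V : Submodule ℚ (ι × M.X → ℚ), V ≤ AHL.slope (mR M b) t ∧
      V ≤ rX M (NL fun a => exF (I a) (r a)) ∧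
      (dm (imc (oG (NL fun a => exF (I a) (r a))) ⊤) - 2 * ε) * sz M ≤ Module.finrank ℚ V := by
  filter_upwards [windows_up h0 hM t I r hr hε,
    Upp_lueck (NL fun a => exF (I a) (r a)) hε] with M ⟨V, h1, h2, h3⟩ h4
  refine ⟨V, h1, h2, ?_⟩
  have h5 := finrank_rX M (NL fun a => exF (I a) (r a))
  have h6 : (Module.finrank ℚ (rX M (NL fun a => exF (I a) (r a))) : ℝ) +
      Module.finrank ℚ (kX M (NL fun a => exF (I a) (r a))) = Fintype.card (Fin p) * sz M := by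
    unfold sz
    exact_mod_cast h5
  have h7 := (abs_le.1 h4).2
  rw [dm_imc_top]
  linarith

lemma Upp_inf {J : Type} [Fintype J] (U Γ V : Submodule ℚ (J → ℚ)) (h : V ≤ Γ) :
    (Module.finrank ℚ (U ⊓ Γ : Submodule ℚ (J → ℚ)) : ℝ) + Module.finrank ℚ V ≤
      Module.finrank ℚ (U ⊓ V : Submodule ℚ (J → ℚ)) + Module.finrank ℚ Γ := by
  have h1 := Submodule.finrank_sup_add_finrank_inf_eq (U ⊓ Γ) V
  have h2 : U ⊓ Γ ⊓ V = U ⊓ V := by
    rw [inf_assoc, inf_eq_right.2 h]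
  have h3 : Module.finrank ℚ (U ⊓ Γ ⊔ V : Submodule ℚ (J → ℚ)) ≤ Module.finrank ℚ Γ :=
    Submodule.finrank_mono (sup_le inf_le_right h)
  rw [h2] at h1
  have h4 : Module.finrank ℚ (U ⊓ Γ : Submodule ℚ (J → ℚ)) + Module.finrank ℚ V ≤
      Module.finrank ℚ (U ⊓ V : Submodule ℚ (J → ℚ)) + Module.finrank ℚ Γ := by omega
  exact_mod_cast h4

lemma Upp_U {p r s : ℕ} (A : LQ (Fin r) ι (FreeGroup G)) (B : LQ (Fin r) (Fin s) (FreeGroup G))
    (N : LQ ι (Fin p) (FreeGroup G)) {ε : ℝ} (hε : 0 < ε) :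
    ∀ᶠ M in sf G, (Module.finrank ℚ (UX M A B ⊓ rX M N : Submodule ℚ (ι × M.X → ℚ)) : ℝ) ≤
      (dm (UG A B ⊓ imc (oG N) ⊤) + ε) * sz M := by
  have h3 : (0 : ℝ) < ε / 3 := by positivity
  filter_upwards [Upp_lueck (row2 (cmp A N) B) h3, Upp_lueck N h3, Upp_lueck B h3] with M a1 a2 a3
  have b1 := (abs_le.1 a1).2
  have b2 := (abs_le.1 a2).1
  have b3 := (abs_le.1 a3).1
  have h4 : (Module.finrank ℚ (UX M A B ⊓ rX M N : Submodule ℚ (ι × M.X → ℚ)) : ℝ) +
      Module.finrank ℚ (kX M N) + Module.finrank ℚ (kX M B) =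
        Module.finrank ℚ (kX M (row2 (cmp A N) B)) := by
    exact_mod_cast finrank_UX_inf M A B N
  have h5 := mul_le_mul_of_nonneg_right (dm_inf_ge A B N) (Upp_sz_pos M).le
  linarith

theorem deg_upper (hG : (sf G).NeBot) (d : ι → D)
    (hD : ∀ i, Amn (MulAction.stabilizer G (d i)))
    {b : LQ ι ι (FreeGroup G)} (hb : LocL d d b) {k : ℚ} (h0 : 0 < k) (h1 : k < 1)
    (hM : ∀ M : Mod G, Bd (k : ℝ) 1 (mR M b)) (hO : BdO (k : ℝ) 1 (oG b)) (l : Polynomial ℝ)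
    (hl : ∀ x ∈ Set.Icc (k : ℝ) 1, |l.eval x - -(1 / 2) * Real.log x| ≤ 1) (m : ℕ)
    (hm : -(1 / 2) * Real.log k < m) :
    ∃ S : ℕ → Submodule ℂ (L2 ι G), (∀ j, Rat Qc d (S j)) ∧
      ∑ j ∈ Finset.range m, dm (S j)
        ≤ (tr (Polynomial.aeval (oG b) l)).re + 2 * Fintype.card ι + 3 ∧
      ∀ (r s : ℕ) (A : LQ (Fin r) ι (FreeGroup G)) (B : LQ (Fin r) (Fin s) (FreeGroup G)),
        ∀ᶠ M in sf G, AHL.deg (mR M b) (UX M A B)
          ≤ (∑ j ∈ Finset.range m, dm (UG A B ⊓ S j) + 3 * Fintype.card ι + 5) * sz M := by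
  have hk0 : (0 : ℝ) < k := by exact_mod_cast h0
  have hl1 : ∀ x ∈ Set.Icc (k : ℝ) 1, l.eval x ≤ -(1 / 2) * Real.log x + 1 := fun x hx => by
    have := (abs_le.1 (hl x hx)).2
    linarith
  obtain ⟨p, I, ρ, hρ, hrat, hlow⟩ := windows_low d hD hb h0 hO l hl1 m hm
  set N : ∀ j, LQ ι (Fin (p j)) (FreeGroup G) := fun j => NL fun a => exF (I j a) (ρ j a) with hN
  set Λ : ℝ := (tr (Polynomial.aeval (oG b) l)).re with hΛ
  set n : ℝ := (Fintype.card ι : ℝ) with hn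
  set ε : ℝ := 1 / ((m : ℝ) + 1) with hε
  have hm0 : (0 : ℝ) ≤ m := Nat.cast_nonneg m
  have hε0 : 0 < ε := by positivity
  have hmε : (m : ℝ) * ε ≤ 1 := by
    rw [hε, mul_one_div, div_le_one (by positivity)]
    linarith
  have E1 := Upp_slopes h0 hM l hl m
  have E2 : ∀ᶠ M in sf G, ∀ j ∈ Finset.range m, ∃ V : Submodule ℚ (ι × M.X → ℚ),
      V ≤ AHL.slope (mR M b) (j : ℝ) ∧ V ≤ rX M (N j) ∧
      (dm (imc (oG (N j)) ⊤) - 2 * ε) * sz M ≤ Module.finrank ℚ V :=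
    (Filter.eventually_all_finset _).2 fun j _ => Upp_V h0 hM (j : ℝ) (I j) (ρ j) (hρ j) hε0
  refine ⟨fun j => imc (oG (N j)) ⊤, hrat, ?_, ?_⟩
  · obtain ⟨M, e1, e2⟩ := (E1.and E2).exists
    have hsz := Upp_sz_pos M
    choose! V v1 v2 v3 using e2
    have h1 : ∑ j ∈ Finset.range m, (dm (imc (oG (N j)) ⊤) - 2 * ε) * sz M ≤
        ∑ j ∈ Finset.range m, (Module.finrank ℚ (AHL.slope (mR M b) (j : ℝ)) : ℝ) := by
      refine Finset.sum_le_sum fun j hj => (v3 j hj).trans ?_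
      exact_mod_cast Submodule.finrank_mono (v1 j hj)
    rw [← Finset.sum_mul, Finset.sum_sub_distrib, Finset.sum_const, Finset.card_range,
      nsmul_eq_mul] at h1
    have h2 := le_of_mul_le_mul_right (h1.trans e1) hsz
    show ∑ j ∈ Finset.range m, dm (imc (oG (N j)) ⊤) ≤ Λ + 2 * n + 3
    linarith
  · intro r s A B
    have E3 : ∀ᶠ M in sf G, ∀ j ∈ Finset.range m,
        (Module.finrank ℚ (UX M A B ⊓ rX M (N j) : Submodule ℚ (ι × M.X → ℚ)) : ℝ) ≤
          (dm (UG A B ⊓ imc (oG (N j)) ⊤) + ε) * sz M :=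
      (Filter.eventually_all_finset _).2 fun j _ => Upp_U A B (N j) hε0
    filter_upwards [E1, E2, E3] with M e1 e2 e3
    have hsz := Upp_sz_pos M
    choose! V v1 v2 v3 using e2
    have h1 : ((1 : Matrix (ι × M.X) (ι × M.X) ℝ) - mR M b).PosSemidef := by
      have := (hM M).hi
      rwa [one_smul] at this
    have hT : (mR M b - Real.exp (-(2 * (-(1 / 2) * Real.log k))) •
        (1 : Matrix (ι × M.X) (ι × M.X) ℝ)).PosSemidef := by
      rw [show -(2 * (-(1 / 2) * Real.log (k : ℝ))) = Real.log k by ring, Real.exp_log hk0]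
      exact (hM M).lo
    have h2 : AHL.deg (mR M b) (UX M A B) ≤ ∑ j ∈ Finset.range m,
        (Module.finrank ℚ (UX M A B ⊓ AHL.slope (mR M b) (j : ℝ) :
          Submodule ℚ (ι × M.X → ℚ)) : ℝ) := by
      refine (AHL.deg_le_sum ((hM M).posDef hk0) (ratMat_mR M b) h1 hT (s := 1) zero_le_one
        (m := m) (by rw [mul_one]; exact hm) (UX M A B)).trans (le_of_eq ?_)
      exact Finset.sum_congr rfl fun i _ => by rw [mul_one, one_mul]
    have h3 : ∀ j ∈ Finset.range m,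
        (Module.finrank ℚ (UX M A B ⊓ AHL.slope (mR M b) (j : ℝ) :
          Submodule ℚ (ι × M.X → ℚ)) : ℝ) ≤
        (dm (UG A B ⊓ imc (oG (N j)) ⊤) + ε) * sz M +
          (Module.finrank ℚ (AHL.slope (mR M b) (j : ℝ)) : ℝ) -
          (dm (imc (oG (N j)) ⊤) - 2 * ε) * sz M := by
      intro j hj
      have a1 := Upp_inf (UX M A B) (AHL.slope (mR M b) (j : ℝ)) (V j) (v1 j hj)
      have a2 : (Module.finrank ℚ (UX M A B ⊓ V j : Submodule ℚ (ι × M.X → ℚ)) : ℝ) ≤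
          Module.finrank ℚ (UX M A B ⊓ rX M (N j) : Submodule ℚ (ι × M.X → ℚ)) := by
        exact_mod_cast Submodule.finrank_mono (inf_le_inf_left _ (v2 j hj))
      have a3 := e3 j hj
      have a4 := v3 j hj
      linarith
    have h4 := h2.trans (Finset.sum_le_sum h3)
    rw [Finset.sum_sub_distrib, Finset.sum_add_distrib, ← Finset.sum_mul, ← Finset.sum_mul,
      Finset.sum_add_distrib, Finset.sum_sub_distrib, Finset.sum_const, Finset.sum_const,
      Finset.card_range, nsmul_eq_mul, nsmul_eq_mul] at h4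
    have h5 := mul_le_mul_of_nonneg_right hlow hsz.le
    have h6 := mul_le_mul_of_nonneg_right hmε hsz.le
    show _ ≤ (∑ j ∈ Finset.range m, dm (UG A B ⊓ imc (oG (N j)) ⊤) + 3 * n + 5) * sz M
    linarith

end Pool.Agent.AH
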