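import Pool.Agent.AH.AlgL

set_option autoImplicit false
set_option linter.unusedSectionVars false

noncomputable section

open scoped InnerProductSpace ENNReal Topology Matrix
open Classical Filter ContinuousLinearMap

/-!
Windows: definitions.
-/

namespace Pool.Agent.AH

open Pool.Agent.VN Pool.Agent.LFT

variable {ι κ : Type} {G : Type} [Group G]

/-- the matrix of a list on a finite set of pairs -/
def bI (b : LQ ι ι (FreeGroup G)) (I : Finset (ι × G)) : Matrix I I ℝ := fun q p =>
  ((gX b q.1 p.1 : ℚ) : ℝ)

/-- the points whose paths of length at most `n` (along the terms of `b`) stay in `I` -/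
def inn (b : LQ ι ι (FreeGroup G)) (I : Finset (ι × G)) : ℕ → Finset (ι × G)
  | 0 => I
  | n + 1 => (inn b I n).filter fun q =>
      ∀ t ∈ b, q.1 = t.2.1 → (t.2.2.1, q.2 * (pw G t.2.2.2)⁻¹) ∈ inn b I n

/-- the list whose columns are given rational vectors with finite support -/
def NL [Fintype κ] (v : κ → (ι × G →₀ ℚ)) : LQ ι κ (FreeGroup G) :=
  (Finset.univ : Finset κ).toList.flatMap fun a =>
    (v a).support.toList.map fun q => (v a q, q.1, a, FreeGroup.of q.2)

/-- a rational function on a finite set of pairs as a vector with finite support -/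
def exF (I : Finset (ι × G)) (r : I → ℚ) : ι × G →₀ ℚ :=
  ∑ q : I, Finsupp.single q.1 (r q)

/-- a rational function on a finite set of pairs as an element of `ℓ²` -/
def exL (I : Finset (ι × G)) (r : I → ℚ) : L2 ι G := ∑ q : I, (r q : ℂ) • dl q.1

/-- the copy of a window in a model -/
def jp (M : Mod G) (I : Finset (ι × G)) (p : M.X) : I → ι × M.X := fun q =>
  (q.1.1, (FreeGroup.of q.1.2)⁻¹ • p)

end Pool.Agent.AH
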