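import Pool.Agent.AH.WDefs

set_option autoImplicit false
set_option linter.unusedSectionVars false

noncomputable section

open scoped InnerProductSpace ENNReal Topology Matrix
open Classical Filter ContinuousLinearMap

/-!
PACKAGE AH-WFOL. Følner windows for a dart `δ` with amenable stabiliser.

Let `J` be the set of all `i` with `d i` in the orbit of `δ`, `s i ∈ G` with `s i • d i = δ` for
`i ∈ J`. For a finite set `F` of the stabiliser `C` of `δ` put
`I = {(i, f * s i) | i ∈ J, f ∈ F}` (for every `i ∈ J` the map `f ↦ (i, f * s i)` is injective).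
`(f * s i) • d i = f • δ = δ`.
For `q = (j, f * s j) ∈ I` and a term `t ∈ b` with `t.row = j`, `t.col = i`: `(pw t.w)⁻¹ • d i = d j`
(`LocL`), so `i ∈ J` and `e = s j * (pw t.w)⁻¹ * (s i)⁻¹` fixes `δ`; the neighbour of `q` is
`(i, f * s j * (pw t.w)⁻¹) = (i, (f * e) * s i)`. Let `E ⊆ C` be the finite set of all these `e` and
`E n` the set of all products of at most `n` elements of `E`. If `f * x ∈ F` for all `x ∈ E n` then
`(j, f * s j) ∈ inn b I n` for all `j ∈ J` (induction on `n`). By Følner's condition for the finite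
set `{x⁻¹ | x ∈ E n}` and `ε' = ε / ((|ι| + 1) (|E n| + 1))` there is a non-empty finite `F'` with
`|{y ∈ F' | x⁻¹ y ∉ F'}| ≤ ε' |F'|`; take `F = {y⁻¹ | y ∈ F'}`, `c = |F|`:
`f x ∉ F` iff `x⁻¹ f⁻¹ ∉ F'`. So at most `|ι| |E n| ε' |F| ≤ ε c` points of `I` are not in
`inn b I n`.
-/

namespace Pool.Agent.AH

open Pool.Agent.VN Pool.Agent.LFT

variable {ι : Type} [Fintype ι] {G D : Type} [Group G] [MulAction G D]

/-- the points of the window -/
def WFol.win {ι : Type} {G : Type} [Group G] {C : Subgroup G} (J : Finset ι) (s : ι → G)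
    (F : Finset C) : Finset (ι × G) :=
  (J ×ˢ F).image fun p => (p.1, (p.2 : G) * s p.1)

theorem WFol.mem_win {ι : Type} {G : Type} [Group G] {C : Subgroup G} {J : Finset ι} {s : ι → G}
    {F : Finset C} {q : ι × G} :
    q ∈ WFol.win J s F ↔ ∃ i ∈ J, ∃ f ∈ F, q = (i, (f : G) * s i) := by
  unfold WFol.win
  simp only [Finset.mem_image, Finset.mem_product, Prod.exists]
  constructor
  · rintro ⟨i, f, ⟨h1, h2⟩, h3⟩
    exact ⟨i, h1, f, h2, h3.symm⟩
  · rintro ⟨i, h1, f, h2, h3⟩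
    exact ⟨i, f, ⟨h1, h2⟩, h3.symm⟩

/-- the products of at most `n` elements of `E` -/
def WFol.pr {C : Type} [Group C] (E : Finset C) : ℕ → Finset C
  | 0 => {1}
  | n + 1 => WFol.pr E n ∪ (E ×ˢ WFol.pr E n).image fun p => p.1 * p.2

theorem WFol.one_mem {C : Type} [Group C] (E : Finset C) : (1 : C) ∈ WFol.pr E 0 :=
  Finset.mem_singleton_self 1

theorem WFol.mem_succ {C : Type} [Group C] {E : Finset C} {n : ℕ} {x : C}
    (hx : x ∈ WFol.pr E n) : x ∈ WFol.pr E (n + 1) := by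
  rw [WFol.pr]
  exact Finset.mem_union_left _ hx

theorem WFol.mul_mem {C : Type} [Group C] {E : Finset C} {n : ℕ} {e x : C} (he : e ∈ E)
    (hx : x ∈ WFol.pr E n) : e * x ∈ WFol.pr E (n + 1) := by
  rw [WFol.pr]
  exact Finset.mem_union_right _ (Finset.mem_image.2 ⟨(e, x), Finset.mem_product.2 ⟨he, hx⟩, rfl⟩)

theorem WFol.inn_mem (d : ι → D) {b : LQ ι ι (FreeGroup G)} (hb : LocL d d b) (δ : D)
    (s : ι → G) (hs : ∀ i, (∃ g : G, g • d i = δ) → s i • d i = δ)
    (J : Finset ι) (hJ : ∀ i, i ∈ J ↔ ∃ g : G, g • d i = δ)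
    (E : Finset (MulAction.stabilizer G δ))
    (hE : ∀ t ∈ b, t.2.1 ∈ J → ∃ e ∈ E, (e : G) = s t.2.1 * (pw G t.2.2.2)⁻¹ * (s t.2.2.1)⁻¹)
    (F : Finset (MulAction.stabilizer G δ)) (n : ℕ) : ∀ f : MulAction.stabilizer G δ,
      (∀ x ∈ WFol.pr E n, f * x ∈ F) → ∀ j ∈ J, (j, (f : G) * s j) ∈ inn b (WFol.win J s F) n := by
  induction n with
  | zero =>
    intro f hf j hj
    have h1 := hf 1 (WFol.one_mem E)
    rw [mul_one] at h1
    exact WFol.mem_win.2 ⟨j, hj, f, h1, rfl⟩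
  | succ n ih =>
    intro f hf j hj
    rw [inn, Finset.mem_filter]
    refine ⟨ih f (fun x hx => hf x (WFol.mem_succ hx)) j hj, ?_⟩
    intro t ht hjt
    have hjt' : j = t.2.1 := hjt
    have hrow : t.2.1 ∈ J := hjt' ▸ hj
    have hcol : t.2.2.1 ∈ J := by
      rw [hJ]
      refine ⟨s t.2.1 * (pw G t.2.2.2)⁻¹, ?_⟩
      rw [mul_smul, hb t ht]
      exact hs _ ((hJ _).1 hrow)
    obtain ⟨e, he, he'⟩ := hE t ht hrow
    have h1 := ih (f * e) (fun x hx => by
      rw [mul_assoc]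
      exact hf (e * x) (WFol.mul_mem he hx)) t.2.2.1 hcol
    have h2 : (((f * e : MulAction.stabilizer G δ)) : G) * s t.2.2.1 =
        (f : G) * s j * (pw G t.2.2.2)⁻¹ := by
      rw [Subgroup.coe_mul, he', hjt']
      group
    rw [h2] at h1
    exact h1

theorem exists_window (d : ι → D) {b : LQ ι ι (FreeGroup G)} (hb : LocL d d b) (δ : D)
    (hδ : Amn (MulAction.stabilizer G δ)) (n : ℕ) {ε : ℝ} (hε : 0 < ε) :
    ∃ (I : Finset (ι × G)) (c : ℕ), 0 < c ∧ (∀ q ∈ I, q.2 • d q.1 = δ) ∧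
      (∀ i, (∃ g : G, g • d i = δ) → (I.filter fun q => q.1 = i).card = c) ∧
      ((I \ inn b I n).card : ℝ) ≤ ε * c := by
  -- the elements `s i`
  have hs : ∀ i, ∃ s : G, (∃ g : G, g • d i = δ) → s • d i = δ := by
    intro i
    by_cases h : ∃ g : G, g • d i = δ
    · exact ⟨h.choose, fun _ => h.choose_spec⟩
    · exact ⟨1, fun h' => absurd h' h⟩
  choose s hs using hs
  set J : Finset ι := Finset.univ.filter fun i => ∃ g : G, g • d i = δ with hJdef
  have hJ : ∀ i, i ∈ J ↔ ∃ g : G, g • d i = δ := fun i => by simp [hJdef]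
  -- the finite set `E`
  have hex : ∀ t : ℚ × ι × ι × FreeGroup G, t ∈ b → t.2.1 ∈ J →
      s t.2.1 * (pw G t.2.2.2)⁻¹ * (s t.2.2.1)⁻¹ ∈ MulAction.stabilizer G δ := by
    intro t ht hrow
    have h1 : (s t.2.1 * (pw G t.2.2.2)⁻¹) • d t.2.2.1 = δ := by
      rw [mul_smul, hb t ht]
      exact hs _ ((hJ _).1 hrow)
    have h2 : s t.2.2.1 • d t.2.2.1 = δ := hs _ ⟨_, h1⟩
    rw [MulAction.mem_stabilizer_iff, mul_smul]
    have h3 : (s t.2.2.1)⁻¹ • δ = d t.2.2.1 := by
      rw [← h2, inv_smul_smul]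
    rw [h3]
    exact h1
  have hE : ∃ E : Finset (MulAction.stabilizer G δ), ∀ t ∈ b, t.2.1 ∈ J →
      ∃ e ∈ E, (e : G) = s t.2.1 * (pw G t.2.2.2)⁻¹ * (s t.2.2.1)⁻¹ := by
    refine ⟨b.toFinset.image fun t =>
      if h : s t.2.1 * (pw G t.2.2.2)⁻¹ * (s t.2.2.1)⁻¹ ∈ MulAction.stabilizer G δ then ⟨_, h⟩
      else 1, fun t ht hrow => ?_⟩
    refine ⟨⟨_, hex t ht hrow⟩, Finset.mem_image.2 ⟨t, List.mem_toFinset.2 ht, ?_⟩, rfl⟩
    rw [dif_pos (hex t ht hrow)]
  obtain ⟨E, hE⟩ := hE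
  set P := WFol.pr E n with hP
  -- the Følner set
  have hpos : (0 : ℝ) < ((Fintype.card ι : ℝ) + 1) * ((P.card : ℝ) + 1) := by positivity
  obtain ⟨F', hF'ne, hF'⟩ := hδ (P.image fun x => x⁻¹)
    (ε / (((Fintype.card ι : ℝ) + 1) * ((P.card : ℝ) + 1))) (div_pos hε hpos)
  set F : Finset (MulAction.stabilizer G δ) := F'.image fun y => y⁻¹ with hFdef
  have hmemF : ∀ f, f ∈ F ↔ f⁻¹ ∈ F' := by
    intro f
    rw [hFdef, Finset.mem_image]
    constructor
    · rintro ⟨y, hy, rfl⟩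
      rwa [inv_inv]
    · intro h
      exact ⟨f⁻¹, h, inv_inv f⟩
  have hcardF : F.card = F'.card := Finset.card_image_of_injective _ inv_injective
  have hFx : ∀ x ∈ P, ((F.filter fun f => f * x ∉ F).card : ℝ) ≤
      ε / (((Fintype.card ι : ℝ) + 1) * ((P.card : ℝ) + 1)) * F.card := by
    intro x hx
    have h1 := hF' x⁻¹ (Finset.mem_image.2 ⟨x, hx, rfl⟩)
    rw [hcardF]
    refine le_trans ?_ h1
    have h2 : (F.filter fun f => f * x ∉ F) = (F'.filter fun y => x⁻¹ * y ∉ F').image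
        fun y => y⁻¹ := by
      ext f
      simp only [Finset.mem_filter, Finset.mem_image, hmemF]
      constructor
      · rintro ⟨h3, h4⟩
        refine ⟨f⁻¹, ⟨h3, ?_⟩, inv_inv f⟩
        rwa [mul_inv_rev] at h4
      · rintro ⟨y, ⟨h3, h4⟩, rfl⟩
        refine ⟨by rwa [inv_inv], ?_⟩
        rwa [mul_inv_rev, inv_inv]
    rw [h2]
    have h5 := Finset.card_image_le (s := F'.filter fun y => x⁻¹ * y ∉ F') (f := fun y => y⁻¹)
    have h6 : (((F'.filter fun y => x⁻¹ * y ∉ F').image fun y => y⁻¹).card : ℝ) ≤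
      ((F'.filter fun y => x⁻¹ * y ∉ F').card : ℝ) := Nat.cast_le.2 h5
    refine le_trans h6 (le_of_eq ?_)
    congr!
  refine ⟨WFol.win J s F, F.card, ?_, ?_, ?_, ?_⟩
  · rw [hcardF]
    exact hF'ne.card_pos
  · intro q hq
    obtain ⟨i, hi, f, hf, rfl⟩ := WFol.mem_win.1 hq
    change ((f : G) * s i) • d i = δ
    rw [mul_smul, hs i ((hJ i).1 hi)]
    exact f.2
  · intro i hi
    have h1 : ((WFol.win J s F).filter fun q => q.1 = i) = F.image
        fun f : MulAction.stabilizer G δ => (i, (f : G) * s i) := by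
      ext q
      rw [Finset.mem_filter, WFol.mem_win, Finset.mem_image]
      constructor
      · rintro ⟨⟨i', _, f, hf, rfl⟩, h2⟩
        have h3 : i' = i := h2
        subst h3
        exact ⟨f, hf, rfl⟩
      · rintro ⟨f, hf, rfl⟩
        exact ⟨⟨i, (hJ i).2 hi, f, hf, rfl⟩, rfl⟩
    rw [h1]
    apply Finset.card_image_of_injective
    intro f f' h
    have h2 := (Prod.mk.inj h).2
    exact Subtype.ext (mul_right_cancel h2)
  · have hsub : WFol.win J s F \ inn b (WFol.win J s F) n ⊆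
        (J ×ˢ (P.biUnion fun x => F.filter fun f => f * x ∉ F)).image
          fun p => (p.1, (p.2 : G) * s p.1) := by
      intro q hq
      rw [Finset.mem_sdiff] at hq
      obtain ⟨h1, h2⟩ := hq
      obtain ⟨i, hi, f, hf, rfl⟩ := WFol.mem_win.1 h1
      rw [Finset.mem_image]
      refine ⟨(i, f), Finset.mem_product.2 ⟨hi, ?_⟩, rfl⟩
      by_contra hcon
      apply h2
      apply WFol.inn_mem d hb δ s hs J hJ E hE F n f _ i hi
      intro x hx
      by_contra hfx
      exact hcon (Finset.mem_biUnion.2 ⟨x, hx, Finset.mem_filter.2 ⟨hf, hfx⟩⟩)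
    have h1 : ((WFol.win J s F \ inn b (WFol.win J s F) n).card : ℝ) ≤
        (Fintype.card ι : ℝ) * ∑ x ∈ P, ((F.filter fun f => f * x ∉ F).card : ℝ) := by
      have h2 := (Finset.card_le_card hsub).trans Finset.card_image_le
      rw [Finset.card_product] at h2
      have h3 : J.card ≤ Fintype.card ι := Finset.card_le_univ J
      have h4 := Finset.card_biUnion_le (s := P) (t := fun x => F.filter fun f => f * x ∉ F)
      have h5 := h2.trans (Nat.mul_le_mul h3 h4)
      exact_mod_cast h5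
    refine h1.trans ?_
    have h2 : ∑ x ∈ P, ((F.filter fun f => f * x ∉ F).card : ℝ) ≤
        P.card * (ε / (((Fintype.card ι : ℝ) + 1) * ((P.card : ℝ) + 1)) * F.card) := by
      rw [← nsmul_eq_mul]
      exact Finset.sum_le_card_nsmul _ _ _ hFx
    refine (mul_le_mul_of_nonneg_left h2 (Nat.cast_nonneg _)).trans ?_
    have h3 : (Fintype.card ι : ℝ) * (P.card * (ε / (((Fintype.card ι : ℝ) + 1) *
        ((P.card : ℝ) + 1)) * F.card)) = (((Fintype.card ι : ℝ) * P.card) /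
        (((Fintype.card ι : ℝ) + 1) * ((P.card : ℝ) + 1))) * (ε * F.card) := by
      field_simp
    rw [h3]
    have h4 : ((Fintype.card ι : ℝ) * P.card) /
        (((Fintype.card ι : ℝ) + 1) * ((P.card : ℝ) + 1)) ≤ 1 := by
      rw [div_le_one hpos]
      have h5 : (0 : ℝ) ≤ Fintype.card ι := Nat.cast_nonneg _
      have h6 : (0 : ℝ) ≤ P.card := Nat.cast_nonneg _
      nlinarith
    have h5 : (0 : ℝ) ≤ ε * F.card := mul_nonneg hε.le (Nat.cast_nonneg _)
    calc _ ≤ 1 * (ε * F.card) := mul_le_mul_of_nonneg_right h4 h5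
      _ = _ := one_mul _

end Pool.Agent.AH
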