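import Pool.Agent.AH.WDefs
import Pool.Agent.AH.AlgG
import Pool.Agent.AH.AlgX
import Pool.Agent.AH.OpPos

set_option autoImplicit false
set_option linter.unusedSectionVars false

noncomputable section

open scoped InnerProductSpace ENNReal Topology Matrix
open Classical Filter ContinuousLinearMap

/-!
PACKAGE AH-WNL. The operator with given columns.

`oG_NL`: `elem_apply`: the term `(c, q.1, a, of q.2)` maps `dl (a, 1)` to `c • dl q`, other `dl (a', 1)`
to zero.
`rat_NL`: with the labels `lab a = δ a` (for columns with empty support any label; note that if `D`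
is empty then so is `ι` and every `v a` is zero: use the labels `a ↦ δ a` given by the hypothesis
`h`), the list `NL v` is local: `(pw (of q.2))⁻¹ • δ a = q.2⁻¹ • δ a = d q.1`. So `oG (NL v)` is a
local operator (`LocL.locOp`) and `imc T ⊤` is rational (`Rat.top`, `Rat.imc`).
`finrank_le_window`: the complex span `V` of the vectors `exL I r`, `r ∈ R`, is a subspace of
`S`, of complex dimension `finrank ℚ R` (rational linear independence implies complex linear
independence: the `dl q` are a basis; a matrix over `ℚ` has the same rank over `ℂ`). Let `e` be an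
orthonormal basis of `V`. `finrank = ∑ a ‖e a‖² = ∑ a ∑ q ∈ I |⟨e a, dl q⟩|²` (`e a` is a combination
of the `dl q`, `q ∈ I`) and `⟨e a, dl q⟩ = ⟨e a, pj S (dl q)⟩`, so by Bessel's inequality
(`Orthonormal.sum_inner_products_le`) the sum is `≤ ∑ q ∈ I ‖pj S (dl q)‖²`.
`norm_pj_dl`: equivariance of `pj S`: `dl (i, g) = lt g (dl (i, 1))`.
`mX_NL_mulVec`: the column `(a, p)` of the matrix of `NL v`: the term `(c, q.1, a, of q.2)` has the
entry `c` at `((q.1, x), (a, of q.2 • x))`, so `x = (of q.2)⁻¹ • p`.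
`ext0_jp`: if `jp M I p` is injective then the extension by zero of `r` is the sum of
`r q • single (jp M I p q)`.
-/

namespace Pool.Agent.AH

open Pool.Agent.VN Pool.Agent.LFT

open Matrix

variable {ι κ : Type} [Fintype ι] [Fintype κ] {G D : Type} [Group G] [MulAction G D]

lemma WNL_sum {M : Type*} [AddCommMonoid M] (v : κ → (ι × G →₀ ℚ))
    (f : ℚ × ι × κ × FreeGroup G → M) :
    ((NL v).map f).sum = ∑ a, ∑ q ∈ (v a).support, f (v a q, q.1, a, FreeGroup.of q.2) := by
  have h1 : ∀ l : List κ, ((l.flatMap fun a =>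
      (v a).support.toList.map fun q => (v a q, q.1, a, FreeGroup.of q.2)).map f).sum =
      (l.map fun a => ∑ q ∈ (v a).support, f (v a q, q.1, a, FreeGroup.of q.2)).sum := by
    intro l
    induction l with
    | nil => rfl
    | cons a l ih =>
      rw [List.flatMap_cons, List.map_append, List.sum_append, ih, List.map_cons, List.sum_cons,
        List.map_map]
      congr 1
      exact Finset.sum_map_toList _ _
  unfold NL
  rw [h1]
  exact Finset.sum_map_toList _ _

lemma WNL_mem {v : κ → (ι × G →₀ ℚ)} {t : ℚ × ι × κ × FreeGroup G} (h : t ∈ NL v) :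
    ∃ a, ∃ q ∈ (v a).support, t = (v a q, q.1, a, FreeGroup.of q.2) := by
  unfold NL at h
  obtain ⟨a, -, h1⟩ := List.mem_flatMap.1 h
  obtain ⟨q, hq, rfl⟩ := List.mem_map.1 h1
  exact ⟨a, q, Finset.mem_toList.1 hq, rfl⟩

theorem oG_NL (v : κ → (ι × G →₀ ℚ)) (a : κ) :
    oG (NL v) (dl (a, (1 : G))) = ∑ q ∈ (v a).support, ((v a q : ℚ) : ℂ) • (dl q : L2 ι G) := by
  ext p
  rw [oG_apply, WNL_sum, Finset.sum_eq_single a]
  · rw [lp.coeFn_sum, Finset.sum_apply]
    refine Finset.sum_congr rfl fun q _ => ?_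
    rw [lp.coeFn_smul, Pi.smul_apply, smul_eq_mul, dl_apply, dl_apply, pw_of]
    by_cases h1 : p = q
    · subst h1
      rw [if_pos rfl, if_pos rfl, mul_inv_cancel, if_pos rfl]
    · rw [if_neg h1, mul_zero]
      by_cases h2 : p.1 = q.1
      · rw [if_pos h2, if_neg, mul_zero]
        intro h3
        apply h1
        have h4 := congrArg Prod.snd h3
        exact Prod.ext h2 (mul_inv_eq_one.1 h4)
      · rw [if_neg h2]
  · intro a' _ ha'
    refine Finset.sum_eq_zero fun q _ => ?_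
    rw [dl_apply]
    have h1 : ¬ (a', p.2 * (pw G (FreeGroup.of q.2))⁻¹) = (a, (1 : G)) := fun h =>
      ha' (congrArg Prod.fst h)
    simp only [if_neg h1, mul_zero, ite_self]
  · intro h
    exact absurd (Finset.mem_univ a) h

lemma WNL_exF_apply (I : Finset (ι × G)) (r : I → ℚ) (q : I) : exF I r q.1 = r q := by
  unfold exF
  rw [Finsupp.finsetSum_apply, Finset.sum_eq_single q]
  · rw [Finsupp.single_eq_same]
  · intro p _ hp
    rw [Finsupp.single_apply, if_neg]
    exact fun h => hp (Subtype.ext h)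
  · intro h
    exact absurd (Finset.mem_univ q) h

lemma WNL_exF_supp (I : Finset (ι × G)) (r : I → ℚ) : (exF I r).support ⊆ I := by
  intro q hq
  by_contra hcon
  rw [Finsupp.mem_support_iff] at hq
  apply hq
  unfold exF
  rw [Finsupp.finsetSum_apply]
  refine Finset.sum_eq_zero fun p _ => ?_
  rw [Finsupp.single_apply, if_neg]
  exact fun h => hcon (h ▸ p.2)

lemma WNL_exF_sum {M : Type*} [AddCommMonoid M] (I : Finset (ι × G)) (r : I → ℚ)
    (F : ι × G → ℚ → M) (hF : ∀ q, F q 0 = 0) :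
    ∑ q ∈ (exF I r).support, F q (exF I r q) = ∑ q : I, F q.1 (r q) := by
  have h1 : ∑ q ∈ (exF I r).support, F q (exF I r q) = ∑ q ∈ I, F q (exF I r q) := by
    refine Finset.sum_subset (WNL_exF_supp I r) fun q _ hq => ?_
    rw [Finsupp.notMem_support_iff.1 hq, hF]
  rw [h1, ← Finset.sum_coe_sort I fun q => F q (exF I r q)]
  refine Finset.sum_congr rfl fun q _ => ?_
  rw [WNL_exF_apply]

theorem oG_NL_exF (v : κ → (ι × G →₀ ℚ)) (a : κ) (I : Finset (ι × G)) (r : I → ℚ)
    (h : v a = exF I r) : oG (NL v) (dl (a, (1 : G))) = exL I r := by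
  rw [oG_NL, h]
  exact WNL_exF_sum I r (fun q c => ((c : ℚ) : ℂ) • (dl q : L2 ι G)) fun q => by
    rw [Rat.cast_zero, zero_smul]

theorem rat_NL (d : ι → D) (v : κ → (ι × G →₀ ℚ))
    (h : ∀ a, ∃ δ : D, ∀ q ∈ (v a).support, q.2 • d q.1 = δ) :
    Rat Qc d (imc (oG (NL v)) ⊤) := by
  choose δ hδ using h
  have h1 : LocL δ d (NL v) := by
    intro t ht
    obtain ⟨a, q, hq, rfl⟩ := WNL_mem ht
    show (pw G (FreeGroup.of q.2))⁻¹ • δ a = d q.1
    rw [pw_of, ← hδ a q hq, inv_smul_smul]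
  exact LFT.Rat.imc h1.locOp (LFT.Rat.top δ)

lemma WNL_pj_inner {S : Submodule ℂ (L2 ι G)} (hS : CI S) {x y : L2 ι G} (hy : y ∈ S) :
    ⟪y, pj S x⟫_ℂ = ⟪y, x⟫_ℂ := by
  have h1 : ContinuousLinearMap.adjoint (pj S) = pj S := pj_sa S
  conv_lhs => rw [← h1]
  rw [ContinuousLinearMap.adjoint_inner_right, pj_of_mem hS.cl hy]

lemma WNL_norm_sq {I : Finset (ι × G)} {x : L2 ι G} (hx : ∀ p, p ∉ I → x p = 0) :
    ‖x‖ ^ 2 = ∑ q ∈ I, ‖x q‖ ^ 2 := by
  rw [norm_sq_eq_tsum]
  refine tsum_eq_sum fun q hq => ?_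
  rw [hx q hq, norm_zero]
  ring

lemma WNL_exL_apply (I : Finset (ι × G)) (r : I → ℚ) (p : ι × G) :
    (exL I r) p = if h : p ∈ I then ((r ⟨p, h⟩ : ℚ) : ℂ) else 0 := by
  unfold exL
  rw [lp.coeFn_sum, Finset.sum_apply]
  by_cases h : p ∈ I
  · rw [dif_pos h, Finset.sum_eq_single ⟨p, h⟩]
    · rw [lp.coeFn_smul, Pi.smul_apply, smul_eq_mul, dl_apply, if_pos rfl, mul_one]
    · intro q _ hq
      rw [lp.coeFn_smul, Pi.smul_apply, smul_eq_mul, dl_apply, if_neg, mul_zero]
      exact fun h' => hq (Subtype.ext h'.symm)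
    · intro h'
      exact absurd (Finset.mem_univ _) h'
  · rw [dif_neg h]
    refine Finset.sum_eq_zero fun q _ => ?_
    rw [lp.coeFn_smul, Pi.smul_apply, smul_eq_mul, dl_apply, if_neg, mul_zero]
    exact fun h' => h (h' ▸ q.2)

/-- rationally independent vectors are independent over the complex numbers -/
lemma WNL_indep {I : Finset (ι × G)} {m : ℕ} {r : Fin m → I → ℚ} (hr : LinearIndependent ℚ r) :
    LinearIndependent ℂ fun a => (exL I (r a) : L2 ι G) := by
  -- a left inverse over the rational numbers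
  obtain ⟨φ, hφ⟩ := (Fintype.linearCombination ℚ r).exists_leftInverse_of_injective
    (LinearMap.ker_eq_bot'.2 fun g hg => by
      rw [Fintype.linearCombination_apply] at hg
      exact funext (Fintype.linearIndependent_iff.1 hr g hg))
  have h1 : ∀ a b, φ (r a) b = if a = b then 1 else 0 := by
    intro a b
    have h2 := LinearMap.congr_fun hφ (Pi.single a 1)
    rw [LinearMap.comp_apply, Fintype.linearCombination_apply_single, one_smul,
      LinearMap.id_apply] at h2
    rw [h2, Pi.single_apply]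
    by_cases hab : a = b
    · rw [if_pos hab, if_pos hab.symm]
    · rw [if_neg hab, if_neg (Ne.symm hab)]
  have h3 : ∀ a b, ∑ q : I, φ (Pi.single q 1) b * r a q = if a = b then 1 else 0 := by
    intro a b
    rw [← h1, LinearMap.pi_apply_eq_sum_univ φ (r a), Finset.sum_apply]
    refine Finset.sum_congr rfl fun q _ => ?_
    have hs : (Pi.single q 1 : I → ℚ) = fun j => if q = j then 1 else 0 := by
      funext q'
      rw [Pi.single_apply]
      by_cases hq : q' = q
      · rw [if_pos hq, if_pos hq.symm]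
      · rw [if_neg hq, if_neg (Ne.symm hq)]
    rw [Pi.smul_apply, smul_eq_mul, mul_comm, hs]
  rw [Fintype.linearIndependent_iff]
  intro g hg b
  have h4 : ∀ q : I, ∑ a, g a * ((r a q : ℚ) : ℂ) = 0 := by
    intro q
    have h5 := congrArg (fun x : L2 ι G => x q.1) hg
    simp only at h5
    rw [lp.coeFn_sum, Finset.sum_apply] at h5
    rw [← (by exact h5 : _ = (0 : ℂ))]
    refine Finset.sum_congr rfl fun a _ => ?_
    rw [lp.coeFn_smul, Pi.smul_apply, smul_eq_mul, WNL_exL_apply, dif_pos q.2]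
  have h6 : ∑ q : I, ((φ (Pi.single q 1) b : ℚ) : ℂ) * ∑ a, g a * ((r a q : ℚ) : ℂ) = g b := by
    have h7 : ∀ q : I, ((φ (Pi.single q 1) b : ℚ) : ℂ) * ∑ a, g a * ((r a q : ℚ) : ℂ) =
        ∑ a, g a * (((φ (Pi.single q 1) b * r a q : ℚ)) : ℂ) := by
      intro q
      rw [Finset.mul_sum]
      refine Finset.sum_congr rfl fun a _ => ?_
      push_cast
      ring
    rw [Finset.sum_congr rfl fun q _ => h7 q, Finset.sum_comm]
    have h8 : ∀ a, ∑ q : I, g a * (((φ (Pi.single q 1) b * r a q : ℚ)) : ℂ) =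
        g a * if a = b then 1 else 0 := by
      intro a
      rw [← Finset.mul_sum, ← Rat.cast_sum, h3]
      by_cases hab : a = b
      · rw [if_pos hab, if_pos hab, Rat.cast_one]
      · rw [if_neg hab, if_neg hab, Rat.cast_zero]
    rw [Finset.sum_congr rfl fun a _ => h8 a]
    simp
  rw [← h6]
  refine Finset.sum_eq_zero fun q _ => ?_
  rw [h4, mul_zero]

theorem finrank_le_window {S : Submodule ℂ (L2 ι G)} (hS : CI S) (I : Finset (ι × G))
    (R : Submodule ℚ (I → ℚ)) (h : ∀ r ∈ R, exL I r ∈ S) :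
    (Module.finrank ℚ R : ℝ) ≤ ∑ q ∈ I, ‖pj S (dl q)‖ ^ 2 := by
  set m := Module.finrank ℚ R with hm
  let b := Module.finBasis ℚ R
  have hb : LinearIndependent ℚ fun a : Fin m => ((b a : R) : I → ℚ) :=
    b.linearIndependent.map' R.subtype R.ker_subtype
  have hi := WNL_indep hb
  set x : Fin m → L2 ι G := fun a => exL I ((b a : R) : I → ℚ) with hx
  set V : Submodule ℂ (L2 ι G) := Submodule.span ℂ (Set.range x) with hV
  have hfin : FiniteDimensional ℂ V := FiniteDimensional.span_of_finite ℂ (Set.finite_range x)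
  have hVm : Module.finrank ℂ V = m := by
    rw [hV, finrank_span_eq_card hi, Fintype.card_fin]
  have hVS : V ≤ S := by
    rw [hV, Submodule.span_le]
    rintro _ ⟨a, rfl⟩
    exact h _ (b a).2
  have hVI : ∀ y ∈ V, ∀ p, p ∉ I → y p = 0 := by
    intro y hy p hp
    refine Submodule.span_induction (p := fun y _ => (y : L2 ι G) p = 0) ?_ ?_ ?_ ?_ hy
    · rintro _ ⟨a, rfl⟩
      rw [hx]
      simp only
      rw [WNL_exL_apply, dif_neg hp]
    · rfl
    · intro y z _ _ hy hz
      rw [lp.coeFn_add, Pi.add_apply, hy, hz, add_zero]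
    · intro c y _ hy
      rw [lp.coeFn_smul, Pi.smul_apply, hy, smul_zero]
  let e := stdOrthonormalBasis ℂ V
  have he : Orthonormal ℂ fun a => ((e a : V) : L2 ι G) :=
    e.orthonormal.comp_linearIsometry V.subtypeₗᵢ
  have h1 : ∀ a, (1 : ℝ) = ∑ q ∈ I, ‖⟪((e a : V) : L2 ι G), pj S (dl q)⟫_ℂ‖ ^ 2 := by
    intro a
    have h2 : ‖((e a : V) : L2 ι G)‖ = 1 := he.1 a
    have h3 := WNL_norm_sq (hVI _ (e a).2)
    rw [h2, one_pow] at h3
    rw [h3]
    refine Finset.sum_congr rfl fun q _ => ?_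
    rw [WNL_pj_inner hS (hVS (e a).2), inner_dl_right, norm_star]
  calc (m : ℝ) = ∑ a : Fin (Module.finrank ℂ V), (1 : ℝ) := by
        rw [Finset.sum_const, Finset.card_univ, Fintype.card_fin, hVm, nsmul_eq_mul, mul_one]
    _ = ∑ a, ∑ q ∈ I, ‖⟪((e a : V) : L2 ι G), pj S (dl q)⟫_ℂ‖ ^ 2 :=
        Finset.sum_congr rfl fun a _ => h1 a
    _ = ∑ q ∈ I, ∑ a, ‖⟪((e a : V) : L2 ι G), pj S (dl q)⟫_ℂ‖ ^ 2 := Finset.sum_comm
    _ ≤ ∑ q ∈ I, ‖pj S (dl q)‖ ^ 2 :=
        Finset.sum_le_sum fun q _ => he.sum_inner_products_le (pj S (dl q))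

theorem norm_pj_dl {S : Submodule ℂ (L2 ι G)} (hS : CI S) (i : ι) (g : G) :
    ‖pj S (dl (i, g))‖ = ‖pj S (dl (i, 1))‖ := by
  have h1 : (dl (i, g) : L2 ι G) = lt g (dl (i, 1)) := by
    rw [lt_dl, mul_one]
  rw [h1, pj_equivar hS g, norm_lt]

theorem mX_NL_mulVec (M : Mod G) (v : κ → (ι × G →₀ ℚ)) (a : κ) (p : M.X) :
    (mX M (NL v)).mulVec (Pi.single (a, p) 1)
      = ∑ q ∈ (v a).support, v a q • Pi.single (q.1, (FreeGroup.of q.2)⁻¹ • p) (1 : ℚ) := by
  rw [Matrix.mulVec_single_one]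
  funext z
  obtain ⟨i, x⟩ := z
  rw [Matrix.col_apply]
  unfold mX
  rw [WNL_sum, Finset.sum_eq_single a, Finset.sum_apply]
  · refine Finset.sum_congr rfl fun q _ => ?_
    rw [Pi.smul_apply, Pi.single_apply, smul_eq_mul]
    by_cases h1 : (i, x) = (q.1, (FreeGroup.of q.2)⁻¹ • p)
    · rw [if_pos h1, mul_one, if_pos]
      have h2 := congrArg Prod.fst h1
      have h3 := congrArg Prod.snd h1
      simp only at h2 h3
      exact ⟨h2, rfl, by rw [h3, smul_inv_smul]⟩
    · rw [if_neg h1, mul_zero, if_neg]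
      rintro ⟨h2, -, h3⟩
      apply h1
      simp only at h2 h3
      rw [h2, h3, inv_smul_smul]
  · intro a' _ ha'
    refine Finset.sum_eq_zero fun q _ => ?_
    rw [if_neg]
    rintro ⟨-, h2, -⟩
    exact ha' h2.symm
  · intro h
    exact absurd (Finset.mem_univ a) h

theorem ext0_jp (M : Mod G) (I : Finset (ι × G)) (p : M.X) (hj : Function.Injective (jp M I p))
    (r : I → ℚ) :
    AHL.ext0 (jp M I p) r = ∑ q ∈ (exF I r).support, exF I r q •
      (Pi.single (q.1, (FreeGroup.of q.2)⁻¹ • p) (1 : ℚ) : ι × M.X → ℚ) := by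
  rw [WNL_exF_sum I r (fun q c => c •
      (Pi.single (q.1, (FreeGroup.of q.2)⁻¹ • p) (1 : ℚ) : ι × M.X → ℚ)) fun q => zero_smul _ _]
  funext j
  rw [Finset.sum_apply]
  by_cases h : ∃ q, jp M I p q = j
  · obtain ⟨q, rfl⟩ := h
    rw [AHL.ext0_apply _ hj, Finset.sum_eq_single q]
    · rw [Pi.smul_apply]
      unfold jp
      rw [Pi.single_eq_same, smul_eq_mul, mul_one]
    · intro q' _ hq'
      rw [Pi.smul_apply, Pi.single_apply, if_neg, smul_zero]
      exact fun h' => hq' (hj h'.symm)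
    · intro h'
      exact absurd (Finset.mem_univ q) h'
  · rw [AHL.ext0_apply' _ _ _ h]
    symm
    refine Finset.sum_eq_zero fun q _ => ?_
    rw [Pi.smul_apply, Pi.single_apply, if_neg, smul_zero]
    exact fun h' => h ⟨q, h'.symm⟩

end Pool.Agent.AH
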