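import Pool.Agent.AH.WTr
import Pool.Agent.AH.WFol
import Pool.Agent.AH.WNL

set_option autoImplicit false
set_option linter.unusedSectionVars false

noncomputable section

open scoped InnerProductSpace ENNReal Topology Matrix
open Classical Filter ContinuousLinearMap

/-!
PACKAGE AH-WLOW. The canonical filtrations of the windows: rational subspaces with large
dimensions.

Let `O ⊆ ι` be a set of representatives of the classes of the equivalence relation `d i`, `d j` are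
in the same orbit of `G`, `n = card ι`. For `o ∈ O` let `I o`, `c o` be a window for `δ = d o`,
the degree `natDegree l` and `ε` with `2 (∑ |l.coeff|) ε n ≤ 1` (`exists_window`), `bo = bI b (I o)`
(positive definite with a common denominator: its entries are sums of coefficients of `b`;
`Bd k 1 bo` by `bd_bI`). `T = -(1/2) log k`, `k = exp (-(2 T))`.
(1) `-(1/2) log det bo ≥ trace (aeval bo l) - |I o|` (`logdet_ge` / `trace_le_log` for `l - 1`), and
`|I o| = c o * n_o` with `n_o` the number of the `i` in the class of `o`;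
`trace (aeval bo l) ≥ ∑ q ∈ I o, φ q.1 - c o / n`, `φ i = Re ⟨dl (i,1), l(oG b) dl (i,1)⟩`
(`window_trace`; `⟨dl (i,g), l(oG b) dl (i,g)⟩` does not depend on `g` by equivariance), and
`∑ q ∈ I o, φ q.1 = c o * ∑ i ~ o, φ i`.
(2) `AHL.deg_le_sum` with `W = ⊤`, `s = 1`: `-(1/2) log det bo ≤ ∑ j < m, finrank (slope bo j)`
(`AHL.deg_top`).
(3) Let `R o j = slope bo j`, `κ j = Σ o, Fin (finrank (R o j))`, `v (o, a) = exF (I o) (basis of R o j
at a)`, `N j = NL v` (reindexed to `Fin (p j)`), `S j = imc (oG (N j)) ⊤`. All `exL (I o) r`,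
`r ∈ R o j`, are in `S j` (`oG_NL_exF`, linearity). By `finrank_le_window` and `norm_pj_dl`
`finrank (R o j) ≤ c o * ∑ i ~ o, ‖pj (S j) (dl (i,1))‖²`, and the sum over all `i` is `dm (S j)`
(`hs_pj`).
(4) Divide by `c o` and sum over `o`:
`Re tr (l(oG b)) - n - 1 ≤ ∑ o, (1/c o) ∑ j < m, finrank (R o j) ≤ ∑ j < m, dm (S j)`.
The support of `v (o, a)` is in `I o`, so `q.2 • d q.1 = d o` there: `rat_NL`.
The data are collected in the conclusion: for each `j` a finite family of windows `I a` and vectors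
`r a`, `a : Fin (p j)`, with `r a ∈ slope (bI b (I a)) j`.
-/

namespace Pool.Agent.AH

open Pool.Agent.VN Pool.Agent.LFT

open Matrix

variable {ι : Type} [Fintype ι] {G D : Type} [Group G] [MulAction G D]

/-- the class of an index -/
private def wLow_cls {ι D : Type} [Fintype ι] (G : Type) [Group G] [MulAction G D] (d : ι → D)
    (i : ι) : Finset ι := Finset.univ.filter fun i' => ∃ g : G, g • d i' = d i

private lemma wLow_mem {d : ι → D} {i i' : ι} :
    i' ∈ wLow_cls G d i ↔ ∃ g : G, g • d i' = d i := by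
  unfold wLow_cls
  rw [Finset.mem_filter]
  exact ⟨fun h => h.2, fun h => ⟨Finset.mem_univ _, h⟩⟩

private lemma wLow_eq {d : ι → D} {i i' : ι} (h : i' ∈ wLow_cls G d i) :
    wLow_cls G d i' = wLow_cls G d i := by
  obtain ⟨h, hh⟩ := wLow_mem.1 h
  ext x
  rw [wLow_mem, wLow_mem]
  constructor
  · rintro ⟨g, hg⟩
    exact ⟨h * g, by rw [mul_smul, hg, hh]⟩
  · rintro ⟨g, hg⟩
    exact ⟨h⁻¹ * g, by rw [mul_smul, hg, ← hh, inv_smul_smul]⟩

private lemma wLow_self (d : ι → D) (i : ι) : i ∈ wLow_cls G d i :=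
  wLow_mem.2 ⟨1, one_smul _ _⟩

private lemma wLow_symm {d : ι → D} {i i' : ι} (h : i' ∈ wLow_cls G d i) :
    i ∈ wLow_cls G d i' := by
  rw [wLow_eq h]
  exact wLow_self d i

private lemma wLow_pos (d : ι → D) (i : ι) : (0 : ℝ) < ((wLow_cls G d i).card : ℝ) :=
  Nat.cast_pos.2 (Finset.card_pos.2 ⟨i, wLow_self d i⟩)

private lemma wLow_count (d : ι → D) (f : ι → ℝ) :
    ∑ i, (1 / ((wLow_cls G d i).card : ℝ)) * ∑ i' ∈ wLow_cls G d i, f i' = ∑ i, f i := by
  have h1 : ∀ i, (1 / ((wLow_cls G d i).card : ℝ)) * ∑ i' ∈ wLow_cls G d i, f i' =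
      ∑ i' ∈ wLow_cls G d i, (1 / ((wLow_cls G d i').card : ℝ)) * f i' := by
    intro i
    rw [Finset.mul_sum]
    exact Finset.sum_congr rfl fun i' hi' => by rw [wLow_eq hi']
  rw [Finset.sum_congr rfl fun i _ => h1 i]
  rw [Finset.sum_comm' (s' := fun i' => wLow_cls G d i') (t' := Finset.univ)]
  · refine Finset.sum_congr rfl fun i' _ => ?_
    rw [Finset.sum_const, nsmul_eq_mul, ← mul_assoc, mul_one_div, div_self (wLow_pos d i').ne',
      one_mul]
  · intro i i'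
    simp only [Finset.mem_univ, true_and, and_true]
    exact ⟨wLow_symm, wLow_symm⟩

private lemma wLow_sum {d : ι → D} {i : ι} {I : Finset (ι × G)} {c : ℕ}
    (h1 : ∀ q ∈ I, q.2 • d q.1 = d i)
    (h2 : ∀ i', (∃ g : G, g • d i' = d i) → (I.filter fun q => q.1 = i').card = c) (f : ι → ℝ) :
    ∑ q ∈ I, f q.1 = c * ∑ i' ∈ wLow_cls G d i, f i' := by
  rw [← Finset.sum_fiberwise_of_maps_to (g := fun q : ι × G => q.1) (t := wLow_cls G d i)
    (fun q hq => wLow_mem.2 ⟨q.2, h1 q hq⟩), Finset.mul_sum]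
  refine Finset.sum_congr rfl fun i' hi' => ?_
  rw [← h2 i' (wLow_mem.1 hi'), ← nsmul_eq_mul, ← Finset.sum_const]
  refine Finset.sum_congr rfl fun q hq => ?_
  rw [(Finset.mem_filter.1 hq).2]

private lemma wLow_card {d : ι → D} {i : ι} {I : Finset (ι × G)} {c : ℕ}
    (h1 : ∀ q ∈ I, q.2 • d q.1 = d i)
    (h2 : ∀ i', (∃ g : G, g • d i' = d i) → (I.filter fun q => q.1 = i').card = c) :
    (I.card : ℝ) = c * ((wLow_cls G d i).card : ℝ) := by
  have h := wLow_sum h1 h2 fun _ => 1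
  simpa using h

private lemma wLow_rat (b : LQ ι ι (FreeGroup G)) (I : Finset (ι × G)) :
    AHL.RatMat (bI b I) := by
  refine ⟨∏ x : I × I, (gX b x.1.1 x.2.1).den, Finset.prod_pos fun x _ => Rat.pos _,
    Matrix.of fun q p => (∏ x ∈ (Finset.univ : Finset (I × I)).erase (q, p),
      ((gX b x.1.1 x.2.1).den : ℤ)) * (gX b q.1 p.1).num, ?_⟩
  ext q p
  rw [Matrix.smul_apply, Matrix.map_apply, Matrix.of_apply, smul_eq_mul]
  have h : ((gX b q.1 p.1 : ℚ) : ℝ) * ((gX b q.1 p.1).den : ℝ) = ((gX b q.1 p.1).num : ℝ) := by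
    exact_mod_cast Rat.mul_den_eq_num _
  rw [← Finset.mul_prod_erase Finset.univ _ (Finset.mem_univ (q, p))]
  unfold bI
  push_cast
  rw [← h]
  ring

private lemma wLow_equivar {T : L2 ι G →L[ℂ] L2 ι G} (hT : Equivar T) (l : Polynomial ℝ) :
    Equivar (Polynomial.aeval T l : L2 ι G →L[ℂ] L2 ι G) := by
  rw [Polynomial.aeval_eq_sum_range]
  refine Equivar.sum _ fun n _ => ?_
  have h : l.coeff n • T ^ n = ((l.coeff n : ℝ) : ℂ) • T ^ n := rfl
  rw [h]
  exact (hT.pow n).smul _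

private lemma wLow_inner {T : L2 ι G →L[ℂ] L2 ι G} (hT : Equivar T) (q : ι × G) :
    ⟪dl q, T (dl q)⟫_ℂ = ⟪dl (q.1, (1 : G)), T (dl (q.1, 1))⟫_ℂ := by
  have h : (dl q : L2 ι G) = lt q.2 (dl (q.1, 1)) := by
    rw [lt_dl, mul_one]
  rw [h, hT, inner_lt]

private lemma wLow_supp {I : Finset (ι × G)} {r : I → ℚ} {q : ι × G}
    (hq : q ∈ (exF I r).support) : q ∈ I := by
  by_contra hn
  rw [Finsupp.mem_support_iff] at hq
  apply hq
  unfold exF
  rw [Finsupp.finsetSum_apply]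
  refine Finset.sum_eq_zero fun p _ => ?_
  rw [Finsupp.single_apply, if_neg]
  intro h
  exact hn (h ▸ p.2)

/-- the rational functions whose extension is in a subspace -/
private def wLow_sub (I : Finset (ι × G)) (S : Submodule ℂ (L2 ι G)) : Submodule ℚ (I → ℚ) where
  carrier := {r | exL I r ∈ S}
  add_mem' := by
    intro r r' h h'
    have e : exL I (r + r') = exL I r + exL I r' := by
      unfold exL
      rw [← Finset.sum_add_distrib]
      refine Finset.sum_congr rfl fun q _ => ?_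
      rw [Pi.add_apply, Rat.cast_add, add_smul]
    show exL I (r + r') ∈ S
    rw [e]
    exact S.add_mem h h'
  zero_mem' := by
    have e : exL I (0 : I → ℚ) = 0 := by
      unfold exL
      refine Finset.sum_eq_zero fun q _ => ?_
      rw [Pi.zero_apply, Rat.cast_zero, zero_smul]
    show exL I (0 : I → ℚ) ∈ S
    rw [e]
    exact S.zero_mem
  smul_mem' := by
    intro c r h
    have e : exL I (c • r) = (c : ℂ) • exL I r := by
      unfold exL
      rw [Finset.smul_sum]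
      refine Finset.sum_congr rfl fun q _ => ?_
      rw [Pi.smul_apply, smul_eq_mul, Rat.cast_mul, mul_smul]
    show exL I (c • r) ∈ S
    rw [e]
    exact S.smul_mem _ h

private lemma wLow_basis {I : Finset (ι × G)} {S : Submodule ℂ (L2 ι G)}
    {R : Submodule ℚ (I → ℚ)} {n : ℕ} (B : Module.Basis (Fin n) ℚ R)
    (h : ∀ a, exL I (B a : I → ℚ) ∈ S) : ∀ r ∈ R, exL I r ∈ S := by
  intro r hr
  have h1 := B.sum_repr ⟨r, hr⟩
  have h2 : r = ∑ a, B.repr ⟨r, hr⟩ a • (B a : I → ℚ) := by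
    have h3 := congrArg (fun x : R => (x : I → ℚ)) h1
    simp only [Submodule.coe_sum, Submodule.coe_smul] at h3
    exact h3.symm
  show r ∈ wLow_sub I S
  rw [h2]
  exact Submodule.sum_mem _ fun a _ => Submodule.smul_mem _ _ (h a)

/-- the bounds for one window -/
private lemma wLow_one (d : ι → D) {b : LQ ι ι (FreeGroup G)} {k : ℚ} (h0 : 0 < k)
    (hO : BdO (k : ℝ) 1 (oG b)) (l : Polynomial ℝ)
    (hl : ∀ x ∈ Set.Icc (k : ℝ) 1, l.eval x ≤ -(1 / 2) * Real.log x + 1) (m : ℕ)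
    (hm : -(1 / 2) * Real.log k < m) {i : ι} {I : Finset (ι × G)} {c : ℕ} {A ε : ℝ}
    (hA : A = ∑ n ∈ Finset.range (l.natDegree + 1), |l.coeff n|)
    (h1 : ∀ q ∈ I, q.2 • d q.1 = d i)
    (h2 : ∀ i', (∃ g : G, g • d i' = d i) → (I.filter fun q => q.1 = i').card = c)
    (h3 : ((I \ inn b I l.natDegree).card : ℝ) ≤ ε * c) :
    c * ∑ i' ∈ wLow_cls G d i, (⟪dl (i', (1 : G)),
        (Polynomial.aeval (oG b) l : L2 ι G →L[ℂ] L2 ι G) (dl (i', 1))⟫_ℂ).re
      - 2 * A * (ε * c) - c * ((wLow_cls G d i).card : ℝ)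
      ≤ ∑ j ∈ Finset.range m, (Module.finrank ℚ (AHL.slope (bI b I) j) : ℝ) := by
  have hk : (0 : ℝ) < k := by exact_mod_cast h0
  have hB := bd_bI hO I
  have hP := Bd.posDef hk hB
  -- the determinant from below
  have a1 := logdet_ge hk hB (l - 1) (fun x hx => by
    have := hl x hx
    rw [Polynomial.eval_sub, Polynomial.eval_one]
    linarith)
  have a2 : (Polynomial.aeval (bI b I) (l - 1)).trace =
      (Polynomial.aeval (bI b I) l).trace - I.card := by
    rw [map_sub, map_one, Matrix.trace_sub, Matrix.trace_one, Fintype.card_coe]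
  have a3 := window_trace hk hO I l
  rw [← hA] at a3
  have a4 := (abs_le.1 a3).1
  have hA0 : 0 ≤ A := by
    rw [hA]
    exact Finset.sum_nonneg fun n _ => abs_nonneg _
  have a5 : 2 * A * ((I \ inn b I l.natDegree).card : ℝ) ≤ 2 * A * (ε * c) :=
    mul_le_mul_of_nonneg_left h3 (by positivity)
  have hT := wLow_equivar (oG_equivar b) l
  have a6 : ∑ q ∈ I, (⟪dl q, (Polynomial.aeval (oG b) l : L2 ι G →L[ℂ] L2 ι G) (dl q)⟫_ℂ).re =
      c * ∑ i' ∈ wLow_cls G d i, (⟪dl (i', (1 : G)),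
        (Polynomial.aeval (oG b) l : L2 ι G →L[ℂ] L2 ι G) (dl (i', 1))⟫_ℂ).re := by
    rw [← wLow_sum h1 h2 fun i' => (⟪dl (i', (1 : G)),
        (Polynomial.aeval (oG b) l : L2 ι G →L[ℂ] L2 ι G) (dl (i', 1))⟫_ℂ).re]
    exact Finset.sum_congr rfl fun q _ => by rw [wLow_inner hT]
  rw [a2, wLow_card h1 h2] at a1
  rw [a6] at a4
  -- the determinant from above
  have e1 : Real.exp (-(2 * (-(1 / 2) * Real.log k))) = (k : ℝ) := by
    have : -(2 * (-(1 / 2) * Real.log (k : ℝ))) = Real.log k := by ring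
    rw [this, Real.exp_log hk]
  have hlo : (bI b I -
      Real.exp (-(2 * (-(1 / 2) * Real.log k))) • (1 : Matrix I I ℝ)).PosSemidef := by
    rw [e1]
    exact hB.lo
  have hhi : ((1 : Matrix I I ℝ) - bI b I).PosSemidef := by
    have := hB.hi
    rwa [one_smul] at this
  have b1 := AHL.deg_le_sum hP (wLow_rat b I) hhi hlo (s := 1) zero_le_one (m := m)
    (by rwa [mul_one]) ⊤
  rw [AHL.deg_top hP.posSemidef] at b1
  have b2 : ∑ j ∈ Finset.range m, (1 : ℝ) *
      (Module.finrank ℚ ((⊤ : Submodule ℚ (I → ℚ)) ⊓ AHL.slope (bI b I) (j * 1) :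
        Submodule ℚ (I → ℚ)) : ℝ) =
      ∑ j ∈ Finset.range m, (Module.finrank ℚ (AHL.slope (bI b I) j) : ℝ) := by
    refine Finset.sum_congr rfl fun j _ => ?_
    rw [mul_one, top_inf_eq, one_mul]
  rw [b2] at b1
  linarith

private lemma wLow_level (d : ι → D) (I : ι → Finset (ι × G)) (c : ι → ℕ)
    (h1 : ∀ i, ∀ q ∈ I i, q.2 • d q.1 = d i)
    (h2 : ∀ i i', (∃ g : G, g • d i' = d i) → ((I i).filter fun q => q.1 = i').card = c i)
    (R : ∀ I : Finset (ι × G), Submodule ℚ (I → ℚ)) :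
    ∃ (p : ℕ) (J : Fin p → Finset (ι × G)) (r : ∀ a : Fin p, J a → ℚ),
      (∀ a, r a ∈ R (J a)) ∧ Rat Qc d (imc (oG (NL fun a => exF (J a) (r a))) ⊤) ∧
      ∀ i, (Module.finrank ℚ (R (I i)) : ℝ) ≤ c i * ∑ i' ∈ wLow_cls G d i,
        ‖pj (imc (oG (NL fun a => exF (J a) (r a))) ⊤) (dl (i', (1 : G)))‖ ^ 2 := by
  let κ := Σ i : ι, Fin (Module.finrank ℚ (R (I i)))
  let e : κ ≃ Fin (Fintype.card κ) := Fintype.equivFin κ
  let B : ∀ i, Module.Basis (Fin (Module.finrank ℚ (R (I i)))) ℚ (R (I i)) :=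
    fun i => Module.finBasis ℚ _
  refine ⟨Fintype.card κ, fun a => I (e.symm a).1,
    fun a => (B (e.symm a).1 (e.symm a).2 : I (e.symm a).1 → ℚ), fun a => (B _ _).2, ?_, ?_⟩
  · exact rat_NL d _ fun a => ⟨d (e.symm a).1, fun q hq => h1 _ q (wLow_supp hq)⟩
  · intro i
    set S := imc (oG (NL fun a => exF (I (e.symm a).1)
      (B (e.symm a).1 (e.symm a).2 : I (e.symm a).1 → ℚ))) ⊤ with hS
    have hCI : CI S := CI.imc (oG_equivar _) CI.top.inv
    have hm : ∀ r ∈ R (I i), exL (I i) r ∈ S := by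
      refine wLow_basis (B i) fun a => ?_
      have h3 := oG_NL_exF (fun a => exF (I (e.symm a).1)
        (B (e.symm a).1 (e.symm a).2 : I (e.symm a).1 → ℚ)) (e ⟨i, a⟩) (I i) (B i a : I i → ℚ)
        (by
          have h : ∀ x y : κ, x = y → exF (I x.1) (B x.1 x.2 : I x.1 → ℚ) =
              exF (I y.1) (B y.1 y.2 : I y.1 → ℚ) := by
            rintro x _ rfl
            rfl
          exact h _ _ (e.symm_apply_apply ⟨i, a⟩))
      rw [← h3]
      exact mem_imc _ trivial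
    have h4 := finrank_le_window hCI (I i) (R (I i)) hm
    have h5 : ∑ q ∈ I i, ‖pj S (dl q)‖ ^ 2 = ∑ q ∈ I i, ‖pj S (dl (q.1, (1 : G)))‖ ^ 2 :=
      Finset.sum_congr rfl fun q _ => by rw [← norm_pj_dl hCI q.1 q.2]
    rw [h5, wLow_sum (h1 i) (h2 i) fun i' => ‖pj S (dl (i', (1 : G)))‖ ^ 2] at h4
    exact h4

theorem windows_low (d : ι → D) (hD : ∀ i, Amn (MulAction.stabilizer G (d i)))
    {b : LQ ι ι (FreeGroup G)} (hb : LocL d d b) {k : ℚ} (h0 : 0 < k)
    (hO : BdO (k : ℝ) 1 (oG b)) (l : Polynomial ℝ)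
    (hl : ∀ x ∈ Set.Icc (k : ℝ) 1, l.eval x ≤ -(1 / 2) * Real.log x + 1) (m : ℕ)
    (hm : -(1 / 2) * Real.log k < m) :
    ∃ (p : ℕ → ℕ) (I : ∀ j, Fin (p j) → Finset (ι × G)) (r : ∀ j, ∀ a : Fin (p j), I j a → ℚ),
      (∀ j a, r j a ∈ AHL.slope (bI b (I j a)) j) ∧
      (∀ j, Rat Qc d (imc (oG (NL fun a => exF (I j a) (r j a))) ⊤)) ∧
      (tr (Polynomial.aeval (oG b) l)).re - (Fintype.card ι + 1)
        ≤ ∑ j ∈ Finset.range m, dm (imc (oG (NL fun a => exF (I j a) (r j a))) ⊤) := by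
  obtain ⟨A, hA⟩ : ∃ A : ℝ, A = ∑ n ∈ Finset.range (l.natDegree + 1), |l.coeff n| := ⟨_, rfl⟩
  have hA0 : 0 ≤ A := by
    rw [hA]
    exact Finset.sum_nonneg fun n _ => abs_nonneg _
  have hN0 : (0 : ℝ) ≤ (Fintype.card ι : ℝ) := Nat.cast_nonneg _
  obtain ⟨ε, hε, hεA⟩ : ∃ ε : ℝ, 0 < ε ∧ 2 * A * ε * (Fintype.card ι : ℝ) ≤ 1 := by
    refine ⟨1 / (2 * A * (Fintype.card ι : ℝ) + 1), by positivity, ?_⟩
    have h1 : 0 < 2 * A * (Fintype.card ι : ℝ) + 1 := by positivity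
    have h2 : 2 * A * (1 / (2 * A * (Fintype.card ι : ℝ) + 1)) * (Fintype.card ι : ℝ) =
        (2 * A * (Fintype.card ι : ℝ)) / (2 * A * (Fintype.card ι : ℝ) + 1) := by ring
    rw [h2, div_le_one h1]
    linarith
  choose I c hc hI1 hI2 hI3 using fun i : ι => exists_window d hb (d i) (hD i) l.natDegree hε
  choose p J r hr1 hr2 hr3 using fun j : ℕ =>
    wLow_level d I c hI1 hI2 (fun I => AHL.slope (bI b I) (j : ℝ))
  refine ⟨p, J, r, hr1, hr2, ?_⟩
  set φ : ι → ℝ := fun i' => (⟪dl (i', (1 : G)),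
    (Polynomial.aeval (oG b) l : L2 ι G →L[ℂ] L2 ι G) (dl (i', 1))⟫_ℂ).re with hφ
  set ψ : ℕ → ι → ℝ := fun j i' =>
    ‖pj (imc (oG (NL fun a => exF (J j a) (r j a))) ⊤) (dl (i', (1 : G)))‖ ^ 2 with hψ
  have key : ∀ i, (1 / ((wLow_cls G d i).card : ℝ)) * ∑ i' ∈ wLow_cls G d i, φ i'
      - 2 * A * ε - 1 ≤ ∑ j ∈ Finset.range m,
        (1 / ((wLow_cls G d i).card : ℝ)) * ∑ i' ∈ wLow_cls G d i, ψ j i' := by
    intro i
    have h1 := wLow_one d h0 hO l hl m hm hA (hI1 i) (hI2 i) (hI3 i)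
    have h2 : ∑ j ∈ Finset.range m, (Module.finrank ℚ (AHL.slope (bI b (I i)) (j : ℝ)) : ℝ) ≤
        c i * ∑ j ∈ Finset.range m, ∑ i' ∈ wLow_cls G d i, ψ j i' := by
      rw [Finset.mul_sum]
      exact Finset.sum_le_sum fun j _ => hr3 j i
    have hc' : (0 : ℝ) < c i := Nat.cast_pos.2 (hc i)
    have hn := wLow_pos (G := G) d i
    have hn1 : (1 : ℝ) ≤ ((wLow_cls G d i).card : ℝ) := by
      exact_mod_cast Nat.succ_le_of_lt (Nat.cast_pos.1 hn)
    have h3 : ∑ i' ∈ wLow_cls G d i, φ i' - 2 * A * ε - ((wLow_cls G d i).card : ℝ) ≤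
        ∑ j ∈ Finset.range m, ∑ i' ∈ wLow_cls G d i, ψ j i' := by
      refine le_of_mul_le_mul_left ?_ hc'
      refine le_trans (le_of_eq ?_) (h1.trans h2)
      ring
    have h4 := mul_le_mul_of_nonneg_left h3 (one_div_pos.2 hn).le
    have h5 : (1 / ((wLow_cls G d i).card : ℝ)) * (2 * A * ε) ≤ 2 * A * ε := by
      have h6 : 1 / ((wLow_cls G d i).card : ℝ) ≤ 1 := by
        rw [div_le_one hn]
        exact hn1
      calc _ ≤ 1 * (2 * A * ε) := mul_le_mul_of_nonneg_right h6 (by positivity)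
        _ = _ := one_mul _
    have h7 : (1 / ((wLow_cls G d i).card : ℝ)) * ((wLow_cls G d i).card : ℝ) = 1 :=
      one_div_mul_cancel hn.ne'
    rw [Finset.mul_sum, mul_sub, mul_sub, h7] at h4
    linarith
  have key2 := Finset.sum_le_sum fun i (_ : i ∈ (Finset.univ : Finset ι)) => key i
  rw [Finset.sum_comm, Finset.sum_sub_distrib, Finset.sum_sub_distrib, wLow_count] at key2
  have e1 : ∀ j ∈ Finset.range m, ∑ i, (1 / ((wLow_cls G d i).card : ℝ)) *
      ∑ i' ∈ wLow_cls G d i, ψ j i' = dm (imc (oG (NL fun a => exF (J j a) (r j a))) ⊤) := by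
    intro j _
    rw [wLow_count]
    exact hs_pj (CI.imc (oG_equivar _) CI.top.inv)
  rw [Finset.sum_congr rfl e1] at key2
  have e2 : (tr (Polynomial.aeval (oG b) l : L2 ι G →L[ℂ] L2 ι G)).re = ∑ i, φ i := by
    unfold tr
    rw [Complex.re_sum]
  rw [e2]
  simp only [Finset.sum_const, Finset.card_univ, nsmul_eq_mul, mul_one] at key2
  have e3 : (Fintype.card ι : ℝ) * (2 * A * ε) = 2 * A * ε * (Fintype.card ι : ℝ) := by ring
  linarith

end Pool.Agent.AH
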