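import Pool.Agent.AH.WDefs
import Pool.Agent.AH.AlgG
import Pool.Agent.AH.Sym
import Pool.Agent.AH.OpPos

set_option autoImplicit false
set_option linter.unusedSectionVars false

noncomputable section

open scoped InnerProductSpace ENNReal Topology Matrix
open Classical Filter ContinuousLinearMap

/-!
PACKAGE AH-WTR. Traces of polynomials of the compression of `oG b` to a finite set `I`.

`bd_bI`: for `x : I → ℝ` and `X = ∑ x q • dl q`: `x ⬝ᵥ (bI b I *ᵥ x) = Re ⟨X, oG b X⟩` (`inner_oG`),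
`‖X‖² = ∑ x q ^ 2`; `bI b I` is symmetric because `oG b` is self-adjoint (`gX b q p = gX b p q`).
`window_trace`: let `c = bI b I`, `B = oG b`.
(1) For `q ∈ inn b I n` and all `p : I`: `(c ^ n) q p = Re ⟨dl q, B ^ n (dl p)⟩`, and
`⟨dl q, B ^ n (dl p)⟩ = 0` for `p ∉ I`. Induction on `n` (for all `q`):
`⟨dl q, B ^ (n+1) dl p⟩ = ∑ r, gX b q r ⟨dl r, B ^ n dl p⟩`, the sum over the finitely many `r` with
`gX b q r ≠ 0`; each of them is a neighbour `(t.col, q.2 * (pw t.w)⁻¹)`, `t ∈ b`, `t.row = q.1`, so it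
is in `inn b I n` for `q ∈ inn b I (n+1)`. (`B* dl q = ∑ r, gX b q r • dl r`; or use `oG_apply`.)
(2) `|(c ^ n) q q| ≤ 1` and `|⟨dl q, B ^ n dl q⟩| ≤ 1` for all `q`, as `0 ≤ c ≤ 1` and `0 ≤ B ≤ 1`
(`poly_psd`-type lemma for `1 - x^n`, `x^n` on `[k, 1]`; `op_poly_nonneg`).
(3) `inn b I` is decreasing in `n`. So the difference of the two sides for the monomial `x ^ n` is at
most `2 |I \ inn b I n| ≤ 2 |I \ inn b I (natDegree l)|`.
-/

namespace Pool.Agent.AH

open Pool.Agent.VN Pool.Agent.LFT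

open Matrix

variable {ι : Type} [Fintype ι] {G : Type} [Group G]

private lemma wTr_symm {b : LQ ι ι (FreeGroup G)} (hb : IsSelfAdjoint (oG b)) (q p : ι × G) :
    gX b q p = gX b p q := by
  have h1 := inner_oG b q p
  have h2 := inner_oG b p q
  have h3 : ⟪dl q, oG b (dl p)⟫_ℂ = star ⟪dl p, oG b (dl q)⟫_ℂ := by
    have h4 : ContinuousLinearMap.adjoint (oG b) = oG b := hb
    rw [← ContinuousLinearMap.adjoint_inner_left, h4]
    exact (inner_conj_symm _ _).symm
  rw [h1, h2] at h3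
  have h5 : star (((gX b p q : ℚ) : ℂ)) = ((gX b p q : ℚ) : ℂ) := by
    rw [← starRingEnd_apply, map_ratCast]
  rw [h5] at h3
  exact_mod_cast h3

private lemma wTr_herm {b : LQ ι ι (FreeGroup G)} (hb : IsSelfAdjoint (oG b))
    (I : Finset (ι × G)) : (bI b I).IsHermitian := by
  ext q p
  rw [Matrix.conjTranspose_apply]
  unfold bI
  rw [wTr_symm hb]
  simp

/-- the vector of a function on a finite set -/
private def wTr_v (I : Finset (ι × G)) (x : I → ℝ) : L2 ι G := ∑ q : I, (x q : ℂ) • dl q.1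

private lemma wTr_inner (I : Finset (ι × G)) (x : I → ℝ) (T : L2 ι G →L[ℂ] L2 ι G) :
    ⟪wTr_v I x, T (wTr_v I x)⟫_ℂ =
      ∑ q : I, ∑ p : I, (x q : ℂ) * ((x p : ℂ) * ⟪dl q.1, T (dl p.1)⟫_ℂ) := by
  unfold wTr_v
  rw [sum_inner]
  refine Finset.sum_congr rfl fun q _ => ?_
  rw [map_sum, inner_sum]
  refine Finset.sum_congr rfl fun p _ => ?_
  rw [map_smul, inner_smul_left, inner_smul_right, Complex.conj_ofReal]

private lemma wTr_quad (b : LQ ι ι (FreeGroup G)) (I : Finset (ι × G)) (x : I → ℝ) :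
    (⟪wTr_v I x, oG b (wTr_v I x)⟫_ℂ).re = x ⬝ᵥ (bI b I *ᵥ x) := by
  have h : ⟪wTr_v I x, oG b (wTr_v I x)⟫_ℂ = ((x ⬝ᵥ (bI b I *ᵥ x) : ℝ) : ℂ) := by
    rw [wTr_inner]
    unfold dotProduct Matrix.mulVec dotProduct bI
    push_cast
    refine Finset.sum_congr rfl fun q _ => ?_
    rw [Finset.mul_sum]
    refine Finset.sum_congr rfl fun p _ => ?_
    rw [inner_oG]
    ring
  rw [h, Complex.ofReal_re]

private lemma wTr_norm (I : Finset (ι × G)) (x : I → ℝ) : ‖wTr_v I x‖ ^ 2 = x ⬝ᵥ x := by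
  have h1 := wTr_inner I x (1 : L2 ι G →L[ℂ] L2 ι G)
  have h0 : ∀ v : L2 ι G, (1 : L2 ι G →L[ℂ] L2 ι G) v = v := fun _ => rfl
  have h2 : ⟪wTr_v I x, (1 : L2 ι G →L[ℂ] L2 ι G) (wTr_v I x)⟫_ℂ = ((‖wTr_v I x‖ ^ 2 : ℝ) : ℂ) := by
    rw [h0, inner_self_eq_norm_sq_to_K]
    push_cast
    rfl
  have h3 : ∑ q : I, ∑ p : I, (x q : ℂ) * ((x p : ℂ) *
      ⟪dl q.1, (1 : L2 ι G →L[ℂ] L2 ι G) (dl p.1)⟫_ℂ) = ((x ⬝ᵥ x : ℝ) : ℂ) := by
    unfold dotProduct
    simp only [h0]
    rw [Complex.ofReal_sum]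
    refine Finset.sum_congr rfl fun q _ => ?_
    rw [Finset.sum_eq_single q]
    · rw [inner_dl_left, dl_self, mul_one, Complex.ofReal_mul]
    · intro p _ hp
      rw [inner_dl_left, dl_apply,
        if_neg (fun h => hp (Subtype.ext h.symm)), mul_zero, mul_zero]
    · intro h
      exact absurd (Finset.mem_univ _) h
  rw [h2, h3] at h1
  exact_mod_cast h1

theorem bd_bI {b : LQ ι ι (FreeGroup G)} {c d : ℝ} (hb : BdO c d (oG b)) (I : Finset (ι × G)) :
    Bd c d (bI b I) := by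
  have hH := wTr_herm hb.sym I
  have hs : ∀ r : ℝ, (r • (1 : Matrix I I ℝ)).IsHermitian := by
    intro r
    rw [Matrix.IsHermitian, Matrix.conjTranspose_smul, Matrix.conjTranspose_one]
    simp
  constructor
  · refine Matrix.PosSemidef.of_dotProduct_mulVec_nonneg (hH.sub (hs c)) fun x => ?_
    have h1 := hb.lo (wTr_v I x)
    rw [wTr_quad, wTr_norm] at h1
    rw [Matrix.sub_mulVec, dotProduct_sub, Matrix.smul_mulVec, Matrix.one_mulVec,
      dotProduct_smul, smul_eq_mul]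
    have e : star x = x := rfl
    rw [e]
    linarith
  · refine Matrix.PosSemidef.of_dotProduct_mulVec_nonneg ((hs d).sub hH) fun x => ?_
    have h1 := hb.hi (wTr_v I x)
    rw [wTr_quad, wTr_norm] at h1
    rw [Matrix.sub_mulVec, dotProduct_sub, Matrix.smul_mulVec, Matrix.one_mulVec,
      dotProduct_smul, smul_eq_mul]
    have e : star x = x := rfl
    rw [e]
    linarith

/-- the rows of the operator at points all of whose neighbours are in `I` -/
private lemma wTr_row (L : LQ ι ι (FreeGroup G)) (q : ι × G) (I : Finset (ι × G))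
    (h : ∀ t ∈ L, q.1 = t.2.1 → (t.2.2.1, q.2 * (pw G t.2.2.2)⁻¹) ∈ I) (y : L2 ι G) :
    (oG L y) q = ∑ r ∈ I, ((gX L q r : ℚ) : ℂ) * y r := by
  rw [oG_apply]
  have h1 : ∀ r, ((gX L q r : ℚ) : ℂ) = (L.map fun t => (((if q.1 = t.2.1 ∧ r.1 = t.2.2.1 ∧
      r.2 = q.2 * (pw G t.2.2.2)⁻¹ then t.1 else 0 : ℚ)) : ℂ)).sum := by
    intro r
    unfold gX
    rw [AlgG_sum_cast]
  simp only [h1]
  clear h1
  induction L with
  | nil => simp
  | cons t L ih =>
    have ih' := ih fun s hs => h s (List.mem_cons_of_mem _ hs)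
    simp only [List.map_cons, List.sum_cons, add_mul, Finset.sum_add_distrib]
    rw [ih']
    congr 1
    by_cases hq : q.1 = t.2.1
    · rw [if_pos hq]
      have hm := h t List.mem_cons_self hq
      rw [Finset.sum_eq_single (t.2.2.1, q.2 * (pw G t.2.2.2)⁻¹)]
      · rw [if_pos ⟨hq, rfl, rfl⟩]
      · intro r _ hr
        rw [if_neg, Rat.cast_zero, zero_mul]
        rintro ⟨-, h3, h4⟩
        exact hr (Prod.ext h3 h4)
      · intro h2
        exact absurd hm h2
    · rw [if_neg hq]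
      symm
      refine Finset.sum_eq_zero fun r _ => ?_
      rw [if_neg (fun h2 => hq h2.1), Rat.cast_zero, zero_mul]

private lemma wTr_inn_sub (b : LQ ι ι (FreeGroup G)) (I : Finset (ι × G)) (n : ℕ) :
    inn b I (n + 1) ⊆ inn b I n := by
  intro q hq
  exact (Finset.mem_filter.1 hq).1

private lemma wTr_inn_anti (b : LQ ι ι (FreeGroup G)) (I : Finset (ι × G)) {n m : ℕ}
    (h : n ≤ m) : inn b I m ⊆ inn b I n := by
  induction h with
  | refl => exact fun _ h => h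
  | step h ih => exact (wTr_inn_sub b I _).trans ih

private lemma wTr_inn_le (b : LQ ι ι (FreeGroup G)) (I : Finset (ι × G)) (n : ℕ) :
    inn b I n ⊆ I := wTr_inn_anti b I (Nat.zero_le n)

private lemma wTr_nb {b : LQ ι ι (FreeGroup G)} {I : Finset (ι × G)} {n : ℕ} {q r : ι × G}
    (hq : q ∈ inn b I (n + 1)) (hr : gX b q r ≠ 0) : r ∈ inn b I n := by
  have h1 := (Finset.mem_filter.1 hq).2
  by_contra hn
  apply hr
  unfold gX
  apply List.sum_eq_zero
  intro z hz
  obtain ⟨t, ht, rfl⟩ := List.mem_map.1 hz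
  rw [if_neg]
  rintro ⟨h2, h3, h4⟩
  apply hn
  have h5 := h1 t ht h2
  rwa [← h3, ← h4] at h5

private lemma wTr_pow (b : LQ ι ι (FreeGroup G)) (I : Finset (ι × G)) (n : ℕ) :
    ∀ (q p : I), q.1 ∈ inn b I n → ((oG b ^ n) (dl p.1)) q.1 = (((bI b I ^ n) q p : ℝ) : ℂ) := by
  induction n with
  | zero =>
    intro q p _
    rw [pow_zero, pow_zero, Matrix.one_apply]
    show (dl p.1 : L2 ι G) q.1 = _
    rw [dl_apply]
    by_cases h : q = p
    · rw [if_pos h, if_pos (congrArg Subtype.val h), Complex.ofReal_one]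
    · rw [if_neg h, if_neg (fun h' => h (Subtype.ext h')), Complex.ofReal_zero]
  | succ n ih =>
    intro q p hq
    rw [pow_succ', pow_succ', Matrix.mul_apply]
    show (oG b ((oG b ^ n) (dl p.1))) q.1 = _
    rw [wTr_row b q.1 I (fun t ht h => wTr_inn_le b I n ((Finset.mem_filter.1 hq).2 t ht h)),
      ← Finset.sum_coe_sort I, Complex.ofReal_sum]
    refine Finset.sum_congr rfl fun r _ => ?_
    rw [Complex.ofReal_mul]
    have e : ((gX b q.1 r.1 : ℚ) : ℂ) = ((bI b I q r : ℝ) : ℂ) := by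
      unfold bI
      rw [Complex.ofReal_ratCast]
    rw [e]
    by_cases h : gX b q.1 r.1 = 0
    · have h1 : bI b I q r = 0 := by
        unfold bI
        rw [h, Rat.cast_zero]
      rw [h1, Complex.ofReal_zero, zero_mul, zero_mul]
    · rw [ih r p (wTr_nb hq h)]

private lemma wTr_psd_diag {J : Type} [Fintype J] [DecidableEq J] {A : Matrix J J ℝ} {k : ℝ}
    (hk : 0 < k) (h : Bd k 1 A) (n : ℕ) (i : J) : 0 ≤ (A ^ n) i i ∧ (A ^ n) i i ≤ 1 := by
  constructor
  · have h1 := poly_psd h (Polynomial.X ^ n) (fun x hx => by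
      rw [Polynomial.eval_pow, Polynomial.eval_X]
      exact pow_nonneg (hk.le.trans hx.1) n)
    have h2 := h1.diag_nonneg (i := i)
    simpa using h2
  · have h1 := poly_psd h (1 - Polynomial.X ^ n) (fun x hx => by
      rw [Polynomial.eval_sub, Polynomial.eval_one, Polynomial.eval_pow, Polynomial.eval_X]
      exact sub_nonneg.2 (pow_le_one₀ (hk.le.trans hx.1) hx.2))
    have h2 := h1.diag_nonneg (i := i)
    simpa using h2

private lemma wTr_op_diag {b : LQ ι ι (FreeGroup G)} {k : ℝ} (hk : 0 < k)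
    (hb : BdO k 1 (oG b)) (n : ℕ) (q : ι × G) :
    0 ≤ (⟪dl q, (oG b ^ n) (dl q)⟫_ℂ).re ∧ (⟪dl q, (oG b ^ n) (dl q)⟫_ℂ).re ≤ 1 := by
  constructor
  · have h1 := op_poly_nonneg hb.sym hb.lo hb.hi (Polynomial.X ^ n) (fun x hx => by
      rw [Polynomial.eval_pow, Polynomial.eval_X]
      exact pow_nonneg (hk.le.trans hx.1) n) (dl q)
    simpa using h1
  · have h1 := op_poly_nonneg hb.sym hb.lo hb.hi (1 - Polynomial.X ^ n) (fun x hx => by
      rw [Polynomial.eval_sub, Polynomial.eval_one, Polynomial.eval_pow, Polynomial.eval_X]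
      exact sub_nonneg.2 (pow_le_one₀ (hk.le.trans hx.1) hx.2)) (dl q)
    rw [map_sub, map_one, map_pow, Polynomial.aeval_X] at h1
    have h2 : (⟪(dl q : L2 ι G), dl q - (oG b ^ n) (dl q)⟫_ℂ).re =
        (⟪(dl q : L2 ι G), dl q⟫_ℂ).re - (⟪(dl q : L2 ι G), (oG b ^ n) (dl q)⟫_ℂ).re := by
      rw [inner_sub_right, Complex.sub_re]
    have h3 : (⟪(dl q : L2 ι G), dl q⟫_ℂ).re = 1 := by
      rw [inner_dl_left, dl_self, Complex.one_re]
    have h4 : 0 ≤ (⟪(dl q : L2 ι G), dl q - (oG b ^ n) (dl q)⟫_ℂ).re := h1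
    rw [h2, h3] at h4
    linarith

theorem window_trace {b : LQ ι ι (FreeGroup G)} {k : ℝ} (hk : 0 < k) (hb : BdO k 1 (oG b))
    (I : Finset (ι × G)) (l : Polynomial ℝ) :
    |(Polynomial.aeval (bI b I) l).trace
        - ∑ q ∈ I, (⟪dl q, (Polynomial.aeval (oG b) l : L2 ι G →L[ℂ] L2 ι G) (dl q)⟫_ℂ).re|
      ≤ 2 * (∑ n ∈ Finset.range (l.natDegree + 1), |l.coeff n|)
        * ((I \ inn b I l.natDegree).card : ℝ) := by
  have hB := bd_bI hb I
  have h1 : (Polynomial.aeval (bI b I) l).trace =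
      ∑ n ∈ Finset.range (l.natDegree + 1), l.coeff n * ∑ q : I, (bI b I ^ n) q q := by
    rw [Polynomial.aeval_eq_sum_range, Matrix.trace_sum]
    refine Finset.sum_congr rfl fun n _ => ?_
    rw [Matrix.trace_smul, smul_eq_mul]
    rfl
  have h2 : ∑ q ∈ I, (⟪dl q, (Polynomial.aeval (oG b) l : L2 ι G →L[ℂ] L2 ι G) (dl q)⟫_ℂ).re =
      ∑ n ∈ Finset.range (l.natDegree + 1), l.coeff n *
        ∑ q : I, (⟪dl q.1, (oG b ^ n) (dl q.1)⟫_ℂ).re := by
    rw [← Finset.sum_coe_sort I]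
    have h3 : ∀ q : I, (⟪dl q.1, (Polynomial.aeval (oG b) l : L2 ι G →L[ℂ] L2 ι G)
        (dl q.1)⟫_ℂ).re = ∑ n ∈ Finset.range (l.natDegree + 1), l.coeff n *
          (⟪dl q.1, (oG b ^ n) (dl q.1)⟫_ℂ).re := by
      intro q
      have h4 : (Polynomial.aeval (oG b) l : L2 ι G →L[ℂ] L2 ι G) (dl q.1) =
          ∑ n ∈ Finset.range (l.natDegree + 1), ((l.coeff n : ℝ) : ℂ) • (oG b ^ n) (dl q.1) := by
        rw [Polynomial.aeval_eq_sum_range, _root_.sum_apply]
        refine Finset.sum_congr rfl fun n _ => ?_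
        show l.coeff n • ((oG b ^ n) (dl q.1)) = _
        exact (Complex.coe_smul _ _).symm
      rw [h4, inner_sum, Complex.re_sum]
      refine Finset.sum_congr rfl fun n _ => ?_
      rw [inner_smul_right, Complex.re_ofReal_mul]
    rw [Finset.sum_congr rfl fun q _ => h3 q, Finset.sum_comm]
    refine Finset.sum_congr rfl fun n _ => ?_
    rw [Finset.mul_sum]
  rw [h1, h2, ← Finset.sum_sub_distrib]
  refine (Finset.abs_sum_le_sum_abs _ _).trans ?_
  rw [Finset.mul_sum, Finset.sum_mul]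
  refine Finset.sum_le_sum fun n hn => ?_
  rw [← mul_sub, abs_mul, ← Finset.sum_sub_distrib]
  have h5 : |∑ q : I, ((bI b I ^ n) q q - (⟪dl q.1, (oG b ^ n) (dl q.1)⟫_ℂ).re)| ≤
      2 * ((I \ inn b I l.natDegree).card : ℝ) := by
    refine (Finset.abs_sum_le_sum_abs _ _).trans ?_
    have h6 : ∀ q : I, |(bI b I ^ n) q q - (⟪dl q.1, (oG b ^ n) (dl q.1)⟫_ℂ).re| ≤
        if q.1 ∈ I \ inn b I l.natDegree then 2 else 0 := by
      intro q
      by_cases hq : q.1 ∈ inn b I l.natDegree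
      · rw [if_neg (fun h => (Finset.mem_sdiff.1 h).2 hq)]
        have h7 : q.1 ∈ inn b I n :=
          wTr_inn_anti b I (Nat.lt_succ_iff.1 (Finset.mem_range.1 hn)) hq
        rw [inner_dl_left, wTr_pow b I n q q h7, Complex.ofReal_re, sub_self, abs_zero]
      · rw [if_pos (Finset.mem_sdiff.2 ⟨q.2, hq⟩)]
        obtain ⟨h8, h9⟩ := wTr_psd_diag hk hB n q
        obtain ⟨h10, h11⟩ := wTr_op_diag hk hb n q.1
        rw [abs_le]
        constructor <;> linarith
    refine (Finset.sum_le_sum fun q _ => h6 q).trans ?_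
    rw [Finset.sum_coe_sort I (fun q => if q ∈ I \ inn b I l.natDegree then (2 : ℝ) else 0),
      ← Finset.sum_filter, Finset.sum_const, nsmul_eq_mul, mul_comm]
    have h12 : I.filter (fun q => q ∈ I \ inn b I l.natDegree) = I \ inn b I l.natDegree := by
      ext q
      rw [Finset.mem_filter, Finset.mem_sdiff]
      tauto
    rw [h12]
  calc |l.coeff n| * |∑ q : I, ((bI b I ^ n) q q - (⟪dl q.1, (oG b ^ n) (dl q.1)⟫_ℂ).re)|
      ≤ |l.coeff n| * (2 * ((I \ inn b I l.natDegree).card : ℝ)) :=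
        mul_le_mul_of_nonneg_left h5 (abs_nonneg _)
    _ = 2 * |l.coeff n| * ((I \ inn b I l.natDegree).card : ℝ) := by ring

end Pool.Agent.AH
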